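import Pool.Agent.Lib.MP_80b30d_gt.Defs

/-! MP_80b30d_gt: functions with vanishing second or third derivative on a ball. -/

namespace MP80b30d

open Set Filter Topology Metric

variable {m : ℕ} {g : E m → ℝ} {x0 : E m} {r : ℝ}

/-- A function on a ball whose derivative is zero is constant. -/
private theorem affine_const {V : Type*} [NormedAddCommGroup V] [NormedSpace ℝ V] {F : E m → V}
    (hr : 0 < r) (hF : ∀ x ∈ ball x0 r, HasFDerivAt F (0 : E m →L[ℝ] V) x) :
    ∀ x ∈ ball x0 r, F x = F x0 := by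
  intro x hx
  refine isOpen_ball.is_const_of_fderiv_eq_zero (𝕜 := ℝ) (convex_ball x0 r).isPreconnected
    (fun y hy => (hF y hy).differentiableAt.differentiableWithinAt) ?_ hx (mem_ball_self hr)
  intro y hy
  rw [(hF y hy).fderiv]
  rfl

theorem affine_of_D2 (hr : 0 < r) (hg : ∀ x ∈ ball x0 r, ContDiffAt ℝ 2 g x)
    (h0 : ∀ x ∈ ball x0 r, ∀ h k : E m, D2 g x h k = 0) :
    ∃ (l : E m →L[ℝ] ℝ) (c : ℝ), ∀ x ∈ ball x0 r, g x = l x + c := by
  have h1 : ∀ x ∈ ball x0 r, fderiv ℝ g x = fderiv ℝ g x0 := by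
    refine affine_const hr fun x hx => ?_
    have hd : DifferentiableAt ℝ (fderiv ℝ g) x :=
      ((hg x hx).fderiv_right (m := 1) (by norm_num)).differentiableAt (by norm_num)
    have he : fderiv ℝ (fderiv ℝ g) x = 0 := by
      ext h k
      exact h0 x hx h k
    rw [← he]
    exact hd.hasFDerivAt
  have h2 : ∀ x ∈ ball x0 r, g x - fderiv ℝ g x0 x = g x0 - fderiv ℝ g x0 x0 := by
    refine affine_const (F := fun x => g x - fderiv ℝ g x0 x) hr fun x hx => ?_
    have hd : HasFDerivAt g (fderiv ℝ g x) x :=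
      ((hg x hx).differentiableAt (by norm_num)).hasFDerivAt
    have h3 := hd.sub (fderiv ℝ g x0).hasFDerivAt (x := x)
    rw [h1 x hx, sub_self] at h3
    exact h3
  refine ⟨fderiv ℝ g x0, g x0 - fderiv ℝ g x0 x0, fun x hx => ?_⟩
  linarith [h2 x hx]

theorem quadratic_of_D3 (hr : 0 < r) (hg : ∀ x ∈ ball x0 r, ContDiffAt ℝ 3 g x)
    (h0 : ∀ x ∈ ball x0 r, ∀ h k l : E m, D3 g x h k l = 0) :
    ∃ q : QF (E m), ∀ x ∈ ball x0 r, g x = q.eval x := by
  obtain ⟨B, hB⟩ : ∃ B : E m →L[ℝ] E m →L[ℝ] ℝ, B = fderiv ℝ (fderiv ℝ g) x0 := ⟨_, rfl⟩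
  have hs : ∀ h k : E m, B h k = B k h := by
    intro h k
    have := ((hg x0 (mem_ball_self hr)).isSymmSndFDerivAt (by
      rw [minSmoothness_of_isRCLikeNormedField]
      norm_num)) h k
    rw [hB]
    exact this
  have h1 : ∀ x ∈ ball x0 r, fderiv ℝ (fderiv ℝ g) x = B := by
    rw [hB]
    refine affine_const (F := fderiv ℝ (fderiv ℝ g)) hr fun x hx => ?_
    have hd : DifferentiableAt ℝ (fderiv ℝ (fderiv ℝ g)) x :=
      (((hg x hx).fderiv_right (m := 2) (by norm_num)).fderiv_right (m := 1)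
        (by norm_num)).differentiableAt (by norm_num)
    have he : fderiv ℝ (fderiv ℝ (fderiv ℝ g)) x = 0 := by
      ext h k l
      exact h0 x hx h k l
    rw [← he]
    exact hd.hasFDerivAt
  have h2 : ∀ x ∈ ball x0 r, fderiv ℝ g x - B x = fderiv ℝ g x0 - B x0 := by
    refine affine_const (F := fun x => fderiv ℝ g x - B x) hr fun x hx => ?_
    have hd : HasFDerivAt (fderiv ℝ g) (fderiv ℝ (fderiv ℝ g) x) x :=
      (((hg x hx).fderiv_right (m := 2) (by norm_num)).differentiableAt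
        (by norm_num)).hasFDerivAt
    have h3 := hd.sub B.hasFDerivAt (x := x)
    rw [h1 x hx, sub_self] at h3
    exact h3
  obtain ⟨L, hL⟩ : ∃ L : E m →L[ℝ] ℝ, L = fderiv ℝ g x0 - B x0 := ⟨_, rfl⟩
  have h4 : ∀ x ∈ ball x0 r, g x - (1 / 2 * B x x + L x) = g x0 - (1 / 2 * B x0 x0 + L x0) := by
    refine affine_const (F := fun x => g x - (1 / 2 * B x x + L x)) hr fun x hx => ?_
    have hd : HasFDerivAt g (fderiv ℝ g x) x :=
      ((hg x hx).differentiableAt (by norm_num)).hasFDerivAt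
    have h5 : HasFDerivAt (fun x => B x x)
        ((B x).comp (ContinuousLinearMap.id ℝ (E m)) + B.flip x) x :=
      (B.hasFDerivAt (x := x)).clm_apply (hasFDerivAt_id x)
    have h6 := hd.sub ((h5.const_mul (1 / 2 : ℝ)).add (L.hasFDerivAt (x := x)))
    have h7 : fderiv ℝ g x - ((1 / 2 : ℝ) • ((B x).comp (ContinuousLinearMap.id ℝ (E m)) +
        B.flip x) + L) = 0 := by
      ext h
      have h8 : fderiv ℝ g x = B x + L := by
        rw [hL, ← h2 x hx]
        abel
      have h9 := hs h x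
      simp only [h8, ContinuousLinearMap.sub_apply, ContinuousLinearMap.add_apply,
        ContinuousLinearMap.smul_apply, ContinuousLinearMap.comp_apply,
        ContinuousLinearMap.id_apply, ContinuousLinearMap.flip_apply, smul_eq_mul,
        ContinuousLinearMap.zero_apply, h9]
      ring
    rw [h7] at h6
    exact h6
  refine ⟨⟨(1 / 2 : ℝ) • B, L, g x0 - (1 / 2 * B x0 x0 + L x0), fun x y => ?_⟩, fun x hx => ?_⟩
  · simp only [ContinuousLinearMap.smul_apply, hs x y]
  · have := h4 x hx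
    simp only [QF.eval, ContinuousLinearMap.smul_apply, smul_eq_mul]
    linarith

end MP80b30d
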