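import Mathlib

/-! MP_80b30d_gt: the cycle relation. -/

namespace MP80b30d

/-- the cycle relation. Paper proof: `g i (x 0) (v i - v (x 0)) = r i (x 0) α i - …`, similarly for
the other edges of the cycle `i, x 0, …, x d, i`; divide by the nonzero `g` and add up: the left
sides cancel, and `(r i (x 0) / g i (x 0) - r i (x d) / g i (x d)) • α i` is in the span of the
`α (x s)`, `s ≤ d`; use the independence of the `d + 2 ≤ m` vectors. -/
theorem cycle_lemma {I : Type*} [Fintype I] [DecidableEq I] {X : Type*} [AddCommGroup X]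
    [Module ℝ X] {m : ℕ}
    (α v : I → X) (hind : ∀ s : Finset I, s.card ≤ m → LinearIndependent ℝ (fun i : s => α i))
    (g r : I → I → ℝ) (hg : ∀ i j, g i j = g j i)
    (hrel : ∀ i j, i ≠ j → g i j • (v i - v j) = r i j • α i - r j i • α j)
    (i : I) (d : ℕ) (x : ℕ → I) (hd : d + 2 ≤ m)
    (hinj : ∀ s ≤ d, ∀ t ≤ d, x s = x t → s = t) (hne : ∀ s ≤ d, x s ≠ i)
    (hadj : ∀ s < d, g (x s) (x (s + 1)) ≠ 0) (h0 : g i (x 0) ≠ 0) (hd' : g i (x d) ≠ 0) :
    r i (x 0) / g i (x 0) = r i (x d) / g i (x d) := by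
  obtain ⟨W, hW⟩ : ∃ W : Submodule ℝ X,
      W = Submodule.span ℝ ((fun s => α (x s)) '' {s | s ≤ d}) := ⟨_, rfl⟩
  have hmem : ∀ s ≤ d, α (x s) ∈ W := by
    intro s hs
    rw [hW]
    exact Submodule.subset_span ⟨s, hs, rfl⟩
  have hdiv : ∀ a b : I, a ≠ b → g a b ≠ 0 →
      v a - v b = (r a b / g a b) • α a - (r b a / g a b) • α b := by
    intro a b hab hgab
    have h1 := hrel a b hab
    have h2 : v a - v b = (g a b)⁻¹ • (g a b • (v a - v b)) := by
      rw [smul_smul, inv_mul_cancel₀ hgab, one_smul]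
    rw [h2, h1, smul_sub, smul_smul, smul_smul]
    congr 2 <;> rw [div_eq_inv_mul]
  have hpath : ∀ s ≤ d, v (x 0) - v (x s) ∈ W := by
    intro s
    induction s with
    | zero =>
      intro _
      rw [sub_self]
      exact W.zero_mem
    | succ s ih =>
      intro hs
      have h1 := ih (by omega)
      have hne' : x s ≠ x (s + 1) := by
        intro h
        have := hinj s (by omega) (s + 1) hs h
        omega
      have h2 := hdiv (x s) (x (s + 1)) hne' (hadj s (by omega))
      have h3 : v (x s) - v (x (s + 1)) ∈ W := by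
        rw [h2]
        exact W.sub_mem (W.smul_mem _ (hmem s (by omega))) (W.smul_mem _ (hmem (s + 1) hs))
      have h4 : v (x 0) - v (x (s + 1)) = (v (x 0) - v (x s)) + (v (x s) - v (x (s + 1))) := by
        abel
      rw [h4]
      exact W.add_mem h1 h3
  have h0' := hdiv i (x 0) (hne 0 (Nat.zero_le d)).symm h0
  have hd1 := hdiv i (x d) (hne d le_rfl).symm hd'
  have hkey : (r i (x 0) / g i (x 0) - r i (x d) / g i (x d)) • α i ∈ W := by
    have h1 : (r i (x 0) / g i (x 0) - r i (x d) / g i (x d)) • α i =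
        (r (x 0) i / g i (x 0)) • α (x 0) - (r (x d) i / g i (x d)) • α (x d) -
          (v (x 0) - v (x d)) := by
      have h2 : (r i (x 0) / g i (x 0)) • α i = v i - v (x 0) +
          (r (x 0) i / g i (x 0)) • α (x 0) := by
        rw [h0']
        abel
      have h3 : (r i (x d) / g i (x d)) • α i = v i - v (x d) +
          (r (x d) i / g i (x d)) • α (x d) := by
        rw [hd1]
        abel
      rw [sub_smul, h2, h3]
      abel
    rw [h1]
    exact W.sub_mem (W.sub_mem (W.smul_mem _ (hmem 0 (Nat.zero_le d)))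
      (W.smul_mem _ (hmem d le_rfl))) (hpath d le_rfl)
  by_contra hcon
  have hc : r i (x 0) / g i (x 0) - r i (x d) / g i (x d) ≠ 0 := sub_ne_zero.2 hcon
  have hiW : α i ∈ W := (W.smul_mem_iff hc).1 hkey
  obtain ⟨S, hS⟩ : ∃ S : Finset I, S = insert i ((Finset.range (d + 1)).image x) := ⟨_, rfl⟩
  have hcard : S.card ≤ m := by
    have h1 := Finset.card_insert_le i ((Finset.range (d + 1)).image x)
    have h2 := Finset.card_image_le (s := Finset.range (d + 1)) (f := x)
    rw [Finset.card_range] at h2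
    rw [hS]
    omega
  have hiS : i ∈ S := by
    rw [hS]
    exact Finset.mem_insert_self _ _
  have hxS : ∀ s ≤ d, x s ∈ S := by
    intro s hs
    rw [hS]
    exact Finset.mem_insert_of_mem (Finset.mem_image_of_mem x (Finset.mem_range.2 (by omega)))
  have hnot := (hind S hcard).notMem_span_image (s := {j : S | (j : I) ≠ i}) (x := ⟨i, hiS⟩)
    (fun h => h rfl)
  apply hnot
  rw [hW] at hiW
  refine Submodule.span_mono ?_ hiW
  rintro _ ⟨s, hs, rfl⟩
  exact ⟨⟨x s, hxS s hs⟩, hne s hs, rfl⟩

end MP80b30d
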