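import Mathlib

/-! MP_80b30d_gt: orthogonality bound. -/

namespace MP80b30d

variable {W : Type*} [AddCommGroup W] [Module ℝ W]

private theorem orth_sub {m : ℕ} {I : Type*} [Fintype I] [DecidableEq I]
    (hI : m ≤ Fintype.card I) (a : I → W)
    (hind : ∀ s : Finset I, s.card = m → LinearIndependent ℝ (fun i : s => a i))
    (s : Finset I) (hs : s.card ≤ m) : LinearIndependent ℝ (fun i : s => a i) := by
  obtain ⟨s', h1, h2⟩ := Finset.exists_superset_card_eq hs hI
  have h3 := hind s' h2
  exact h3.comp (fun i : s => (⟨i.1, h1 i.2⟩ : s')) (fun x y hxy => by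
    have := congrArg (fun z : s' => z.1) hxy
    exact Subtype.ext this)

private theorem orth_zero (H : W →ₗ[ℝ] W →ₗ[ℝ] ℝ) (hpos : ∀ x, x ≠ 0 → 0 < H x x) {x : W}
    (hx : H x x = 0) : x = 0 := by
  by_contra h
  exact (hpos x h).ne' hx

private theorem orth_small [FiniteDimensional ℝ W] {m : ℕ} (hm : 1 ≤ m)
    (hdim : Module.finrank ℝ W = m) (H : W →ₗ[ℝ] W →ₗ[ℝ] ℝ) (hH : ∀ x y, H x y = H y x)
    (hpos : ∀ x, x ≠ 0 → 0 < H x x) {I : Type*} [Fintype I] [DecidableEq I]
    (hI : m ≤ Fintype.card I) (a : I → W)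
    (hind : ∀ s : Finset I, s.card = m → LinearIndependent ℝ (fun i : s => a i))
    (S T : Finset I) (hT : T.Nonempty)
    (h0 : ∀ i ∈ S, ∀ j ∈ T, H (a i) (a j) = 0) : S.card ≤ m := by
  by_contra hS
  rw [not_le] at hS
  obtain ⟨s, h1, h2⟩ := Finset.exists_subset_card_eq hS.le
  have h3 := hind s h2
  have h4 : Submodule.span ℝ (Set.range fun i : s => a i) = ⊤ := by
    refine LinearIndependent.span_eq_top_of_card_eq_finrank' h3 ?_
    rw [Fintype.card_coe, h2, hdim]
  obtain ⟨j, hj⟩ := hT
  have h5 : ∀ x : W, H (a j) x = 0 := by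
    intro x
    have hx : x ∈ Submodule.span ℝ (Set.range fun i : s => a i) := by rw [h4]; trivial
    have h6 : Submodule.span ℝ (Set.range fun i : s => a i) ≤ LinearMap.ker (H (a j)) := by
      rw [Submodule.span_le]
      rintro _ ⟨i, rfl⟩
      rw [SetLike.mem_coe, LinearMap.mem_ker, hH]
      exact h0 i.1 (h1 i.2) j hj
    exact h6 hx
  have h7 : a j = 0 := orth_zero H hpos (h5 (a j))
  have h8 := orth_sub hI a hind {j} (by rw [Finset.card_singleton]; exact hm)
  exact h8.ne_zero ⟨j, Finset.mem_singleton_self j⟩ h7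

/-- orthogonality bound: if `a` is a family in which any `m = dim W` members are independent, and
`S`, `T` are nonempty disjoint index sets with `H (a i) (a j) = 0` for `i ∈ S`, `j ∈ T`, then
`|S| + |T| ≤ m`. Paper proof: spans are orthogonal, so their dimensions add up to at most `m`;
if `|S| ≤ m` and `|T| ≤ m` the dimensions are `|S|`, `|T|`; if `|S| > m` the span is everything
and `a j = 0` for `j ∈ T`, impossible. -/
theorem orth_bound [FiniteDimensional ℝ W] {m : ℕ} (hm : 1 ≤ m)
    (hdim : Module.finrank ℝ W = m) (H : W →ₗ[ℝ] W →ₗ[ℝ] ℝ) (hH : ∀ x y, H x y = H y x)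
    (hpos : ∀ x, x ≠ 0 → 0 < H x x) {I : Type*} [Fintype I] [DecidableEq I]
    (hI : m ≤ Fintype.card I) (a : I → W)
    (hind : ∀ s : Finset I, s.card = m → LinearIndependent ℝ (fun i : s => a i))
    (S T : Finset I) (hS : S.Nonempty) (hT : T.Nonempty) (hdisj : Disjoint S T)
    (h0 : ∀ i ∈ S, ∀ j ∈ T, H (a i) (a j) = 0) : S.card + T.card ≤ m := by
  have hS' : S.card ≤ m := orth_small hm hdim H hH hpos hI a hind S T hT h0
  have hT' : T.card ≤ m := orth_small hm hdim H hH hpos hI a hind T S hS
    (fun i hi j hj => by rw [hH]; exact h0 j hj i hi)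
  have iS := orth_sub hI a hind S hS'
  have iT := orth_sub hI a hind T hT'
  have fS := finrank_span_eq_card iS
  have fT := finrank_span_eq_card iT
  rw [Fintype.card_coe] at fS fT
  have hd : Disjoint (Submodule.span ℝ (Set.range fun i : S => a i))
      (Submodule.span ℝ (Set.range fun i : T => a i)) := by
    rw [Submodule.disjoint_def]
    intro x hxS hxT
    apply orth_zero H hpos
    have k1 : ∀ i ∈ S, ∀ y ∈ Submodule.span ℝ (Set.range fun i : T => a i), H (a i) y = 0 := by
      intro i hi y hy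
      have : Submodule.span ℝ (Set.range fun i : T => a i) ≤ LinearMap.ker (H (a i)) := by
        rw [Submodule.span_le]
        rintro _ ⟨j, rfl⟩
        exact h0 i hi j.1 j.2
      exact this hy
    have k2 : Submodule.span ℝ (Set.range fun i : S => a i) ≤ LinearMap.ker (H x) := by
      rw [Submodule.span_le]
      rintro _ ⟨i, rfl⟩
      rw [SetLike.mem_coe, LinearMap.mem_ker, hH]
      exact k1 i.1 i.2 x hxT
    exact k2 hxS
  have hle := Submodule.finrank_add_finrank_le_of_disjoint hd
  rw [fS, fT, hdim] at hle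
  exact hle

/-- subfamilies of independent families, and passage to the functionals `H (a i)` -/
theorem ind_functionals {m : ℕ} (H : W →ₗ[ℝ] W →ₗ[ℝ] ℝ) (hH : ∀ x y, H x y = H y x)
    (hpos : ∀ x, x ≠ 0 → 0 < H x x) {I : Type*} [Fintype I] [DecidableEq I]
    (hI : m ≤ Fintype.card I) (a : I → W)
    (hind : ∀ s : Finset I, s.card = m → LinearIndependent ℝ (fun i : s => a i))
    (s : Finset I) (hs : s.card ≤ m) : LinearIndependent ℝ (fun i : s => H (a i)) := by
  have h1 := orth_sub hI a hind s hs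
  have h2 : LinearMap.ker H = ⊥ := by
    rw [LinearMap.ker_eq_bot']
    intro x hx
    apply orth_zero H hpos
    rw [hx]
    rfl
  exact h1.map' H h2

end MP80b30d
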