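import Mathlib

/-! MP_80b30d_gt: the relation on a cycle with `m + 1` vertices. -/

namespace MP80b30d

private theorem algCycle2_aux {I : Type*} [Fintype I] [DecidableEq I] {X : Type*} [AddCommGroup X]
    [Module ℝ X] {m : ℕ} (hm : 3 ≤ m)
    (α v : I → X) (hind : ∀ s : Finset I, s.card ≤ m → LinearIndependent ℝ (fun i : s => α i))
    (g r : I → I → ℝ) (hg : ∀ i j, g i j = g j i)
    (hrel : ∀ i j, i ≠ j → g i j • (v i - v j) = r i j • α i - r j i • α j)
    (x : ℕ → I) (hinj : ∀ s ≤ m, ∀ t ≤ m, x s = x t → s = t)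
    (hadj : ∀ s < m, g (x s) (x (s + 1)) ≠ 0) (hcl : g (x m) (x 0) ≠ 0)
    (hbad : r (x 0) (x 1) / g (x 0) (x 1) ≠ r (x 0) (x m) / g (x 0) (x m))
    (nx pv : ℕ → I) (hnx : ∀ s, s < m → nx s = x (s + 1)) (hnm : nx m = x 0)
    (hpv : ∀ s, pv (s + 1) = x s) (hp0 : pv 0 = x m) (t : ℕ) (ht : 0 < t) (htm : t ≤ m) :
    r (x t) (nx t) / g (x t) (nx t) ≠ r (x t) (pv t) / g (x t) (pv t) := by
  have hedge : ∀ i j, i ≠ j → g i j ≠ 0 →
      v i - v j = (r i j / g i j) • α i - (r j i / g j i) • α j := by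
    intro i j hij h0
    have h1 := hrel i j hij
    have h2 : (g i j)⁻¹ • (g i j • (v i - v j)) = (g i j)⁻¹ • (r i j • α i - r j i • α j) := by
      rw [h1]
    rw [inv_smul_smul₀ h0, smul_sub, smul_smul, smul_smul] at h2
    rw [h2, hg j i]
    congr 2 <;> ring
  have hne : ∀ s < m, x s ≠ x (s + 1) := by
    intro s hs h
    have := hinj s hs.le (s + 1) hs h
    omega
  have hne0 : x m ≠ x 0 := by
    intro h
    have := hinj m (le_refl m) 0 (Nat.zero_le m) h
    omega
  obtain ⟨c, hc⟩ : ∃ c : ℕ → ℝ, ∀ s, c s =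
      r (x s) (nx s) / g (x s) (nx s) - r (x s) (pv s) / g (x s) (pv s) := ⟨_, fun _ => rfl⟩
  have hsum : ∑ s ∈ Finset.range (m + 1), c s • α (x s) = 0 := by
    have h1 : ∑ s ∈ Finset.range (m + 1), c s • α (x s) =
        ∑ s ∈ Finset.range (m + 1), (r (x s) (nx s) / g (x s) (nx s)) • α (x s) -
          ∑ s ∈ Finset.range (m + 1), (r (x s) (pv s) / g (x s) (pv s)) • α (x s) := by
      rw [← Finset.sum_sub_distrib]
      refine Finset.sum_congr rfl ?_
      intro s _
      rw [hc, sub_smul]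
    have h2 : ∑ s ∈ Finset.range (m + 1), (r (x s) (nx s) / g (x s) (nx s)) • α (x s) =
        ∑ s ∈ Finset.range m, (r (x s) (x (s + 1)) / g (x s) (x (s + 1))) • α (x s) +
          (r (x m) (x 0) / g (x m) (x 0)) • α (x m) := by
      rw [Finset.sum_range_succ, hnm]
      congr 1
      refine Finset.sum_congr rfl ?_
      intro s hs
      rw [hnx s (Finset.mem_range.1 hs)]
    have h3 : ∑ s ∈ Finset.range (m + 1), (r (x s) (pv s) / g (x s) (pv s)) • α (x s) =
        ∑ s ∈ Finset.range m, (r (x (s + 1)) (x s) / g (x (s + 1)) (x s)) • α (x (s + 1)) +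
          (r (x 0) (x m) / g (x 0) (x m)) • α (x 0) := by
      rw [Finset.sum_range_succ', hp0]
      congr 1
      refine Finset.sum_congr rfl ?_
      intro s _
      rw [hpv s]
    have h4 : ∑ s ∈ Finset.range m, (v (x s) - v (x (s + 1))) = v (x 0) - v (x m) :=
      Finset.sum_range_sub' (fun s => v (x s)) m
    have h5 : ∑ s ∈ Finset.range m, (v (x s) - v (x (s + 1))) =
        ∑ s ∈ Finset.range m, (r (x s) (x (s + 1)) / g (x s) (x (s + 1))) • α (x s) -
        ∑ s ∈ Finset.range m, (r (x (s + 1)) (x s) / g (x (s + 1)) (x s)) • α (x (s + 1)) := by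
      rw [← Finset.sum_sub_distrib]
      refine Finset.sum_congr rfl ?_
      intro s hs
      rw [Finset.mem_range] at hs
      exact hedge _ _ (hne s hs) (hadj s hs)
    have h6 := hedge _ _ hne0 hcl
    rw [h1, h2, h3]
    have h7 : (∑ s ∈ Finset.range m, (r (x s) (x (s + 1)) / g (x s) (x (s + 1))) • α (x s) +
        (r (x m) (x 0) / g (x m) (x 0)) • α (x m)) -
        (∑ s ∈ Finset.range m, (r (x (s + 1)) (x s) / g (x (s + 1)) (x s)) • α (x (s + 1)) +
          (r (x 0) (x m) / g (x 0) (x m)) • α (x 0)) =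
        (∑ s ∈ Finset.range m, (r (x s) (x (s + 1)) / g (x s) (x (s + 1))) • α (x s) -
        ∑ s ∈ Finset.range m, (r (x (s + 1)) (x s) / g (x (s + 1)) (x s)) • α (x (s + 1))) +
        ((r (x m) (x 0) / g (x m) (x 0)) • α (x m) -
          (r (x 0) (x m) / g (x 0) (x m)) • α (x 0)) := by abel
    rw [h7, ← h5, ← h6, h4]
    abel
  intro hct
  have hct0 : c t = 0 := by
    rw [hc, hct, sub_self]
  have hS : ∑ s ∈ (Finset.range (m + 1)).erase t, c s • α (x s) = 0 := by
    have h1 := Finset.add_sum_erase (Finset.range (m + 1)) (fun s => c s • α (x s))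
      (Finset.mem_range.2 (Nat.lt_succ_of_le htm))
    rw [hsum] at h1
    simp only [hct0, zero_smul, zero_add] at h1
    exact h1
  have hinj' : Set.InjOn x ((Finset.range (m + 1)).erase t) := by
    intro a ha b hb hab
    have ha1 := Finset.mem_range.1 (Finset.mem_of_mem_erase (Finset.mem_coe.1 ha))
    have hb1 := Finset.mem_range.1 (Finset.mem_of_mem_erase (Finset.mem_coe.1 hb))
    exact hinj a (by omega) b (by omega) hab
  have hcard : (((Finset.range (m + 1)).erase t).image x).card ≤ m := by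
    refine Finset.card_image_le.trans ?_
    rw [Finset.card_erase_of_mem (Finset.mem_range.2 (Nat.lt_succ_of_le htm)),
      Finset.card_range]
    omega
  have hli := hind _ hcard
  have hli2 : LinearIndependent ℝ
      (fun s : ((Finset.range (m + 1)).erase t : Finset ℕ) => α (x s)) := by
    refine hli.comp (fun s : ((Finset.range (m + 1)).erase t : Finset ℕ) =>
      (⟨x s, Finset.mem_image_of_mem x s.2⟩ :
        (((Finset.range (m + 1)).erase t).image x : Finset I))) ?_
    intro a b hab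
    have h1 : x a = x b := congrArg Subtype.val hab
    exact Subtype.ext (hinj' (Finset.mem_coe.2 a.2) (Finset.mem_coe.2 b.2) h1)
  rw [Fintype.linearIndependent_iff] at hli2
  have h8 := hli2 (fun s => c s) (by
    rw [Finset.sum_coe_sort ((Finset.range (m + 1)).erase t) (fun s => c s • α (x s))]
    exact hS) ⟨0, Finset.mem_erase.2 ⟨by omega, Finset.mem_range.2 (by omega)⟩⟩
  simp only at h8
  rw [hc, hnx 0 (by omega), hp0] at h8
  exact hbad (sub_eq_zero.1 h8)

/-- Paper proof: with `P i j = r i j / g i j`, `v i - v j = P i j • α i - P j i • α j` on edges; sum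
over the cycle `x 0, …, x m`: `∑ (P (x s) (next) - P (x s) (previous)) • α (x s) = 0`. If one
coefficient is zero, the other `m` vectors are independent, so all coefficients vanish, in
particular the one at `x 0`, contradiction. -/
theorem cycle_lemma2 {I : Type*} [Fintype I] [DecidableEq I] {X : Type*} [AddCommGroup X]
    [Module ℝ X] {m : ℕ} (hm : 3 ≤ m)
    (α v : I → X) (hind : ∀ s : Finset I, s.card ≤ m → LinearIndependent ℝ (fun i : s => α i))
    (g r : I → I → ℝ) (hg : ∀ i j, g i j = g j i)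
    (hrel : ∀ i j, i ≠ j → g i j • (v i - v j) = r i j • α i - r j i • α j)
    (x : ℕ → I) (hinj : ∀ s ≤ m, ∀ t ≤ m, x s = x t → s = t)
    (hadj : ∀ s < m, g (x s) (x (s + 1)) ≠ 0) (hcl : g (x m) (x 0) ≠ 0)
    (hbad : r (x 0) (x 1) / g (x 0) (x 1) ≠ r (x 0) (x m) / g (x 0) (x m)) :
    (∀ s, 0 < s → s < m → r (x s) (x (s + 1)) / g (x s) (x (s + 1)) ≠
        r (x s) (x (s - 1)) / g (x s) (x (s - 1))) ∧
      r (x m) (x 0) / g (x m) (x 0) ≠ r (x m) (x (m - 1)) / g (x m) (x (m - 1)) := by
  have key := algCycle2_aux hm α v hind g r hg hrel x hinj hadj hcl hbad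
    (fun s => if s = m then x 0 else x (s + 1)) (fun s => if s = 0 then x m else x (s - 1))
    (fun s hs => if_neg (by omega)) (if_pos rfl) (fun s => by simp) (if_pos rfl)
  constructor
  · intro s hs hsm
    have h := key s hs hsm.le
    rw [if_neg (by omega), if_neg (by omega)] at h
    exact h
  · have h := key m (by omega) (le_refl m)
    simp only [if_true] at h
    rw [if_neg (by omega)] at h
    exact h

end MP80b30d
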