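import Pool.Agent.Lib.MP_80b30d_gt.AlgPath2
import Pool.Agent.Lib.MP_80b30d_gt.AlgCycle
import Pool.Agent.Lib.MP_80b30d_gt.AlgCycle2

/-! MP_80b30d_gt: the common centre, strong form. -/

namespace MP80b30d

private theorem algCenter2_pair {I : Type*} [DecidableEq I] {X : Type*} [AddCommGroup X]
    [Module ℝ X] {m : ℕ} (hm : 3 ≤ m)
    (α : I → X) (hind : ∀ s : Finset I, s.card ≤ m → LinearIndependent ℝ (fun i : s => α i))
    (i j : I) (hij : i ≠ j) (a b : ℝ) (h : a • α i = b • α j) : a = 0 := by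
  have hcard : ({i, j} : Finset I).card ≤ m := by
    rw [Finset.card_pair hij]
    omega
  have h1 := Fintype.linearIndependent_iff.1 (hind {i, j} hcard)
    (fun x => if (x : I) = i then a else -b) (by
      rw [Finset.sum_coe_sort ({i, j} : Finset I) (fun x => (if x = i then a else -b) • α x),
        Finset.sum_pair hij, if_pos rfl, if_neg hij.symm, h, neg_smul, add_neg_cancel])
  have h2 := h1 ⟨i, by simp⟩
  simpa using h2

/-- Paper proof: `A i j := i ≠ j ∧ g i j ≠ 0`; `path_lemma2` for `P i j = r i j / g i j` with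
`cycle_lemma` and `cycle_lemma2` gives `p i` with `r i j = p i * g i j` for all neighbours `j` of
`i`; the number of ordered edges is `(m + 2)(m + 1)` minus the number in `hinc`, so it is more than
`2 m + 6`. If `g i j = 0`, `i ≠ j`, then `r i j • α i = r j i • α j` and independence give
`r i j = 0`. So `g i j • ((v i - p i • α i) - (v j - p j • α j)) = 0` and by connectedness
(`hconn` with `S`, `T` complementary) `v i - p i • α i` is constant. -/
theorem exists_center2 {I : Type*} [Fintype I] [DecidableEq I] {X : Type*} [AddCommGroup X]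
    [Module ℝ X] {m : ℕ} (hm : 3 ≤ m) (hI : Fintype.card I = m + 2)
    (α v : I → X) (hind : ∀ s : Finset I, s.card ≤ m → LinearIndependent ℝ (fun i : s => α i))
    (g r : I → I → ℝ) (hg : ∀ i j, g i j = g j i)
    (hinc : {z : I × I | z.1 ≠ z.2 ∧ g z.1 z.2 = 0}.ncard < m ^ 2 + m - 4)
    (hconn : ∀ S T : Finset I, S.Nonempty → T.Nonempty → Disjoint S T →
      (∀ i ∈ S, ∀ j ∈ T, g i j = 0) → S.card + T.card ≤ m)
    (hrel : ∀ i j, i ≠ j → g i j • (v i - v j) = r i j • α i - r j i • α j) :
    ∃ (ω : X) (p : I → ℝ), (∀ i, v i = ω + p i • α i) ∧ ∀ i j, i ≠ j → r i j = p i * g i j := by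
  classical
  obtain ⟨A, hA⟩ : ∃ A : I → I → Prop, ∀ i j, A i j ↔ (i ≠ j ∧ g i j ≠ 0) :=
    ⟨fun i j => i ≠ j ∧ g i j ≠ 0, fun _ _ => Iff.rfl⟩
  have hsymm : ∀ i j, A i j → A j i := by
    intro i j h
    rw [hA] at h ⊢
    exact ⟨h.1.symm, by rw [hg]; exact h.2⟩
  have hirr : ∀ i, ¬ A i i := by
    intro i h
    exact ((hA i i).1 h).1 rfl
  have hE : 2 * m + 6 < (Finset.univ.filter (fun z : I × I => A z.1 z.2)).card := by
    have h1 : (Finset.univ.filter (fun z : I × I => z.1 ≠ z.2)).card = (m + 2) * (m + 1) := by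
      have h2 := Finset.offDiag_card (Finset.univ : Finset I)
      rw [Finset.card_univ, hI] at h2
      have h3 : (Finset.univ : Finset I).offDiag =
          Finset.univ.filter (fun z : I × I => z.1 ≠ z.2) := by
        ext z
        simp [Finset.mem_offDiag]
      rw [h3] at h2
      rw [h2]
      have : (m + 2) * (m + 2) = (m + 2) * (m + 1) + (m + 2) := by ring
      omega
    have h2 : (Finset.univ.filter (fun z : I × I => z.1 ≠ z.2)).card ≤
        (Finset.univ.filter (fun z : I × I => z.1 ≠ z.2 ∧ g z.1 z.2 = 0)).card +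
        (Finset.univ.filter (fun z : I × I => A z.1 z.2)).card := by
      refine le_trans (Finset.card_le_card ?_) (Finset.card_union_le _ _)
      intro z hz
      have hz' := (Finset.mem_filter.1 hz).2
      by_cases h0 : g z.1 z.2 = 0
      · exact Finset.mem_union_left _ (Finset.mem_filter.2 ⟨Finset.mem_univ _, hz', h0⟩)
      · exact Finset.mem_union_right _
          (Finset.mem_filter.2 ⟨Finset.mem_univ _, (hA _ _).2 ⟨hz', h0⟩⟩)
    have h3 : {z : I × I | z.1 ≠ z.2 ∧ g z.1 z.2 = 0}.ncard =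
        (Finset.univ.filter (fun z : I × I => z.1 ≠ z.2 ∧ g z.1 z.2 = 0)).card := by
      rw [← Set.ncard_coe_finset]
      congr 1
      ext z
      simp
    rw [h3] at hinc
    have h4 : (m + 2) * (m + 1) = m ^ 2 + m + (2 * m + 2) := by ring
    have h5 : 9 ≤ m ^ 2 := by nlinarith
    omega
  have hconn' : ∀ i, ∀ S : Finset I, i ∉ S → S.Nonempty → (∃ t, t ≠ i ∧ t ∉ S) →
      ∃ s ∈ S, ∃ t, t ≠ i ∧ t ∉ S ∧ A s t := by
    intro i S hiS hS hT
    by_contra hcon
    push Not at hcon
    obtain ⟨t₀, ht₀, ht₀'⟩ := hT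
    have hcompl : ∀ t, t ∈ (insert i S)ᶜ ↔ t ≠ i ∧ t ∉ S := by
      intro t
      simp
    have h1 := hconn S (insert i S)ᶜ hS ⟨t₀, (hcompl t₀).2 ⟨ht₀, ht₀'⟩⟩ (by
      rw [Finset.disjoint_left]
      intro s hs hs'
      exact ((hcompl s).1 hs').2 hs) (by
      intro s hs t ht
      have h2 := (hcompl t).1 ht
      have h3 := hcon s hs t h2.1 h2.2
      rw [hA] at h3
      by_contra h4
      exact h3 ⟨fun h5 => h2.2 (h5 ▸ hs), h4⟩)
    have h2 := Finset.card_add_card_compl (insert i S)
    rw [Finset.card_insert_of_notMem hiS, hI] at h2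
    omega
  have hR : ∀ i j k, A i j → A i k → r i j / g i j = r i k / g i k := by
    intro i j k hj hk
    refine path_lemma2 hm hI A hsymm hirr ?_ hconn' (fun i j => r i j / g i j) ?_ ?_ i j k hj hk
    · convert hE
    · intro i d x hd hinj hne hadj h0 hd'
      exact cycle_lemma α v hind g r hg hrel i d x hd hinj hne
        (fun s hs => ((hA _ _).1 (hadj s hs)).2) ((hA _ _).1 h0).2 ((hA _ _).1 hd').2
    · intro x hinj hadj hcl hbad
      exact cycle_lemma2 hm α v hind g r hg hrel x hinj
        (fun s hs => ((hA _ _).1 (hadj s hs)).2) ((hA _ _).1 hcl).2 hbad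
  have hnb : ∀ i, ∃ j, A i j := by
    intro i
    by_contra hcon
    push Not at hcon
    have hcard : ({i} : Finset I)ᶜ.card = m + 1 := by
      rw [Finset.card_compl, hI, Finset.card_singleton]
      omega
    have h1 := hconn {i} {i}ᶜ ⟨i, Finset.mem_singleton_self i⟩
      (Finset.card_pos.1 (by rw [hcard]; omega)) disjoint_compl_right (by
      intro s hs t ht
      rw [Finset.mem_singleton] at hs
      rw [Finset.mem_compl, Finset.mem_singleton] at ht
      by_contra h2
      exact hcon t ((hA i t).2 ⟨fun h => ht h.symm, hs ▸ h2⟩))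
    rw [hcard, Finset.card_singleton] at h1
    omega
  choose nb hnb using hnb
  obtain ⟨p, hp⟩ : ∃ p : I → ℝ, ∀ i, p i = r i (nb i) / g i (nb i) :=
    ⟨fun i => r i (nb i) / g i (nb i), fun _ => rfl⟩
  have hr : ∀ i j, i ≠ j → r i j = p i * g i j := by
    intro i j hij
    by_cases hgij : g i j = 0
    · have h1 := hrel i j hij
      rw [hgij, zero_smul] at h1
      rw [hgij, mul_zero]
      exact algCenter2_pair hm α hind i j hij (r i j) (r j i) (sub_eq_zero.1 h1.symm)
    · rw [hp, hR i (nb i) j (hnb i) ((hA i j).2 ⟨hij, hgij⟩), div_mul_cancel₀ _ hgij]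
  have hw : ∀ i j, i ≠ j → g i j ≠ 0 → v i - p i • α i = v j - p j • α j := by
    intro i j hij hgij
    have h1 := hrel i j hij
    rw [hr i j hij, hr j i hij.symm, hg j i] at h1
    have h2 : g i j • ((v i - p i • α i) - (v j - p j • α j)) = 0 := by
      have h3 : g i j • ((v i - p i • α i) - (v j - p j • α j)) =
          g i j • (v i - v j) - ((p i * g i j) • α i - (p j * g i j) • α j) := by
        module
      rw [h3, h1, sub_self]
    rcases smul_eq_zero.1 h2 with h3 | h3
    · exact absurd h3 hgij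
    · exact sub_eq_zero.1 h3
  have hne : Nonempty I := by
    rw [← Fintype.card_pos_iff, hI]
    omega
  obtain ⟨i₀⟩ := hne
  refine ⟨v i₀ - p i₀ • α i₀, p, ?_, hr⟩
  have hall : ∀ i, v i - p i • α i = v i₀ - p i₀ • α i₀ := by
    by_contra hcon
    push Not at hcon
    obtain ⟨i₁, hi₁⟩ := hcon
    obtain ⟨S, hS⟩ : ∃ S : Finset I, ∀ i, i ∈ S ↔ v i - p i • α i = v i₀ - p i₀ • α i₀ :=
      ⟨Finset.univ.filter (fun i => v i - p i • α i = v i₀ - p i₀ • α i₀), fun i => by simp⟩
    have h1 := hconn S Sᶜ ⟨i₀, (hS i₀).2 rfl⟩ ⟨i₁, by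
      rw [Finset.mem_compl, hS]
      exact hi₁⟩ disjoint_compl_right (by
      intro s hs t ht
      rw [Finset.mem_compl, hS] at ht
      rw [hS] at hs
      by_contra h2
      have hst : s ≠ t := fun h => ht (h ▸ hs)
      exact ht ((hw s t hst h2).symm.trans hs))
    have h2 := Finset.card_add_card_compl S
    rw [hI] at h2
    omega
  intro i
  rw [← hall i, sub_add_cancel]

end MP80b30d
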