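import Mathlib

/-! MP_80b30d_gt: end of the algebraic part. -/

namespace MP80b30d

variable {W : Type*} [AddCommGroup W] [Module ℝ W]

/-- Paper proof. `τ j := κ j - ω (a j) = 2 p i H(a i, a j)` for all `i ≠ j`. If some `p i ≠ 0`: each
`j ≠ i` with `H(a i, a j) ≠ 0` has `τ j ≠ 0`, hence `p k ≠ 0` and `H(a k, a j) ≠ 0` for all `k ≠ j`;
two such `j` give `p k ≠ 0` for all `k`, then `τ k ≠ 0` for all `k` (each `k` has a `j` with
`H(a j, a k) ≠ 0`). So `p j τ j = p i τ i` for all `i, j`, all `H(a i, a j) = s τ i τ j` (`i ≠ j`), and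
`b i = a i / τ i` satisfy `H (b i - b j) (b k) = 0` for the `m` indices `k ≠ i, j`; these `b k` span
`W`, so `b i = b j`, contradiction to the independence of `a i`, `a j`. -/
theorem alg_end2 [FiniteDimensional ℝ W] {m : ℕ} (hm : 3 ≤ m) (hdim : Module.finrank ℝ W = m)
    (H : W →ₗ[ℝ] W →ₗ[ℝ] ℝ) (hH : ∀ x y, H x y = H y x) (hpos : ∀ x, x ≠ 0 → 0 < H x x)
    (a : Fin (m + 2) → W)
    (hind : ∀ s : Finset (Fin (m + 2)), s.card = m → LinearIndependent ℝ (fun i : s => a i))
    (hdeg : ∀ i, (Finset.univ.filter (fun j => j ≠ i ∧ H (a i) (a j) = 0)).card ≤ m - 1)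
    (τ p : Fin (m + 2) → ℝ) (hτ : ∀ i j, i ≠ j → τ j = 2 * p i * H (a i) (a j)) :
    (∀ i, p i = 0) ∧ ∀ i, τ i = 0 := by
  classical
  have hex : ∀ i, ∃ j1 j2, j1 ≠ j2 ∧ j1 ≠ i ∧ j2 ≠ i ∧ H (a i) (a j1) ≠ 0 ∧
      H (a i) (a j2) ≠ 0 := by
    intro i
    have h1 : (Finset.univ.filter (fun j => j ≠ i ∧ H (a i) (a j) = 0)).card +
        (Finset.univ.filter (fun j => j ≠ i ∧ H (a i) (a j) ≠ 0)).card = m + 1 := by
      rw [← Finset.card_union_of_disjoint]
      · have h2 : (Finset.univ.filter (fun j => j ≠ i ∧ H (a i) (a j) = 0)) ∪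
            (Finset.univ.filter (fun j => j ≠ i ∧ H (a i) (a j) ≠ 0)) =
            Finset.univ.erase i := by
          ext j
          simp only [Finset.mem_union, Finset.mem_filter, Finset.mem_univ, true_and,
            Finset.mem_erase, and_true]
          tauto
        rw [h2, Finset.card_erase_of_mem (Finset.mem_univ i), Finset.card_univ, Fintype.card_fin]
        omega
      · rw [Finset.disjoint_left]
        intro j hj hj'
        exact (Finset.mem_filter.1 hj').2.2 (Finset.mem_filter.1 hj).2.2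
    have h3 : 1 < (Finset.univ.filter (fun j => j ≠ i ∧ H (a i) (a j) ≠ 0)).card := by
      have := hdeg i
      omega
    obtain ⟨j1, hj1, j2, hj2, hne⟩ := Finset.one_lt_card.1 h3
    exact ⟨j1, j2, hne, (Finset.mem_filter.1 hj1).2.1, (Finset.mem_filter.1 hj2).2.1,
      (Finset.mem_filter.1 hj1).2.2, (Finset.mem_filter.1 hj2).2.2⟩
  have hp : ∀ i, p i = 0 := by
    by_contra hne
    push Not at hne
    obtain ⟨i0, hi0⟩ := hne
    obtain ⟨j1, j2, hj12, hj1, hj2, h1, h2⟩ := hex i0
    have t1 : τ j1 ≠ 0 := by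
      rw [hτ i0 j1 hj1.symm]
      exact mul_ne_zero (mul_ne_zero two_ne_zero hi0) h1
    have t2 : τ j2 ≠ 0 := by
      rw [hτ i0 j2 hj2.symm]
      exact mul_ne_zero (mul_ne_zero two_ne_zero hi0) h2
    have hpk : ∀ k, p k ≠ 0 := by
      intro k hk
      by_cases h : k = j1
      · apply t2
        rw [hτ k j2 (by rw [h]; exact hj12), hk]
        ring
      · apply t1
        rw [hτ k j1 h, hk]
        ring
    have htk : ∀ k, τ k ≠ 0 := by
      intro k
      obtain ⟨j, -, -, hj, -, hH', -⟩ := hex k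
      rw [hτ j k hj, hH]
      exact mul_ne_zero (mul_ne_zero two_ne_zero (hpk j)) hH'
    have key : ∀ i j k, i ≠ j → i ≠ k → j ≠ k →
        H (τ j • a i - τ i • a j) (a k) = 0 := by
      intro i j k hij hik hjk
      have e1 := hτ i k hik
      have e2 := hτ j k hjk
      have e3 := hτ i j hij
      have e4 := hτ j i hij.symm
      rw [hH (a j) (a i)] at e4
      rw [map_sub, map_smul, map_smul, LinearMap.sub_apply, LinearMap.smul_apply,
        LinearMap.smul_apply, smul_eq_mul, smul_eq_mul]
      have hpp : 2 * p i * p j ≠ 0 := mul_ne_zero (mul_ne_zero two_ne_zero (hpk i)) (hpk j)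
      refine (mul_eq_zero.1 ?_).resolve_left hpp
      have e5 : 2 * p i * p j * (τ j * H (a i) (a k) - τ i * H (a j) (a k)) =
          p j * τ j * (2 * p i * H (a i) (a k)) - p i * τ i * (2 * p j * H (a j) (a k)) := by ring
      rw [e5, ← e1, ← e2]
      have e6 : p j * τ j = p i * τ i := by
        rw [e3, e4]
        ring
      rw [e6, sub_self]
    have h01 : (0 : Fin (m + 2)) ≠ 1 := by
      intro h
      have := congrArg Fin.val h
      simp at this
    have hv : τ 1 • a 0 - τ 0 • a 1 = 0 := by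
      by_contra hv
      have hs : ((Finset.univ : Finset (Fin (m + 2))) \ {0, 1}).card = m := by
        rw [Finset.card_sdiff_of_subset (Finset.subset_univ _), Finset.card_pair h01,
          Finset.card_univ, Fintype.card_fin]
        omega
      have hli := hind _ hs
      have hspan := hli.span_eq_top_of_card_eq_finrank' (by
        rw [Fintype.card_coe, hs, hdim])
      have hzero : ∀ x, H (τ 1 • a 0 - τ 0 • a 1) x = 0 := by
        intro x
        have hx : x ∈ Submodule.span ℝ (Set.range fun i :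
            ((Finset.univ : Finset (Fin (m + 2))) \ {0, 1} : Finset (Fin (m + 2))) => a i) := by
          rw [hspan]
          trivial
        induction hx using Submodule.span_induction with
        | mem y hy =>
          obtain ⟨⟨k, hk⟩, rfl⟩ := hy
          rw [Finset.mem_sdiff, Finset.mem_insert, Finset.mem_singleton, not_or] at hk
          exact key 0 1 k h01 (Ne.symm hk.2.1) (Ne.symm hk.2.2)
        | zero => exact map_zero _
        | add y z _ _ hy hz => rw [map_add, hy, hz, add_zero]
        | smul c y _ hy => rw [map_smul, hy, smul_zero]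
      exact (hpos _ hv).ne' (hzero _)
    obtain ⟨s, hs1, hs2⟩ := Finset.exists_superset_card_eq
      (s := ({0, 1} : Finset (Fin (m + 2)))) (n := m)
      (by rw [Finset.card_pair h01]; omega) (by rw [Fintype.card_fin]; omega)
    have m0 : (0 : Fin (m + 2)) ∈ s := hs1 (by simp)
    have m1 : (1 : Fin (m + 2)) ∈ s := hs1 (by simp)
    have hli := hind s hs2
    have hli2 := hli.comp (![⟨0, m0⟩, ⟨1, m1⟩] : Fin 2 → s) (by
      intro x y hxy
      fin_cases x <;> fin_cases y <;> simp_all)
    have hli3 : LinearIndependent ℝ ![a 0, a 1] := by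
      convert hli2 using 1
      funext x
      fin_cases x <;> rfl
    rw [LinearIndependent.pair_iff] at hli3
    have h4 := hli3 (τ 1) (-τ 0) (by rw [neg_smul, ← sub_eq_add_neg]; exact hv)
    exact htk 1 h4.1
  refine ⟨hp, fun j => ?_⟩
  obtain ⟨i, -, -, hi, -⟩ := hex j
  rw [hτ i j hi, hp i]
  ring

end MP80b30d
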