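import Pool.Agent.Lib.MP_80b30d_gt.AlgRow
import Pool.Agent.Lib.MP_80b30d_gt.AlgOrth
import Pool.Agent.Lib.MP_80b30d_gt.AlgCenter2
import Pool.Agent.Lib.MP_80b30d_gt.AlgEnd2

/-! MP_80b30d_gt: the cubic form is a multiple of the quadratic form, strong form. -/

namespace MP80b30d

variable {W : Type*} [AddCommGroup W] [Module ℝ W]

/-- Paper proof: `cubic_row` for `B = C (a i)` gives `κ i`, `v i`; `rows_compare`; `exists_center2`
in the space of functionals with `α i = H (a i)`, `g i j = H (a i) (a j)`,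
`r i j = κ j - v i (a j)` (`orth_bound`, `ind_functionals` for its hypotheses); then
`κ j - ω (a j) = 2 p i H(a i, a j)` and `alg_end2` (its degree hypothesis: `orth_bound` for `S = {i}`
and `T` the set of `j ≠ i` with `H (a i) (a j) = 0`) gives `v i = ω`, `κ i = ω (a i)`, that is the
identity for `h = a i`; the `a i` span `W`. -/
theorem cubic_trace2 [FiniteDimensional ℝ W] {m : ℕ} (hm : 3 ≤ m)
    (hdim : Module.finrank ℝ W = m)
    (H : W →ₗ[ℝ] W →ₗ[ℝ] ℝ) (hH : ∀ x y, H x y = H y x) (hpos : ∀ x, x ≠ 0 → 0 < H x x)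
    (C : W →ₗ[ℝ] W →ₗ[ℝ] W →ₗ[ℝ] ℝ) (hC12 : ∀ x y z, C x y z = C y x z)
    (hC23 : ∀ x y z, C x y z = C x z y) (a : Fin (m + 2) → W)
    (hind : ∀ s : Finset (Fin (m + 2)), s.card = m → LinearIndependent ℝ (fun i : s => a i))
    (hκ : ∀ i, ∃ κ : ℝ, ∀ w, H (a i) w = 0 → C (a i) w w = κ * H w w)
    (hinc : {z : Fin (m + 2) × Fin (m + 2) | z.1 ≠ z.2 ∧ H (a z.1) (a z.2) = 0}.ncard
      < m ^ 2 + m - 4) :
    ∃ ω : W →ₗ[ℝ] ℝ, ∀ h k l, C h k l = ω h * H k l + ω k * H h l + ω l * H h k := by
  classical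
  have hcard : m ≤ Fintype.card (Fin (m + 2)) := by rw [Fintype.card_fin]; omega
  -- a set of cardinality `m` containing a given index
  have hex : ∀ i : Fin (m + 2), ∃ s : Finset (Fin (m + 2)), i ∈ s ∧ s.card = m := by
    intro i
    obtain ⟨s, hs1, hs2, hs3⟩ := Finset.exists_subsuperset_card_eq
      (s := {i}) (t := (Finset.univ : Finset (Fin (m + 2)))) (n := m)
      (Finset.subset_univ _) (by rw [Finset.card_singleton]; omega)
      (by rw [Finset.card_univ]; exact hcard)
    exact ⟨s, hs1 (Finset.mem_singleton_self i), hs3⟩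
  have ha : ∀ i, a i ≠ 0 := by
    intro i
    obtain ⟨s, his, hs⟩ := hex i
    exact (hind s hs).ne_zero ⟨i, his⟩
  choose κ hκ' using hκ
  have hrow : ∀ i, ∃ v : W →ₗ[ℝ] ℝ, ∀ h k,
      C (a i) h k = κ i * H h k + H (a i) h * v k + H (a i) k * v h := fun i =>
    cubic_row H (C (a i)) hH hpos (fun x y => hC23 (a i) x y) (ha i) (hκ' i)
  choose v hv using hrow
  have hrel : ∀ i j, i ≠ j → H (a i) (a j) • (v i - v j) =
      (κ j - v i (a j)) • H (a i) - (κ i - v j (a i)) • H (a j) := fun i j _ =>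
    rows_compare H hH C hC12 (hv i) (hv j)
  obtain ⟨ω, p, h1, h2⟩ := exists_center2 hm (Fintype.card_fin (m + 2)) (fun i => H (a i)) v
    (fun s hs => ind_functionals H hH hpos hcard a hind s hs)
    (fun i j => H (a i) (a j)) (fun i j => κ j - v i (a j)) (fun i j => hH _ _) hinc
    (fun S T hS hT hST h0 => orth_bound (by omega) hdim H hH hpos hcard a hind S T hS hT hST h0)
    hrel
  have hτ : ∀ i j, i ≠ j → κ j - ω (a j) = 2 * p i * H (a i) (a j) := by
    intro i j hij
    have h3 := h2 i j hij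
    simp only [h1 i, LinearMap.add_apply, LinearMap.smul_apply, smul_eq_mul] at h3
    linarith
  have hdeg : ∀ i, (Finset.univ.filter (fun j => j ≠ i ∧ H (a i) (a j) = 0)).card ≤ m - 1 := by
    intro i
    rcases (Finset.univ.filter (fun j => j ≠ i ∧ H (a i) (a j) = 0)).eq_empty_or_nonempty with h | h
    · rw [h, Finset.card_empty]
      exact Nat.zero_le _
    · have h3 := orth_bound (by omega) hdim H hH hpos hcard a hind {i}
        (Finset.univ.filter (fun j => j ≠ i ∧ H (a i) (a j) = 0)) (Finset.singleton_nonempty i) h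
        (by
          rw [Finset.disjoint_singleton_left, Finset.mem_filter]
          exact fun h4 => h4.2.1 rfl)
        (by
          intro i' hi' j hj
          rw [Finset.mem_singleton] at hi'
          rw [hi']
          exact (Finset.mem_filter.1 hj).2.2)
      rw [Finset.card_singleton] at h3
      omega
  obtain ⟨h4, h5⟩ := alg_end2 hm hdim H hH hpos a hind hdeg (fun j => κ j - ω (a j)) p hτ
  have hvω : ∀ i, v i = ω := by
    intro i
    rw [h1 i, h4 i, zero_smul, add_zero]
  refine ⟨ω, ?_⟩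
  obtain ⟨s, -, hs⟩ := hex 0
  have hspan : Submodule.span ℝ (Set.range fun i : s => a i) = ⊤ :=
    (hind s hs).span_eq_top_of_card_eq_finrank' (by rw [Fintype.card_coe, hs, hdim])
  intro h
  have hh : h ∈ Submodule.span ℝ (Set.range fun i : s => a i) := by rw [hspan]; trivial
  induction hh using Submodule.span_induction with
  | mem x hx =>
    obtain ⟨i, rfl⟩ := hx
    intro k l
    rw [hv i.1 k l, hvω]
    have h6 : κ i.1 = ω (a i.1) := by have := h5 i.1; linarith
    rw [h6]
    ring
  | zero =>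
    intro k l
    simp
  | add x y _ _ hx hy =>
    intro k l
    simp only [map_add, LinearMap.add_apply, hx k l, hy k l]
    ring
  | smul c x _ hx =>
    intro k l
    simp only [map_smul, LinearMap.smul_apply, smul_eq_mul, hx k l]
    ring

end MP80b30d
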