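import Mathlib

/-! MP_80b30d_gt: the graph lemma. -/

namespace MP80b30d

/-- `x` is a walk of length `d` from `j` to `k` avoiding `i`. -/
private def AlgPathW {I : Type*} (A : I → I → Prop) (i j k : I) (d : ℕ) (x : ℕ → I) : Prop :=
  x 0 = j ∧ x d = k ∧ (∀ s ≤ d, x s ≠ i) ∧ ∀ s < d, A (x s) (x (s + 1))

private theorem algPath_cut_eq {I : Type*} {A : I → I → Prop} {i j k : I} {d : ℕ} {x : ℕ → I}
    (hx : AlgPathW A i j k d x) {s t : ℕ} (hst : s < t) (htd : t ≤ d) (he : x s = x t) :
    ∃ y, AlgPathW A i j k (d - (t - s)) y := by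
  obtain ⟨h0, h1, h2, h3⟩ := hx
  refine ⟨fun n => if n ≤ s then x n else x (n + (t - s)), ?_, ?_, ?_, ?_⟩
  · simp only [Nat.zero_le, if_true]
    exact h0
  · by_cases h : d - (t - s) ≤ s
    · have e1 : d - (t - s) = s := by omega
      have e2 : t = d := by omega
      simp only [if_pos h]
      rw [e1, he, e2, h1]
    · simp only [if_neg h]
      rw [Nat.sub_add_cancel (by omega), h1]
  · intro n hn
    by_cases h : n ≤ s
    · simp only [if_pos h]
      exact h2 n (by omega)
    · simp only [if_neg h]
      exact h2 _ (by omega)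
  · intro n hn
    by_cases h : n < s
    · simp only [if_pos (show n ≤ s by omega), if_pos (show n + 1 ≤ s by omega)]
      exact h3 n (by omega)
    · by_cases h' : n = s
      · subst h'
        simp only [le_refl, if_true, if_neg (show ¬ n + 1 ≤ n by omega)]
        rw [he]
        have e1 : n + 1 + (t - n) = t + 1 := by omega
        rw [e1]
        exact h3 t (by omega)
      · simp only [if_neg (show ¬ n ≤ s by omega), if_neg (show ¬ n + 1 ≤ s by omega)]
        have e1 : n + 1 + (t - s) = n + (t - s) + 1 := by omega
        rw [e1]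
        exact h3 _ (by omega)

private theorem algPath_cut_adj {I : Type*} {A : I → I → Prop} {i j k : I} {d : ℕ} {x : ℕ → I}
    (hx : AlgPathW A i j k d x) {s t : ℕ} (hst : s < t) (htd : t ≤ d) (he : A (x s) (x t)) :
    ∃ y, AlgPathW A i j k (d - (t - s - 1)) y := by
  obtain ⟨h0, h1, h2, h3⟩ := hx
  refine ⟨fun n => if n ≤ s then x n else x (n + (t - s - 1)), ?_, ?_, ?_, ?_⟩
  · simp only [Nat.zero_le, if_true]
    exact h0
  · simp only [if_neg (show ¬ d - (t - s - 1) ≤ s by omega)]
    rw [Nat.sub_add_cancel (by omega), h1]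
  · intro n hn
    by_cases h : n ≤ s
    · simp only [if_pos h]
      exact h2 n (by omega)
    · simp only [if_neg h]
      exact h2 _ (by omega)
  · intro n hn
    by_cases h : n < s
    · simp only [if_pos (show n ≤ s by omega), if_pos (show n + 1 ≤ s by omega)]
      exact h3 n (by omega)
    · by_cases h' : n = s
      · subst h'
        simp only [le_refl, if_true, if_neg (show ¬ n + 1 ≤ n by omega)]
        have e1 : n + 1 + (t - n - 1) = t := by omega
        rw [e1]
        exact he
      · simp only [if_neg (show ¬ n ≤ s by omega), if_neg (show ¬ n + 1 ≤ s by omega)]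
        have e1 : n + 1 + (t - s - 1) = n + (t - s - 1) + 1 := by omega
        rw [e1]
        exact h3 _ (by omega)

open Classical in
/-- Paper proof. Let `j ≠ k` be neighbours of `i`. By `hconn` they are joined in `Γ - i`; take a
shortest path `x 0 = j, …, x d = k` in `Γ - i`. If `d + 2 ≤ m` use `hR`. The vertices outside `i`
and the path are `m - d` many. If `d ≥ m` there is none, and `j` has only the neighbours `i`,
`x 1` (as the path is shortest): contradiction to `hdeg`. If `d = m - 1` there is one, `y`, and
`j`, `k` are both adjacent to `y` (degree at least 3), so `d ≤ 2`, `m = 3`, `d = 2`. Now `i` has a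
third neighbour `b ∈ {x 1, y}`, adjacent to `j` and to `k`, and `hR` applies to `j, b` and `b, k`
(`d = 1`). The case `j = k`: `hR` with `d = 0`. -/
theorem path_lemma {I : Type*} [Fintype I] {m : ℕ} (hm : 3 ≤ m)
    (hI : Fintype.card I = m + 2) (A : I → I → Prop) (hsymm : ∀ i j, A i j → A j i)
    (hirr : ∀ i, ¬ A i i) (hdeg : ∀ i, 3 ≤ (Finset.univ.filter (fun j => A i j)).card)
    (i : I)
    (hconn : ∀ S : Finset I, i ∉ S → S.Nonempty → (∃ t, t ≠ i ∧ t ∉ S) →
      ∃ s ∈ S, ∃ t, t ≠ i ∧ t ∉ S ∧ A s t)
    (R : I → I → Prop) (hRt : ∀ j k l, R j k → R k l → R j l)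
    (hR : ∀ (d : ℕ) (x : ℕ → I), d + 2 ≤ m → (∀ s ≤ d, ∀ t ≤ d, x s = x t → s = t) →
      (∀ s ≤ d, x s ≠ i) → (∀ s < d, A (x s) (x (s + 1))) → A i (x 0) → A i (x d) →
      R (x 0) (x d)) (j k : I) (hj : A i j) (hk : A i k) : R j k := by
  have hji : j ≠ i := fun h => hirr i (h ▸ hj)
  have hki : k ≠ i := fun h => hirr i (h ▸ hk)
  -- existence of a walk
  have hex : ∃ d, ∃ x, AlgPathW A i j k d x := by
    by_contra hcon
    let S : Finset I := Finset.univ.filter fun v => ∃ d x, AlgPathW A i j v d x
    have hSm : ∀ v, v ∈ S ↔ ∃ d x, AlgPathW A i j v d x := fun v => by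
      simp only [S, Finset.mem_filter, Finset.mem_univ, true_and]
    have hiS : i ∉ S := by
      rw [hSm]
      rintro ⟨d, x, -, h1, h2, -⟩
      exact h2 d le_rfl h1
    have hjS : j ∈ S := (hSm j).2 ⟨0, fun _ => j, rfl, rfl, fun _ _ => hji, fun s hs => by omega⟩
    have hkS : k ∉ S := fun h => hcon ((hSm k).1 h)
    obtain ⟨s, hs, t, hti, htS, hst⟩ := hconn S hiS ⟨j, hjS⟩ ⟨k, hki, hkS⟩
    obtain ⟨d, x, h0, h1, h2, h3⟩ := (hSm s).1 hs
    apply htS
    rw [hSm]
    refine ⟨d + 1, fun n => if n ≤ d then x n else t, ?_, ?_, ?_, ?_⟩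
    · simp only [Nat.zero_le, if_true]
      exact h0
    · simp only [if_neg (show ¬ d + 1 ≤ d by omega)]
    · intro n hn
      by_cases h : n ≤ d
      · simp only [if_pos h]
        exact h2 n h
      · simp only [if_neg h]
        exact hti
    · intro n hn
      by_cases h : n < d
      · simp only [if_pos (show n ≤ d by omega), if_pos (show n + 1 ≤ d by omega)]
        exact h3 n h
      · have e1 : n = d := by omega
        subst e1
        simp only [le_refl, if_true, if_neg (show ¬ n + 1 ≤ n by omega)]
        rw [h1]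
        exact hst
  obtain ⟨x, hx⟩ := Nat.find_spec hex
  have hmin : ∀ d' < Nat.find hex, ¬ ∃ x, AlgPathW A i j k d' x := fun d' hd' =>
    Nat.find_min hex hd'
  obtain ⟨d, hd⟩ : ∃ d, d = Nat.find hex := ⟨_, rfl⟩
  rw [← hd] at hx hmin
  have hinj' : ∀ s t, s < t → t ≤ d → x s ≠ x t := fun s t hst htd he =>
    hmin _ (by omega) (algPath_cut_eq hx hst htd he)
  have hinj : ∀ s ≤ d, ∀ t ≤ d, x s = x t → s = t := by
    intro s hs t ht he
    rcases lt_trichotomy s t with h | h | h
    · exact absurd he (hinj' s t h ht)
    · exact h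
    · exact absurd he.symm (hinj' t s h hs)
  have hchord : ∀ s t, s + 1 < t → t ≤ d → ¬ A (x s) (x t) := fun s t hst htd he =>
    hmin _ (by omega) (algPath_cut_adj hx (by omega) htd he)
  obtain ⟨h0, h1, h2, h3⟩ := hx
  by_cases hdm : d + 2 ≤ m
  · have h4 := hR d x hdm hinj h2 h3 (by rw [h0]; exact hj) (by rw [h1]; exact hk)
    rwa [h0, h1] at h4
  -- the vertices of the path and `i`
  set T : Finset I := insert i ((Finset.range (d + 1)).image x) with hT
  have hiT : i ∉ (Finset.range (d + 1)).image x := by
    rw [Finset.mem_image]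
    rintro ⟨s, hs, he⟩
    exact h2 s (by rw [Finset.mem_range] at hs; omega) he
  have hTc : T.card = d + 2 := by
    rw [hT, Finset.card_insert_of_notMem hiT, Finset.card_image_of_injOn, Finset.card_range]
    intro s hs t ht he
    rw [Finset.coe_range, Set.mem_Iio] at hs ht
    exact hinj s (by omega) t (by omega) he
  have hTcc : (Tᶜ).card = m - d := by
    rw [Finset.card_compl, hI, hTc]
    omega
  have hdle : d ≤ m := by
    have := Finset.card_le_univ T
    rw [hTc, hI] at this
    omega
  have hd2 : 2 ≤ d := by omega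
  -- neighbours of the ends
  have hNj : (Finset.univ.filter fun v => A j v) ⊆ insert i (insert (x 1) Tᶜ) := by
    intro v hv
    rw [Finset.mem_filter] at hv
    have hv := hv.2
    rw [Finset.mem_insert, Finset.mem_insert]
    by_cases hvT : v ∈ T
    · rw [hT, Finset.mem_insert, Finset.mem_image] at hvT
      rcases hvT with h | ⟨t, ht, he⟩
      · exact Or.inl h
      · rw [Finset.mem_range] at ht
        right; left
        rw [← he, ← h0] at hv
        rcases Nat.lt_or_ge 1 t with h5 | h5
        · exact absurd hv (hchord 0 t (by omega) (by omega))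
        · rcases Nat.lt_or_ge t 1 with h6 | h6
          · obtain rfl : t = 0 := by omega
            exact absurd hv (hirr _)
          · obtain rfl : t = 1 := by omega
            exact he.symm
    · exact Or.inr (Or.inr (Finset.mem_compl.2 hvT))
  have hNk : (Finset.univ.filter fun v => A k v) ⊆ insert i (insert (x (d - 1)) Tᶜ) := by
    intro v hv
    rw [Finset.mem_filter] at hv
    have hv := hv.2
    rw [Finset.mem_insert, Finset.mem_insert]
    by_cases hvT : v ∈ T
    · rw [hT, Finset.mem_insert, Finset.mem_image] at hvT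
      rcases hvT with h | ⟨t, ht, he⟩
      · exact Or.inl h
      · rw [Finset.mem_range] at ht
        right; left
        rw [← he, ← h1] at hv
        rcases Nat.lt_or_ge t (d - 1) with h5 | h5
        · exact absurd (hsymm _ _ hv) (hchord t d (by omega) le_rfl)
        · rcases Nat.lt_or_ge (d - 1) t with h6 | h6
          · obtain rfl : t = d := by omega
            exact absurd hv (hirr _)
          · obtain rfl : t = d - 1 := by omega
            exact he.symm
    · exact Or.inr (Or.inr (Finset.mem_compl.2 hvT))
  have hcardle : ∀ a : I, (insert i (insert a Tᶜ)).card ≤ 2 + (m - d) := by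
    intro a
    have e1 := Finset.card_insert_le i (insert a Tᶜ)
    have e2 := Finset.card_insert_le a Tᶜ
    omega
  have hdm1 : d = m - 1 := by
    have e1 := hdeg j
    have e2 := Finset.card_le_card hNj
    have e3 := hcardle (x 1)
    omega
  obtain ⟨y, hy⟩ : ∃ y, Tᶜ = {y} := Finset.card_eq_one.1 (by omega)
  have hyT : y ∉ T := by
    rw [← Finset.mem_compl, hy]
    exact Finset.mem_singleton_self y
  have hyi : y ≠ i := fun h => hyT (by rw [hT, h]; exact Finset.mem_insert_self _ _)
  have hAjy : A j y := by
    have e1 := Finset.eq_of_subset_of_card_le hNj (by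
      have e1 := hdeg j
      have e3 := hcardle (x 1)
      omega)
    have e2 : y ∈ Finset.univ.filter fun v => A j v := by
      rw [e1, hy]
      simp
    exact (Finset.mem_filter.1 e2).2
  have hAky : A k y := by
    have e1 := Finset.eq_of_subset_of_card_le hNk (by
      have e1 := hdeg k
      have e3 := hcardle (x (d - 1))
      omega)
    have e2 : y ∈ Finset.univ.filter fun v => A k v := by
      rw [e1, hy]
      simp
    exact (Finset.mem_filter.1 e2).2
  have hd2' : d ≤ 2 := by
    by_contra hlt
    refine hmin 2 (by omega) ⟨fun n => if n = 0 then j else if n = 1 then y else k, ?_, ?_, ?_, ?_⟩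
    · simp
    · simp
    · intro n hn
      by_cases e1 : n = 0
      · simp only [if_pos e1]
        exact hji
      · by_cases e2 : n = 1
        · simp only [if_neg e1, if_pos e2]
          exact hyi
        · simp only [if_neg e1, if_neg e2]
          exact hki
    · intro n hn
      rcases Nat.lt_or_ge n 1 with e1 | e1
      · obtain rfl : n = 0 := by omega
        simpa using hAjy
      · obtain rfl : n = 1 := by omega
        simpa using hsymm _ _ hAky
  have hdd : d = 2 := by omega
  subst hdd
  -- the third neighbour of `i`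
  obtain ⟨b, hb, hbj, hbk⟩ : ∃ b, A i b ∧ b ≠ j ∧ b ≠ k := by
    by_contra hcon
    have e1 : (Finset.univ.filter fun v => A i v) ⊆ {j, k} := by
      intro v hv
      rw [Finset.mem_filter] at hv
      rw [Finset.mem_insert, Finset.mem_singleton]
      by_contra hv2
      exact hcon ⟨v, hv.2, fun h => hv2 (Or.inl h), fun h => hv2 (Or.inr h)⟩
    have e2 := Finset.card_le_card e1
    have e3 := hdeg i
    have e4 : ({j, k} : Finset I).card ≤ 2 := Finset.card_le_two
    omega
  have hbi : b ≠ i := fun h => hirr i (h ▸ hb)
  have hbjk : A j b ∧ A b k := by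
    by_cases hbT : b ∈ T
    · rw [hT, Finset.mem_insert, Finset.mem_image] at hbT
      rcases hbT with h | ⟨t, ht, he⟩
      · exact absurd h hbi
      · rw [Finset.mem_range] at ht
        have ht' : t = 0 ∨ t = 1 ∨ t = 2 := by omega
        rcases ht' with rfl | rfl | rfl
        · exact absurd (he.symm.trans h0) hbj
        · rw [← he, ← h0, ← h1]
          exact ⟨h3 0 (by omega), h3 1 (by omega)⟩
        · exact absurd (he.symm.trans h1) hbk
    · have e1 : b ∈ Tᶜ := Finset.mem_compl.2 hbT
      rw [hy, Finset.mem_singleton] at e1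
      subst e1
      exact ⟨hAjy, hsymm _ _ hAky⟩
  have hR1 : ∀ u w, A i u → A i w → A u w → u ≠ w → u ≠ i → w ≠ i → R u w := by
    intro u w hu hw huw hne hui hwi
    have e1 := hR 1 (fun n => if n = 0 then u else w) (by omega) (by
      intro s hs t ht he
      by_cases e1 : s = 0
      · by_cases e2 : t = 0
        · omega
        · simp only [if_pos e1, if_neg e2] at he
          exact absurd he hne
      · by_cases e2 : t = 0
        · simp only [if_neg e1, if_pos e2] at he
          exact absurd he.symm hne
        · omega) (by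
      intro s hs
      by_cases e1 : s = 0
      · simp only [if_pos e1]
        exact hui
      · simp only [if_neg e1]
        exact hwi) (by
      intro s hs
      obtain rfl : s = 0 := by omega
      simpa using huw) (by simpa using hu) (by simpa using hw)
    simpa using e1
  exact hRt j b k (hR1 j b hj hb hbjk.1 hbj.symm hji hbi) (hR1 b k hb hk hbjk.2 hbk hbi hki)

end MP80b30d
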