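import Mathlib

/-! MP_80b30d_gt: the graph lemma, strong form. -/

namespace MP80b30d

/-- `x` is a walk of length `d` from `j` to `k` avoiding `i`. -/
private def AlgPath2W {I : Type*} (A : I → I → Prop) (i j k : I) (d : ℕ) (x : ℕ → I) : Prop :=
  x 0 = j ∧ x d = k ∧ (∀ s ≤ d, x s ≠ i) ∧ ∀ s < d, A (x s) (x (s + 1))

private theorem algPath2_cut_eq {I : Type*} {A : I → I → Prop} {i j k : I} {d : ℕ} {x : ℕ → I}
    (hx : AlgPath2W A i j k d x) {s t : ℕ} (hst : s < t) (htd : t ≤ d) (he : x s = x t) :
    ∃ y, AlgPath2W A i j k (d - (t - s)) y := by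
  obtain ⟨h0, h1, h2, h3⟩ := hx
  refine ⟨fun n => if n ≤ s then x n else x (n + (t - s)), ?_, ?_, ?_, ?_⟩
  · simp only [Nat.zero_le, if_true]
    exact h0
  · by_cases h : d - (t - s) ≤ s
    · have e1 : d - (t - s) = s := by omega
      have e2 : t = d := by omega
      simp only [if_pos h]
      rw [e1, he, e2, h1]
    · simp only [if_neg h]
      rw [Nat.sub_add_cancel (by omega), h1]
  · intro n hn
    by_cases h : n ≤ s
    · simp only [if_pos h]
      exact h2 n (by omega)
    · simp only [if_neg h]
      exact h2 _ (by omega)
  · intro n hn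
    by_cases h : n < s
    · simp only [if_pos (show n ≤ s by omega), if_pos (show n + 1 ≤ s by omega)]
      exact h3 n (by omega)
    · by_cases h' : n = s
      · subst h'
        simp only [le_refl, if_true, if_neg (show ¬ n + 1 ≤ n by omega)]
        rw [he]
        have e1 : n + 1 + (t - n) = t + 1 := by omega
        rw [e1]
        exact h3 t (by omega)
      · simp only [if_neg (show ¬ n ≤ s by omega), if_neg (show ¬ n + 1 ≤ s by omega)]
        have e1 : n + 1 + (t - s) = n + (t - s) + 1 := by omega
        rw [e1]
        exact h3 _ (by omega)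

private theorem algPath2_cut_adj {I : Type*} {A : I → I → Prop} {i j k : I} {d : ℕ} {x : ℕ → I}
    (hx : AlgPath2W A i j k d x) {s t : ℕ} (hst : s < t) (htd : t ≤ d) (he : A (x s) (x t)) :
    ∃ y, AlgPath2W A i j k (d - (t - s - 1)) y := by
  obtain ⟨h0, h1, h2, h3⟩ := hx
  refine ⟨fun n => if n ≤ s then x n else x (n + (t - s - 1)), ?_, ?_, ?_, ?_⟩
  · simp only [Nat.zero_le, if_true]
    exact h0
  · simp only [if_neg (show ¬ d - (t - s - 1) ≤ s by omega)]
    rw [Nat.sub_add_cancel (by omega), h1]
  · intro n hn
    by_cases h : n ≤ s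
    · simp only [if_pos h]
      exact h2 n (by omega)
    · simp only [if_neg h]
      exact h2 _ (by omega)
  · intro n hn
    by_cases h : n < s
    · simp only [if_pos (show n ≤ s by omega), if_pos (show n + 1 ≤ s by omega)]
      exact h3 n (by omega)
    · by_cases h' : n = s
      · subst h'
        simp only [le_refl, if_true, if_neg (show ¬ n + 1 ≤ n by omega)]
        have e1 : n + 1 + (t - n - 1) = t := by omega
        rw [e1]
        exact he
      · simp only [if_neg (show ¬ n ≤ s by omega), if_neg (show ¬ n + 1 ≤ s by omega)]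
        have e1 : n + 1 + (t - s - 1) = n + (t - s - 1) + 1 := by omega
        rw [e1]
        exact h3 _ (by omega)

private theorem algPath2_cut_via {I : Type*} {A : I → I → Prop} {i j k : I} {d : ℕ} {x : ℕ → I}
    (hx : AlgPath2W A i j k d x) {s t : ℕ} {y : I} (hst : s + 2 < t) (htd : t ≤ d) (hyi : y ≠ i)
    (he : A (x s) y) (he' : A y (x t)) :
    ∃ y, AlgPath2W A i j k (d - (t - s - 2)) y := by
  obtain ⟨h0, h1, h2, h3⟩ := hx
  refine ⟨fun n => if n ≤ s then x n else if n = s + 1 then y else x (n + (t - s - 2)),
    ?_, ?_, ?_, ?_⟩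
  · simp only [Nat.zero_le, if_true]
    exact h0
  · simp only [if_neg (show ¬ d - (t - s - 2) ≤ s by omega),
      if_neg (show ¬ d - (t - s - 2) = s + 1 by omega)]
    rw [Nat.sub_add_cancel (by omega), h1]
  · intro n hn
    by_cases h : n ≤ s
    · simp only [if_pos h]
      exact h2 n (by omega)
    · by_cases h' : n = s + 1
      · simp only [if_neg h, if_pos h']
        exact hyi
      · simp only [if_neg h, if_neg h']
        exact h2 _ (by omega)
  · intro n hn
    by_cases h : n < s
    · simp only [if_pos (show n ≤ s by omega), if_pos (show n + 1 ≤ s by omega)]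
      exact h3 n (by omega)
    · by_cases h' : n = s
      · subst h'
        simp only [le_refl, if_true, if_neg (show ¬ n + 1 ≤ n by omega)]
        exact he
      · by_cases h'' : n = s + 1
        · subst h''
          simp only [if_neg (show ¬ s + 1 ≤ s by omega), if_true,
            if_neg (show ¬ s + 1 + 1 ≤ s by omega), if_neg (show ¬ s + 1 + 1 = s + 1 by omega)]
          have e1 : s + 1 + 1 + (t - s - 2) = t := by omega
          rw [e1]
          exact he'
        · simp only [if_neg (show ¬ n ≤ s by omega), if_neg h'',
            if_neg (show ¬ n + 1 ≤ s by omega), if_neg (show ¬ n + 1 = s + 1 by omega)]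
          have e1 : n + 1 + (t - s - 2) = n + (t - s - 2) + 1 := by omega
          rw [e1]
          exact h3 _ (by omega)

/-- A shortest path. -/
private theorem algPath2_shortest {I : Type*} [Fintype I] (A : I → I → Prop) (i : I)
    (hconn : ∀ S : Finset I, i ∉ S → S.Nonempty → (∃ t, t ≠ i ∧ t ∉ S) →
      ∃ s ∈ S, ∃ t, t ≠ i ∧ t ∉ S ∧ A s t) (j k : I) (hji : j ≠ i) (hki : k ≠ i) :
    ∃ (d : ℕ) (x : ℕ → I), x 0 = j ∧ x d = k ∧ (∀ s ≤ d, x s ≠ i) ∧
      (∀ s < d, A (x s) (x (s + 1))) ∧ (∀ s ≤ d, ∀ t ≤ d, x s = x t → s = t) ∧
      (∀ s t, s + 1 < t → t ≤ d → ¬ A (x s) (x t)) ∧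
      (∀ y, y ≠ i → ∀ s t, s + 2 < t → t ≤ d → A (x s) y → ¬ A y (x t)) := by
  classical
  have hex : ∃ d, ∃ x, AlgPath2W A i j k d x := by
    by_contra hcon
    let S : Finset I := Finset.univ.filter fun v => ∃ d x, AlgPath2W A i j v d x
    have hSm : ∀ v, v ∈ S ↔ ∃ d x, AlgPath2W A i j v d x := fun v => by
      simp only [S, Finset.mem_filter, Finset.mem_univ, true_and]
    have hiS : i ∉ S := by
      rw [hSm]
      rintro ⟨d, x, -, h1, h2, -⟩
      exact h2 d le_rfl h1
    have hjS : j ∈ S := (hSm j).2 ⟨0, fun _ => j, rfl, rfl, fun _ _ => hji, fun s hs => by omega⟩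
    have hkS : k ∉ S := fun h => hcon ((hSm k).1 h)
    obtain ⟨s, hs, t, hti, htS, hst⟩ := hconn S hiS ⟨j, hjS⟩ ⟨k, hki, hkS⟩
    obtain ⟨d, x, h0, h1, h2, h3⟩ := (hSm s).1 hs
    apply htS
    rw [hSm]
    refine ⟨d + 1, fun n => if n ≤ d then x n else t, ?_, ?_, ?_, ?_⟩
    · simp only [Nat.zero_le, if_true]
      exact h0
    · simp only [if_neg (show ¬ d + 1 ≤ d by omega)]
    · intro n hn
      by_cases h : n ≤ d
      · simp only [if_pos h]
        exact h2 n h
      · simp only [if_neg h]
        exact hti
    · intro n hn
      by_cases h : n < d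
      · simp only [if_pos (show n ≤ d by omega), if_pos (show n + 1 ≤ d by omega)]
        exact h3 n h
      · have e1 : n = d := by omega
        subst e1
        simp only [le_refl, if_true, if_neg (show ¬ n + 1 ≤ n by omega)]
        rw [h1]
        exact hst
  obtain ⟨x, hx⟩ := Nat.find_spec hex
  have hmin : ∀ d' < Nat.find hex, ¬ ∃ x, AlgPath2W A i j k d' x := fun d' hd' =>
    Nat.find_min hex hd'
  obtain ⟨d, hd⟩ : ∃ d, d = Nat.find hex := ⟨_, rfl⟩
  rw [← hd] at hx hmin
  have hinj' : ∀ s t, s < t → t ≤ d → x s ≠ x t := fun s t hst htd he =>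
    hmin _ (by omega) (algPath2_cut_eq hx hst htd he)
  refine ⟨d, x, hx.1, hx.2.1, hx.2.2.1, hx.2.2.2, ?_, ?_, ?_⟩
  · intro s hs t ht he
    rcases lt_trichotomy s t with h | h | h
    · exact absurd he (hinj' s t h ht)
    · exact h
    · exact absurd he.symm (hinj' t s h hs)
  · exact fun s t hst htd he => hmin _ (by omega) (algPath2_cut_adj hx (by omega) htd he)
  · exact fun y hy s t hst htd he he' => hmin _ (by omega)
      (algPath2_cut_via hx hst htd hy he he')

open Classical in
/-- The number of edges of a graph whose vertices are `i`, `y` and those of an induced path. -/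
private theorem algPath2_count {I : Type*} [Fintype I] {A : I → I → Prop}
    (hsymm : ∀ i j, A i j → A j i) (hirr : ∀ i, ¬ A i i) {d : ℕ} {x : ℕ → I}
    (hchord : ∀ s t, s + 1 < t → t ≤ d → ¬ A (x s) (x t)) (i y : I) (S T : Finset I)
    (hv : ∀ v, v = i ∨ v = y ∨ ∃ s ≤ d, x s = v)
    (hS : i ≠ y → ∀ v, A i v → (v ∈ S ∨ v = y)) (hT : ∀ v, A y v → v ∈ T) :
    (Finset.univ.filter (fun z : I × I => A z.1 z.2)).card ≤ 2 * S.card + 2 * T.card + 2 * d := by
  have hsub : (Finset.univ.filter (fun z : I × I => A z.1 z.2)) ⊆
      (S.image fun v => (i, v)) ∪ (S.image fun v => (v, i)) ∪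
        ((T.image fun v => (y, v)) ∪ (T.image fun v => (v, y))) ∪
        (((Finset.range d).image fun s => (x s, x (s + 1))) ∪
          ((Finset.range d).image fun s => (x (s + 1), x s))) := by
    rintro ⟨u, v⟩ huv
    have huv : A u v := (Finset.mem_filter.1 huv).2
    simp only [Finset.mem_union, Finset.mem_image, Finset.mem_range, Prod.mk.injEq]
    by_cases huy : u = y
    · subst huy
      exact Or.inl (Or.inr (Or.inl ⟨v, hT v huv, rfl, rfl⟩))
    by_cases hvy : v = y
    · subst hvy
      exact Or.inl (Or.inr (Or.inr ⟨u, hT u (hsymm _ _ huv), rfl, rfl⟩))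
    rcases hv u with rfl | h | ⟨s, hs, hsu⟩
    · exact Or.inl (Or.inl (Or.inl ⟨v, (hS huy v huv).resolve_right hvy, rfl, rfl⟩))
    · exact absurd h huy
    · rcases hv v with rfl | h | ⟨t, ht, htv⟩
      · exact Or.inl (Or.inl (Or.inr ⟨u, (hS hvy u (hsymm _ _ huv)).resolve_right huy, rfl, rfl⟩))
      · exact absurd h hvy
      · subst hsu htv
        rcases lt_trichotomy s t with h | h | h
        · have h1 : t = s + 1 := by
            by_contra hne
            exact hchord s t (by omega) ht huv
          exact Or.inr (Or.inl ⟨s, by omega, rfl, by rw [h1]⟩)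
        · subst h
          exact absurd huv (hirr _)
        · have h1 : s = t + 1 := by
            by_contra hne
            exact hchord t s (by omega) hs (hsymm _ _ huv)
          exact Or.inr (Or.inr ⟨t, by omega, by rw [h1], rfl⟩)
  have h1 := Finset.card_le_card hsub
  have h2 := Finset.card_union_le ((S.image fun v => (i, v)) ∪ (S.image fun v => (v, i)) ∪
        ((T.image fun v => (y, v)) ∪ (T.image fun v => (v, y))))
        (((Finset.range d).image fun s => (x s, x (s + 1))) ∪
          ((Finset.range d).image fun s => (x (s + 1), x s)))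
  have h3 := Finset.card_union_le ((S.image fun v => (i, v)) ∪ (S.image fun v => (v, i)))
        ((T.image fun v => (y, v)) ∪ (T.image fun v => (v, y)))
  have h4 := Finset.card_union_le (S.image fun v => (i, v)) (S.image fun v => (v, i))
  have h5 := Finset.card_union_le (T.image fun v => (y, v)) (T.image fun v => (v, y))
  have h6 := Finset.card_union_le ((Finset.range d).image fun s => (x s, x (s + 1)))
          ((Finset.range d).image fun s => (x (s + 1), x s))
  have h7 : (S.image fun v => (i, v)).card ≤ S.card := Finset.card_image_le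
  have h8 : (S.image fun v => (v, i)).card ≤ S.card := Finset.card_image_le
  have h9 : (T.image fun v => (y, v)).card ≤ T.card := Finset.card_image_le
  have h10 : (T.image fun v => (v, y)).card ≤ T.card := Finset.card_image_le
  have h11 : ((Finset.range d).image fun s => (x s, x (s + 1))).card ≤ d :=
    Finset.card_image_le.trans (Finset.card_range d).le
  have h12 : ((Finset.range d).image fun s => (x (s + 1), x s)).card ≤ d :=
    Finset.card_image_le.trans (Finset.card_range d).le
  omega

open Classical in
/-- A graph `A` on `m + 2` vertices such that all `Γ - i` are connected, a function `P i j` on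
ordered edges. `hR`: `P i (x 0) = P i (x d)` if `i, x 0, …, x d` is a cycle with at most `m`
vertices. `h4`: in a cycle `x 0, …, x m` with `m + 1` vertices, if `P` differs at `x 0` on the two
cycle edges then it differs at all cycle vertices. `hE`: at least `m + 4` edges.

Paper proof. Suppose `P i j ≠ P i k`. Take a shortest path `x 0 = j, …, x d = k` in `Γ - i`
(exists by `hconn`). By `hR`, `d ≥ m - 1`; it has `d + 1 ≤ m + 1` vertices, so `d ∈ {m - 1, m}`.
The path is induced. We show that there are at most `m + 3` edges, a contradiction.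

Case `d = m`: the path contains all vertices but `i`. If `i ~ x s` with `2 ≤ s ≤ m - 2`, then `hR`
for `x 0, …, x s` and for `x s, …, x m` gives `P i (x 0) = P i (x s) = P i (x m)`, no. If `i ~ x 1`
and `i ~ x (m-1)`: `P i (x 0) = P i (x 1)`, `P i (x 1) = P i (x (m-1))` (path `x 1, …, x (m-1)`),
`P i (x (m-1)) = P i (x m)`, no. So there are at most `m + 2 + 1` edges.

Case `d = m - 1`: one more vertex `y`. If `i ~ x s`, `0 < s < m - 1`: `hR` for `x 0, …, x s` and
`x s, …, x (m-1)` gives a contradiction. If `y ~ x s` and `y ~ x t` then `|s - t| ≤ 2` (shortest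
path). It remains to show that `y` has at most two neighbours (then there are at most
`(m - 1) + 2 + 2 = m + 3` edges). The cycle `i, x 0, …, x (m-1)` has `m + 1` vertices, so by `h4`
`P` differs at each of its vertices on the two cycle edges.
 (a) `y ≁ i`, `y` has three path neighbours: they are `x (s-1), x s, x (s+1)`, and `hR` for the
 triangles gives `P (x s) (x (s-1)) = P (x s) y = P (x s) (x (s+1))`, contradiction to `h4`.
 (b) `y ~ i`, `y ~ x s`, `y ~ x t`, `s < t`. If `s + 3 ≤ m` and `t ≥ 2`: `hR` for
 `x 0, …, x s, y` and for `y, x t, …, x (m-1)` gives `P i (x 0) = P i y = P i (x (m-1))`, no. So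
 `(s, t) = (0, 1)` or `(s, t) = (m - 2, m - 1)`. In the first case the triangles `x 0, i, y` and
 `x 0, y, x 1` give `P (x 0) i = P (x 0) y = P (x 0) (x 1)`, contradiction to `h4`; the second case
 is the same at `x (m-1)`. -/
theorem path_lemma2 {I : Type*} [Fintype I] {m : ℕ} (hm : 3 ≤ m)
    (hI : Fintype.card I = m + 2) (A : I → I → Prop) (hsymm : ∀ i j, A i j → A j i)
    (hirr : ∀ i, ¬ A i i)
    (hE : 2 * m + 6 < (Finset.univ.filter (fun z : I × I => A z.1 z.2)).card)
    (hconn : ∀ i : I, ∀ S : Finset I, i ∉ S → S.Nonempty → (∃ t, t ≠ i ∧ t ∉ S) →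
      ∃ s ∈ S, ∃ t, t ≠ i ∧ t ∉ S ∧ A s t)
    (P : I → I → ℝ)
    (hR : ∀ (i : I) (d : ℕ) (x : ℕ → I), d + 2 ≤ m → (∀ s ≤ d, ∀ t ≤ d, x s = x t → s = t) →
      (∀ s ≤ d, x s ≠ i) → (∀ s < d, A (x s) (x (s + 1))) → A i (x 0) → A i (x d) →
      P i (x 0) = P i (x d))
    (h4 : ∀ x : ℕ → I, (∀ s ≤ m, ∀ t ≤ m, x s = x t → s = t) →
      (∀ s < m, A (x s) (x (s + 1))) → A (x m) (x 0) → P (x 0) (x 1) ≠ P (x 0) (x m) →
      (∀ s, 0 < s → s < m → P (x s) (x (s + 1)) ≠ P (x s) (x (s - 1))) ∧
        P (x m) (x 0) ≠ P (x m) (x (m - 1)))
    (i j k : I) (hj : A i j) (hk : A i k) : P i j = P i k := by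
  by_contra hne
  have hji : j ≠ i := fun h => hirr i (h ▸ hj)
  have hki : k ≠ i := fun h => hirr i (h ▸ hk)
  have hAne : ∀ u v, A u v → u ≠ v := fun u v h h1 => hirr u (by rw [← h1] at h; exact h)
  -- triangles
  have htri : ∀ c u v, A c u → A c v → A u v → P c u = P c v := by
    intro c u v hcu hcv huv
    have e1 := hR c 1 (fun n => if n = 0 then u else v) (by omega) (by
      intro s hs t ht he
      by_cases e1 : s = 0
      · by_cases e2 : t = 0
        · omega
        · simp only [if_pos e1, if_neg e2] at he
          exact absurd he (hAne _ _ huv)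
      · by_cases e2 : t = 0
        · simp only [if_neg e1, if_pos e2] at he
          exact absurd he.symm (hAne _ _ huv)
        · omega) (by
      intro s hs
      by_cases e1 : s = 0
      · simp only [if_pos e1]
        exact (hAne _ _ hcu).symm
      · simp only [if_neg e1]
        exact (hAne _ _ hcv).symm) (by
      intro s hs
      obtain rfl : s = 0 := by omega
      simpa using huv) (by simpa using hcu) (by simpa using hcv)
    simpa using e1
  obtain ⟨d, x, h0, h1, h2, h3, hinj, hchord, hvia⟩ :=
    algPath2_shortest A i (hconn i) j k hji hki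
  -- segments of the path
  have hseg : ∀ s t, s ≤ t → t ≤ d → t - s + 2 ≤ m → A i (x s) → A i (x t) →
      P i (x s) = P i (x t) := by
    intro s t hst htd hm' hs ht
    have e1 := hR i (t - s) (fun n => x (n + s)) hm' (by
      intro u hu v hv he
      have := hinj (u + s) (by omega) (v + s) (by omega) he
      omega) (fun u hu => h2 _ (by omega)) (by
      intro u hu
      have e2 := h3 (u + s) (by omega)
      rwa [show u + s + 1 = u + 1 + s by omega] at e2) (by simpa using hs) (by
        simp only [Nat.sub_add_cancel hst]
        exact ht)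
    simp only [Nat.zero_add, Nat.sub_add_cancel hst] at e1
    exact e1
  have hne' : P i (x 0) ≠ P i (x d) := by
    rw [h0, h1]
    exact hne
  have hix0 : A i (x 0) := by rw [h0]; exact hj
  have hixd : A i (x d) := by rw [h1]; exact hk
  have hdm : m < d + 2 := by
    by_contra hlt
    exact hne' (hseg 0 d (Nat.zero_le _) le_rfl (by omega) hix0 hixd)
  -- the vertices of the path and `i`
  set T : Finset I := insert i ((Finset.range (d + 1)).image x) with hT
  have hiT : i ∉ (Finset.range (d + 1)).image x := by
    rw [Finset.mem_image]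
    rintro ⟨s, hs, he⟩
    exact h2 s (by rw [Finset.mem_range] at hs; omega) he
  have hTc : T.card = d + 2 := by
    rw [hT, Finset.card_insert_of_notMem hiT, Finset.card_image_of_injOn, Finset.card_range]
    intro s hs t ht he
    rw [Finset.coe_range, Set.mem_Iio] at hs ht
    exact hinj s (by omega) t (by omega) he
  have hTcc : (Tᶜ).card = m - d := by
    rw [Finset.card_compl, hI, hTc]
    omega
  have hdle : d ≤ m := by
    have := Finset.card_le_univ T
    rw [hTc, hI] at this
    omega
  have hTm : ∀ v, v ∈ T → v = i ∨ ∃ s ≤ d, x s = v := by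
    intro v hv
    rw [hT, Finset.mem_insert, Finset.mem_image] at hv
    rcases hv with h | ⟨s, hs, he⟩
    · exact Or.inl h
    · exact Or.inr ⟨s, by rw [Finset.mem_range] at hs; omega, he⟩
  rcases Nat.lt_or_ge d m with hdm2 | hdm2
  · -- `d = m - 1`
    obtain rfl : m = d + 1 := by omega
    obtain ⟨y, hy⟩ : ∃ y, Tᶜ = {y} := Finset.card_eq_one.1 (by omega)
    have hyT : y ∉ T := by
      rw [← Finset.mem_compl, hy]
      exact Finset.mem_singleton_self y
    have hyi : y ≠ i := fun h => hyT (by rw [hT, h]; exact Finset.mem_insert_self _ _)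
    have hyx : ∀ s ≤ d, x s ≠ y := by
      intro s hs he
      apply hyT
      rw [hT, ← he]
      exact Finset.mem_insert_of_mem (Finset.mem_image_of_mem x (Finset.mem_range.2 (by omega)))
    have hall : ∀ v, v = i ∨ v = y ∨ ∃ s ≤ d, x s = v := by
      intro v
      by_cases hv : v ∈ T
      · rcases hTm v hv with h | h
        · exact Or.inl h
        · exact Or.inr (Or.inr h)
      · have e1 : v ∈ Tᶜ := Finset.mem_compl.2 hv
        rw [hy, Finset.mem_singleton] at e1
        exact Or.inr (Or.inl e1)
    -- the cycle `i, x 0, …, x d`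
    have hcyc := h4 (fun n => if n = 0 then i else x (n - 1)) (by
      intro s hs t ht he
      by_cases e1 : s = 0
      · by_cases e2 : t = 0
        · omega
        · simp only [if_pos e1, if_neg e2] at he
          exact absurd he.symm (h2 _ (by omega))
      · by_cases e2 : t = 0
        · simp only [if_neg e1, if_pos e2] at he
          exact absurd he (h2 _ (by omega))
        · simp only [if_neg e1, if_neg e2] at he
          have := hinj _ (by omega) _ (by omega) he
          omega) (by
      intro s hs
      by_cases e1 : s = 0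
      · subst e1
        simpa using hix0
      · simp only [if_neg e1, if_neg (show s + 1 ≠ 0 by omega)]
        have e2 := h3 (s - 1) (by omega)
        rwa [show s - 1 + 1 = s + 1 - 1 by omega] at e2) (by
      simp only [if_neg (show d + 1 ≠ 0 by omega), if_true, Nat.add_sub_cancel]
      exact hsymm _ _ hixd) (by
      simp only [if_true, if_neg (show (1 : ℕ) ≠ 0 by omega), Nat.sub_self,
        if_neg (show d + 1 ≠ 0 by omega), Nat.add_sub_cancel]
      exact hne')
    have hcyc0 : P (x 0) (x 1) ≠ P (x 0) i := by
      have e1 := hcyc.1 1 (by omega) (by omega)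
      simpa using e1
    have hcycs : ∀ s, 0 < s → s < d → P (x s) (x (s + 1)) ≠ P (x s) (x (s - 1)) := by
      intro s hs hsd
      have e1 := hcyc.1 (s + 1) (by omega) (by omega)
      simp only [if_neg (show s + 1 ≠ 0 by omega), if_neg (show s + 1 + 1 ≠ 0 by omega),
        Nat.add_sub_cancel, if_neg (show s ≠ 0 by omega)] at e1
      exact e1
    have hcycd : P (x d) i ≠ P (x d) (x (d - 1)) := by
      have e1 := hcyc.2
      simp only [if_neg (show d + 1 ≠ 0 by omega), if_true, Nat.add_sub_cancel,
        if_neg (show d ≠ 0 by omega)] at e1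
      exact e1
    -- neighbours of `i`
    have hNi : ∀ s, 0 < s → s < d → ¬ A i (x s) := by
      intro s hs hsd h
      exact hne' ((hseg 0 s (by omega) (by omega) (by omega) hix0 h).trans
        (hseg s d (by omega) le_rfl (by omega) h hixd))
    -- neighbours of `y` on the path
    set Sy : Finset ℕ := (Finset.range (d + 1)).filter fun s => A y (x s) with hSy
    have hSym : ∀ s, s ∈ Sy ↔ s ≤ d ∧ A y (x s) := fun s => by
      rw [hSy, Finset.mem_filter, Finset.mem_range, Nat.lt_succ_iff]
    have hSyd : ∀ s ∈ Sy, ∀ t ∈ Sy, t ≤ s + 2 := by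
      intro s hs t ht
      by_contra hlt
      exact hvia y hyi s t (by omega) ((hSym t).1 ht).1 (hsymm _ _ ((hSym s).1 hs).2)
        ((hSym t).1 ht).2
    have hNy : ∀ v, A y v → v ∈ insert i (Sy.image x) := by
      intro v hv
      rcases hall v with h | h | ⟨s, hs, h⟩
      · rw [h]
        exact Finset.mem_insert_self _ _
      · exact absurd h.symm (hAne _ _ hv)
      · rw [← h] at hv ⊢
        exact Finset.mem_insert_of_mem (Finset.mem_image_of_mem x ((hSym s).2 ⟨hs, hv⟩))
    -- the number of edges
    have hcount : ∀ N : Finset I, (∀ v, A y v → v ∈ N) → N.card ≤ 2 → False := by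
      intro N hN hNc
      have e1 := algPath2_count hsymm hirr hchord i y {x 0, x d} N hall (by
        intro _ v hv
        rcases hall v with h | h | ⟨s, hs, h⟩
        · exact absurd h.symm (hAne _ _ hv)
        · exact Or.inr h
        · left
          rw [← h] at hv ⊢
          rw [Finset.mem_insert, Finset.mem_singleton]
          by_cases hs0 : s = 0
          · left; rw [hs0]
          · by_cases hsd : s = d
            · right; rw [hsd]
            · exact absurd hv (hNi s (by omega) (by omega))) hN
      have e2 : ({x 0, x d} : Finset I).card ≤ 2 := Finset.card_le_two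
      omega
    by_cases hiy : A y i
    · -- (b)
      have hpair : ∀ s ∈ Sy, ∀ t ∈ Sy, s < t → False := by
        intro s hs t ht hst
        obtain ⟨hsd, hys⟩ := (hSym s).1 hs
        obtain ⟨htd, hyt⟩ := (hSym t).1 ht
        by_cases hcase : s + 3 ≤ d + 1 ∧ 2 ≤ t
        · have e1 := hR i (s + 1) (fun n => if n ≤ s then x n else y) (by omega) (by
            intro u hu v hv he
            by_cases e1 : u ≤ s
            · by_cases e2 : v ≤ s
              · simp only [if_pos e1, if_pos e2] at he
                exact hinj u (by omega) v (by omega) he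
              · simp only [if_pos e1, if_neg e2] at he
                exact absurd he (hyx u (by omega))
            · by_cases e2 : v ≤ s
              · simp only [if_neg e1, if_pos e2] at he
                exact absurd he.symm (hyx v (by omega))
              · omega) (by
            intro u hu
            by_cases e1 : u ≤ s
            · simp only [if_pos e1]
              exact h2 u (by omega)
            · simp only [if_neg e1]
              exact hyi) (by
            intro u hu
            by_cases e1 : u = s
            · subst e1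
              simp only [le_refl, if_true, if_neg (show ¬ u + 1 ≤ u by omega)]
              exact hsymm _ _ hys
            · simp only [if_pos (show u ≤ s by omega), if_pos (show u + 1 ≤ s by omega)]
              exact h3 u (by omega)) (by simpa using hix0) (by
            simp only [if_neg (show ¬ s + 1 ≤ s by omega)]
            exact hsymm _ _ hiy)
          simp only [Nat.zero_le, if_true, if_neg (show ¬ s + 1 ≤ s by omega)] at e1
          have e2 := hR i (d + 1 - t) (fun n => if n = 0 then y else x (n - 1 + t)) (by omega) (by
            intro u hu v hv he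
            by_cases e1 : u = 0
            · by_cases e2 : v = 0
              · omega
              · simp only [if_pos e1, if_neg e2] at he
                exact absurd he.symm (hyx _ (by omega))
            · by_cases e2 : v = 0
              · simp only [if_neg e1, if_pos e2] at he
                exact absurd he (hyx _ (by omega))
              · simp only [if_neg e1, if_neg e2] at he
                have := hinj _ (by omega) _ (by omega) he
                omega) (by
            intro u hu
            by_cases e1 : u = 0
            · simp only [if_pos e1]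
              exact hyi
            · simp only [if_neg e1]
              exact h2 _ (by omega)) (by
            intro u hu
            by_cases e1 : u = 0
            · subst e1
              simp only [if_true, if_neg (show 0 + 1 ≠ 0 by omega),
                show 0 + 1 - 1 + t = t by omega]
              exact hyt
            · simp only [if_neg e1, if_neg (show u + 1 ≠ 0 by omega)]
              have e2 := h3 (u - 1 + t) (by omega)
              rwa [show u - 1 + t + 1 = u + 1 - 1 + t by omega] at e2) (by
            simpa using hsymm _ _ hiy) (by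
            simp only [if_neg (show d + 1 - t ≠ 0 by omega),
              show d + 1 - t - 1 + t = d by omega]
            exact hixd)
          simp only [if_true, if_neg (show d + 1 - t ≠ 0 by omega),
            show d + 1 - t - 1 + t = d by omega] at e2
          exact hne' (e1.trans e2)
        · rcases Nat.lt_or_ge t 2 with ht2 | ht2
          · obtain rfl : s = 0 := by omega
            obtain rfl : t = 1 := by omega
            have e1 := htri (x 0) i y (hsymm _ _ hix0) (hsymm _ _ hys) (hsymm _ _ hiy)
            have e2 := htri (x 0) y (x 1) (hsymm _ _ hys) (h3 0 (by omega)) hyt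
            exact hcyc0 (e1.trans e2).symm
          · obtain rfl : t = d := by omega
            obtain rfl : s = t - 1 := by omega
            have e0 : A (x t) (x (t - 1)) := by
              have e3 := h3 (t - 1) (by omega)
              rw [show t - 1 + 1 = t by omega] at e3
              exact hsymm _ _ e3
            have e1 := htri (x t) i y (hsymm _ _ hixd) (hsymm _ _ hyt) (hsymm _ _ hiy)
            have e2 := htri (x t) y (x (t - 1)) (hsymm _ _ hyt) e0 hys
            exact hcycd (e1.trans e2)
      have hSyc : Sy.card ≤ 1 := by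
        rw [Finset.card_le_one]
        intro s hs t ht
        rcases lt_trichotomy s t with h | h | h
        · exact (hpair s hs t ht h).elim
        · exact h
        · exact (hpair t ht s hs h).elim
      refine hcount _ hNy ?_
      have e1 := Finset.card_insert_le i (Sy.image x)
      have e2 : (Sy.image x).card ≤ Sy.card := Finset.card_image_le
      omega
    · -- (a)
      have hNy' : ∀ v, A y v → v ∈ Sy.image x := by
        intro v hv
        rcases Finset.mem_insert.1 (hNy v hv) with h | h
        · rw [h] at hv
          exact absurd hv hiy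
        · exact h
      have hSyc : Sy.card ≤ 2 := by
        by_contra hlt
        have hne : Sy.Nonempty := Finset.card_pos.1 (by omega)
        obtain ⟨a, ha⟩ : ∃ a, a = Sy.min' hne := ⟨_, rfl⟩
        have haS : a ∈ Sy := by rw [ha]; exact Finset.min'_mem _ _
        have hsub : Sy ⊆ {a, a + 1, a + 2} := by
          intro s hs
          have e1 : a ≤ s := by rw [ha]; exact Finset.min'_le _ _ hs
          have e2 := hSyd a haS s hs
          rw [Finset.mem_insert, Finset.mem_insert, Finset.mem_singleton]
          omega
        have heq : Sy = {a, a + 1, a + 2} := Finset.eq_of_subset_of_card_le hsub (by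
          have e1 : ({a, a + 1, a + 2} : Finset ℕ).card ≤ 3 := Finset.card_le_three
          omega)
        obtain ⟨-, hy0⟩ := (hSym a).1 haS
        obtain ⟨hd1, hy1⟩ := (hSym (a + 1)).1 (by rw [heq]; simp)
        obtain ⟨hd2, hy2⟩ := (hSym (a + 2)).1 (by rw [heq]; simp)
        have e1 := htri (x (a + 1)) (x a) y (hsymm _ _ (h3 a (by omega))) (hsymm _ _ hy1)
          (hsymm _ _ hy0)
        have e2 := htri (x (a + 1)) y (x (a + 2)) (hsymm _ _ hy1) (h3 (a + 1) (by omega)) hy2
        have e3 := hcycs (a + 1) (by omega) (by omega)
        rw [Nat.add_sub_cancel] at e3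
        exact e3 (e1.trans e2).symm
      refine hcount _ hNy' ?_
      have e2 : (Sy.image x).card ≤ Sy.card := Finset.card_image_le
      omega
  · -- `d = m`
    obtain rfl : m = d := by omega
    have hall : ∀ v, v = i ∨ ∃ s ≤ m, x s = v := by
      intro v
      refine hTm v ?_
      by_contra hv
      have e1 : 0 < (Tᶜ).card := Finset.card_pos.2 ⟨v, Finset.mem_compl.2 hv⟩
      omega
    have hmid : ∀ s, 2 ≤ s → s + 2 ≤ m → ¬ A i (x s) := by
      intro s hs hsm h
      exact hne' ((hseg 0 s (by omega) (by omega) (by omega) hix0 h).trans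
        (hseg s m (by omega) le_rfl (by omega) h hixd))
    have hboth : ¬ (A i (x 1) ∧ A i (x (m - 1))) := by
      rintro ⟨e1, e2⟩
      exact hne' (((hseg 0 1 (by omega) (by omega) (by omega) hix0 e1).trans
        (hseg 1 (m - 1) (by omega) (by omega) (by omega) e1 e2)).trans
          (hseg (m - 1) m (by omega) le_rfl (by omega) e2 hixd))
    obtain ⟨b, hb⟩ : ∃ b, ∀ s, s ≤ m → A i (x s) → s = 0 ∨ s = m ∨ s = b := by
      by_cases e1 : A i (x 1)
      · refine ⟨1, fun s hs hA => ?_⟩
        by_contra hcon
        have e2 : s = m - 1 ∨ (2 ≤ s ∧ s + 2 ≤ m) := by omega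
        rcases e2 with e2 | ⟨e2, e3⟩
        · exact hboth ⟨e1, e2 ▸ hA⟩
        · exact hmid s e2 e3 hA
      · refine ⟨m - 1, fun s hs hA => ?_⟩
        by_contra hcon
        have e2 : s = 1 ∨ (2 ≤ s ∧ s + 2 ≤ m) := by omega
        rcases e2 with e2 | ⟨e2, e3⟩
        · exact e1 (e2 ▸ hA)
        · exact hmid s e2 e3 hA
    have e1 := algPath2_count hsymm hirr hchord i i ∅ {x 0, x m, x b} (by
      intro v
      rcases hall v with h | h
      · exact Or.inl h
      · exact Or.inr (Or.inr h)) (fun h => absurd rfl h) (by
      intro v hv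
      rcases hall v with h | ⟨s, hs, h⟩
      · exact absurd h.symm (hAne _ _ hv)
      · rw [← h] at hv ⊢
        rcases hb s hs hv with h | h | h <;> simp [h])
    have e2 : ({x 0, x m, x b} : Finset I).card ≤ 3 := Finset.card_le_three
    rw [Finset.card_empty] at e1
    omega

end MP80b30d
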