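import Mathlib

/-! MP_80b30d_gt: one row of the cubic form. -/

namespace MP80b30d

variable {W : Type*} [AddCommGroup W] [Module ℝ W]

/-- Paper proof: `B' = B - κ H` vanishes on the orthogonal complement of `a` (polarize). With
`e = a / H a a` take `v k = B' e k - (1/2) H a k * B' e e`. -/
theorem cubic_row (H B : W →ₗ[ℝ] W →ₗ[ℝ] ℝ) (hH : ∀ x y, H x y = H y x)
    (hpos : ∀ x, x ≠ 0 → 0 < H x x) (hB : ∀ x y, B x y = B y x) {a : W} (ha : a ≠ 0) {κ : ℝ}
    (hκ : ∀ w, H a w = 0 → B w w = κ * H w w) :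
    ∃ v : W →ₗ[ℝ] ℝ, ∀ h k, B h k = κ * H h k + H a h * v k + H a k * v h := by
  have haa : 0 < H a a := hpos a ha
  obtain ⟨e, he⟩ : ∃ e : W, H a e = 1 := by
    refine ⟨(H a a)⁻¹ • a, ?_⟩
    rw [map_smul, smul_eq_mul, inv_mul_cancel₀ haa.ne']
  -- polarization on the orthogonal complement of `a`
  have hpol : ∀ x y, H a x = 0 → H a y = 0 → B x y = κ * H x y := by
    intro x y hx hy
    have h1 := hκ (x + y) (by rw [map_add, hx, hy, add_zero])
    have h2 := hκ x hx
    have h3 := hκ y hy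
    simp only [map_add, LinearMap.add_apply] at h1
    have h4 := hB x y
    have h5 := hH x y
    linear_combination (1 / 2) * (h1 - h2 - h3) + (1 / 2) * h4 - κ / 2 * h5
  refine ⟨B e - κ • H e - (1 / 2 * (B e e - κ * H e e)) • H a, fun h k => ?_⟩
  have h1 : H a (h - (H a h) • e) = 0 := by
    rw [map_sub, map_smul, he, smul_eq_mul, mul_one, sub_self]
  have h2 : H a (k - (H a k) • e) = 0 := by
    rw [map_sub, map_smul, he, smul_eq_mul, mul_one, sub_self]
  have h3 := hpol _ _ h1 h2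
  simp only [map_sub, map_smul, LinearMap.sub_apply, LinearMap.smul_apply, smul_eq_mul] at h3 ⊢
  have h4 := hB h e
  have h5 := hH h e
  linear_combination h3 + H a k * h4 - κ * H a k * h5

/-- comparison of two rows, `C` symmetric in the first two arguments -/
theorem rows_compare (H : W →ₗ[ℝ] W →ₗ[ℝ] ℝ) (hH : ∀ x y, H x y = H y x)
    (C : W →ₗ[ℝ] W →ₗ[ℝ] W →ₗ[ℝ] ℝ) (hC : ∀ x y z, C x y z = C y x z) {a b : W} {κ κ' : ℝ}
    {v v' : W →ₗ[ℝ] ℝ} (h1 : ∀ h k, C a h k = κ * H h k + H a h * v k + H a k * v h)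
    (h2 : ∀ h k, C b h k = κ' * H h k + H b h * v' k + H b k * v' h) :
    H a b • (v - v') = (κ' - v b) • H a - (κ - v' a) • H b := by
  ext k
  have h3 := h1 b k
  have h4 := h2 a k
  have h5 := hC a b k
  have h6 := hH a b
  simp only [LinearMap.smul_apply, LinearMap.sub_apply, smul_eq_mul]
  linear_combination h4 - h3 + h5 - v' k * h6

end MP80b30d
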