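import Pool.Agent.Lib.MP_80b30d_gt.Defs

/-! MP_80b30d_gt: basic facts on graph charts. -/

namespace MP80b30d

open Set Filter Topology Metric

variable {m n : ℕ} {K : Set (E n)} {Ψ : (E m × ℝ) ≃L[ℝ] E n} {f : E m → ℝ} {x : E m}

/-- charts are charts at all nearby points -/
theorem Chart.eventually (h : Chart K Ψ f x) : ∀ᶠ x' in 𝓝 x, Chart K Ψ f x' := by
  have h1 : ∀ᶠ x' in 𝓝 x, ContDiffAt ℝ 3 f x' := h.smooth.eventually (by decide)
  have hc : ContinuousAt (fun x' : E m => ((x', f x') : E m × ℝ)) x :=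
    continuousAt_id.prodMk h.smooth.continuousAt
  have h2 := hc.tendsto.eventually h.mem.eventually_nhds
  filter_upwards [h1, h2] with x' h3 h4
  exact ⟨h3, h4⟩

private theorem chartA_frontier {f : E m → ℝ} {L : Set (E m × ℝ)} {z : E m × ℝ}
    (hc : ContinuousAt f z.1) (hL : ∀ᶠ z' in 𝓝 z, (z' ∈ L ↔ f z'.1 ≤ z'.2)) :
    z ∈ frontier L ↔ z.2 = f z.1 := by
  have hc1 : ContinuousAt (fun z' : E m × ℝ => f z'.1) z :=
    ContinuousAt.comp (f := Prod.fst) hc continuousAt_fst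
  have hc2 : ContinuousAt (fun z' : E m × ℝ => z'.2) z := continuousAt_snd
  constructor
  · intro hz
    by_contra hne
    rcases lt_or_gt_of_ne hne with h1 | h1
    · have h2 : ∀ᶠ z' in 𝓝 z, z'.2 < f z'.1 := hc2.eventually_lt hc1 h1
      have h3 : ∀ᶠ z' in 𝓝 z, z' ∈ Lᶜ := by
        filter_upwards [hL, h2] with z' h4 h5 h6
        exact absurd (h4.1 h6) (not_le.2 h5)
      have h4 : z ∈ interior Lᶜ := mem_interior_iff_mem_nhds.2 h3
      rw [interior_compl] at h4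
      exact h4 hz.1
    · have h2 : ∀ᶠ z' in 𝓝 z, f z'.1 < z'.2 := hc1.eventually_lt hc2 h1
      have h3 : ∀ᶠ z' in 𝓝 z, z' ∈ L := by
        filter_upwards [hL, h2] with z' h4 h5
        exact h4.2 h5.le
      exact hz.2 (mem_interior_iff_mem_nhds.2 h3)
  · intro hz
    refine ⟨subset_closure (hL.self_of_nhds.2 hz.ge), ?_⟩
    intro hi
    have h1 : ∀ᶠ z' in 𝓝 z, z' ∈ L := mem_interior_iff_mem_nhds.1 hi
    have htend : Tendsto (fun t : ℝ => ((z.1, z.2 - t) : E m × ℝ)) (𝓝[>] (0 : ℝ)) (𝓝 z) := by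
      have h2 : Tendsto (fun t : ℝ => ((z.1, z.2 - t) : E m × ℝ)) (𝓝 (0 : ℝ))
          (𝓝 ((z.1, z.2 - 0) : E m × ℝ)) :=
        (continuous_const.prodMk (continuous_const.sub continuous_id)).tendsto 0
      rw [sub_zero] at h2
      exact h2.mono_left nhdsWithin_le_nhds
    have hpos : ∀ᶠ t in 𝓝[>] (0 : ℝ), 0 < t := self_mem_nhdsWithin
    obtain ⟨t, ⟨h3, h4⟩, h5⟩ := ((htend.eventually (hL.and h1)).and hpos).exists
    have h6 : f z.1 ≤ z.2 - t := h3.1 h4
    rw [hz] at h6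
    linarith

/-- near the point, the boundary of `K` is the graph -/
theorem Chart.bdry (h : Chart K Ψ f x) :
    ∀ᶠ z in 𝓝 ((x, f x) : E m × ℝ), (Ψ z ∈ frontier K ↔ z.2 = f z.1) := by
  have h1 : ∀ᶠ x' in 𝓝 x, ContDiffAt ℝ 3 f x' := h.smooth.eventually (by decide)
  have h2 : ∀ᶠ z in 𝓝 ((x, f x) : E m × ℝ), ContDiffAt ℝ 3 f z.1 :=
    (continuous_fst.tendsto ((x, f x) : E m × ℝ)).eventually h1
  filter_upwards [h2, h.mem.eventually_nhds] with z h3 h4
  have h5 : Ψ z ∈ frontier K ↔ z ∈ frontier (Ψ ⁻¹' K) := by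
    have h6 := Ψ.toHomeomorph.preimage_frontier K
    have h7 : (Ψ.toHomeomorph : E m × ℝ → E n) = Ψ := rfl
    rw [h7] at h6
    rw [← h6]
    rfl
  rw [h5]
  exact chartA_frontier h3.continuousAt h4

/-- the same, for points of `E n` near `p = Ψ (x, f x)` -/
theorem Chart.bdry' (h : Chart K Ψ f x) :
    ∀ᶠ y in 𝓝 (Ψ (x, f x)), (y ∈ frontier K ↔ y = Ψ ((Ψ.symm y).1, f (Ψ.symm y).1)) := by
  have hc : Tendsto (fun y : E n => Ψ.symm y) (𝓝 (Ψ (x, f x))) (𝓝 ((x, f x) : E m × ℝ)) := by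
    have h1 := Ψ.symm.continuous.tendsto (Ψ (x, f x))
    rwa [ContinuousLinearEquiv.symm_apply_apply] at h1
  filter_upwards [hc.eventually h.bdry] with y hy
  rw [ContinuousLinearEquiv.apply_symm_apply] at hy
  rw [hy]
  constructor
  · intro h1
    rw [← h1]
    exact (Ψ.apply_symm_apply y).symm
  · intro h1
    have h2 := congrArg Ψ.symm h1
    rw [ContinuousLinearEquiv.symm_apply_apply] at h2
    exact congrArg Prod.snd h2

/-- the graph points are in the boundary and in `K` -/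
theorem Chart.graph_mem (h : Chart K Ψ f x) : Ψ (x, f x) ∈ frontier K ∧ Ψ (x, f x) ∈ K :=
  ⟨h.bdry.self_of_nhds.2 rfl, h.mem.self_of_nhds.2 le_rfl⟩

end MP80b30d
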