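import Pool.Agent.Lib.MP_80b30d_gt.ChartA

/-! MP_80b30d_gt: supporting half spaces. -/

namespace MP80b30d

open Set Filter Topology Metric

variable {m n : ℕ} {K : Set (E n)} {Ψ : (E m × ℝ) ≃L[ℝ] E n} {f : E m → ℝ} {x : E m}

/-- if `K` is convex: supporting half space at a graph point. For `v ∈ K`, with
`(w, y) = Ψ.symm v - (x, f x)`, one has `Df(x) w ≤ y`
(differentiate `f (x + s w) ≤ f x + s y`, `s → 0+`). -/
theorem Chart.support (h : Chart K Ψ f x) (hK : Convex ℝ K) {v : E n} (hv : v ∈ K) :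
    fderiv ℝ f x ((Ψ.symm v).1 - x) ≤ (Ψ.symm v).2 - f x := by
  set w : E m := (Ψ.symm v).1 - x with hw
  set y : ℝ := (Ψ.symm v).2 - f x with hy
  have hp : Ψ (x, f x) ∈ K := h.graph_mem.2
  have hmem : ∀ s : ℝ, 0 ≤ s → s ≤ 1 → Ψ (x + s • w, f x + s * y) ∈ K := by
    intro s hs0 hs1
    have h1 := hK hp hv (by linarith : (0 : ℝ) ≤ 1 - s) hs0 (by ring)
    have h2 : Ψ (x + s • w, f x + s * y) = (1 - s) • Ψ (x, f x) + s • v := by
      have h3 : v = Ψ (Ψ.symm v) := (Ψ.apply_symm_apply v).symm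
      conv_rhs => rw [h3]
      rw [← map_smul, ← map_smul, ← map_add]
      congr 1
      ext1
      · simp only [hw, Prod.fst_add, Prod.smul_fst]
        rw [smul_sub, sub_smul, one_smul]
        abel
      · simp only [hy, Prod.snd_add, Prod.smul_snd, smul_eq_mul]
        ring
    rw [h2]
    exact h1
  have hcont : Tendsto (fun s : ℝ => ((x + s • w, f x + s * y) : E m × ℝ)) (𝓝 0)
      (𝓝 (x, f x)) := by
    have h1 : Continuous (fun s : ℝ => ((x + s • w, f x + s * y) : E m × ℝ)) := by fun_prop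
    have h2 := h1.tendsto 0
    simpa using h2
  have hev : ∀ᶠ s in 𝓝[>] (0 : ℝ), f (x + s • w) ≤ f x + s * y := by
    have h1 := (hcont.eventually h.mem).filter_mono (nhdsWithin_le_nhds (s := Ioi (0 : ℝ)))
    have h2 : ∀ᶠ s in 𝓝[>] (0 : ℝ), s ≤ 1 :=
      (eventually_le_nhds (zero_lt_one)).filter_mono nhdsWithin_le_nhds
    filter_upwards [h1, h2, self_mem_nhdsWithin] with s hs1 hs2 hs3
    exact hs1.1 (hmem s (le_of_lt hs3) hs2)
  have hfd : HasFDerivAt f (fderiv ℝ f x) x :=
    (h.smooth.differentiableAt (by norm_num)).hasFDerivAt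
  have hfd' : HasFDerivAt f (fderiv ℝ f x) (x + (0 : ℝ) • w) := by simpa using hfd
  have hline : HasDerivAt (fun s : ℝ => x + s • w) w 0 := by
    have := ((hasDerivAt_id (0 : ℝ)).smul_const w).const_add x
    simpa using this
  have hg : HasDerivAt (fun s : ℝ => f (x + s • w) - (f x + s * y)) (fderiv ℝ f x w - y) 0 := by
    have h1 : HasDerivAt (fun s : ℝ => f (x + s • w)) (fderiv ℝ f x w) 0 :=
      hfd'.comp_hasDerivAt (0 : ℝ) hline
    have h2 : HasDerivAt (fun s : ℝ => f x + s * y) y 0 := by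
      have := ((hasDerivAt_id (0 : ℝ)).mul_const y).const_add (f x)
      simpa using this
    exact h1.sub h2
  have hsl := (hasDerivAt_iff_tendsto_slope.1 hg).mono_left
    (nhdsWithin_mono (0 : ℝ) (fun s (hs : s ∈ Ioi (0 : ℝ)) => ne_of_gt hs))
  have hle : fderiv ℝ f x w - y ≤ 0 := by
    refine le_of_tendsto hsl ?_
    filter_upwards [hev, self_mem_nhdsWithin] with s hs1 hs2
    have hs3 : (0 : ℝ) < s := hs2
    rw [slope_def_field]
    refine div_nonpos_of_nonpos_of_nonneg ?_ (by linarith)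
    simp only [zero_smul, add_zero, zero_mul, sub_self]
    linarith
  linarith

/-- strict inequality at interior points -/
theorem Chart.support_interior (h : Chart K Ψ f x) (hK : Convex ℝ K) {v : E n}
    (hv : v ∈ interior K) : fderiv ℝ f x ((Ψ.symm v).1 - x) < (Ψ.symm v).2 - f x := by
  have hcont : Continuous (fun t : ℝ => v - t • Ψ ((0 : E m), (1 : ℝ))) := by fun_prop
  have h1 : ∀ᶠ t in 𝓝 (0 : ℝ), v - t • Ψ ((0 : E m), (1 : ℝ)) ∈ interior K := by
    refine hcont.continuousAt.eventually_mem ?_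
    simpa using isOpen_interior.mem_nhds hv
  obtain ⟨δ, hδ, hball⟩ := Metric.eventually_nhds_iff.1 h1
  have h2 : v - (δ / 2) • Ψ ((0 : E m), (1 : ℝ)) ∈ K := by
    refine interior_subset (hball ?_)
    rw [Real.dist_eq, sub_zero, abs_of_pos (by linarith)]
    linarith
  have h3 := h.support hK h2
  have e : Ψ.symm (v - (δ / 2) • Ψ ((0 : E m), (1 : ℝ))) =
      Ψ.symm v - (δ / 2) • ((0 : E m), (1 : ℝ)) := by
    rw [map_sub, map_smul, Ψ.symm_apply_apply]
  rw [e] at h3
  simp only [Prod.fst_sub, Prod.smul_fst, smul_zero, sub_zero, Prod.snd_sub, Prod.smul_snd,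
    smul_eq_mul, mul_one] at h3
  linarith

end MP80b30d
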