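import Pool.Agent.Lib.MP_80b30d_gt.Defs

/-! MP_80b30d_gt: a linear equivalence. -/

namespace MP80b30d

open Set Filter Topology Metric

theorem exists_equiv {m : ℕ} {l : E (m + 1) →L[ℝ] ℝ} (hl : l ≠ 0) :
    ∃ Ψ : (E m × ℝ) ≃L[ℝ] E (m + 1), l (Ψ (0, 1)) < 0 := by
  obtain ⟨v, hv⟩ : ∃ v, l v < 0 := by
    obtain ⟨w, hw⟩ : ∃ w, l w ≠ 0 := by
      by_contra h
      push Not at h
      exact hl (ContinuousLinearMap.ext h)
    rcases lt_or_gt_of_ne hw with h | h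
    · exact ⟨w, h⟩
    · exact ⟨-w, by simpa using h⟩
  have hv0 : v ≠ 0 := by
    rintro rfl
    simp at hv
  have hfin : Module.finrank ℝ (E m × ℝ) = Module.finrank ℝ (E (m + 1)) := by
    simp [Module.finrank_prod]
  let Ψ₀ : (E m × ℝ) ≃L[ℝ] E (m + 1) := ContinuousLinearEquiv.ofFinrankEq hfin
  have h1 : Ψ₀ (0, 1) ≠ 0 := by
    intro h
    have : ((0, 1) : E m × ℝ) = 0 := by
      apply Ψ₀.injective
      rw [h, map_zero]
    simpa using congrArg Prod.snd this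
  obtain ⟨A, hA⟩ := SeparatingDual.exists_continuousLinearEquiv_apply_eq (R := ℝ) h1 hv0
  refine ⟨Ψ₀.trans A, ?_⟩
  simpa [hA] using hv

end MP80b30d
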