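import Pool.Agent.Lib.MP_80b30d_gt.ImplicitG
import Pool.Agent.Lib.MP_80b30d_gt.EquivG

/-! MP_80b30d_gt: existence of graph charts. -/

namespace MP80b30d

open Set Filter Topology Metric

/-- Paper proof: `F` from `C3Boundary`, `Ψ` from `exists_equiv` for `l = fderiv ℝ F p`,
`G = F ∘ Ψ`, `z0 = Ψ.symm p`; `F p = 0` since `p` is in the boundary of the closed set `K` and
`F` is continuous at `p`. -/
theorem chart_exists {m : ℕ} {K : Set (E (m + 1))} (hcl : IsClosed K) (h3 : C3Boundary K)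
    {p : E (m + 1)} (hp : p ∈ frontier K) :
    ∃ (Ψ : (E m × ℝ) ≃L[ℝ] E (m + 1)) (f : E m → ℝ) (x : E m),
      Chart K Ψ f x ∧ Ψ (x, f x) = p := by
  obtain ⟨F, hF, hdF, hmem⟩ := h3 p hp
  obtain ⟨Ψ, hΨ⟩ := exists_equiv hdF
  have hFc : ContinuousAt F p := hF.continuousAt
  have hpK : p ∈ K := hcl.frontier_subset hp
  have hF0 : F p = 0 := by
    have h1 : F p ≤ 0 := hmem.self_of_nhds.1 hpK
    rcases h1.lt_or_eq with h2 | h2
    · exfalso
      have h4 : ∀ᶠ x in 𝓝 p, F x < 0 := hFc.eventually_lt_const h2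
      have h5 : K ∈ 𝓝 p := by
        filter_upwards [h4, hmem] with x hx hx'
        exact hx'.2 hx.le
      exact hp.2 (mem_interior_iff_mem_nhds.2 h5)
    · exact h2
  have hz : Ψ (Ψ.symm p) = p := Ψ.apply_symm_apply p
  have hΨc : Tendsto Ψ (𝓝 (Ψ.symm p)) (𝓝 p) := by
    have h1 : ContinuousAt Ψ (Ψ.symm p) := Ψ.continuous.continuousAt
    rw [ContinuousAt, hz] at h1
    exact h1
  have hG : ContDiffAt ℝ 3 (F ∘ Ψ) (Ψ.symm p) := by
    refine ContDiffAt.comp (Ψ.symm p) ?_ Ψ.contDiff.contDiffAt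
    rw [hz]
    exact hF
  have hG0 : (F ∘ Ψ) (Ψ.symm p) = 0 := by
    rw [Function.comp_apply, hz, hF0]
  have hGd : fderiv ℝ (F ∘ Ψ) (Ψ.symm p) (0, 1) < 0 := by
    have h1 : HasFDerivAt F (fderiv ℝ F p) (Ψ (Ψ.symm p)) := by
      rw [hz]
      exact (hF.differentiableAt (by norm_num)).hasFDerivAt
    have h2 := h1.comp (Ψ.symm p) Ψ.hasFDerivAt
    rw [h2.fderiv]
    exact hΨ
  obtain ⟨f, hf, hfz, hev⟩ := implicit_graph hG hG0 hGd
  have he : (((Ψ.symm p).1, f (Ψ.symm p).1) : E m × ℝ) = Ψ.symm p := by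
    rw [hfz]
  refine ⟨Ψ, f, (Ψ.symm p).1, ⟨hf, ?_⟩, ?_⟩
  · rw [he]
    filter_upwards [hev, hΨc.eventually hmem] with z h1 h2
    exact h2.trans h1
  · rw [he, hz]

end MP80b30d
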