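import Mathlib

/-! # Light sources with flat shadow boundaries (MP_80b30d_gt): definitions. -/

namespace MP80b30d

open Set Filter Topology Metric

/-- Euclidean space of dimension `n`. -/
abbrev E (n : ℕ) := EuclideanSpace ℝ (Fin n)

/-- The shadow boundary of `K` from `u`: the points `x` of the boundary of `K` such that the ray
from `u` through `x` does not meet the interior of `K`. -/
def shadow {n : ℕ} (K : Set (E n)) (u : E n) : Set (E n) :=
  {x | x ∈ frontier K ∧ ∀ t : ℝ, 0 ≤ t → u + t • (x - u) ∉ interior K}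

/-- The tangent hyperplane of `K` at `p` (the union of the supporting hyperplanes of `K` at `p`;
if the boundary is of class `C¹` there is exactly one). -/
def tangentPlane {n : ℕ} (K : Set (E n)) (p : E n) : Set (E n) :=
  {x | ∃ l : E n →L[ℝ] ℝ, l ≠ 0 ∧ (∀ y ∈ K, l y ≤ l p) ∧ l x = l p}

/-- The boundary of `K` is a hypersurface of class `C³`: near each boundary point `K` is given by
`F ≤ 0` with `F` of class `C³` and `dF ≠ 0`. -/
def C3Boundary {n : ℕ} (K : Set (E n)) : Prop :=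
  ∀ p ∈ frontier K, ∃ F : E n → ℝ, ContDiffAt ℝ 3 F p ∧ fderiv ℝ F p ≠ 0 ∧
    ∀ᶠ x in 𝓝 p, (x ∈ K ↔ F x ≤ 0)

/-- An ellipsoid: the image of the closed unit ball under an invertible affine map. -/
def IsEllipsoid {n : ℕ} (K : Set (E n)) : Prop :=
  ∃ (A : E n ≃L[ℝ] E n) (c : E n), K = (fun x => A x + c) '' closedBall 0 1

/-- The hypothesis on the boundary point `p`: there are `n + 1` lights `u i` in the tangent
hyperplane of `K` at `p`, outside `K`, in general linear position with respect to `p`, each with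
shadow boundary contained in a hyperplane `L i = c i`, and fewer than `n² - n - 4` of the
`n² + n` ordered pairs `(i, j)`, `i ≠ j`, are incident, that is, `u j` lies in the hyperplane of
`i`. -/
def Lights {n : ℕ} (K : Set (E n)) (p : E n) : Prop :=
  ∃ (u : Fin (n + 1) → E n) (L : Fin (n + 1) → (E n →L[ℝ] ℝ)) (c : Fin (n + 1) → ℝ),
    (∀ i, u i ∈ tangentPlane K p ∧ u i ∉ K) ∧
    (∀ s : Finset (Fin (n + 1)), s.card = n - 1 → LinearIndependent ℝ (fun i : s => u i - p)) ∧
    (∀ i, L i ≠ 0 ∧ shadow K (u i) ⊆ {x | L i x = c i}) ∧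
    {z : Fin (n + 1) × Fin (n + 1) | z.1 ≠ z.2 ∧ L z.1 (u z.2) = c z.1}.ncard < n ^ 2 - n - 4

/-- second derivative -/
noncomputable def D2 {W : Type*} [NormedAddCommGroup W] [NormedSpace ℝ W] (f : W → ℝ) (x : W) :
    W →L[ℝ] W →L[ℝ] ℝ := fderiv ℝ (fderiv ℝ f) x

/-- third derivative -/
noncomputable def D3 {W : Type*} [NormedAddCommGroup W] [NormedSpace ℝ W] (f : W → ℝ) (x : W) :
    W →L[ℝ] W →L[ℝ] W →L[ℝ] ℝ := fderiv ℝ (fderiv ℝ (fderiv ℝ f)) x

/-- a quadratic function -/
structure QF (V : Type*) [NormedAddCommGroup V] [NormedSpace ℝ V] where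
  Q : V →L[ℝ] V →L[ℝ] ℝ
  l : V →L[ℝ] ℝ
  c : ℝ
  symm : ∀ x y, Q x y = Q y x

namespace QF

variable {V : Type*} [NormedAddCommGroup V] [NormedSpace ℝ V]

/-- value of a quadratic function -/
noncomputable def eval (q : QF V) (x : V) : ℝ := q.Q x x + q.l x + q.c

/-- derivative of a quadratic function at `x` in the direction `h` -/
noncomputable def D (q : QF V) (x h : V) : ℝ := 2 * q.Q x h + q.l h

variable {V' : Type*} [NormedAddCommGroup V'] [NormedSpace ℝ V']

/-- composition with a linear map -/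
noncomputable def comp (q : QF V) (Ψ : V' →L[ℝ] V) : QF V' where
  Q := q.Q.bilinearComp Ψ Ψ
  l := q.l.comp Ψ
  c := q.c
  symm x y := by simp [q.symm (Ψ x) (Ψ y)]

theorem eval_comp (q : QF V) (Ψ : V' →L[ℝ] V) (x : V') : (q.comp Ψ).eval x = q.eval (Ψ x) := by
  simp [eval, comp]

theorem eval_add (q : QF V) (x h : V) : q.eval (x + h) = q.eval x + q.D x h + q.Q h h := by
  simp only [eval, D, map_add, ContinuousLinearMap.add_apply]
  rw [q.symm h x]
  ring

end QF

/-- graph chart of the boundary of `K` at the point `Ψ (x, f x)`: `f` is of class `C³` at `x` and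
near `Ψ (x, f x)` the set `K` is `{Ψ (x', y) | f x' ≤ y}` -/
structure Chart {m n : ℕ} (K : Set (E n)) (Ψ : (E m × ℝ) ≃L[ℝ] E n) (f : E m → ℝ) (x : E m) :
    Prop where
  smooth : ContDiffAt ℝ 3 f x
  mem : ∀ᶠ z in 𝓝 ((x, f x) : E m × ℝ), (Ψ z ∈ K ↔ f z.1 ≤ z.2)

/-- `K` is strongly curved at `p`: it lies locally (up to a factor) inside a ball touching at `p` -/
def Strong {n : ℕ} (K : Set (E n)) (p : E n) : Prop :=
  ∃ (l : E n →L[ℝ] ℝ) (ε : ℝ), 0 < ε ∧ ∀ᶠ y in 𝓝 p, y ∈ K → ε * ‖y - p‖ ^ 2 ≤ l p - l y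

end MP80b30d
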