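import Pool.Agent.Lib.MP_80b30d_gt.Defs

/-! MP_80b30d_gt: zeros on open sets; connectedness of the boundary. -/

namespace MP80b30d

open Set Filter Topology Metric

variable {n : ℕ} {K : Set (E n)}

/-- a quadratic function vanishing on a nonempty open set is zero -/
theorem zero_of_open (q : QF (E n)) {U : Set (E n)} (hU : IsOpen U) (hne : U.Nonempty)
    (h0 : ∀ x ∈ U, q.eval x = 0) : ∀ z, q.eval z = 0 := by
  obtain ⟨x0, hx0⟩ := hne
  have key : ∀ z, q.D x0 z = 0 ∧ q.Q z z = 0 := by
    intro z
    have hc : Continuous (fun t : ℝ => x0 + t • z) := by fun_prop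
    have h1 : ∀ᶠ t in 𝓝 (0 : ℝ), x0 + t • z ∈ U := by
      refine hc.continuousAt.eventually_mem ?_
      simpa using hU.mem_nhds hx0
    obtain ⟨δ, hδ, hball⟩ := Metric.eventually_nhds_iff.1 h1
    have e : ∀ t : ℝ, q.eval (x0 + t • z) = q.eval x0 + t * q.D x0 z + t ^ 2 * q.Q z z := by
      intro t
      rw [q.eval_add]
      simp only [QF.D, map_smul, ContinuousLinearMap.smul_apply, smul_eq_mul]
      ring
    have h2 := h0 _ (hball (y := δ / 2) (by
      rw [Real.dist_eq, sub_zero, abs_of_pos (by linarith)]; linarith))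
    have h3 := h0 _ (hball (y := -(δ / 2)) (by
      rw [Real.dist_eq, sub_zero, abs_neg, abs_of_pos (by linarith)]; linarith))
    rw [e, h0 x0 hx0] at h2 h3
    have h4 : δ * q.D x0 z = 0 := by linarith
    have h5 : δ ^ 2 * q.Q z z = 0 := by linarith
    refine ⟨?_, ?_⟩
    · exact (mul_eq_zero.1 h4).resolve_left hδ.ne'
    · exact (mul_eq_zero.1 h5).resolve_left (by positivity)
  intro z
  have h1 := q.eval_add x0 (z - x0)
  rw [add_sub_cancel, h0 x0 hx0, (key _).1, (key _).2] at h1
  rw [h1]
  ring

/-- Paper proof: `exists_homeomorph_image_interior_closure_frontier_eq_unitBall` and the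
connectedness of the sphere in dimension at least two. -/
theorem frontier_connected (hn : 2 ≤ n) (hK : Convex ℝ K) (hc : IsCompact K)
    (hint : (interior K).Nonempty) : IsPreconnected (frontier K) := by
  obtain ⟨h, -, -, h3⟩ :=
    exists_homeomorph_image_interior_closure_frontier_eq_unitBall hK hint hc.isBounded
  have hrank : 1 < Module.rank ℝ (E n) := by
    rw [← Module.finrank_eq_rank, finrank_euclideanSpace_fin]
    exact_mod_cast (by omega : 1 < n)
  have hs : IsPreconnected (sphere (0 : E n) 1) := isPreconnected_sphere hrank 0 1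
  have h4 : frontier K = h.symm '' sphere (0 : E n) 1 := by
    rw [← h3, ← image_comp]
    simp
  rw [h4]
  exact hs.image _ h.symm.continuous.continuousOn

end MP80b30d
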