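import Pool.Agent.Lib.MP_80b30d_gt.Defs

/-! MP_80b30d_gt: lines through an interior point. -/

namespace MP80b30d

open Set Filter Topology Metric

variable {n : ℕ} {K : Set (E n)}

/-- a line through an interior point of a convex body -/
theorem line_roots (hK : Convex ℝ K) (hc : IsCompact K) {o : E n} (ho : o ∈ interior K)
    {h : E n} (hh : h ≠ 0) : ∃ s t : ℝ, 0 < s ∧ 0 < t ∧ o + t • h ∈ frontier K ∧
      o - s • h ∈ frontier K ∧ ∀ r : ℝ, (o + r • h ∈ K ↔ -s ≤ r ∧ r ≤ t) := by
  set φ : ℝ → E n := fun r => o + r • h with hφ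
  have hφc : Continuous φ := by
    rw [hφ]
    fun_prop
  have hpos : 0 < ‖h‖ := norm_pos_iff.2 hh
  have hclosed : IsClosed (φ ⁻¹' K) := hc.isClosed.preimage hφc
  have hbdd : Bornology.IsBounded (φ ⁻¹' K) := by
    obtain ⟨C, hC⟩ := isBounded_iff_forall_norm_le.1 hc.isBounded
    refine isBounded_iff_forall_norm_le.2 ⟨(C + ‖o‖) / ‖h‖, fun r hr => ?_⟩
    rw [le_div_iff₀ hpos, ← norm_smul]
    have h1 : r • h = φ r - o := by simp [hφ]
    rw [h1]
    exact (norm_sub_le _ _).trans (by
      have := hC _ hr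
      linarith)
  have hcomp : IsCompact (φ ⁻¹' K) := Metric.isCompact_of_isClosed_isBounded hclosed hbdd
  have hopen : IsOpen (φ ⁻¹' interior K) := isOpen_interior.preimage hφc
  have h0 : (0 : ℝ) ∈ φ ⁻¹' interior K := by
    show φ 0 ∈ interior K
    simpa [hφ] using ho
  have hsub : φ ⁻¹' interior K ⊆ φ ⁻¹' K := preimage_mono interior_subset
  have hconv : Convex ℝ (φ ⁻¹' K) := by
    intro x hx y hy a b ha hb hab
    have h1 : φ (a • x + b • y) = a • φ x + b • φ y := by
      simp only [hφ, smul_eq_mul, smul_add]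
      have : (a + b) • o = o := by rw [hab, one_smul]
      calc o + (a * x + b * y) • h = (a + b) • o + (a * x + b * y) • h := by rw [this]
        _ = a • o + a • x • h + (b • o + b • y • h) := by
          rw [add_smul, add_smul, mul_smul, mul_smul]
          abel
    show φ (a • x + b • y) ∈ K
    rw [h1]
    exact hK hx hy ha hb hab
  have hconn : IsConnected (φ ⁻¹' K) := ⟨⟨0, hsub h0⟩, hconv.isPreconnected⟩
  have hIcc := eq_Icc_of_connected_compact hconn hcomp
  set a := sInf (φ ⁻¹' K) with ha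
  set b := sSup (φ ⁻¹' K) with hb
  have hmem : ∀ r, φ r ∈ K ↔ a ≤ r ∧ r ≤ b := by
    intro r
    have h1 : r ∈ φ ⁻¹' K ↔ r ∈ Icc a b := by rw [← hIcc]
    exact h1
  -- points of the preimage of the interior have neighbours on both sides
  have hnb : ∀ r ∈ φ ⁻¹' interior K, a < r ∧ r < b := by
    intro r hr
    obtain ⟨ε, hε, hball⟩ := Metric.isOpen_iff.1 hopen r hr
    have e1 : r + ε / 2 ∈ φ ⁻¹' interior K := hball (by
      rw [Metric.mem_ball, Real.dist_eq]
      have : r + ε / 2 - r = ε / 2 := by ring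
      rw [this, abs_of_pos (by linarith)]
      linarith)
    have e2 : r - ε / 2 ∈ φ ⁻¹' interior K := hball (by
      rw [Metric.mem_ball, Real.dist_eq]
      have : r - ε / 2 - r = -(ε / 2) := by ring
      rw [this, abs_neg, abs_of_pos (by linarith)]
      linarith)
    have e3 := (hmem _).1 (hsub e1)
    have e4 := (hmem _).1 (hsub e2)
    constructor <;> linarith [e3.2, e4.1]
  obtain ⟨ha0, hb0⟩ := hnb 0 h0
  have hab : a ≤ b := (ha0.trans hb0).le
  have fr : ∀ r, φ r ∈ K → (¬ (a < r ∧ r < b)) → φ r ∈ frontier K := by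
    intro r h1 h2
    refine ⟨subset_closure h1, fun h3 => h2 (hnb r h3)⟩
  refine ⟨-a, b, by linarith, hb0, fr b ((hmem b).2 ⟨hab, le_rfl⟩) (fun h1 => lt_irrefl _ h1.2),
    ?_, fun r => ?_⟩
  · have h1 := fr a ((hmem a).2 ⟨le_rfl, hab⟩) (fun h1 => lt_irrefl _ h1.1)
    have h2 : o - (-a) • h = φ a := by
      simp only [hφ, neg_smul]
      abel
    rw [h2]
    exact h1
  · rw [neg_neg]
    exact hmem r

end MP80b30d
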