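import Pool.Agent.Lib.MP_80b30d_gt.Defs

/-! MP_80b30d_gt: positive definite quadratic functions. -/

namespace MP80b30d

open Set Filter Topology Metric

variable {n : ℕ} {K : Set (E n)}

/-- The operator of a bilinear form. -/
private noncomputable def EndC_T (Q : E n →L[ℝ] E n →L[ℝ] ℝ) : E n →ₗ[ℝ] E n where
  toFun x := (InnerProductSpace.toDual ℝ (E n)).symm (Q x)
  map_add' x y := by simp
  map_smul' c x := by simp

private theorem EndC_inner (Q : E n →L[ℝ] E n →L[ℝ] ℝ) (x y : E n) :
    inner ℝ (EndC_T Q x) y = Q x y := by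
  change inner ℝ ((InnerProductSpace.toDual ℝ (E n)).symm (Q x)) y = Q x y
  rw [InnerProductSpace.toDual_symm_apply]

/-- Paper proof: complete the square, `q x = Q (x - z) (x - z) - R²`, `R > 0` (as `q` takes a
negative value), and `Q x x = ‖B x‖²` for an invertible linear `B` (diagonalize, or an orthonormal
basis for `Q`). So the set is `z + R B⁻¹ (closed ball)`. -/
theorem ellipsoid_of_pos (q : QF (E n)) (hpos : ∀ h : E n, h ≠ 0 → 0 < q.Q h h)
    (hneg : ∃ o, q.eval o < 0) : IsEllipsoid {x | q.eval x ≤ 0} := by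
  have hT : (EndC_T q.Q).IsSymmetric := by
    intro x y
    rw [EndC_inner, real_inner_comm, EndC_inner, q.symm]
  have hinj : Function.Injective (EndC_T q.Q) := by
    rw [← LinearMap.ker_eq_bot, LinearMap.ker_eq_bot']
    intro x hx
    by_contra hne
    have := hpos x hne
    rw [← EndC_inner, hx, inner_zero_left] at this
    exact lt_irrefl _ this
  have hsurj : Function.Surjective (EndC_T q.Q) := LinearMap.injective_iff_surjective.1 hinj
  obtain ⟨z, hz⟩ := hsurj (-(1 / 2 : ℝ) • (InnerProductSpace.toDual ℝ (E n)).symm q.l)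
  have hDz : ∀ h, q.D z h = 0 := by
    intro h
    unfold QF.D
    rw [← EndC_inner, hz, inner_smul_left, InnerProductSpace.toDual_symm_apply]
    simp
  obtain ⟨o, ho⟩ := hneg
  have hzneg : q.eval z < 0 := by
    have h1 := q.eval_add z (o - z)
    rw [add_sub_cancel, hDz, add_zero] at h1
    have h2 : 0 ≤ q.Q (o - z) (o - z) := by
      rcases eq_or_ne (o - z) 0 with h | h
      · rw [h]; simp
      · exact (hpos _ h).le
    linarith
  obtain ⟨R, hR, hR2⟩ : ∃ R : ℝ, 0 < R ∧ q.eval z = -R ^ 2 := by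
    refine ⟨Real.sqrt (-q.eval z), Real.sqrt_pos.2 (by linarith), ?_⟩
    rw [Real.sq_sqrt (by linarith)]
    ring
  have hn : Module.finrank ℝ (E n) = n := by simp
  set b := hT.eigenvectorBasis hn with hb
  set ev := hT.eigenvalues hn with hev
  have hQb : ∀ i j, q.Q (b i) (b j) = if i = j then ev i else 0 := by
    intro i j
    rw [← EndC_inner, hb, hT.apply_eigenvectorBasis hn i, inner_smul_left,
      (orthonormal_iff_ite.1 (hT.eigenvectorBasis hn).orthonormal) i j]
    by_cases h : i = j
    · subst h; simp [hev]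
    · simp [h]
  have hevpos : ∀ i, 0 < ev i := by
    intro i
    have h1 := hpos (b i) (b.orthonormal.ne_zero i)
    rw [hQb, if_pos rfl] at h1
    exact h1
  have hw : ∀ i, R / Real.sqrt (ev i) ≠ 0 := fun i =>
    div_ne_zero hR.ne' (Real.sqrt_pos.2 (hevpos i)).ne'
  set v : Module.Basis (Fin n) ℝ (E n) :=
    b.toBasis.isUnitSMul (w := fun i => R / Real.sqrt (ev i)) (fun i => (hw i).isUnit) with hv
  have hvi : ∀ i, v i = (R / Real.sqrt (ev i)) • b i := by
    intro i
    rw [hv, Module.Basis.isUnitSMul_apply]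
    simp
  have hQv : ∀ i j, q.Q (v i) (v j) = if i = j then R ^ 2 else 0 := by
    intro i j
    rw [hvi, hvi, map_smul, map_smul, ContinuousLinearMap.smul_apply, hQb]
    by_cases h : i = j
    · subst h
      simp only [if_true, smul_eq_mul]
      have h1 : Real.sqrt (ev i) ≠ 0 := (Real.sqrt_pos.2 (hevpos i)).ne'
      have h2 : Real.sqrt (ev i) * Real.sqrt (ev i) = ev i := Real.mul_self_sqrt (hevpos i).le
      have h3 : R / Real.sqrt (ev i) * (R / Real.sqrt (ev i) * ev i)
          = R ^ 2 * (ev i / (Real.sqrt (ev i) * Real.sqrt (ev i))) := by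
        field_simp
      rw [h3, h2, div_self (hevpos i).ne', mul_one]
    · simp [h]
  set A : E n ≃L[ℝ] E n :=
    (EuclideanSpace.equiv (Fin n) ℝ).trans v.equivFun.symm.toContinuousLinearEquiv with hA
  have hAy : ∀ y : E n, A y = ∑ i, y i • v i := by
    intro y
    rw [hA]
    simp only [ContinuousLinearEquiv.trans_apply]
    change v.equivFun.symm _ = _
    rw [Module.Basis.equivFun_symm_apply]
    rfl
  have hQA : ∀ y : E n, q.Q (A y) (A y) = R ^ 2 * ‖y‖ ^ 2 := by
    intro y
    rw [hAy, map_sum, EuclideanSpace.norm_sq_eq, Finset.mul_sum]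
    refine Finset.sum_congr rfl fun i _ => ?_
    rw [q.symm, map_sum]
    have h1 : ∀ j ∈ Finset.univ, q.Q (y i • v i) (y j • v j)
        = if i = j then R ^ 2 * (y i * y j) else 0 := by
      intro j _
      rw [map_smul, map_smul, ContinuousLinearMap.smul_apply, hQv]
      by_cases h : i = j
      · simp only [h, if_true, smul_eq_mul]
        ring
      · simp [h]
    rw [Finset.sum_congr rfl h1, Finset.sum_ite_eq]
    simp only [Finset.mem_univ, if_true, Real.norm_eq_abs, sq_abs]
    ring
  have hev' : ∀ y : E n, q.eval (A y + z) ≤ 0 ↔ ‖y‖ ≤ 1 := by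
    intro y
    rw [add_comm, q.eval_add, hDz, hR2, hQA]
    constructor
    · intro h
      have h1 : R ^ 2 * ‖y‖ ^ 2 ≤ R ^ 2 * 1 := by linarith
      have h2 : ‖y‖ ^ 2 ≤ 1 := le_of_mul_le_mul_left h1 (by positivity)
      nlinarith [norm_nonneg y]
    · intro h
      have h2 : ‖y‖ ^ 2 ≤ 1 := by nlinarith [norm_nonneg y]
      have h1 : R ^ 2 * ‖y‖ ^ 2 ≤ R ^ 2 * 1 := mul_le_mul_of_nonneg_left h2 (by positivity)
      linarith
  refine ⟨A, z, ?_⟩
  ext x
  rw [Set.mem_ofPred_eq, Set.mem_image]
  constructor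
  · intro hx
    refine ⟨A.symm (x - z), ?_, by simp⟩
    rw [mem_closedBall_zero_iff, ← hev']
    simpa using hx
  · rintro ⟨y, hy, rfl⟩
    rw [mem_closedBall_zero_iff] at hy
    exact (hev' y).2 hy

end MP80b30d
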