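import Pool.Agent.Lib.MP_80b30d_gt.EndA
import Pool.Agent.Lib.MP_80b30d_gt.EndB
import Pool.Agent.Lib.MP_80b30d_gt.EndC

/-! MP_80b30d_gt: a convex body whose boundary lies in a quadric. -/

namespace MP80b30d

open Set Filter Topology Metric

variable {n : ℕ} {K : Set (E n)}

/-- the value of a quadratic function on a line -/
private theorem eq_eval_line (q : QF (E n)) (o h : E n) (r : ℝ) :
    q.eval (o + r • h) = q.eval o + r * q.D o h + r ^ 2 * q.Q h h := by
  rw [QF.eval_add]
  simp only [QF.D, map_smul, ContinuousLinearMap.smul_apply, smul_eq_mul]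
  ring

/-- factorisation of the quadratic function on a line through `o` -/
private theorem eq_line_factor (hK : Convex ℝ K) (hc : IsCompact K) (q : QF (E n)) {o : E n}
    (ho : o ∈ interior K) (hneg : q.eval o < 0) (h0 : ∀ y ∈ frontier K, q.eval y = 0)
    {h : E n} (hh : h ≠ 0) : ∃ s t : ℝ, 0 < s ∧ 0 < t ∧ 0 < q.Q h h ∧
      (∀ r : ℝ, q.eval (o + r • h) = q.Q h h * (r + s) * (r - t)) ∧
      ∀ r : ℝ, (o + r • h ∈ K ↔ -s ≤ r ∧ r ≤ t) := by
  obtain ⟨s, t, hs, ht, h1, h2, h3⟩ := line_roots hK hc ho hh
  have e1 := h0 _ h1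
  have e2 := h0 _ h2
  rw [eq_eval_line] at e1
  have e2' : q.eval (o + (-s) • h) = 0 := by
    rw [neg_smul, ← sub_eq_add_neg]; exact e2
  rw [eq_eval_line] at e2'
  set A := q.Q h h with hA
  set D := q.D o h with hD
  set c := q.eval o with hcdef
  have hst : s + t ≠ 0 := by positivity
  have k1 : (s + t) * (c + A * s * t) = 0 := by linear_combination s * e1 + t * e2'
  have k2 : c + A * s * t = 0 := (mul_eq_zero.1 k1).resolve_left hst
  have k3 : (s + t) * (D - A * (s - t)) = 0 := by linear_combination e1 - e2'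
  have k4 : D = A * (s - t) := sub_eq_zero.1 ((mul_eq_zero.1 k3).resolve_left hst)
  have hApos : 0 < A := by
    by_contra hcon
    push Not at hcon
    have : A * s * t ≤ 0 := by
      have : A * (s * t) ≤ 0 := mul_nonpos_of_nonpos_of_nonneg hcon (by positivity)
      linarith
    linarith
  refine ⟨s, t, hs, ht, hApos, ?_, h3⟩
  intro r
  rw [eq_eval_line, ← hA, ← hD, ← hcdef, k4]
  linear_combination k2

/-- the case of a negative value at an interior point -/
private theorem eq_ellipsoid_neg (hK : Convex ℝ K) (hc : IsCompact K) (q : QF (E n)) {o : E n}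
    (ho : o ∈ interior K) (hneg : q.eval o < 0) (h0 : ∀ y ∈ frontier K, q.eval y = 0) :
    IsEllipsoid K := by
  have hset : K = {x | q.eval x ≤ 0} := by
    ext x
    simp only [mem_setOf_eq]
    by_cases hx : x - o = 0
    · have : x = o := sub_eq_zero.1 hx
      subst this
      exact ⟨fun _ => hneg.le, fun _ => interior_subset ho⟩
    · obtain ⟨s, t, hs, ht, hA, h1, h2⟩ := eq_line_factor hK hc q ho hneg h0 hx
      have e : o + (1 : ℝ) • (x - o) = x := by simp
      have h1' := h1 1
      have h2' := h2 1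
      rw [e] at h1' h2'
      rw [h2', h1']
      have hAs : 0 < q.Q (x - o) (x - o) * (1 + s) := by positivity
      constructor
      · rintro ⟨_, h⟩
        exact mul_nonpos_of_nonneg_of_nonpos hAs.le (by linarith)
      · intro h
        refine ⟨by linarith, ?_⟩
        by_contra hcon
        push Not at hcon
        have : 0 < q.Q (x - o) (x - o) * (1 + s) * (1 - t) := mul_pos hAs (by linarith)
        linarith
  rw [hset]
  refine ellipsoid_of_pos q ?_ ⟨o, hneg⟩
  intro h hh
  obtain ⟨s, t, hs, ht, hA, _⟩ := eq_line_factor hK hc q ho hneg h0 hh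
  exact hA

/-- Paper proof: choose `o` in the interior with `q o ≠ 0` (`zero_of_open`); replace `q` by `-q` so
that `q o < 0`. For `h ≠ 0` the polynomial `r ↦ q (o + r h)` has the two roots `-s < 0 < t` of
`line_roots` and value `q o < 0` at `0`, so it is `Q h h (r + s)(r - t)` with `Q h h > 0`, and it is
`≤ 0` exactly for `-s ≤ r ≤ t`. So `K = {q ≤ 0}`; `ellipsoid_of_pos`. -/
theorem ellipsoid_of_quadric (hK : Convex ℝ K) (hc : IsCompact K)
    (hint : (interior K).Nonempty) (q : QF (E n)) (hq : ∃ z, q.eval z ≠ 0)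
    (h0 : ∀ y ∈ frontier K, q.eval y = 0) : IsEllipsoid K := by
  obtain ⟨o, ho, hne⟩ : ∃ o ∈ interior K, q.eval o ≠ 0 := by
    by_contra hcon
    push Not at hcon
    obtain ⟨z, hz⟩ := hq
    exact hz (zero_of_open q isOpen_interior hint hcon z)
  rcases lt_or_gt_of_ne hne with hlt | hgt
  · exact eq_ellipsoid_neg hK hc q ho hlt h0
  · let q' : QF (E n) :=
      { Q := -q.Q
        l := -q.l
        c := -q.c
        symm := fun x y => by simp [q.symm x y] }
    have hq' : ∀ x, q'.eval x = - q.eval x := by
      intro x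
      simp only [QF.eval, q', ContinuousLinearMap.neg_apply]
      ring
    refine eq_ellipsoid_neg hK hc q' ho ?_ ?_
    · rw [hq']; linarith
    · intro y hy
      rw [hq', h0 y hy, neg_zero]

end MP80b30d
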