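import Pool.Agent.Lib.MP_80b30d_gt.Defs

/-! MP_80b30d_gt: trace formula. -/

namespace MP80b30d

open Set Filter Topology Metric Matrix

/-- standard basis vector -/
noncomputable def bas {m : ℕ} (i : Fin m) : E m := EuclideanSpace.single i 1

/-- matrix of a bilinear form -/
noncomputable def mat {m : ℕ} (H : E m →L[ℝ] E m →L[ℝ] ℝ) : Matrix (Fin m) (Fin m) ℝ :=
  Matrix.of fun i j => H (bas i) (bas j)

private theorem jac_sum_bas {m : ℕ} (h : E m) : ∑ i, h i • (bas i : E m) = h := by
  ext j
  simp [bas, Finset.sum_apply, Pi.single_apply]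

private theorem jac_lin {m : ℕ} (l : E m →L[ℝ] ℝ) (h : E m) : l h = ∑ i, h i * l (bas i) := by
  conv_lhs => rw [← jac_sum_bas h]
  simp [map_sum]

private theorem jac_bil {m : ℕ} (H : E m →L[ℝ] E m →L[ℝ] ℝ) (h y : E m) :
    H h y = ∑ i, h i * H (bas i) y := by
  conv_lhs => rw [← jac_sum_bas h]
  simp [map_sum]

theorem mat_det_pos {m : ℕ} (H : E m →L[ℝ] E m →L[ℝ] ℝ) (hH : ∀ x y, H x y = H y x)
    (hpos : ∀ x, x ≠ 0 → 0 < H x x) : 0 < (mat H).det := by
  have hP : (mat H).PosDef := by
    refine Matrix.PosDef.of_dotProduct_mulVec_pos ?_ ?_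
    · ext i j
      simp [mat, hH]
    · intro x hx
      have h1 := hpos (WithLp.toLp 2 x) (by
        intro h0
        apply hx
        ext i
        have := congrArg (fun v : E m => v i) h0
        simpa using this)
      have h2 : H (WithLp.toLp 2 x) (WithLp.toLp 2 x) = star x ⬝ᵥ (mat H *ᵥ x) := by
        rw [jac_bil H (WithLp.toLp 2 x)]
        simp only [dotProduct, mulVec, mat, Matrix.of_apply]
        refine Finset.sum_congr rfl fun i _ => ?_
        rw [jac_lin (H (bas i)) (WithLp.toLp 2 x)]
        simp [mul_comm]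
      rw [← h2]
      exact h1
  exact hP.det_pos

/-- Paper proof: `adj A * A = det A`, `h = ∑ h_k e_k`. -/
theorem trace_formula {m : ℕ} (H : E m →L[ℝ] E m →L[ℝ] ℝ) (hH : ∀ x y, H x y = H y x)
    (ω : E m →L[ℝ] ℝ) (h : E m) :
    ∑ i, ∑ j, (mat H).adjugate j i *
      (ω h * H (bas i) (bas j) + ω (bas i) * H h (bas j) + ω (bas j) * H h (bas i))
      = (m + 2 : ℝ) * ω h * (mat H).det := by
  set A := mat H with hA
  have hAe : ∀ i j, H (bas i) (bas j) = A i j := fun i j => rfl
  have hsym : Aᵀ = A := by
    ext i j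
    simp [hA, mat, hH]
  have hadj : ∀ i j, A.adjugate j i = A.adjugate i j := by
    intro i j
    have := congrArg (fun M : Matrix (Fin m) (Fin m) ℝ => M i j) (Matrix.adjugate_transpose A)
    simp only [Matrix.transpose_apply] at this
    rw [hsym] at this
    exact this
  have hmul : ∀ i j, ∑ k, A i k * A.adjugate k j = if i = j then A.det else 0 := by
    intro i j
    have := congrArg (fun M : Matrix (Fin m) (Fin m) ℝ => M i j) (Matrix.mul_adjugate A)
    simpa [Matrix.mul_apply, Matrix.smul_apply, Matrix.one_apply] using this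
  have hHh : ∀ j, H h (bas j) = ∑ k, h k * A k j := fun j => by
    rw [jac_bil H h (bas j)]
    rfl
  have e1 : ∑ i, ∑ j, A.adjugate j i * (ω h * A i j) = m * (ω h * A.det) := by
    have : ∀ i, ∑ j, A.adjugate j i * (ω h * A i j) = ω h * A.det := by
      intro i
      have := hmul i i
      rw [if_pos rfl] at this
      rw [← this, Finset.mul_sum]
      exact Finset.sum_congr rfl fun j _ => by ring
    simp only [this]
    simp
  have e2 : ∑ i, ∑ j, A.adjugate j i * (ω (bas i) * H h (bas j)) = ω h * A.det := by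
    have : ∀ i, ∑ j, A.adjugate j i * (ω (bas i) * H h (bas j)) = ω (bas i) * (h i * A.det) := by
      intro i
      simp only [hHh]
      have h3 : ∑ j, A.adjugate j i * (ω (bas i) * ∑ k, h k * A k j)
          = ω (bas i) * ∑ k, h k * ∑ j, A k j * A.adjugate j i := by
        simp only [Finset.mul_sum]
        rw [Finset.sum_comm]
        exact Finset.sum_congr rfl fun k _ => Finset.sum_congr rfl fun j _ => by ring
      rw [h3]
      congr 1
      simp only [hmul]
      simp
    simp only [this]
    rw [jac_lin ω h, Finset.sum_mul]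
    exact Finset.sum_congr rfl fun i _ => by ring
  have e3 : ∑ i, ∑ j, A.adjugate j i * (ω (bas j) * H h (bas i)) = ω h * A.det := by
    rw [Finset.sum_comm, ← e2]
    refine Finset.sum_congr rfl fun i _ => Finset.sum_congr rfl fun j _ => ?_
    rw [hadj]
  simp only [mul_add, Finset.sum_add_distrib]
  simp only [hAe]
  rw [e1]
  rw [e2, e3]
  ring

/-- `det` of a scaled form -/
theorem mat_smul_det {m : ℕ} (H : E m →L[ℝ] E m →L[ℝ] ℝ) (c : ℝ) :
    (mat (c • H)).det = c ^ m * (mat H).det := by
  have : mat (c • H) = c • mat H := by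
    ext i j
    simp [mat]
  rw [this, Matrix.det_smul, Fintype.card_fin]

end MP80b30d
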