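import Pool.Agent.Lib.MP_80b30d_gt.Symm
import Pool.Agent.Lib.MP_80b30d_gt.Jacobi

/-! MP_80b30d_gt: from a dense set to all points. -/

namespace MP80b30d

open Set Filter Topology Metric Matrix

/-- `D3 f x` is the symmetric product of `ω` and `D2 f x` -/
def Tr {m : ℕ} (f : E m → ℝ) (x : E m) (ω : E m →L[ℝ] ℝ) : Prop :=
  ∀ h k l : E m, D3 f x h k l = ω h * D2 f x k l + ω k * D2 f x h l + ω l * D2 f x h k

/-- the numerator of the formula for `ω` -/
private noncomputable def extNum {m : ℕ} (f : E m → ℝ) (x : E m) (h : E m) : ℝ :=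
  ∑ i, ∑ j, (mat (D2 f x)).adjugate j i * D3 f x h (bas i) (bas j)

/-- the formula for `ω` -/
private noncomputable def extOm {m : ℕ} (f : E m → ℝ) (x : E m) : E m →L[ℝ] ℝ :=
  ((m + 2 : ℝ) * (mat (D2 f x)).det)⁻¹ • ∑ i, ∑ j, (mat (D2 f x)).adjugate j i •
    ((ContinuousLinearMap.apply ℝ ℝ (bas j)).comp
      ((ContinuousLinearMap.apply ℝ (E m →L[ℝ] ℝ) (bas i)).comp (D3 f x)))

private theorem extOm_apply {m : ℕ} (f : E m → ℝ) (x : E m) (h : E m) :
    extOm f x h = ((m + 2 : ℝ) * (mat (D2 f x)).det)⁻¹ * extNum f x h := by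
  unfold extOm extNum
  rw [_root_.smul_apply, smul_eq_mul]
  congr 1
  rw [_root_.sum_apply]
  refine Finset.sum_congr rfl fun i _ => ?_
  rw [_root_.sum_apply]
  refine Finset.sum_congr rfl fun j _ => ?_
  rfl

private theorem ext_det_ne {m : ℕ} {f : E m → ℝ} {x : E m} (hf : ContDiffAt ℝ 3 f x)
    (hpos : ∀ h, h ≠ 0 → 0 < D2 f x h h) : (m + 2 : ℝ) * (mat (D2 f x)).det ≠ 0 := by
  have h1 := mat_det_pos (D2 f x) (fun a b => D2_symm (hf.of_le (by norm_num)) a b) hpos
  positivity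

private theorem ext_agree {m : ℕ} {f : E m → ℝ} {x : E m} (hf : ContDiffAt ℝ 3 f x)
    (hpos : ∀ h, h ≠ 0 → 0 < D2 f x h h) {ω : E m →L[ℝ] ℝ} (hω : Tr f x ω) (h : E m) :
    extOm f x h = ω h := by
  have h1 := trace_formula (D2 f x) (fun a b => D2_symm (hf.of_le (by norm_num)) a b) ω h
  have h2 : extNum f x h = (m + 2 : ℝ) * ω h * (mat (D2 f x)).det := by
    rw [← h1]
    unfold extNum
    refine Finset.sum_congr rfl fun i _ => Finset.sum_congr rfl fun j _ => ?_
    rw [hω h (bas i) (bas j)]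
  have h3 := ext_det_ne hf hpos
  rw [extOm_apply, h2]
  have h4 : (m + 2 : ℝ) * ω h * (mat (D2 f x)).det = ((m + 2 : ℝ) * (mat (D2 f x)).det) * ω h := by
    ring
  rw [h4, inv_mul_cancel_left₀ h3]

private theorem ext_cont_D2 {m : ℕ} {f : E m → ℝ} {x : E m} (hf : ContDiffAt ℝ 3 f x)
    (k l : E m) : ContinuousAt (fun y => D2 f y k l) x := by
  have h1 : ContinuousAt (D2 f) x := (hasFDerivAt_D2 hf).continuousAt
  exact (h1.clm_apply continuousAt_const).clm_apply continuousAt_const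

private theorem ext_cont_mat {m : ℕ} {f : E m → ℝ} {x : E m} (hf : ContDiffAt ℝ 3 f x) :
    ContinuousAt (fun y => mat (D2 f y)) x := by
  refine continuousAt_pi.2 fun i => continuousAt_pi.2 fun j => ?_
  exact ext_cont_D2 hf (bas i) (bas j)

private theorem ext_cont_Om {m : ℕ} {f : E m → ℝ} {x : E m} (hf : ContDiffAt ℝ 3 f x)
    (hpos : ∀ h, h ≠ 0 → 0 < D2 f x h h) (h : E m) :
    ContinuousAt (fun y => extOm f y h) x := by
  have h1 := ext_cont_mat hf
  have hdet : ContinuousAt (fun y => (m + 2 : ℝ) * (mat (D2 f y)).det) x :=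
    continuousAt_const.mul
      ((Continuous.matrix_det (continuous_id (X := Matrix (Fin m) (Fin m) ℝ))).continuousAt.comp h1)
  have hadj : ∀ i j, ContinuousAt (fun y => (mat (D2 f y)).adjugate j i) x := by
    intro i j
    have h2 : Continuous fun A : Matrix (Fin m) (Fin m) ℝ => A.adjugate j i :=
      (Continuous.matrix_adjugate (continuous_id (X := Matrix (Fin m) (Fin m) ℝ))).matrix_elem j i
    exact h2.continuousAt.comp h1
  have hnum : ContinuousAt (fun y => extNum f y h) x := by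
    unfold extNum
    refine tendsto_finsetSum _ fun i _ => tendsto_finsetSum _ fun j _ => ?_
    exact (hadj i j).mul (continuousAt_D3 hf h (bas i) (bas j))
  have h3 : (fun y => extOm f y h) = fun y =>
      ((m + 2 : ℝ) * (mat (D2 f y)).det)⁻¹ * extNum f y h := by
    funext y
    exact extOm_apply f y h
  rw [h3]
  exact (hdet.inv₀ (ext_det_ne hf hpos)).mul hnum

/-- Paper proof: by `trace_formula`, `ω h = (∑ adj(mat (D2 f x)) j i * D3 f x h (e i) (e j)) /
((m + 2) det)` at the points of `D`; the right side is a continuous function of `x` in the ball and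
linear in `h`; both sides of the identity are continuous in `x` and agree on a dense set. -/
theorem tr_extend {m : ℕ} {f : E m → ℝ} {x0 : E m} {r : ℝ}
    (hf : ∀ x ∈ ball x0 r, ContDiffAt ℝ 3 f x)
    (hpos : ∀ x ∈ ball x0 r, ∀ h, h ≠ 0 → 0 < D2 f x h h) (D : Set (E m))
    (hD : ball x0 r ⊆ closure D) (hω : ∀ x ∈ D ∩ ball x0 r, ∃ ω : E m →L[ℝ] ℝ, Tr f x ω) :
    ∀ x ∈ ball x0 r, ∃ ω : E m →L[ℝ] ℝ, Tr f x ω := by
  intro x hx
  refine ⟨extOm f x, fun h k l => ?_⟩
  by_contra hne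
  have hfx := hf x hx
  have hpx := hpos x hx
  have hc : ContinuousAt (fun y => D3 f y h k l - (extOm f y h * D2 f y k l +
      extOm f y k * D2 f y h l + extOm f y l * D2 f y h k)) x :=
    (continuousAt_D3 hfx h k l).sub
      ((((ext_cont_Om hfx hpx h).mul (ext_cont_D2 hfx k l)).add
        ((ext_cont_Om hfx hpx k).mul (ext_cont_D2 hfx h l))).add
        ((ext_cont_Om hfx hpx l).mul (ext_cont_D2 hfx h k)))
  have h1 := hc.eventually_ne (sub_ne_zero.2 hne)
  have h2 : ∃ᶠ y in 𝓝 x, y ∈ D := mem_closure_iff_frequently.1 (hD hx)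
  have h3 : ∀ᶠ y in 𝓝 x, y ∈ ball x0 r := isOpen_ball.mem_nhds hx
  obtain ⟨y, hyD, hyne, hyb⟩ := (h2.and_eventually (h1.and h3)).exists
  obtain ⟨ω, hw⟩ := hω y ⟨hyD, hyb⟩
  have hfy := hf y hyb
  have hpy := hpos y hyb
  apply hyne
  rw [ext_agree hfy hpy hw h, ext_agree hfy hpy hw k, ext_agree hfy hpy hw l, hw h k l, sub_self]

end MP80b30d
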