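import Pool.Agent.Lib.MP_80b30d_gt.Ext

/-! MP_80b30d_gt: the cube of rho times the Hessian is polynomial. -/

namespace MP80b30d

open Set Filter Topology Metric Matrix

variable {m : ℕ} {f ρ : E m → ℝ} {x0 : E m} {r : ℝ}

/-- Paper proof: along the segment `z(t) = x + t (y - x)`, `h = y - x`, the derivative of
`ρ(z)³ D2 f z h h` is `3 ρ² (-ρ ω h) D2 f z h h + ρ³ * 3 ω h D2 f z h h = 0`. -/
theorem rho_line (hf : ∀ x ∈ ball x0 r, ContDiffAt ℝ 3 f x)
    (hρ : ∀ x ∈ ball x0 r, ∃ ω : E m →L[ℝ] ℝ, Tr f x ω ∧ HasFDerivAt ρ (-(ρ x) • ω) x)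
    {x y : E m} (hx : x ∈ ball x0 r) (hy : y ∈ ball x0 r) :
    ρ x ^ 3 * D2 f x (y - x) (y - x) = ρ y ^ 3 * D2 f y (y - x) (y - x) := by
  obtain ⟨φ, hφ⟩ : ∃ φ : ℝ → ℝ, φ = fun t =>
    ρ (x + t • (y - x)) ^ 3 * D2 f (x + t • (y - x)) (y - x) (y - x) := ⟨_, rfl⟩
  have hd : ∀ t ∈ Icc (0 : ℝ) 1, HasDerivAt φ 0 t := by
    intro t ht
    have hz : x + t • (y - x) ∈ ball x0 r := (convex_ball x0 r).add_smul_sub_mem hx hy ht
    obtain ⟨ω, hT, hρ'⟩ := hρ _ hz
    have hline : HasDerivAt (fun t : ℝ => x + t • (y - x)) (y - x) t := by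
      have h0 := ((hasDerivAt_id t).smul_const (y - x)).const_add x
      rw [one_smul] at h0
      exact h0
    have h1 := hρ'.comp_hasDerivAt t hline
    have h2 : HasDerivAt (fun t : ℝ => D2 f (x + t • (y - x)))
        (D3 f (x + t • (y - x)) (y - x)) t :=
      HasFDerivAt.comp_hasDerivAt (E := E m →L[ℝ] E m →L[ℝ] ℝ) t (hasFDerivAt_D2 (hf _ hz)) hline
    have h3 := (h2.clm_apply (hasDerivAt_const t (y - x))).clm_apply (hasDerivAt_const t (y - x))
    have h4 := (h1.pow 3).mul h3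
    rw [hφ]
    refine h4.congr_deriv ?_
    have h5 := hT (y - x) (y - x) (y - x)
    simp only [_root_.smul_apply, smul_eq_mul, Function.comp_apply, map_zero,
      add_zero, h5, Pi.pow_apply]
    push_cast
    ring
  have h6 := constant_of_has_deriv_right_zero (f := φ) (a := 0) (b := 1)
    (fun t ht => (hd t ht).continuousAt.continuousWithinAt)
    (fun t ht => (hd t ⟨ht.1, ht.2.le⟩).hasDerivWithinAt) 1 ⟨zero_le_one, le_refl 1⟩
  rw [hφ] at h6
  simp only [one_smul, zero_smul, add_zero, add_sub_cancel] at h6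
  exact h6.symm

/-- Paper proof: for `h` choose `s > 0` with `x0 ± s h` in the ball. The second difference in `y` of
`g x y = ρ(x)³ D2 f x (y - x) (y - x)` at `x0`, step `s h`, is `2 s² ρ(x)³ D2 f x h h`, and
`g x y = g y x` (`rho_line`) is a quadratic polynomial in `x` for fixed `y`. Polarize. -/
theorem smooth_K (hr : 0 < r) (hf : ∀ x ∈ ball x0 r, ContDiffAt ℝ 3 f x)
    (hρ : ∀ x ∈ ball x0 r, ∃ ω : E m →L[ℝ] ℝ, Tr f x ω ∧ HasFDerivAt ρ (-(ρ x) • ω) x)
    (h k : E m) : ∀ x ∈ ball x0 r, ∀ N : ℕ, ContDiffAt ℝ N (fun y => ρ y ^ 3 * D2 f y h k) x := by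
  obtain ⟨B, hB⟩ : ∃ B : E m → E m → E m → ℝ, ∀ x u v, B x u v = ρ x ^ 3 * D2 f x u v :=
    ⟨fun x u v => ρ x ^ 3 * D2 f x u v, fun _ _ _ => rfl⟩
  have hg : ∀ x ∈ ball x0 r, ∀ y ∈ ball x0 r, B x (y - x) (y - x) = B y (x - y) (x - y) := by
    intro x hx y hy
    rw [hB, hB, rho_line hf hρ hx hy, ← neg_sub x y]
    simp only [map_neg, _root_.neg_apply, neg_neg]
  have key : ∀ h : E m, ∀ x ∈ ball x0 r, ∀ N : ℕ, ContDiffAt ℝ N (fun y => B y h h) x := by
    intro h x hx N
    obtain ⟨s, hs, hs1⟩ : ∃ s : ℝ, 0 < s ∧ s * ‖h‖ < r := by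
      refine ⟨r / (2 * (‖h‖ + 1)), by positivity, ?_⟩
      rw [div_mul_eq_mul_div, div_lt_iff₀ (by positivity)]
      nlinarith [norm_nonneg h]
    have hp : x0 + s • h ∈ ball x0 r := by
      rw [mem_ball_iff_norm, add_sub_cancel_left, norm_smul, Real.norm_of_nonneg hs.le]
      exact hs1
    have hm : x0 - s • h ∈ ball x0 r := by
      rw [mem_ball_iff_norm, sub_sub_cancel_left, norm_neg, norm_smul, Real.norm_of_nonneg hs.le]
      exact hs1
    have h0 : x0 ∈ ball x0 r := mem_ball_self hr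
    have hq : ∀ a : E m, ContDiffAt ℝ N (fun y => B a (y - a) (y - a)) x := by
      intro a
      simp only [hB]
      have h1 : ContDiffAt ℝ N (fun y : E m => y - a) x := contDiffAt_id.sub contDiffAt_const
      exact contDiffAt_const.mul
        (((contDiffAt_const (c := D2 f a)).clm_apply h1).clm_apply h1)
    have hsum : ContDiffAt ℝ N (fun y => (B (x0 + s • h) (y - (x0 + s • h)) (y - (x0 + s • h)) +
        B (x0 - s • h) (y - (x0 - s • h)) (y - (x0 - s • h)) -
        2 * B x0 (y - x0) (y - x0)) / (2 * s ^ 2)) x :=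
      (((hq _).add (hq _)).sub (contDiffAt_const.mul (hq _))).div_const _
    refine hsum.congr_of_eventuallyEq ?_
    filter_upwards [isOpen_ball.mem_nhds hx] with y hy
    rw [← hg y hy _ hp, ← hg y hy _ hm, ← hg y hy _ h0]
    have e1 : x0 + s • h - y = (x0 - y) + s • h := by abel
    have e2 : x0 - s • h - y = (x0 - y) - s • h := by abel
    rw [e1, e2]
    simp only [hB, map_add, map_sub, map_smul, _root_.add_apply,
      _root_.sub_apply, _root_.smul_apply, smul_eq_mul]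
    field_simp
    ring
  intro x hx N
  have h1 : ContDiffAt ℝ N (fun y => (B y (h + k) (h + k) - B y h h - B y k k) / 2) x :=
    (((key _ x hx N).sub (key _ x hx N)).sub (key _ x hx N)).div_const _
  refine h1.congr_of_eventuallyEq ?_
  filter_upwards [isOpen_ball.mem_nhds hx] with y hy
  have h2 : D2 f y k h = D2 f y h k := D2_symm ((hf y hy).of_le (by norm_num)) k h
  simp only [hB, map_add, _root_.add_apply, h2]
  ring

end MP80b30d
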