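import Pool.Agent.Lib.MP_80b30d_gt.Ext

/-! MP_80b30d_gt: rho is smooth. -/

namespace MP80b30d

open Set Filter Topology Metric Matrix

variable {m : ℕ} {f ρ : E m → ℝ} {x0 : E m} {r : ℝ}

private theorem polyB_det {n : ℕ} {N : WithTop ℕ∞} {x : E m} {F : E m → Matrix (Fin n) (Fin n) ℝ}
    (h : ∀ i j, ContDiffAt ℝ N (fun y => F y i j) x) :
    ContDiffAt ℝ N (fun y => (F y).det) x := by
  simp only [Matrix.det_apply]
  refine ContDiffAt.sum fun σ _ => ?_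
  have h1 : ContDiffAt ℝ N (fun y => ∏ i, F y (σ i) i) x := contDiffAt_prod fun i _ => h _ _
  have h2 : (fun y => Equiv.Perm.sign σ • ∏ i, F y (σ i) i) =
      fun y => ((Equiv.Perm.sign σ : ℤ) : ℝ) * ∏ i, F y (σ i) i := by
    funext y
    rw [Units.smul_def, zsmul_eq_mul]
  rw [h2]
  exact contDiffAt_const.mul h1

/-- Paper proof: `det (mat (ρ³ • D2 f)) = ρ^(3m) / ρ^(m+2) = ρ^(2m-2)`, `m ≥ 2`; the determinant of a
matrix with smooth entries is smooth, and the real power of a positive smooth function is smooth. -/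
theorem smooth_rho (hm : 2 ≤ m) (hf : ∀ x ∈ ball x0 r, ContDiffAt ℝ 3 f x)
    (hpos : ∀ x ∈ ball x0 r, 0 < ρ x)
    (hdet : ∀ x ∈ ball x0 r, ρ x ^ (m + 2) * (mat (D2 f x)).det = 1)
    (hK : ∀ h k : E m, ∀ x ∈ ball x0 r, ∀ N : ℕ,
      ContDiffAt ℝ N (fun y => ρ y ^ 3 * D2 f y h k) x) :
    ∀ x ∈ ball x0 r, ∀ N : ℕ, ContDiffAt ℝ N ρ x ∧
      ∀ h k : E m, ContDiffAt ℝ N (fun y => D2 f y h k) x := by
  intro x hx N
  have hnear : ∀ᶠ y in 𝓝 x, y ∈ ball x0 r := isOpen_ball.mem_nhds hx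
  have h1 : ContDiffAt ℝ N (fun y => (ρ y ^ 3 • mat (D2 f y)).det) x := by
    refine polyB_det fun i j => ?_
    have h2 := hK (EuclideanSpace.single i 1) (EuclideanSpace.single j 1) x hx N
    exact h2
  have h3 : ∀ y ∈ ball x0 r, (ρ y ^ 3 • mat (D2 f y)).det = ρ y ^ (2 * m - 2) := by
    intro y hy
    rw [Matrix.det_smul, Fintype.card_fin]
    have h4 := hdet y hy
    have h5 := hpos y hy
    have h6 : (ρ y ^ 3) ^ m = ρ y ^ (2 * m - 2) * ρ y ^ (m + 2) := by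
      rw [← pow_mul, ← pow_add]
      congr 1
      omega
    rw [h6, mul_assoc, h4, mul_one]
  have h7 : ContDiffAt ℝ N ρ x := by
    have h8 : ContDiffAt ℝ N (fun y => ((ρ y ^ 3 • mat (D2 f y)).det) ^
        ((2 * m - 2 : ℕ) : ℝ)⁻¹) x := by
      refine h1.rpow_const_of_ne ?_
      rw [h3 x hx]
      exact (pow_pos (hpos x hx) _).ne'
    refine h8.congr_of_eventuallyEq ?_
    filter_upwards [hnear] with y hy
    rw [h3 y hy, Real.pow_rpow_inv_natCast (hpos y hy).le (by omega)]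
  refine ⟨h7, fun h k => ?_⟩
  have h9 : ContDiffAt ℝ N (fun y => (ρ y ^ 3)⁻¹ * (ρ y ^ 3 * D2 f y h k)) x :=
    ((h7.pow 3).inv (pow_pos (hpos x hx) _).ne').mul (hK h k x hx N)
  refine h9.congr_of_eventuallyEq ?_
  filter_upwards [hnear] with y hy
  exact (inv_mul_cancel_left₀ (pow_pos (hpos y hy) 3).ne' _).symm

end MP80b30d
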