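import Pool.Agent.Lib.MP_80b30d_gt.Ext

/-! MP_80b30d_gt: the Hessian of rho. -/

namespace MP80b30d

open Set Filter Topology Metric Matrix

private theorem polyC_d2 {m : ℕ} {g : E m → ℝ} {x : E m} (hg : ContDiffAt ℝ 2 g x) :
    HasFDerivAt (fderiv ℝ g) (D2 g x) x := by
  have h1 : ContDiffAt ℝ 1 (fderiv ℝ g) x := hg.fderiv_right (m := 1) (by norm_num)
  exact (h1.differentiableAt (by norm_num)).hasFDerivAt

private theorem polyC_ev {m : ℕ} {F : E m → (E m →L[ℝ] ℝ)} {F' : E m →L[ℝ] E m →L[ℝ] ℝ}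
    {x : E m} (hF : HasFDerivAt F F' x) (k : E m) :
    HasFDerivAt (fun y => F y k) ((ContinuousLinearMap.apply ℝ ℝ k).comp F') x :=
  (ContinuousLinearMap.apply ℝ ℝ k).hasFDerivAt.comp x hF

private theorem polyC_ev2 {m : ℕ} {F : E m → (E m →L[ℝ] E m →L[ℝ] ℝ)}
    {F' : E m →L[ℝ] E m →L[ℝ] E m →L[ℝ] ℝ}
    {x : E m} (hF : HasFDerivAt F F' x) (k l : E m) :
    HasFDerivAt (fun y => F y k l) ((ContinuousLinearMap.apply ℝ ℝ l).comp
      ((ContinuousLinearMap.apply ℝ (E m →L[ℝ] ℝ) k).comp F')) x := by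
  have h1 : HasFDerivAt (fun y => F y k)
      ((ContinuousLinearMap.apply ℝ (E m →L[ℝ] ℝ) k).comp F') x := by
    have h0 := hF.clm_apply (hasFDerivAt_const k x)
    refine h0.congr_fderiv ?_
    ext g v
    simp
  exact (ContinuousLinearMap.apply ℝ ℝ l).hasFDerivAt.comp x h1

variable {m : ℕ} {f ρ : E m → ℝ} {x0 : E m} {r : ℝ}

/-- Paper proof: `B y = ρ y * D2 f y k l` has `D B y h = - Dρ(y) k * D2 f y h l - Dρ(y) l * D2 f y h k`
(as `Dρ = -ρ ω`); its second derivative in directions `g, h` is symmetric, which gives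
`D2 ρ (g,k) H(h,l) + D2 ρ (g,l) H(h,k) = D2 ρ (h,k) H(g,l) + D2 ρ (h,l) H(g,k)`, `H = D2 f x`;
with `g = k`, `h = l = e ≠ 0` fixed: `D2 ρ (g,g) H(e,e) = D2 ρ (e,e) H(g,g)`. Polarize. -/
theorem hess_rho (hm : 2 ≤ m) (hf : ∀ x ∈ ball x0 r, ContDiffAt ℝ 3 f x)
    (hfp : ∀ x ∈ ball x0 r, ∀ h, h ≠ 0 → 0 < D2 f x h h)
    (hs : ∀ x ∈ ball x0 r, ∀ N : ℕ, ContDiffAt ℝ N ρ x ∧
      ∀ h k : E m, ContDiffAt ℝ N (fun y => D2 f y h k) x)
    (hρ : ∀ x ∈ ball x0 r, ∃ ω : E m →L[ℝ] ℝ, Tr f x ω ∧ HasFDerivAt ρ (-(ρ x) • ω) x) :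
    ∀ x ∈ ball x0 r, ∃ α : ℝ, ∀ h k : E m, D2 ρ x h k = α * D2 f x h k := by
  intro x hx
  have hx2 : ContDiffAt ℝ 2 ρ x := by
    have := (hs x hx 2).1
    exact_mod_cast this
  have hf2 : ContDiffAt ℝ 2 f x := (hf x hx).of_le (by norm_num)
  -- first derivative of `B`
  have hB1 : ∀ k l : E m, ∀ y ∈ ball x0 r, ∀ h : E m,
      fderiv ℝ (fun y => ρ y * D2 f y k l) y h =
        -(fderiv ℝ ρ y k * D2 f y h l) - fderiv ℝ ρ y l * D2 f y h k := by
    intro k l y hy h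
    obtain ⟨ω, hT, hd⟩ := hρ y hy
    have e1 := polyC_ev2 (hasFDerivAt_D2 (hf y hy)) k l
    have e2 : HasFDerivAt (fun y => ρ y * D2 f y k l) _ y := hd.mul e1
    rw [e2.fderiv, hd.fderiv]
    have e3 := hT h k l
    simp only [_root_.add_apply, _root_.smul_apply,
      ContinuousLinearMap.comp_apply, ContinuousLinearMap.apply_apply, smul_eq_mul, e3]
    ring
  -- second derivative of `B`
  have hB2 : ∀ k l g h : E m, D2 (fun y => ρ y * D2 f y k l) x g h =
      -(fderiv ℝ ρ x k * D3 f x g h l + D2 f x h l * D2 ρ x g k) -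
        (fderiv ℝ ρ x l * D3 f x g h k + D2 f x h k * D2 ρ x g l) := by
    intro k l g h
    have hc : ContDiffAt ℝ 2 (fun y => ρ y * D2 f y k l) x := by
      have h2 := (hs x hx 2).2 k l
      have h3 : ContDiffAt ℝ 2 (fun y => D2 f y k l) x := by exact_mod_cast h2
      exact hx2.mul h3
    have e1 := polyC_ev (polyC_d2 hc) h
    have e2 : (fun y => fderiv ℝ (fun y => ρ y * D2 f y k l) y h) =ᶠ[𝓝 x]
        fun y => -(fderiv ℝ ρ y k * D2 f y h l) - fderiv ℝ ρ y l * D2 f y h k := by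
      filter_upwards [isOpen_ball.mem_nhds hx] with y hy
      exact hB1 k l y hy h
    have e3 := e1.congr_of_eventuallyEq e2.symm
    have d1 := polyC_ev (polyC_d2 hx2) k
    have d2 := polyC_ev (polyC_d2 hx2) l
    have d3 := polyC_ev2 (hasFDerivAt_D2 (hf x hx)) h l
    have d4 := polyC_ev2 (hasFDerivAt_D2 (hf x hx)) h k
    have e4 : HasFDerivAt (fun y => -(fderiv ℝ ρ y k * D2 f y h l) -
        fderiv ℝ ρ y l * D2 f y h k) _ x := ((d1.mul d3).neg).sub (d2.mul d4)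
    have e5 := e3.unique e4
    have e6 := congrArg (fun T : E m →L[ℝ] ℝ => T g) e5
    simp only [_root_.sub_apply, _root_.neg_apply,
      _root_.add_apply, _root_.smul_apply,
      ContinuousLinearMap.comp_apply, ContinuousLinearMap.apply_apply, smul_eq_mul] at e6
    exact e6
  have key : ∀ k l g h : E m,
      D2 f x h l * D2 ρ x g k + D2 f x h k * D2 ρ x g l =
        D2 f x g l * D2 ρ x h k + D2 f x g k * D2 ρ x h l := by
    intro k l g h
    have hc : ContDiffAt ℝ 2 (fun y => ρ y * D2 f y k l) x := by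
      have h2 := (hs x hx 2).2 k l
      have h3 : ContDiffAt ℝ 2 (fun y => D2 f y k l) x := by exact_mod_cast h2
      exact hx2.mul h3
    have e1 := D2_symm hc g h
    rw [hB2, hB2, D3_symm12 (hf x hx) g h l, D3_symm12 (hf x hx) g h k] at e1
    linarith
  obtain ⟨e, he⟩ : ∃ e : E m, e ≠ 0 := by
    have : Nonempty (Fin m) := ⟨⟨0, by omega⟩⟩
    exact exists_ne 0
  have hpos := hfp x hx e he
  have hdiag : ∀ g : E m, D2 ρ x g g = D2 ρ x e e / D2 f x e e * D2 f x g g := by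
    intro g
    have h1 := key g e g e
    rw [D2_symm hf2 e g, D2_symm hx2 e g] at h1
    have h2 : D2 f x e e * D2 ρ x g g = D2 f x g g * D2 ρ x e e := by linarith
    field_simp
    linarith
  refine ⟨D2 ρ x e e / D2 f x e e, fun h k => ?_⟩
  have h1 := hdiag (h + k)
  have h2 := hdiag h
  have h3 := hdiag k
  simp only [map_add, _root_.add_apply] at h1
  rw [D2_symm hx2 k h, D2_symm hf2 k h, h2, h3] at h1
  linarith

end MP80b30d
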