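import Pool.Agent.Lib.MP_80b30d_gt.Ext

/-! MP_80b30d_gt: alpha is constant. -/

namespace MP80b30d

open Set Filter Topology Metric Matrix

variable {m : ℕ} {f ρ : E m → ℝ} {x0 : E m} {r : ℝ}

/-- Paper proof: `α x = D2 ρ x e e / D2 f x e e` is `C¹`; differentiate `D2 ρ x h k = α x * D2 f x h k`
in direction `g` and use the symmetry of `D3 ρ`, `D3 f`: `Dα(g) H(h,k) = Dα(h) H(g,k)`; for `g` choose
`h = k ≠ 0` with `H(g,h) = 0` (`m ≥ 2`): `Dα(g) = 0`. -/
theorem alpha_const (hm : 2 ≤ m) (hr : 0 < r) (hf : ∀ x ∈ ball x0 r, ContDiffAt ℝ 3 f x)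
    (hfp : ∀ x ∈ ball x0 r, ∀ h, h ≠ 0 → 0 < D2 f x h h)
    (hs : ∀ x ∈ ball x0 r, ContDiffAt ℝ 3 ρ x)
    (hα : ∀ x ∈ ball x0 r, ∃ α : ℝ, ∀ h k : E m, D2 ρ x h k = α * D2 f x h k) :
    ∃ α : ℝ, ∀ x ∈ ball x0 r, ∀ h k : E m, D2 ρ x h k = α * D2 f x h k := by
  obtain ⟨e, he⟩ : ∃ e : E m, e ≠ 0 := by
    refine ⟨EuclideanSpace.single (⟨0, by omega⟩ : Fin m) 1, fun h => ?_⟩
    have h1 := congrArg (fun v : E m => v ⟨0, by omega⟩) h
    simp at h1
  set α : E m → ℝ := fun x => D2 ρ x e e / D2 f x e e with hαdef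
  have hid : ∀ x ∈ ball x0 r, ∀ h k : E m, D2 ρ x h k = α x * D2 f x h k := by
    intro x hx h k
    obtain ⟨a, ha⟩ := hα x hx
    have hpos := hfp x hx e he
    have h1 : α x = a := by
      simp only [hαdef]
      rw [ha e e, mul_div_assoc, div_self hpos.ne', mul_one]
    rw [h1]
    exact ha h k
  have hder : ∀ {F : E m → ℝ} {x : E m}, ContDiffAt ℝ 3 F x → ∀ h k : E m,
      ∃ L : E m →L[ℝ] ℝ, HasFDerivAt (fun y => D2 F y h k) L x ∧
        ∀ g, L g = D3 F x g h k := by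
    intro F x hF h k
    have h1 := (hasFDerivAt_D2 hF).clm_apply (hasFDerivAt_const h x)
    have h2 := h1.clm_apply (hasFDerivAt_const k x)
    refine ⟨_, h2, fun g => ?_⟩
    simp
  have hdiff : ∀ x ∈ ball x0 r, DifferentiableAt ℝ α x := by
    intro x hx
    obtain ⟨L1, h1, -⟩ := hder (hs x hx) e e
    obtain ⟨L2, h2, -⟩ := hder (hf x hx) e e
    have h3 : D2 f x e e ≠ 0 := (hfp x hx e he).ne'
    have h4 : DifferentiableAt ℝ (fun y => D2 ρ y e e * (D2 f y e e)⁻¹) x :=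
      h1.differentiableAt.mul (h2.differentiableAt.inv h3)
    have h5 : α = fun y => D2 ρ y e e * (D2 f y e e)⁻¹ := by
      funext y
      simp only [hαdef]
      rw [div_eq_mul_inv]
    rw [h5]
    exact h4
  have hmain : ∀ x ∈ ball x0 r, ∀ g h k : E m,
      D3 ρ x g h k = fderiv ℝ α x g * D2 f x h k + α x * D3 f x g h k := by
    intro x hx g h k
    obtain ⟨L1, h1, e1⟩ := hder (hs x hx) h k
    obtain ⟨L2, h2, e2⟩ := hder (hf x hx) h k
    have h3 := (hdiff x hx).hasFDerivAt.mul h2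
    have h4 : (fun y => D2 ρ y h k) =ᶠ[𝓝 x] (α * fun y => D2 f y h k) := by
      filter_upwards [isOpen_ball.mem_nhds hx] with y hy
      exact hid y hy h k
    have h5 := h1.unique (h3.congr_of_eventuallyEq h4)
    have h6 := congrArg (fun L : E m →L[ℝ] ℝ => L g) h5
    have h7 : L1 g = α x * L2 g + D2 f x h k * fderiv ℝ α x g := h6
    rw [e1, e2] at h7
    rw [h7]
    ring
  have hzero : ∀ x ∈ ball x0 r, fderiv ℝ α x = 0 := by
    intro x hx
    ext g
    have hsym : ∀ g h k : E m, fderiv ℝ α x g * D2 f x h k = fderiv ℝ α x h * D2 f x g k := by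
      intro g h k
      have h1 := hmain x hx g h k
      have h2 := hmain x hx h g k
      have h3 := D3_symm12 (hs x hx) g h k
      have h4 := D3_symm12 (hf x hx) g h k
      rw [h4] at h1
      linarith
    obtain ⟨h, hh, hh0⟩ : ∃ h : E m, D2 f x g h = 0 ∧ h ≠ 0 := by
      have hlt : Module.finrank ℝ ℝ < Module.finrank ℝ (E m) := by
        rw [Module.finrank_self, finrank_euclideanSpace_fin]
        omega
      have hker := LinearMap.ker_ne_bot_of_finrank_lt (f := (D2 f x g : E m →ₗ[ℝ] ℝ)) hlt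
      obtain ⟨h, hmem, hne⟩ := Submodule.exists_mem_ne_zero_of_ne_bot hker
      exact ⟨h, hmem, hne⟩
    have h1 := hsym g h h
    rw [hh, mul_zero] at h1
    have h2 := hfp x hx h hh0
    have h3 : fderiv ℝ α x g = 0 := (mul_eq_zero.1 h1).resolve_right h2.ne'
    simpa using h3
  refine ⟨α x0, fun x hx h k => ?_⟩
  have hconst : α x = α x0 := by
    refine isOpen_ball.is_const_of_fderiv_eq_zero (𝕜 := ℝ)
      (convex_ball x0 r).isPreconnected (fun y hy => (hdiff y hy).differentiableWithinAt)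
      (fun y hy => ?_) hx (mem_ball_self hr)
    simpa using hzero y hy
  rw [hid x hx h k, hconst]

end MP80b30d
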