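import Pool.Agent.Lib.MP_80b30d_gt.QuadA
import Pool.Agent.Lib.MP_80b30d_gt.Affine

/-! MP_80b30d_gt: the graph is a quadric. -/

namespace MP80b30d

open Set Filter Topology Metric Matrix

variable {m : ℕ} {f ρ : E m → ℝ} {x0 : E m} {r : ℝ}

/-- the quadratic function `(α / 2) y² + (l x + c) y - q0 x` -/
noncomputable def quadB_qf (α : ℝ) (l : E m →L[ℝ] ℝ) (c : ℝ) (q0 : QF (E m)) :
    QF (E m × ℝ) where
  Q := (α / 2) • (ContinuousLinearMap.snd ℝ (E m) ℝ).smulRight (ContinuousLinearMap.snd ℝ (E m) ℝ) +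
    (1 / 2 : ℝ) • ((l.comp (ContinuousLinearMap.fst ℝ (E m) ℝ)).smulRight
      (ContinuousLinearMap.snd ℝ (E m) ℝ) +
      (ContinuousLinearMap.snd ℝ (E m) ℝ).smulRight
        (l.comp (ContinuousLinearMap.fst ℝ (E m) ℝ))) -
    q0.Q.bilinearComp (ContinuousLinearMap.fst ℝ (E m) ℝ) (ContinuousLinearMap.fst ℝ (E m) ℝ)
  l := c • ContinuousLinearMap.snd ℝ (E m) ℝ - q0.l.comp (ContinuousLinearMap.fst ℝ (E m) ℝ)
  c := -q0.c
  symm x y := by
    simp [q0.symm x.1 y.1]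
    ring

theorem quadB_eval (α : ℝ) (l : E m →L[ℝ] ℝ) (c : ℝ) (q0 : QF (E m)) (x : E m) (y : ℝ) :
    (quadB_qf α l c q0).eval (x, y) = α / 2 * y ^ 2 + (l x + c) * y - q0.eval x := by
  simp [QF.eval, quadB_qf]
  ring

theorem quadB_D2 {α : ℝ} (hf : ∀ x ∈ ball x0 r, ContDiffAt ℝ 3 f x)
    (hs : ∀ x ∈ ball x0 r, ContDiffAt ℝ 3 ρ x)
    (hα : ∀ x ∈ ball x0 r, ∀ h k : E m, D2 ρ x h k = α * D2 f x h k) :
    ∀ x ∈ ball x0 r, ∀ h k : E m, D2 (fun x => ρ x - α * f x) x h k = 0 := by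
  intro x hx h k
  have h1 : fderiv ℝ (fun x => ρ x - α * f x) =ᶠ[𝓝 x] fun y => fderiv ℝ ρ y - α • fderiv ℝ f y := by
    filter_upwards [isOpen_ball.mem_nhds hx] with y hy
    have d1 : DifferentiableAt ℝ ρ y := (hs y hy).differentiableAt (by norm_num)
    have d2 : DifferentiableAt ℝ f y := (hf y hy).differentiableAt (by norm_num)
    have e := (d1.hasFDerivAt.sub (d2.hasFDerivAt.const_mul α)).fderiv
    exact e
  have d1 : DifferentiableAt ℝ (fderiv ℝ ρ) x :=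
    ((hs x hx).fderiv_right (m := 1) (by norm_num)).differentiableAt (by norm_num)
  have d2 : DifferentiableAt ℝ (fderiv ℝ f) x :=
    ((hf x hx).fderiv_right (m := 1) (by norm_num)).differentiableAt (by norm_num)
  have h2 : D2 (fun x => ρ x - α * f x) x = D2 ρ x - α • D2 f x := by
    unfold D2
    rw [h1.fderiv_eq]
    exact (d1.hasFDerivAt.sub (d2.hasFDerivAt.const_smul α)).fderiv
  rw [h2]
  have h3 := hα x hx h k
  simp only [_root_.sub_apply, _root_.smul_apply, smul_eq_mul]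
  rw [h3, sub_self]

/-- Paper proof: `affine_of_D2` for `ρ - α f`, `quadratic_of_D3` for `ρ f - (α / 2) f²`:
`ρ = α f + A`, `ρ f - (α / 2) f² = w`, so `(α / 2) f² + A f - w = 0`; `q (x, y) = (α / 2) y² +
A(x) y - w(x)` is not zero: otherwise `α = 0` and `A = 0` (coefficients), so `ρ = 0`. -/
theorem quadric_of_rho {α : ℝ} (hr : 0 < r) (hf : ∀ x ∈ ball x0 r, ContDiffAt ℝ 3 f x)
    (hs : ∀ x ∈ ball x0 r, ContDiffAt ℝ 3 ρ x) (hpos : ∀ x ∈ ball x0 r, 0 < ρ x)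
    (hρ : ∀ x ∈ ball x0 r, ∃ ω : E m →L[ℝ] ℝ, Tr f x ω ∧ HasFDerivAt ρ (-(ρ x) • ω) x)
    (hα : ∀ x ∈ ball x0 r, ∀ h k : E m, D2 ρ x h k = α * D2 f x h k) :
    ∃ q : QF (E m × ℝ), (∃ z, q.eval z ≠ 0) ∧ ∀ x ∈ ball x0 r, q.eval (x, f x) = 0 := by
  obtain ⟨l, c, hlc⟩ := affine_of_D2 (g := fun x => ρ x - α * f x) hr
    (fun x hx => ((hs x hx).of_le (by norm_num)).sub
      (contDiffAt_const.mul ((hf x hx).of_le (by norm_num))))
    (quadB_D2 hf hs hα)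
  obtain ⟨q0, hq0⟩ := quadratic_of_D3 (g := fun y => ρ y * f y - α / 2 * f y ^ 2) hr
    (fun x hx => ((hs x hx).mul (hf x hx)).sub (contDiffAt_const.mul ((hf x hx).pow 2)))
    (W_D3 hf hs hρ hα)
  refine ⟨quadB_qf α l c q0, ?_, ?_⟩
  · by_contra hcon
    push Not at hcon
    have h0 := hcon (x0, 0)
    have h1 := hcon (x0, 1)
    have h2 := hcon (x0, -1)
    rw [quadB_eval] at h0 h1 h2
    have h3 := hlc x0 (mem_ball_self hr)
    have h4 := hpos x0 (mem_ball_self hr)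
    have h5 : α = 0 := by linarith
    rw [h5] at h3 h1
    linarith
  · intro x hx
    have h1 := hlc x hx
    have h2 := hq0 x hx
    rw [quadB_eval, ← h1, ← h2]
    ring

end MP80b30d
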