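import Pool.Agent.Lib.MP_80b30d_gt.Rho
import Pool.Agent.Lib.MP_80b30d_gt.PolyA
import Pool.Agent.Lib.MP_80b30d_gt.PolyB
import Pool.Agent.Lib.MP_80b30d_gt.PolyC
import Pool.Agent.Lib.MP_80b30d_gt.PolyD
import Pool.Agent.Lib.MP_80b30d_gt.QuadB

/-! MP_80b30d_gt: assembly of the local part. -/

namespace MP80b30d

open Set Filter Topology Metric Matrix

variable {m : ℕ} {f ρ : E m → ℝ} {x0 : E m} {r : ℝ}

/-- assembly of the local part -/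
theorem quadric_local (hm : 2 ≤ m) (hr : 0 < r) (hf : ∀ x ∈ ball x0 r, ContDiffAt ℝ 3 f x)
    (hfp : ∀ x ∈ ball x0 r, ∀ h, h ≠ 0 → 0 < D2 f x h h) (D : Set (E m))
    (hD : ball x0 r ⊆ closure D) (hω : ∀ x ∈ D ∩ ball x0 r, ∃ ω : E m →L[ℝ] ℝ, Tr f x ω) :
    ∃ q : QF (E m × ℝ), (∃ z, q.eval z ≠ 0) ∧ ∀ x ∈ ball x0 r, q.eval (x, f x) = 0 := by
  have hω' := tr_extend hf hfp D hD hω
  obtain ⟨ρ, hpos, hdet, hρ⟩ := exists_rho hf hfp hω'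
  have hs := smooth_rho hm hf hpos hdet (smooth_K hr hf hρ)
  have hs3 : ∀ x ∈ ball x0 r, ContDiffAt ℝ 3 ρ x := fun x hx => by
    exact_mod_cast (hs x hx 3).1
  obtain ⟨α, hα⟩ := alpha_const hm hr hf hfp hs3 (hess_rho hm hf hfp hs hρ)
  exact quadric_of_rho hr hf hs3 hpos hρ hα

end MP80b30d
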