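import Pool.Agent.Lib.MP_80b30d_gt.Symm

/-! MP_80b30d_gt: positivity is open; a strongly curved point exists. -/

namespace MP80b30d

open Set Filter Topology Metric

variable {m n : ℕ} {K : Set (E n)} {Ψ : (E m × ℝ) ≃L[ℝ] E n} {f : E m → ℝ} {x : E m}

/-- positivity of the Hessian is an open condition -/
theorem eventually_pos (hf : ContDiffAt ℝ 3 f x) (hpos : ∀ b : E m, b ≠ 0 → 0 < D2 f x b b) :
    ∀ᶠ y in 𝓝 x, ∀ b : E m, b ≠ 0 → 0 < D2 f y b b := by
  have hcont : ContinuousOn (fun b : E m => D2 f x b b) (sphere 0 1) := by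
    have h1 : Continuous fun b : E m => D2 f x b b := by
      exact ((D2 f x).continuous.clm_apply continuous_id)
    exact h1.continuousOn
  obtain ⟨ε, hε, hε'⟩ := (isCompact_sphere (0 : E m) 1).exists_forall_le' hcont (a := 0)
    (fun b hb => hpos b (by
      rintro rfl
      rw [mem_sphere_zero_iff_norm, norm_zero] at hb
      exact zero_ne_one hb))
  have h2 : ContinuousAt (D2 f) x := (hasFDerivAt_D2 hf).continuousAt
  have h3 : ∀ᶠ y in 𝓝 x, ‖D2 f y - D2 f x‖ < ε := by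
    have h4 := h2.eventually (Metric.ball_mem_nhds (D2 f x) hε)
    filter_upwards [h4] with y hy
    have h5 := dist_eq_norm (D2 f y) (D2 f x)
    exact h5 ▸ hy
  filter_upwards [h3] with y hy b hb
  have hb' : 0 < ‖b‖ := norm_pos_iff.2 hb
  have h5 : ε * ‖b‖ ^ 2 ≤ D2 f x b b := by
    have h6 := hε' (‖b‖⁻¹ • b) (by
      rw [mem_sphere_zero_iff_norm, norm_smul, norm_inv, norm_norm, inv_mul_cancel₀ hb'.ne'])
    simp only [map_smul, ContinuousLinearMap.smul_apply, smul_eq_mul] at h6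
    have h7 : ‖b‖ ^ 2 * (‖b‖⁻¹ * (‖b‖⁻¹ * D2 f x b b)) = D2 f x b b := by
      field_simp
    rw [← h7, mul_comm ε]
    exact mul_le_mul_of_nonneg_left h6 (by positivity)
  have h8 : |(D2 f y - D2 f x) b b| ≤ ‖D2 f y - D2 f x‖ * ‖b‖ * ‖b‖ := by
    rw [← Real.norm_eq_abs]
    exact ContinuousLinearMap.le_opNorm₂ _ _ _
  have h9 : (D2 f y - D2 f x) b b = D2 f y b b - D2 f x b b := rfl
  rw [h9] at h8
  have h10 := neg_abs_le (D2 f y b b - D2 f x b b)
  have h11 : ‖D2 f y - D2 f x‖ * ‖b‖ * ‖b‖ < ε * ‖b‖ ^ 2 := by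
    rw [pow_two, ← mul_assoc]
    exact mul_lt_mul_of_pos_right (mul_lt_mul_of_pos_right hy hb') hb'
  linarith

/-- Paper proof: a point `p` of `K` with maximal norm, `l = 2 ⟪p, ·⟫`, `ε = 1`. -/
theorem farthest (hn : 1 ≤ n) (hK : IsCompact K) (hne : K.Nonempty) :
    ∃ p ∈ frontier K, Strong K p := by
  obtain ⟨p, hp, hmax⟩ := hK.exists_isMaxOn hne (continuous_norm.continuousOn)
  refine ⟨p, ⟨subset_closure hp, ?_⟩, 2 • innerSL ℝ p, 1, one_pos, ?_⟩
  · intro hint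
    obtain ⟨v, hv, hpv⟩ : ∃ v : E n, v ≠ 0 ∧ 0 ≤ inner ℝ p v := by
      obtain ⟨v, hv⟩ : ∃ v : E n, v ≠ 0 := by
        refine ⟨EuclideanSpace.single (⟨0, hn⟩ : Fin n) 1, fun h => ?_⟩
        have h1 := congrArg norm h
        simp at h1
      rcases le_total 0 (inner ℝ p v) with h | h
      · exact ⟨v, hv, h⟩
      · refine ⟨-v, neg_ne_zero.2 hv, ?_⟩
        rw [inner_neg_right]
        linarith
    have h1 : ∀ᶠ t : ℝ in 𝓝 0, p + t • v ∈ K := by
      have h2 : ContinuousAt (fun t : ℝ => p + t • v) 0 := by fun_prop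
      have h3 : interior K ∈ 𝓝 (p + (0 : ℝ) • v) := by
        rw [zero_smul, add_zero]
        exact isOpen_interior.mem_nhds hint
      filter_upwards [h2.eventually h3] with t ht
      exact interior_subset ht
    have h2 : ∀ᶠ t : ℝ in 𝓝[>] 0, p + t • v ∈ K := h1.filter_mono nhdsWithin_le_nhds
    obtain ⟨t, ht, ht0⟩ := (h2.and self_mem_nhdsWithin).exists
    have ht0' : (0 : ℝ) < t := ht0
    have h3 : ‖p + t • v‖ ≤ ‖p‖ := hmax ht
    have h4 : ‖p + t • v‖ ^ 2 = ‖p‖ ^ 2 + 2 * (t * inner ℝ p v) + t ^ 2 * ‖v‖ ^ 2 := by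
      rw [norm_add_sq_real, inner_smul_right, norm_smul, mul_pow, Real.norm_eq_abs, sq_abs]
    have h5 : ‖p + t • v‖ ^ 2 ≤ ‖p‖ ^ 2 := pow_le_pow_left₀ (norm_nonneg _) h3 2
    have h6 : 0 < ‖v‖ := norm_pos_iff.2 hv
    have h7 : 0 < t ^ 2 * ‖v‖ ^ 2 := by positivity
    have h8 : 0 ≤ t * inner ℝ p v := mul_nonneg ht0'.le hpv
    linarith
  · refine Eventually.of_forall fun y hy => ?_
    have h1 : ‖y‖ ≤ ‖p‖ := hmax hy
    have h2 : ‖y - p‖ ^ 2 = ‖y‖ ^ 2 - 2 * inner ℝ y p + ‖p‖ ^ 2 := norm_sub_sq_real y p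
    have h3 : ‖y‖ ^ 2 ≤ ‖p‖ ^ 2 := pow_le_pow_left₀ (norm_nonneg _) h1 2
    have h4 : (2 • innerSL ℝ p) p = 2 * ‖p‖ ^ 2 := by
      rw [ContinuousLinearMap.smul_apply, innerSL_apply_apply, real_inner_self_eq_norm_sq]
      simp
    have h5 : (2 • innerSL ℝ p) y = 2 * inner ℝ y p := by
      rw [ContinuousLinearMap.smul_apply, innerSL_apply_apply, real_inner_comm]
      simp
    rw [h4, h5, one_mul, h2]
    linarith

end MP80b30d
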