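import Pool.Agent.Lib.MP_80b30d_gt.ChartA

/-! MP_80b30d_gt: dense subsets of the boundary. -/

namespace MP80b30d

open Set Filter Topology Metric

variable {m n : ℕ} {K : Set (E n)} {Ψ : (E m × ℝ) ≃L[ℝ] E n} {f : E m → ℝ} {x : E m}

/-- charts at nearby points of a dense subset of the boundary. Paper proof: `Ψ (x, f x)` is a limit
of points `d` of `D`; near it `d = Ψ (x', f x')`, `x' = (Ψ.symm d).1` (`Chart.bdry'`). -/
theorem dense_chart (h : Chart K Ψ f x) {D : Set (E n)} (hDK : D ⊆ frontier K)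
    (hD : frontier K ⊆ closure D) : x ∈ closure {y : E m | Ψ (y, f y) ∈ D} := by
  rw [mem_closure_iff_nhds]
  intro U hU
  have hp : Ψ (x, f x) ∈ closure D := hD h.graph_mem.1
  have hfreq : ∃ᶠ d in 𝓝 (Ψ (x, f x)), d ∈ D := mem_closure_iff_frequently.1 hp
  have hc : Tendsto (fun d : E n => (Ψ.symm d).1) (𝓝 (Ψ (x, f x))) (𝓝 x) := by
    have h1 := (continuous_fst.comp Ψ.symm.continuous).tendsto (Ψ (x, f x))
    have h2 : (Prod.fst ∘ (Ψ.symm : E n → E m × ℝ)) (Ψ (x, f x)) = x := by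
      simp
    rw [h2] at h1
    exact h1
  obtain ⟨d, hd, hd1, hd2⟩ := (hfreq.and_eventually (h.bdry'.and (hc hU))).exists
  have hd3 : d = Ψ ((Ψ.symm d).1, f (Ψ.symm d).1) := hd1.1 (hDK hd)
  refine ⟨(Ψ.symm d).1, hd2, ?_⟩
  show Ψ ((Ψ.symm d).1, f (Ψ.symm d).1) ∈ D
  rw [← hd3]
  exact hd

end MP80b30d
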