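import Pool.Agent.Lib.MP_80b30d_gt.PointTr
import Pool.Agent.Lib.MP_80b30d_gt.QuadLocal
import Pool.Agent.Lib.MP_80b30d_gt.StrongC
import Pool.Agent.Lib.MP_80b30d_gt.StrongD

/-! MP_80b30d_gt: local quadric. -/

namespace MP80b30d

open Set Filter Topology Metric

variable {m : ℕ} {K : Set (E (m + 1))} {Ψ : (E m × ℝ) ≃L[ℝ] E (m + 1)} {f : E m → ℝ} {x : E m}

/-- Paper proof: choose a ball around `x` on which `Chart` and positivity hold
(`Chart.eventually`, `eventually_pos`); `dense_chart`, `lights_tr`, `quadric_local`. -/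
theorem local_quadric (hm : 3 ≤ m) (hK : Convex ℝ K) {D : Set (E (m + 1))}
    (hDK : D ⊆ frontier K) (hD : frontier K ⊆ closure D) (hl : ∀ p ∈ D, Lights K p)
    (h : Chart K Ψ f x) (hpos : ∀ b : E m, b ≠ 0 → 0 < D2 f x b b) :
    ∃ q : QF (E m × ℝ), (∃ z, q.eval z ≠ 0) ∧ ∀ᶠ y in 𝓝 x, q.eval (y, f y) = 0 := by
  obtain ⟨r, hr, hball⟩ := Metric.eventually_nhds_iff_ball.1
    (h.eventually.and (eventually_pos h.smooth hpos))
  have hf : ∀ y ∈ ball x r, ContDiffAt ℝ 3 f y := fun y hy => (hball y hy).1.smooth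
  have hfp : ∀ y ∈ ball x r, ∀ b, b ≠ 0 → 0 < D2 f y b b := fun y hy => (hball y hy).2
  obtain ⟨q, hq, hq2⟩ := quadric_local (by omega) hr hf hfp {y | Ψ (y, f y) ∈ D}
    (fun y hy => dense_chart (hball y hy).1 hDK hD)
    (fun y hy => lights_tr hm hK (hball y hy.2).1 (hball y hy.2).2 (hl _ hy.1))
  refine ⟨q, hq, ?_⟩
  filter_upwards [ball_mem_nhds x hr] with y hy
  exact hq2 y hy

end MP80b30d
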