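import Pool.Agent.Lib.MP_80b30d_gt.Defs

/-! MP_80b30d_gt: Taylor expansions. -/

namespace MP80b30d

open Set Filter Topology Metric Asymptotics

variable {W : Type*} [NormedAddCommGroup W] [NormedSpace ℝ W]

/-- mean value inequality in the form needed for Taylor expansions -/
theorem taylor_aux {g : W → ℝ} {g' : W → W →L[ℝ] ℝ} (h0 : g 0 = 0)
    (hd : ∀ᶠ w in 𝓝 (0 : W), HasFDerivAt g (g' w) w) (ho : g' =o[𝓝 0] (fun w : W => w)) :
    g =o[𝓝 0] (fun w : W => ‖w‖ ^ 2) := by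
  rw [isLittleO_iff]
  intro ε hε
  have h1 := (isLittleO_iff.1 ho) hε
  obtain ⟨δ, hδ, h2⟩ := Metric.eventually_nhds_iff_ball.1 (hd.and h1)
  filter_upwards [Metric.ball_mem_nhds (0 : W) hδ] with w hw
  rw [mem_ball_zero_iff] at hw
  have h3 := (convex_closedBall (0 : W) ‖w‖).norm_image_sub_le_of_norm_hasFDerivWithin_le
    (f := g) (f' := g') (C := ε * ‖w‖) (x := 0) (y := w)
    (fun y hy => ((h2 y (by
      rw [mem_ball_zero_iff]
      exact (mem_closedBall_zero_iff.1 hy).trans_lt hw)).1).hasFDerivWithinAt)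
    (fun y hy => by
      have h4 := mem_closedBall_zero_iff.1 hy
      exact ((h2 y (by
        rw [mem_ball_zero_iff]
        exact h4.trans_lt hw)).2).trans (mul_le_mul_of_nonneg_left h4 hε.le))
    (mem_closedBall_zero_iff.2 (by rw [norm_zero]; exact norm_nonneg _))
    (mem_closedBall_zero_iff.2 le_rfl)
  rw [h0, sub_zero, sub_zero] at h3
  rw [Real.norm_of_nonneg (by positivity : (0 : ℝ) ≤ ‖w‖ ^ 2)]
  calc ‖g w‖ ≤ ε * ‖w‖ * ‖w‖ := h3
    _ = ε * ‖w‖ ^ 2 := by ring

theorem taylor_fd {f : W → ℝ} {x : W} (hf : ContDiffAt ℝ 2 f x) :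
    HasFDerivAt (fderiv ℝ f) (D2 f x) x := by
  have h1 : ContDiffAt ℝ 1 (fderiv ℝ f) x := hf.fderiv_right (by norm_num)
  exact (h1.differentiableAt (by norm_num)).hasFDerivAt

theorem taylor_fd_o {f : W → ℝ} {x : W} (hf : ContDiffAt ℝ 2 f x) :
    (fun w : W => fderiv ℝ f (x + w) - fderiv ℝ f x - D2 f x w) =o[𝓝 0] (fun w : W => w) :=
  (hasFDerivAt_iff_isLittleO_nhds_zero.1 (taylor_fd hf))

/-- second order Taylor expansion of `f` -/
theorem taylor_f {f : W → ℝ} {x : W} (hf : ContDiffAt ℝ 2 f x) :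
    (fun w : W => f (x + w) - f x - fderiv ℝ f x w - (1 / 2) * D2 f x w w)
      =o[𝓝 0] (fun w : W => ‖w‖ ^ 2) := by
  have hsym : ∀ v w : W, D2 f x v w = D2 f x w v := fun v w =>
    (hf.isSymmSndFDerivAt (by simp)) v w
  refine taylor_aux (g' := fun w : W => fderiv ℝ f (x + w) - fderiv ℝ f x - D2 f x w) (by simp) ?_
    (taylor_fd_o hf)
  have hd : ∀ᶠ y in 𝓝 x, DifferentiableAt ℝ f y := by
    have h1 : ContDiffAt ℝ 1 f x := hf.of_le (by norm_num)
    filter_upwards [h1.eventually (by simp)] with y hy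
    exact hy.differentiableAt (by norm_num)
  have ht : Tendsto (fun w : W => x + w) (𝓝 0) (𝓝 x) := by
    have h2 : Tendsto (fun w : W => x + w) (𝓝 0) (𝓝 (x + 0)) :=
      (continuous_const.add continuous_id).tendsto 0
    rwa [add_zero] at h2
  filter_upwards [ht.eventually hd] with w hw
  have e1 : HasFDerivAt (fun w : W => f (x + w)) (fderiv ℝ f (x + w)) w := by
    have h3 : HasFDerivAt (fun w : W => x + w) (ContinuousLinearMap.id ℝ W) w :=
      (hasFDerivAt_id w).const_add x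
    have h4 := HasFDerivAt.comp w hw.hasFDerivAt h3
    rwa [ContinuousLinearMap.comp_id] at h4
  have e2 : HasFDerivAt (fun w : W => fderiv ℝ f x w) (fderiv ℝ f x) w :=
    (fderiv ℝ f x).hasFDerivAt
  have e3 : HasFDerivAt (fun w : W => D2 f x w w) (D2 f x w + (D2 f x).flip w) w := by
    have h5 := ((D2 f x).hasFDerivAt (x := w)).clm_apply (hasFDerivAt_id w)
    rwa [ContinuousLinearMap.comp_id] at h5
  have e4 := ((e1.sub_const (f x)).sub e2).sub (e3.const_mul (1 / 2 : ℝ))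
  refine e4.congr_fderiv ?_
  ext v
  simp only [sub_apply, smul_apply,
    add_apply, ContinuousLinearMap.flip_apply, smul_eq_mul]
  rw [hsym v w]
  ring

/-- second order Taylor expansion of `w ↦ Df (x + w) a` -/
theorem taylor_Df {f : W → ℝ} {x : W} (hf : ContDiffAt ℝ 3 f x) (a : W) :
    (fun w : W => fderiv ℝ f (x + w) a - fderiv ℝ f x a - D2 f x w a - (1 / 2) * D3 f x w w a)
      =o[𝓝 0] (fun w : W => ‖w‖ ^ 2) := by
  have h1 : ContDiffAt ℝ 2 (fderiv ℝ f) x := hf.fderiv_right (by norm_num)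
  have h2 : ContDiffAt ℝ 2 (fun y => fderiv ℝ f y a) x := h1.clm_apply contDiffAt_const
  have h3 : ContDiffAt ℝ 1 (fderiv ℝ (fderiv ℝ f)) x := h1.fderiv_right (by norm_num)
  have e1 : (fderiv ℝ (fun y => fderiv ℝ f y a)) =ᶠ[𝓝 x]
      fun y => (fderiv ℝ (fderiv ℝ f) y).flip a := by
    have h4 : ContDiffAt ℝ 1 (fderiv ℝ f) x := h1.of_le (by norm_num)
    filter_upwards [h4.eventually (by simp)] with y hy
    have h5 := (hy.differentiableAt (by norm_num)).hasFDerivAt.clm_apply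
      (hasFDerivAt_const a y)
    rw [ContinuousLinearMap.comp_zero, zero_add] at h5
    exact h5.fderiv
  have e2 : ∀ v : W, fderiv ℝ (fun y => fderiv ℝ f y a) x v = D2 f x v a := by
    intro v
    rw [e1.self_of_nhds]
    rfl
  have e3 : ∀ v w : W, D2 (fun y => fderiv ℝ f y a) x v w = D3 f x v w a := by
    intro v w
    have h7 : HasFDerivAt (fderiv ℝ (fderiv ℝ f)) (D3 f x) x :=
      (h3.differentiableAt (by norm_num)).hasFDerivAt
    have k1 := h7.clm_apply (hasFDerivAt_const w x)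
    have k2 := k1.clm_apply (hasFDerivAt_const a x)
    have k3 := (taylor_fd h2).clm_apply (hasFDerivAt_const w x)
    have k4 : (fun y => fderiv ℝ (fun y => fderiv ℝ f y a) y w) =ᶠ[𝓝 x]
        fun y => fderiv ℝ (fderiv ℝ f) y w a := by
      filter_upwards [e1] with y hy
      rw [hy]
      rfl
    have k5 := k3.unique (k2.congr_of_eventuallyEq k4)
    have k6 := DFunLike.congr_fun k5 v
    simpa using k6
  have h8 := taylor_f h2
  refine h8.congr_left fun w => ?_
  rw [e2, e3]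

/-- first order expansion of `Df (x + w)`, evaluated at `w` -/
theorem taylor_Dfw {f : W → ℝ} {x : W} (hf : ContDiffAt ℝ 2 f x) :
    (fun w : W => fderiv ℝ f (x + w) w - fderiv ℝ f x w - D2 f x w w)
      =o[𝓝 0] (fun w : W => ‖w‖ ^ 2) := by
  have h1 := taylor_fd_o hf
  rw [isLittleO_iff] at h1 ⊢
  intro ε hε
  filter_upwards [h1 hε] with w hw
  rw [Real.norm_of_nonneg (by positivity : (0 : ℝ) ≤ ‖w‖ ^ 2)]
  have h2 : fderiv ℝ f (x + w) w - fderiv ℝ f x w - D2 f x w w =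
      (fderiv ℝ f (x + w) - fderiv ℝ f x - D2 f x w) w := by
    simp only [sub_apply]
  rw [h2]
  calc ‖(fderiv ℝ f (x + w) - fderiv ℝ f x - D2 f x w) w‖
      ≤ ‖fderiv ℝ f (x + w) - fderiv ℝ f x - D2 f x w‖ * ‖w‖ := ContinuousLinearMap.le_opNorm _ _
    _ ≤ ε * ‖w‖ * ‖w‖ := mul_le_mul_of_nonneg_right hw (norm_nonneg _)
    _ = ε * ‖w‖ ^ 2 := by ring

/-- expansion of the shadow function: with `C(w,w,a) = D3 f x w w a` -/
theorem taylor_shadow {f : W → ℝ} {x : W} (hf : ContDiffAt ℝ 3 f x) (a : W) :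
    (fun w : W => (f (x + w) + fderiv ℝ f (x + w) (a - w) - f x - fderiv ℝ f x a)
        - (D2 f x w a + (1 / 2) * D3 f x w w a - (1 / 2) * D2 f x w w))
      =o[𝓝 0] (fun w : W => ‖w‖ ^ 2) := by
  have h2 : ContDiffAt ℝ 2 f x := hf.of_le (by norm_num)
  have h := ((taylor_f h2).add (taylor_Df hf a)).sub (taylor_Dfw h2)
  refine h.congr_left fun w => ?_
  rw [map_sub]
  ring

end MP80b30d
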