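import Pool.Agent.Lib.MP_80b30d_gt.ChartA
import Pool.Agent.Lib.MP_80b30d_gt.Taylor

/-! MP_80b30d_gt: strongly curved points, second part. -/

namespace MP80b30d

open Set Filter Topology Metric

variable {m n : ℕ} {K : Set (E n)} {Ψ : (E m × ℝ) ≃L[ℝ] E n} {f : E m → ℝ} {x : E m}

private theorem strongB_coercive (B : E m →L[ℝ] E m →L[ℝ] ℝ) (hB : ∀ b : E m, b ≠ 0 → 0 < B b b) :
    ∃ δ : ℝ, 0 < δ ∧ ∀ b : E m, δ * ‖b‖ ^ 2 ≤ B b b := by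
  have hcont : Continuous fun b : E m => B b b := B.continuous.clm_apply continuous_id
  have hscale : ∀ b : E m, b ≠ 0 → ‖b‖⁻¹ • b ∈ sphere (0 : E m) 1 := by
    intro b hb
    have h1 : ‖b‖ ≠ 0 := norm_ne_zero_iff.2 hb
    rw [mem_sphere_zero_iff_norm, norm_smul, norm_inv, norm_norm, inv_mul_cancel₀ h1]
  rcases (sphere (0 : E m) 1).eq_empty_or_nonempty with hemp | hne
  · refine ⟨1, one_pos, fun b => ?_⟩
    by_cases hb : b = 0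
    · subst hb; simp
    · exact absurd (hscale b hb) (by rw [hemp]; simp)
  · obtain ⟨b0, hb0, hmin⟩ := (isCompact_sphere (0 : E m) 1).exists_isMinOn hne hcont.continuousOn
    have hb0ne : b0 ≠ 0 := by
      intro h0
      rw [h0, mem_sphere_zero_iff_norm, norm_zero] at hb0
      exact zero_ne_one hb0
    refine ⟨B b0 b0, hB b0 hb0ne, fun b => ?_⟩
    by_cases hb : b = 0
    · subst hb; simp
    · have h1 : ‖b‖ ≠ 0 := norm_ne_zero_iff.2 hb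
      have h2 : B b0 b0 ≤ B (‖b‖⁻¹ • b) (‖b‖⁻¹ • b) := hmin (hscale b hb)
      simp only [map_smul, ContinuousLinearMap.smul_apply, smul_eq_mul] at h2
      have h3 : 0 < ‖b‖ ^ 2 := by positivity
      calc B b0 b0 * ‖b‖ ^ 2 ≤ (‖b‖⁻¹ * (‖b‖⁻¹ * B b b)) * ‖b‖ ^ 2 :=
            mul_le_mul_of_nonneg_right h2 h3.le
        _ = B b b := by field_simp

/-- Paper proof: `l (Ψ (h, y)) = Df(x) h - y`; `D2 f x b b ≥ δ ‖b‖²` by compactness of the sphere;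
`taylor_f` gives `f (x + w) - f x - Df(x) w ≥ (δ / 4) ‖w‖²` near `0`. For `z = (x + w, y)` near
`(x, f x)` with `Ψ z ∈ K`: `l p - l (Ψ z) = (y - f (x + w)) + (f (x + w) - f x - Df(x) w)`, and
`‖Ψ z - p‖² ≤ C (‖w‖² + (y - f x)²) ≤ C' (‖w‖² + (y - f (x + w)))`. -/
theorem pos_strong (h : Chart K Ψ f x) (hpos : ∀ b : E m, b ≠ 0 → 0 < D2 f x b b) :
    Strong K (Ψ (x, f x)) := by
  obtain ⟨δ, hδ, hδb⟩ := strongB_coercive (D2 f x) hpos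
  have hT := taylor_f (h.smooth.of_le (by norm_num : (2 : WithTop ℕ∞) ≤ 3))
  have hT' := (Asymptotics.isLittleO_iff.1 hT) (c := δ / 4) (by positivity)
  obtain ⟨D, hD⟩ : ∃ D : E m →L[ℝ] ℝ, D = fderiv ℝ f x := ⟨_, rfl⟩
  rw [← hD] at hT'
  obtain ⟨l, hl⟩ : ∃ l : E n →L[ℝ] ℝ, ∀ z : E m × ℝ, l (Ψ z) = D z.1 - z.2 := by
    refine ⟨(D.comp (ContinuousLinearMap.fst ℝ (E m) ℝ) - ContinuousLinearMap.snd ℝ (E m) ℝ).comp
      (Ψ.symm : E n →L[ℝ] E m × ℝ), fun z => ?_⟩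
    simp
  -- the eventual statements in the chart
  have hz1 : Tendsto (fun z : E m × ℝ => z.1 - x) (𝓝 ((x, f x) : E m × ℝ)) (𝓝 0) := by
    have hc : Continuous fun z : E m × ℝ => z.1 - x := by fun_prop
    have := hc.tendsto ((x, f x) : E m × ℝ)
    simpa using this
  have hs1 : ∀ᶠ z in 𝓝 ((x, f x) : E m × ℝ), z.2 - f x - D (z.1 - x) < 1 := by
    have hc : Continuous fun z : E m × ℝ => z.2 - f x - D (z.1 - x) := by fun_prop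
    have := hc.tendsto ((x, f x) : E m × ℝ)
    simp only [sub_self, map_zero] at this
    exact this.eventually (gt_mem_nhds one_pos)
  have hev := (h.mem.and (hz1.eventually hT')).and hs1
  obtain ⟨M, hM⟩ : ∃ M : ℝ, M = (4 / δ) * (1 + 2 * ‖D‖ ^ 2) + 2 := ⟨_, rfl⟩
  have hM0 : 0 < M := by rw [hM]; positivity
  obtain ⟨C, hC⟩ : ∃ C : ℝ, C = ‖(Ψ : E m × ℝ →L[ℝ] E n)‖ ^ 2 * M + 1 := ⟨_, rfl⟩
  have hC0 : 0 < C := by rw [hC]; positivity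
  refine ⟨l, C⁻¹, inv_pos.2 hC0, ?_⟩
  have hev' : ∀ᶠ y in 𝓝 (Ψ (x, f x)), ((Ψ (Ψ.symm y) ∈ K ↔ f (Ψ.symm y).1 ≤ (Ψ.symm y).2) ∧
      ‖f (x + ((Ψ.symm y).1 - x)) - f x - D ((Ψ.symm y).1 - x) -
        1 / 2 * D2 f x ((Ψ.symm y).1 - x) ((Ψ.symm y).1 - x)‖ ≤
        δ / 4 * ‖‖(Ψ.symm y).1 - x‖ ^ 2‖) ∧
      (Ψ.symm y).2 - f x - D ((Ψ.symm y).1 - x) < 1 := by
    have ht : Tendsto (fun y => Ψ.symm y) (𝓝 (Ψ (x, f x))) (𝓝 ((x, f x) : E m × ℝ)) := by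
      have := Ψ.symm.continuous.tendsto (Ψ (x, f x))
      rwa [Ψ.symm_apply_apply] at this
    exact ht.eventually hev
  filter_upwards [hev'] with y hy hyK
  obtain ⟨⟨h1, h2⟩, h3⟩ := hy
  obtain ⟨z, hz⟩ : ∃ z : E m × ℝ, z = Ψ.symm y := ⟨_, rfl⟩
  have hy' : y = Ψ z := by rw [hz, Ψ.apply_symm_apply]
  rw [← hz] at h1 h2 h3
  rw [← hy'] at h1
  have h4 : f z.1 ≤ z.2 := h1.1 hyK
  obtain ⟨w, hw⟩ : ∃ w : E m, w = z.1 - x := ⟨_, rfl⟩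
  rw [← hw] at h2 h3
  have hxw : x + w = z.1 := by rw [hw]; abel
  rw [hxw, Real.norm_eq_abs, norm_pow, norm_norm] at h2
  have h5 := (abs_le.1 h2).1
  have h6 := hδb w
  -- `s = l p - l y`
  obtain ⟨s, hs⟩ : ∃ s : ℝ, s = z.2 - f x - D w := ⟨_, rfl⟩
  have hls : l (Ψ (x, f x)) - l y = s := by
    rw [hy', hl, hl, hs, hw, map_sub]
    ring
  rw [hls]
  have hsw : δ / 4 * ‖w‖ ^ 2 ≤ s := by
    rw [hs]
    linarith
  have hs0 : 0 ≤ s := le_trans (by positivity) hsw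
  have hs1' : s < 1 := by rw [hs]; exact h3
  have hw2 : ‖w‖ ^ 2 ≤ 4 / δ * s := by
    rw [div_mul_eq_mul_div, le_div_iff₀ hδ]
    linarith
  have hDw : |D w| ≤ ‖D‖ * ‖w‖ := by
    rw [← Real.norm_eq_abs]
    exact D.le_opNorm w
  have hzy : z.2 - f x = s + D w := by rw [hs]; ring
  have hsq : (z.2 - f x) ^ 2 ≤ 2 * s + 2 * ‖D‖ ^ 2 * ‖w‖ ^ 2 := by
    rw [hzy]
    have h7 : s ^ 2 ≤ s := by nlinarith
    have h8 : (D w) ^ 2 ≤ (‖D‖ * ‖w‖) ^ 2 := by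
      rw [← sq_abs (D w)]
      exact pow_le_pow_left₀ (abs_nonneg _) hDw 2
    nlinarith [sq_nonneg (s - D w)]
  have hnorm : ‖y - Ψ (x, f x)‖ ^ 2 ≤
      ‖(Ψ : E m × ℝ →L[ℝ] E n)‖ ^ 2 * (‖w‖ ^ 2 + (z.2 - f x) ^ 2) := by
    have h7 : y - Ψ (x, f x) = (Ψ : E m × ℝ →L[ℝ] E n) (w, z.2 - f x) := by
      rw [hy', hw]
      change Ψ z - Ψ (x, f x) = Ψ (z.1 - x, z.2 - f x)
      rw [← map_sub]
      rfl
    have h8 : ‖((w, z.2 - f x) : E m × ℝ)‖ ^ 2 ≤ ‖w‖ ^ 2 + (z.2 - f x) ^ 2 := by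
      rw [Prod.norm_mk]
      rcases max_cases ‖w‖ ‖z.2 - f x‖ with ⟨h9, _⟩ | ⟨h9, _⟩
      · rw [h9]; nlinarith [sq_nonneg (z.2 - f x)]
      · rw [h9, Real.norm_eq_abs, sq_abs]; nlinarith [sq_nonneg ‖w‖]
    rw [h7]
    calc ‖(Ψ : E m × ℝ →L[ℝ] E n) (w, z.2 - f x)‖ ^ 2
        ≤ (‖(Ψ : E m × ℝ →L[ℝ] E n)‖ * ‖((w, z.2 - f x) : E m × ℝ)‖) ^ 2 :=
          pow_le_pow_left₀ (norm_nonneg _) (ContinuousLinearMap.le_opNorm _ _) 2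
      _ = ‖(Ψ : E m × ℝ →L[ℝ] E n)‖ ^ 2 * ‖((w, z.2 - f x) : E m × ℝ)‖ ^ 2 := by ring
      _ ≤ _ := mul_le_mul_of_nonneg_left h8 (by positivity)
  have hMs : ‖w‖ ^ 2 + (z.2 - f x) ^ 2 ≤ M * s := by
    rw [hM]
    have h7 : (1 + 2 * ‖D‖ ^ 2) * ‖w‖ ^ 2 ≤ (1 + 2 * ‖D‖ ^ 2) * (4 / δ * s) :=
      mul_le_mul_of_nonneg_left hw2 (by positivity)
    nlinarith
  have hfin : ‖y - Ψ (x, f x)‖ ^ 2 ≤ C * s := by
    calc ‖y - Ψ (x, f x)‖ ^ 2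
        ≤ ‖(Ψ : E m × ℝ →L[ℝ] E n)‖ ^ 2 * (‖w‖ ^ 2 + (z.2 - f x) ^ 2) := hnorm
      _ ≤ ‖(Ψ : E m × ℝ →L[ℝ] E n)‖ ^ 2 * (M * s) :=
          mul_le_mul_of_nonneg_left hMs (by positivity)
      _ ≤ C * s := by
          rw [hC]
          nlinarith
  rw [inv_mul_le_iff₀ hC0]
  exact hfin

end MP80b30d
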