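import Pool.Agent.Lib.MP_80b30d_gt.StrongA
import Pool.Agent.Lib.MP_80b30d_gt.StrongB
import Pool.Agent.Lib.MP_80b30d_gt.StrongC

/-! MP_80b30d_gt: the set Z. -/

namespace MP80b30d

open Set Filter Topology Metric

variable {m : ℕ} {K : Set (E (m + 1))} {Ψ : (E m × ℝ) ≃L[ℝ] E (m + 1)} {f : E m → ℝ} {x : E m}

/-- the strongly curved boundary points near which the boundary lies in `q = 0` -/
def Z {n : ℕ} (K : Set (E n)) (q : QF (E n)) : Set (E n) :=
  {p | p ∈ frontier K ∧ Strong K p ∧ ∀ᶠ y in 𝓝 p, y ∈ frontier K → q.eval y = 0}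

/-- near the point, the graph points are images of points near the base point -/
private theorem globB_tendsto (h : Chart K Ψ f x) :
    Tendsto (fun x' : E m => Ψ (x', f x')) (𝓝 x) (𝓝 (Ψ (x, f x))) := by
  have h1 : ContinuousAt f x := h.smooth.continuousAt
  exact Ψ.continuous.continuousAt.tendsto.comp (continuousAt_id.prodMk h1).tendsto

private theorem globB_symm_tendsto (Ψ : (E m × ℝ) ≃L[ℝ] E (m + 1)) (f : E m → ℝ) (x : E m) :
    Tendsto (fun y : E (m + 1) => (Ψ.symm y).1) (𝓝 (Ψ (x, f x))) (𝓝 x) := by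
  have hc : Continuous fun y : E (m + 1) => (Ψ.symm y).1 :=
    continuous_fst.comp Ψ.symm.continuous
  have := hc.tendsto (Ψ (x, f x))
  simpa using this

/-- membership in `Z` in a chart -/
theorem mem_Z_iff (q : QF (E (m + 1))) (h : Chart K Ψ f x) :
    Ψ (x, f x) ∈ Z K q ↔ (∀ b : E m, b ≠ 0 → 0 < D2 f x b b) ∧
      ∀ᶠ y in 𝓝 x, (q.comp (Ψ : (E m × ℝ) →L[ℝ] E (m + 1))).eval (y, f y) = 0 := by
  constructor
  · rintro ⟨_, hst, hev⟩
    refine ⟨strong_pos h hst, ?_⟩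
    have h1 : ContinuousAt f x := h.smooth.continuousAt
    have h2 : Tendsto (fun x' : E m => (x', f x')) (𝓝 x) (𝓝 ((x, f x) : E m × ℝ)) :=
      (continuousAt_id.prodMk h1).tendsto
    filter_upwards [(globB_tendsto h).eventually hev, h2.eventually h.bdry] with y hy1 hy2
    rw [QF.eval_comp]
    exact hy1 (hy2.2 rfl)
  · rintro ⟨hpos, hev⟩
    refine ⟨h.graph_mem.1, pos_strong h hpos, ?_⟩
    filter_upwards [(globB_symm_tendsto Ψ f x).eventually hev, h.bdry'] with y hy1 hy2 hyf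
    rw [QF.eval_comp] at hy1
    rw [hy2.1 hyf]
    exact hy1

/-- Paper proof: in the chart at `p` use `mem_Z_iff`, `Chart.eventually`, `eventually_pos`. -/
theorem Z_open (hch : ∀ p ∈ frontier K, ∃ (Ψ : (E m × ℝ) ≃L[ℝ] E (m + 1)) (f : E m → ℝ)
      (x : E m), Chart K Ψ f x ∧ Ψ (x, f x) = p) (q : QF (E (m + 1))) {p : E (m + 1)}
    (hp : p ∈ Z K q) : ∀ᶠ y in 𝓝 p, y ∈ frontier K → y ∈ Z K q := by
  obtain ⟨Ψ, f, x, hc, rfl⟩ := hch p hp.1
  obtain ⟨hpos, hev⟩ := (mem_Z_iff q hc).1 hp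
  have h1 : ∀ᶠ x' in 𝓝 x, Chart K Ψ f x' ∧ (∀ b : E m, b ≠ 0 → 0 < D2 f x' b b) ∧
      ∀ᶠ y in 𝓝 x', (q.comp (Ψ : (E m × ℝ) →L[ℝ] E (m + 1))).eval (y, f y) = 0 :=
    hc.eventually.and ((eventually_pos hc.smooth hpos).and (eventually_eventually_nhds.2 hev))
  filter_upwards [(globB_symm_tendsto Ψ f x).eventually h1, hc.bdry'] with y hy1 hy2 hyf
  rw [hy2.1 hyf]
  exact (mem_Z_iff q hy1.1).2 ⟨hy1.2.1, hy1.2.2⟩

end MP80b30d
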