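import Pool.Agent.Lib.MP_80b30d_gt.Rigid

/-! MP_80b30d_gt: the limit of a strongly curved quadric piece is strongly curved. -/

namespace MP80b30d

open Set Filter Topology Metric

variable {m : ℕ} {f : E m → ℝ} {x0 : E m}

private theorem limit_zero {F : E m → ℝ} {G : Set (E m)} (hx0 : x0 ∈ closure G)
    (hF : ContinuousAt F x0) (h : ∀ x ∈ G, F x = 0) : F x0 = 0 := by
  have := mem_closure_iff_nhdsWithin_neBot.1 hx0
  have h1 : Tendsto F (𝓝[G] x0) (𝓝 (F x0)) := hF.tendsto.mono_left nhdsWithin_le_nhds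
  have h2 : Tendsto F (𝓝[G] x0) (𝓝 0) := by
    apply Tendsto.congr' _ tendsto_const_nhds
    filter_upwards [self_mem_nhdsWithin] with x hx using (h x hx).symm
  exact tendsto_nhds_unique h1 h2

private theorem limit_nonneg {F : E m → ℝ} {G : Set (E m)} (hx0 : x0 ∈ closure G)
    (hF : ContinuousAt F x0) (h : ∀ x ∈ G, 0 ≤ F x) : 0 ≤ F x0 := by
  have := mem_closure_iff_nhdsWithin_neBot.1 hx0
  have h1 : Tendsto F (𝓝[G] x0) (𝓝 (F x0)) := hF.tendsto.mono_left nhdsWithin_le_nhds
  apply ge_of_tendsto h1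
  filter_upwards [self_mem_nhdsWithin] with x hx using h x hx

private theorem limit_semidef {a b : ℝ} (hb : 0 ≤ b) (h : ∀ t : ℝ, 0 ≤ 2 * t * a + t ^ 2 * b) :
    a = 0 := by
  by_contra ha
  have h1 := h (-a / (b + 1))
  have hb1 : (0 : ℝ) < b + 1 := by linarith
  have e : 2 * (-a / (b + 1)) * a + (-a / (b + 1)) ^ 2 * b =
      -(a ^ 2 * (b + 2)) / (b + 1) ^ 2 := by
    field_simp
    ring
  rw [e] at h1
  have h2 : 0 < a ^ 2 * (b + 2) := by positivity
  have h3 : -(a ^ 2 * (b + 2)) / (b + 1) ^ 2 < 0 :=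
    div_neg_of_neg_of_pos (by linarith) (by positivity)
  linarith

/-- a vector in the tangent space on which the quadratic part vanishes is zero -/
private theorem limit_vec {q : QF (E m × ℝ)} {x : E m}
    (h1 : ∀ h : E m, q.D (x, f x) (h, fderiv ℝ f x h) = 0)
    (h2 : ∀ h k : E m, 2 * q.Q (h, fderiv ℝ f x h) (k, fderiv ℝ f x k)
      + q.D (x, f x) (0, 1) * D2 f x h k = 0)
    (h3 : q.D (x, f x) (0, 1) ≠ 0) (hpos : ∀ h : E m, h ≠ 0 → 0 < D2 f x h h)
    (v : E m × ℝ) (hv : q.D (x, f x) v = 0) (hv2 : q.Q v v = 0) : v = 0 := by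
  obtain ⟨w, s⟩ := v
  have e1 : ((w, s) : E m × ℝ) = (w, fderiv ℝ f x w) + (s - fderiv ℝ f x w) • ((0, 1) : E m × ℝ) := by
    ext1
    · simp
    · simp
  have hs : s = fderiv ℝ f x w := by
    have e2 : q.D (x, f x) (w, s) = q.D (x, f x) (w, fderiv ℝ f x w) +
        (s - fderiv ℝ f x w) * q.D (x, f x) (0, 1) := by
      conv_lhs => rw [e1]
      simp only [QF.D, map_add, map_smul, smul_eq_mul]
      ring
    rw [hv, h1 w, zero_add] at e2
    have := (mul_eq_zero.1 e2.symm).resolve_right h3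
    linarith
  subst hs
  have e3 := h2 w w
  rw [hv2, mul_zero, zero_add] at e3
  have e4 := (mul_eq_zero.1 e3).resolve_left h3
  have hw : w = 0 := by
    by_contra hw
    exact (hpos w hw).ne' e4
  subst hw
  simp

/-- Paper proof. Write `P x = (x, f x)`, `ĥ x = (h, Df(x) h)`, `e = (0, 1)`. On `G`, `graph_first`
and `graph_second` hold and `q.D (P x) e ≠ 0` (`graph_rigid`); by continuity the two identities and
`q.eval (P x0) = 0` hold at `x0`, and `D2 f x0 ≥ 0`. Suppose `h0 ≠ 0`, `D2 f x0 h0 h0 = 0`. Then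
`D2 f x0 h0 k = 0` for all `k` (semidefinite), so with `X = (h0, Df(x0) h0)`: `q.D (P x0) X = 0`,
`Q X X = 0`. For `x ∈ G`, `x ≠ x0`, let `d = P x - P x0`; from `q (P x) = q (P x0) = 0`,
`q.D (P x) d = Q d d`, and `q.D (P x) X = 2 Q d X`. A vector `v` with `q.D (P x) v = 0` is
`v = (w, Df(x) w)` (as `q.D (P x) e ≠ 0`), and then `Q v v = - (1/2) q.D (P x) e * D2 f x w w`, so
`Q v v = 0` implies `v = 0`. Hence `Q d d ≠ 0` (`v = d`), and for `v = X + s d`,
`s = - 2 Q d X / Q d d`: `q.D (P x) v = 2 Q d X + s Q d d = 0` and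
`Q v v = s (2 Q X d + s Q d d) = 0`, so `v = 0`, `X = - s d` and `h0` is a multiple of `x - x0`,
that is (`h0 ≠ 0`) `x - x0` is a multiple of `h0`. So the open nonempty set `G \ {x0}` is contained
in a line: impossible as `m ≥ 2`. -/
theorem graph_limit (hm : 2 ≤ m) (hf : ContDiffAt ℝ 3 f x0) (q : QF (E m × ℝ))
    (hq : ∃ z, q.eval z ≠ 0) (G : Set (E m)) (hG : IsOpen G) (hx0 : x0 ∈ closure G)
    (hGf : ∀ x ∈ G, ContDiffAt ℝ 3 f x) (hGq : ∀ x ∈ G, q.eval (x, f x) = 0)
    (hGpos : ∀ x ∈ G, ∀ h : E m, h ≠ 0 → 0 < D2 f x h h) :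
    ∀ h : E m, h ≠ 0 → 0 < D2 f x0 h h := by
  -- the identities on `G`
  have hev : ∀ x ∈ G, ∀ᶠ y in 𝓝 x, q.eval (y, f y) = 0 := fun x hx => by
    filter_upwards [hG.mem_nhds hx] with y hy using hGq y hy
  have hf2 : ∀ x ∈ G, ContDiffAt ℝ 2 f x := fun x hx => (hGf x hx).of_le (by norm_num)
  have g1 : ∀ x ∈ G, ∀ h : E m, q.D (x, f x) (h, fderiv ℝ f x h) = 0 := fun x hx h =>
    graph_first (hf2 x hx) q (hev x hx) h
  have g2 : ∀ x ∈ G, ∀ h k : E m, 2 * q.Q (h, fderiv ℝ f x h) (k, fderiv ℝ f x k)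
      + q.D (x, f x) (0, 1) * D2 f x h k = 0 := fun x hx h k =>
    graph_second (hf2 x hx) q (hev x hx) h k
  have g3 : ∀ x ∈ G, q.D (x, f x) (0, 1) ≠ 0 := by
    intro x hx h0
    obtain ⟨z, hz⟩ := hq
    exact hz (graph_rigid (by omega) (hf2 x hx) (hGpos x hx) q (hev x hx) h0 z)
  -- continuity at `x0`
  have cf : ContinuousAt f x0 := hf.continuousAt
  have cP : ContinuousAt (fun x : E m => ((x, f x) : E m × ℝ)) x0 := continuousAt_id.prodMk cf
  have cDf : ContinuousAt (fderiv ℝ f) x0 :=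
    (hf.fderiv_right (m := 2) (by norm_num)).continuousAt
  have cD2 : ContinuousAt (D2 f) x0 := (hasFDerivAt_D2 hf).continuousAt
  have cDh : ∀ h : E m, ContinuousAt (fun x : E m => ((h, fderiv ℝ f x h) : E m × ℝ)) x0 :=
    fun h => continuousAt_const.prodMk (cDf.clm_apply continuousAt_const)
  have cQ : ∀ {g g' : E m → E m × ℝ}, ContinuousAt g x0 → ContinuousAt g' x0 →
      ContinuousAt (fun x => q.Q (g x) (g' x)) x0 := fun hg hg' =>
    (q.Q.continuous.continuousAt.comp hg).clm_apply hg'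
  have cl : ∀ {g : E m → E m × ℝ}, ContinuousAt g x0 → ContinuousAt (fun x => q.l (g x)) x0 :=
    fun hg => q.l.continuous.continuousAt.comp hg
  have cD : ∀ {g g' : E m → E m × ℝ}, ContinuousAt g x0 → ContinuousAt g' x0 →
      ContinuousAt (fun x => q.D (g x) (g' x)) x0 := fun hg hg' =>
    (continuousAt_const.mul (cQ hg hg')).add (cl hg')
  have e0 : q.eval (x0, f x0) = 0 :=
    limit_zero hx0 (F := fun x => q.eval (x, f x))
      (((cQ cP cP).add (cl cP)).add continuousAt_const) hGq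
  have e1 : ∀ h : E m, q.D (x0, f x0) (h, fderiv ℝ f x0 h) = 0 := fun h =>
    limit_zero hx0 (F := fun x => q.D (x, f x) (h, fderiv ℝ f x h)) (cD cP (cDh h))
      fun x hx => g1 x hx h
  have e2 : ∀ h k : E m, 2 * q.Q (h, fderiv ℝ f x0 h) (k, fderiv ℝ f x0 k)
      + q.D (x0, f x0) (0, 1) * D2 f x0 h k = 0 := fun h k =>
    limit_zero hx0 (F := fun x => 2 * q.Q (h, fderiv ℝ f x h) (k, fderiv ℝ f x k)
      + q.D (x, f x) (0, 1) * D2 f x h k)
      ((continuousAt_const.mul (cQ (cDh h) (cDh k))).add ((cD cP continuousAt_const).mul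
        ((cD2.clm_apply continuousAt_const).clm_apply continuousAt_const)))
      fun x hx => g2 x hx h k
  have e3 : ∀ h : E m, 0 ≤ D2 f x0 h h := fun h =>
    limit_nonneg hx0 (F := fun x => D2 f x h h)
      ((cD2.clm_apply continuousAt_const).clm_apply continuousAt_const) fun x hx => by
        by_cases hh : h = 0
        · simp [hh]
        · exact (hGpos x hx h hh).le
  intro h0 hh0
  by_contra hneg
  have hz : D2 f x0 h0 h0 = 0 := le_antisymm (not_lt.1 hneg) (e3 h0)
  set X : E m × ℝ := (h0, fderiv ℝ f x0 h0) with hX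
  have hX1 : q.D (x0, f x0) X = 0 := e1 h0
  have hX2 : q.Q X X = 0 := by
    have := e2 h0 h0
    rw [hz, mul_zero, add_zero] at this
    have := (mul_eq_zero.1 this).resolve_left (by norm_num)
    exact this
  -- every point of `G` lies on the line through `x0` with direction `h0`
  have line : ∀ x ∈ G, ∃ c : ℝ, x = x0 + c • h0 := by
    intro x hx
    by_cases hxx : x = x0
    · exact ⟨0, by rw [hxx]; simp⟩
    set d : E m × ℝ := (x, f x) - (x0, f x0) with hd
    have hPd : ((x, f x) : E m × ℝ) = (x0, f x0) + d := by rw [hd]; abel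
    have q1 : q.D (x0, f x0) d = - q.Q d d := by
      have h1 := hGq x hx
      rw [hPd, QF.eval_add, e0] at h1
      linarith
    have q2 : ∀ v, q.D (x, f x) v = q.D (x0, f x0) v + 2 * q.Q d v := by
      intro v
      rw [hPd]
      simp only [QF.D, map_add, add_apply]
      ring
    have hdd : q.Q d d ≠ 0 := by
      intro h
      have hd0 := limit_vec (g1 x hx) (g2 x hx) (g3 x hx) (hGpos x hx) d (by
        rw [q2, q1, h]
        ring) h
      apply hxx
      have := congrArg Prod.fst hd0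
      rw [hd] at this
      exact sub_eq_zero.1 this
    set s : ℝ := - (2 * q.Q d X) / q.Q d d with hs
    have hsd : s * q.Q d d = - (2 * q.Q d X) := by
      rw [hs]
      field_simp
    have hv0 := limit_vec (g1 x hx) (g2 x hx) (g3 x hx) (hGpos x hx) (X + s • d) (by
        rw [q2]
        have : q.D (x0, f x0) (X + s • d) = q.D (x0, f x0) X + s * q.D (x0, f x0) d := by
          simp only [QF.D, map_add, map_smul, smul_eq_mul]
          ring
        rw [this, hX1, q1]
        simp only [map_add, map_smul, smul_eq_mul]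
        linarith) (by
        have hsy : q.Q X d = q.Q d X := q.symm X d
        simp only [map_add, map_smul, smul_eq_mul, add_apply,
          smul_apply]
        rw [hX2, hsy]
        have : s * (s * q.Q d d) = s * (- (2 * q.Q d X)) := by rw [hsd]
        linarith)
    have hfst : h0 + s • (x - x0) = 0 := congrArg Prod.fst hv0
    have hs0 : s ≠ 0 := by
      intro h
      rw [h, zero_smul, add_zero] at hfst
      exact hh0 hfst
    refine ⟨-s⁻¹, ?_⟩
    have h1 : s • (x - x0) = -h0 := by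
      rw [eq_neg_iff_add_eq_zero, add_comm]
      exact hfst
    have h2 : x - x0 = s⁻¹ • (-h0) := by
      rw [← h1, smul_smul, inv_mul_cancel₀ hs0, one_smul]
    rw [neg_smul, ← smul_neg, ← h2]
    abel
  -- contradiction with openness
  obtain ⟨x, hx⟩ : G.Nonempty := closure_nonempty_iff.1 ⟨x0, hx0⟩
  have hk : ∃ k : E m, ∀ c : ℝ, c • h0 ≠ k := by
    by_contra hc
    push Not at hc
    have h1 := finrank_le_one (R := ℝ) h0 hc
    rw [finrank_euclideanSpace_fin] at h1
    omega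
  obtain ⟨k, hk⟩ := hk
  have hcont : Tendsto (fun t : ℝ => x + t • k) (𝓝[≠] 0) (𝓝 x) := by
    have : ContinuousAt (fun t : ℝ => x + t • k) 0 := by fun_prop
    have h1 := this.tendsto.mono_left (nhdsWithin_le_nhds (s := {0}ᶜ))
    simpa using h1
  obtain ⟨t, ht, ht0⟩ := ((hcont.eventually (hG.mem_nhds hx)).and
    (self_mem_nhdsWithin : {0}ᶜ ∈ 𝓝[≠] (0 : ℝ))).exists
  have ht0' : t ≠ 0 := ht0
  obtain ⟨c, hc⟩ := line x hx
  obtain ⟨c', hc'⟩ := line _ ht
  apply hk (t⁻¹ * (c' - c))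
  have h1 : t • k = (c' - c) • h0 := by
    have : t • k = (x + t • k) - x := by abel
    rw [this, hc', hc, sub_smul]
    abel
  rw [mul_smul, ← h1, smul_smul, inv_mul_cancel₀ ht0', one_smul]

end MP80b30d
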