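import Pool.Agent.Lib.MP_80b30d_gt.GlobB
import Pool.Agent.Lib.MP_80b30d_gt.Limit

/-! MP_80b30d_gt: Z is closed. -/

namespace MP80b30d

open Set Filter Topology Metric

variable {m : ℕ} {K : Set (E (m + 1))} {Ψ : (E m × ℝ) ≃L[ℝ] E (m + 1)} {f : E m → ℝ} {x : E m}

/-- Paper proof: chart at `p`, `G` the set of points `y` near `x` (in an open set where
`Chart K Ψ f y`) with `Ψ (y, f y) ∈ Z K q`: open by `mem_Z_iff`, and `x ∈ closure G`
(`Chart.bdry'`). `graph_limit` gives the positivity at `x`. `hloc` gives `q'` at `x`; at a point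
`y ∈ G` near `x` both `q.comp Ψ` and `q'` vanish near `y` on the graph, so they are proportional
(`graph_proportional`), hence `q.comp Ψ` vanishes on the graph near `x`. `mem_Z_iff`. -/
theorem Z_closed (hm : 2 ≤ m)
    (hch : ∀ p ∈ frontier K, ∃ (Ψ : (E m × ℝ) ≃L[ℝ] E (m + 1)) (f : E m → ℝ)
      (x : E m), Chart K Ψ f x ∧ Ψ (x, f x) = p)
    (hloc : ∀ (Ψ : (E m × ℝ) ≃L[ℝ] E (m + 1)) (f : E m → ℝ) (x : E m), Chart K Ψ f x →
      (∀ b : E m, b ≠ 0 → 0 < D2 f x b b) →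
      ∃ q : QF (E m × ℝ), (∃ z, q.eval z ≠ 0) ∧ ∀ᶠ y in 𝓝 x, q.eval (y, f y) = 0)
    (q : QF (E (m + 1))) (hq : ∃ z, q.eval z ≠ 0) {p : E (m + 1)} (hp : p ∈ frontier K)
    (hcl : p ∈ closure (Z K q)) : p ∈ Z K q := by
  obtain ⟨Ψ, f, x, h, hpx⟩ := hch p hp
  obtain ⟨V, hV1, hV2, hV3⟩ := _root_.eventually_nhds_iff.1 h.eventually
  set q1 : QF (E m × ℝ) := q.comp (Ψ : (E m × ℝ) →L[ℝ] E (m + 1)) with hq1
  set G : Set (E m) := {y | y ∈ V ∧ Ψ (y, f y) ∈ Z K q} with hG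
  have hGz : ∀ y ∈ G, (∀ b : E m, b ≠ 0 → 0 < D2 f y b b) ∧
      ∀ᶠ y' in 𝓝 y, q1.eval (y', f y') = 0 := fun y hy => (mem_Z_iff q (hV1 y hy.1)).1 hy.2
  have hGo : IsOpen G := by
    rw [isOpen_iff_mem_nhds]
    intro y hy
    obtain ⟨g1, g2⟩ := hGz y hy
    have e1 := eventually_pos (hV1 y hy.1).smooth g1
    have e2 := eventually_eventually_nhds.2 g2
    have e3 : ∀ᶠ y' in 𝓝 y, y' ∈ V := hV2.mem_nhds hy.1
    filter_upwards [e1, e2, e3] with y' a1 a2 a3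
    exact ⟨a3, (mem_Z_iff q (hV1 y' a3)).2 ⟨a1, a2⟩⟩
  have hfst : Tendsto (fun z : E (m + 1) => (Ψ.symm z).1) (𝓝 p) (𝓝 x) := by
    have h1 : ContinuousAt (fun z : E (m + 1) => (Ψ.symm z).1) p :=
      (continuous_fst.comp Ψ.symm.continuous).continuousAt
    have h2 : (Ψ.symm p).1 = x := by rw [← hpx, ContinuousLinearEquiv.symm_apply_apply]
    have h3 := h1.tendsto
    rwa [h2] at h3
  have hfr : ∃ᶠ y in 𝓝 x, y ∈ G := by
    have h1 : ∃ᶠ z in 𝓝 p, z ∈ Z K q := mem_closure_iff_frequently.1 hcl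
    have h2 : ∀ᶠ z in 𝓝 p, (Ψ.symm z).1 ∈ V := hfst (hV2.mem_nhds hV3)
    have h3 := h.bdry'
    rw [hpx] at h3
    refine hfst.frequently ((h1.and_eventually (h2.and h3)).mono ?_)
    rintro z ⟨z1, z2, z3⟩
    refine ⟨z2, ?_⟩
    rw [← z3.1 z1.1]
    exact z1
  have hx : x ∈ closure G := mem_closure_iff_frequently.2 hfr
  have hne1 : ∃ z, q1.eval z ≠ 0 := by
    obtain ⟨z, hz⟩ := hq
    refine ⟨Ψ.symm z, ?_⟩
    rw [hq1, QF.eval_comp]
    simpa using hz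
  have hpos := graph_limit hm h.smooth q1 hne1 G hGo hx (fun y hy => (hV1 y hy.1).smooth)
    (fun y hy => (hGz y hy).2.self_of_nhds) (fun y hy => (hGz y hy).1)
  obtain ⟨q', hq'1, hq'2⟩ := hloc Ψ f x h hpos
  obtain ⟨y, hy1, hy2⟩ := (hfr.and_eventually (eventually_eventually_nhds.2 hq'2)).exists
  obtain ⟨c, hc⟩ := graph_proportional (by omega) ((hV1 y hy1.1).smooth.of_le (by norm_num))
    (hGz y hy1).1 q1 q' (hGz y hy1).2 hy2 hq'1
  rw [← hpx]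
  refine (mem_Z_iff q h).2 ⟨hpos, ?_⟩
  filter_upwards [hq'2] with y' a1
  rw [← hq1, hc, a1, mul_zero]

end MP80b30d
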