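import Pool.Agent.Lib.MP_80b30d_gt.GlobB

/-! MP_80b30d_gt: Z is everything. -/

namespace MP80b30d

open Set Filter Topology Metric

variable {m : ℕ} {K : Set (E (m + 1))} {Ψ : (E m × ℝ) ≃L[ℝ] E (m + 1)} {f : E m → ℝ} {x : E m}

/-- Paper proof: `Z K q` is relatively open and closed in the connected set `frontier K`. -/
theorem Z_all {n : ℕ} {K : Set (E n)} (hcon : IsPreconnected (frontier K)) (q : QF (E n))
    (hop : ∀ p ∈ Z K q, ∀ᶠ y in 𝓝 p, y ∈ frontier K → y ∈ Z K q)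
    (hcl : ∀ p ∈ frontier K, p ∈ closure (Z K q) → p ∈ Z K q) (hne : (Z K q).Nonempty) :
    frontier K ⊆ Z K q := by
  have hZ : Z K q ⊆ frontier K := fun p hp => hp.1
  have hU : ∀ p : Z K q, ∃ U : Set (E n), IsOpen U ∧ (p : E n) ∈ U ∧
      ∀ y ∈ U, y ∈ frontier K → y ∈ Z K q := by
    rintro ⟨p, hp⟩
    obtain ⟨U, h1, h2, h3⟩ := _root_.eventually_nhds_iff.1 (hop p hp)
    exact ⟨U, h2, h3, h1⟩
  choose U hU1 hU2 hU3 using hU
  intro p hp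
  refine hcl p hp ?_
  by_contra hpc
  obtain ⟨z, hz⟩ := hne
  obtain ⟨y, hy1, hy2, hy3⟩ := hcon (⋃ p, U p) (closure (Z K q))ᶜ (isOpen_iUnion hU1)
    isClosed_closure.isOpen_compl (fun x hx => by
      by_cases hxc : x ∈ closure (Z K q)
      · exact Or.inl (mem_iUnion.2 ⟨⟨x, hcl x hx hxc⟩, hU2 _⟩)
      · exact Or.inr hxc)
    ⟨z, hZ hz, mem_iUnion.2 ⟨⟨z, hz⟩, hU2 _⟩⟩ ⟨p, hp, hpc⟩
  obtain ⟨w, hw⟩ := mem_iUnion.1 hy2
  exact hy3 (subset_closure (hU3 w y hw hy1))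

end MP80b30d
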