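import Pool.Agent.Lib.MP_80b30d_gt.Defs

/-! MP_80b30d_gt: implicit function theorem with a sign. -/

namespace MP80b30d

open Set Filter Topology Metric

/-- The linear equivalence `(h, k) ↦ (h, D (h, k))`. -/
theorem ImplicitG_equiv {m : ℕ} (D : E m × ℝ →L[ℝ] ℝ) (hD : D (0, 1) ≠ 0) :
    ∃ A : (E m × ℝ) ≃L[ℝ] (E m × ℝ),
      (A : E m × ℝ →L[ℝ] E m × ℝ) = (ContinuousLinearMap.fst ℝ (E m) ℝ).prod D := by
  have hsplit : ∀ (h : E m) (k : ℝ), D (h, k) = D (h, 0) + k * D (0, 1) := by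
    intro h k
    have e : ((h, k) : E m × ℝ) = (h, 0) + k • (0, 1) := by
      ext <;> simp
    rw [e, map_add, map_smul, smul_eq_mul]
  refine ⟨ContinuousLinearEquiv.equivOfInverse ((ContinuousLinearMap.fst ℝ (E m) ℝ).prod D)
    ((ContinuousLinearMap.fst ℝ (E m) ℝ).prod ((D (0, 1))⁻¹ •
      (ContinuousLinearMap.snd ℝ (E m) ℝ - D.comp ((ContinuousLinearMap.inl ℝ (E m) ℝ).comp
        (ContinuousLinearMap.fst ℝ (E m) ℝ))))) ?_ ?_, ?_⟩
  · rintro ⟨h, k⟩
    have := hsplit h k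
    simp only [ContinuousLinearMap.prod_apply, ContinuousLinearMap.coe_fst',
      ContinuousLinearMap.smul_apply, ContinuousLinearMap.sub_apply,
      ContinuousLinearMap.coe_snd', ContinuousLinearMap.comp_apply,
      ContinuousLinearMap.inl_apply, smul_eq_mul, this]
    ext
    · rfl
    · simp only
      field_simp
      ring
  · rintro ⟨h, s⟩
    simp only [ContinuousLinearMap.prod_apply, ContinuousLinearMap.coe_fst',
      ContinuousLinearMap.smul_apply, ContinuousLinearMap.sub_apply,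
      ContinuousLinearMap.coe_snd', ContinuousLinearMap.comp_apply,
      ContinuousLinearMap.inl_apply, smul_eq_mul]
    rw [hsplit]
    ext
    · rfl
    · simp only
      field_simp
      ring
  · ext z <;> rfl

/-- implicit function theorem, with the sign. Paper proof: the map `(x, y) ↦ (x, G (x, y))` has an
invertible derivative at `z0`; let `f x` be the second component of its local inverse at `(x, 0)`
(class `C³`). Near `z0`, `G` is strictly decreasing in `y`, so `G (x, y) ≤ 0 = G (x, f x)` iff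
`f x ≤ y`. -/
theorem implicit_graph {m : ℕ} {G : E m × ℝ → ℝ} {z0 : E m × ℝ} (hG : ContDiffAt ℝ 3 G z0)
    (h0 : G z0 = 0) (hd : fderiv ℝ G z0 (0, 1) < 0) :
    ∃ f : E m → ℝ, ContDiffAt ℝ 3 f z0.1 ∧ f z0.1 = z0.2 ∧
      ∀ᶠ z in 𝓝 z0, (G z ≤ 0 ↔ f z.1 ≤ z.2) := by
  obtain ⟨A, hA⟩ := ImplicitG_equiv (fderiv ℝ G z0) hd.ne
  have hdiff : DifferentiableAt ℝ G z0 := hG.differentiableAt (by norm_num)
  set Φ : E m × ℝ → E m × ℝ := fun z => (z.1, G z) with hΦ
  have hΦ3 : ContDiffAt ℝ 3 Φ z0 := contDiffAt_fst.prodMk hG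
  have hΦd : HasFDerivAt Φ (A : E m × ℝ →L[ℝ] E m × ℝ) z0 := by
    rw [hA]
    exact hasFDerivAt_fst.prodMk hdiff.hasFDerivAt
  have hn3 : (3 : WithTop ℕ∞) ≠ 0 := by norm_num
  have hΦ0 : Φ z0 = (z0.1, 0) := by rw [hΦ]; simp only [h0]
  set e := hΦ3.toOpenPartialHomeomorph Φ hΦd hn3 with he
  set g := hΦ3.localInverse hΦd hn3 with hg
  have hg0 : g (z0.1, 0) = z0 := by
    rw [← hΦ0]
    exact hΦ3.localInverse_apply_image hΦd hn3
  have hg3 : ContDiffAt ℝ 3 g (z0.1, 0) := by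
    rw [← hΦ0]
    exact hΦ3.to_localInverse hΦd hn3
  have hge : g = e.symm := rfl
  have hf3 : ContDiffAt ℝ 3 (fun x : E m => (g (x, 0)).2) z0.1 := by
    have h1 : ContDiffAt ℝ 3 (fun x : E m => ((x, 0) : E m × ℝ)) z0.1 :=
      contDiffAt_id.prodMk contDiffAt_const
    have h2 : ContDiffAt ℝ 3 (g ∘ fun x : E m => ((x, 0) : E m × ℝ)) z0.1 :=
      ContDiffAt.comp z0.1 hg3 h1
    exact contDiffAt_snd.comp z0.1 h2
  have hf0 : (g (z0.1, 0)).2 = z0.2 := by rw [hg0]
  refine ⟨fun x => (g (x, 0)).2, hf3, hf0, ?_⟩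
  -- the zeros of `G`
  have htgt : ((z0.1, 0) : E m × ℝ) ∈ e.target := by
    rw [← hΦ0]
    exact hΦ3.image_mem_toOpenPartialHomeomorph_target hΦd hn3
  have hx0 : Tendsto (fun x : E m => ((x, 0) : E m × ℝ)) (𝓝 z0.1) (𝓝 (z0.1, 0)) :=
    (continuous_id.prodMk continuous_const).tendsto z0.1
  have hzero : ∀ᶠ x in 𝓝 z0.1, G (x, (g (x, 0)).2) = 0 := by
    filter_upwards [hx0.eventually (e.open_target.mem_nhds htgt)] with x hx
    have h1 : Φ (g (x, 0)) = (x, 0) := by
      rw [hge]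
      exact e.right_inv hx
    have h2 : (g (x, 0)).1 = x := congrArg Prod.fst h1
    have h3 : G (g (x, 0)) = 0 := congrArg Prod.snd h1
    have h4 : (x, (g (x, 0)).2) = g (x, 0) := Prod.ext h2.symm rfl
    rw [h4]
    exact h3
  -- the box
  have hev : ∀ᶠ z in 𝓝 z0, DifferentiableAt ℝ G z ∧ fderiv ℝ G z (0, 1) < 0 := by
    have h1 : ∀ᶠ z in 𝓝 z0, DifferentiableAt ℝ G z := by
      filter_upwards [hG.eventually (by decide)] with z hz
      exact hz.differentiableAt (by norm_num)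
    have h2 : ContinuousAt (fderiv ℝ G) z0 :=
      (hG.fderiv_right (m := 2) (by norm_num)).continuousAt
    have h3 : ContinuousAt (fun z => fderiv ℝ G z (0, 1)) z0 := h2.clm_apply continuousAt_const
    exact h1.and (h3.eventually (gt_mem_nhds hd))
  obtain ⟨r, hr, hbox⟩ := Metric.eventually_nhds_iff_ball.1 hev
  have hfc : ContinuousAt (fun z : E m × ℝ => (z.1, (g (z.1, 0)).2)) z0 := by
    have h1 : ContinuousAt (fun x : E m => (g (x, 0)).2) z0.1 := hf3.continuousAt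
    exact continuousAt_fst.prodMk (ContinuousAt.comp (f := Prod.fst) (x := z0) h1
      continuousAt_fst)
  have hfc' : Tendsto (fun z : E m × ℝ => (z.1, (g (z.1, 0)).2)) (𝓝 z0) (𝓝 z0) := by
    have h1 := hfc.tendsto
    simp only [hf0] at h1
    exact h1
  filter_upwards [ball_mem_nhds z0 hr, hfc'.eventually (ball_mem_nhds z0 hr),
    continuousAt_fst.tendsto.eventually hzero] with z hz1 hz2 hz3
  have hb : ∀ (x : E m) (t : ℝ), (x, t) ∈ ball z0 r ↔ x ∈ ball z0.1 r ∧ t ∈ ball z0.2 r := by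
    intro x t
    rw [mem_ball, mem_ball, mem_ball, Prod.dist_eq, max_lt_iff]
  have hz1' := (hb z.1 z.2).1 hz1
  have hz2' := (hb _ _).1 hz2
  have hder : ∀ t ∈ ball z0.2 r, HasDerivAt (fun t => G (z.1, t))
      (fderiv ℝ G (z.1, t) (0, 1)) t := by
    intro t ht
    have h1 := (hbox (z.1, t) ((hb _ _).2 ⟨hz1'.1, ht⟩)).1.hasFDerivAt
    exact h1.comp_hasDerivAt t ((hasDerivAt_const t z.1).prodMk (hasDerivAt_id t))
  have hanti : StrictAntiOn (fun t => G (z.1, t)) (ball z0.2 r) := by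
    refine strictAntiOn_of_deriv_neg (convex_ball z0.2 r)
      (fun t ht => (hder t ht).continuousAt.continuousWithinAt) fun t ht => ?_
    have ht' := interior_subset ht
    rw [(hder t ht').deriv]
    exact (hbox (z.1, t) ((hb _ _).2 ⟨hz1'.1, ht'⟩)).2
  have key := hanti.le_iff_ge hz1'.2 hz2'.2
  simp only [hz3] at key
  exact key

end MP80b30d
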