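import Pool.Agent.Lib.MP_80b30d_gt.Defs

/-! MP_80b30d_gt: the intermediate value argument: a function `M` which vanishes on the zero set of
`Φ`, both given by their expansions of order two. -/

namespace MP80b30d

open Set Filter Topology Metric Asymptotics

variable {W : Type*} [NormedAddCommGroup W] [NormedSpace ℝ W]

private theorem Ivt_bigO (a w0 : W) {s : ℝ → ℝ} (hs : s =O[𝓝[>] 0] fun t : ℝ => t ^ 2) :
    (fun t : ℝ => t • w0 + s t • a) =O[𝓝[>] 0] (fun t : ℝ => t) := by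
  have h1 : (fun t : ℝ => t • w0) =O[𝓝[>] 0] (fun t : ℝ => t) :=
    IsBigO.of_bound ‖w0‖ (Eventually.of_forall fun t => by rw [norm_smul, mul_comm])
  have h2 : (fun t : ℝ => t ^ 2) =O[𝓝[>] 0] (fun t : ℝ => t) := by
    refine IsBigO.of_bound 1 ?_
    filter_upwards [Ioo_mem_nhdsGT (zero_lt_one' ℝ)] with t ht
    rw [norm_pow, Real.norm_eq_abs, abs_of_pos ht.1, one_mul, sq]
    exact mul_le_of_le_one_left ht.1.le ht.2.le
  have h3 : (fun t : ℝ => s t • a) =O[𝓝[>] 0] (fun t : ℝ => t) := by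
    refine IsBigO.trans ?_ (hs.trans h2)
    exact IsBigO.of_bound ‖a‖ (Eventually.of_forall fun t => by rw [norm_smul, mul_comm])
  exact h1.add h3

private theorem Ivt_tendsto (a w0 : W) {s : ℝ → ℝ} (hs : s =O[𝓝[>] 0] fun t : ℝ => t ^ 2) :
    Tendsto (fun t : ℝ => t • w0 + s t • a) (𝓝[>] 0) (𝓝 0) :=
  (Ivt_bigO a w0 hs).trans_tendsto (tendsto_nhdsWithin_of_tendsto_nhds tendsto_id)

private theorem Ivt_little (a w0 : W) {s : ℝ → ℝ} (hs : s =O[𝓝[>] 0] fun t : ℝ => t ^ 2)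
    {F F0 : W → ℝ} (hF : (fun w : W => F w - F0 w) =o[𝓝 0] (fun w : W => ‖w‖ ^ 2)) :
    (fun t : ℝ => F (t • w0 + s t • a) - F0 (t • w0 + s t • a)) =o[𝓝[>] 0]
      (fun t : ℝ => t ^ 2) :=
  (hF.comp_tendsto (Ivt_tendsto a w0 hs)).trans_isBigO ((Ivt_bigO a w0 hs).norm_left.pow 2)

private theorem Ivt_limit (H C : W →L[ℝ] W →L[ℝ] ℝ) (hHs : ∀ x y, H x y = H y x)
    (Φ : W → ℝ) (a w0 : W) (hw0 : H w0 a = 0)
    (hΦ : (fun w : W => Φ w - (H w a + (1 / 2) * C w w - (1 / 2) * H w w))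
      =o[𝓝 0] (fun w : W => ‖w‖ ^ 2)) (c : ℝ) :
    Tendsto (fun t : ℝ => Φ (t • w0 + (c * t ^ 2) • a) / t ^ 2) (𝓝[>] 0)
      (𝓝 (c * H a a + (1 / 2) * C w0 w0 - (1 / 2) * H w0 w0)) := by
  have hs : (fun t : ℝ => c * t ^ 2) =O[𝓝[>] 0] fun t : ℝ => t ^ 2 :=
    (isBigO_refl _ _).const_mul_left c
  have h1 := (Ivt_little a w0 hs hΦ).tendsto_div_nhds_zero
  have h2 : Tendsto (fun t : ℝ => c * H a a + (1 / 2) * (C w0 w0 + c * t * (C w0 a + C a w0) +
      c ^ 2 * t ^ 2 * C a a) - (1 / 2) * (H w0 w0 + c ^ 2 * t ^ 2 * H a a)) (𝓝[>] 0)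
      (𝓝 (c * H a a + (1 / 2) * C w0 w0 - (1 / 2) * H w0 w0)) := by
    refine tendsto_nhdsWithin_of_tendsto_nhds ?_
    refine Continuous.tendsto' (by fun_prop) _ _ ?_
    ring
  have h3 := h1.add h2
  rw [zero_add] at h3
  refine h3.congr' ?_
  filter_upwards [self_mem_nhdsWithin] with t ht
  have ht0 : t ≠ 0 := (ne_of_gt ht)
  have e1 : H (t • w0 + (c * t ^ 2) • a) a = c * t ^ 2 * H a a := by
    simp [hw0]
  have e2 : C (t • w0 + (c * t ^ 2) • a) (t • w0 + (c * t ^ 2) • a) =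
      t ^ 2 * (C w0 w0 + c * t * (C w0 a + C a w0) + c ^ 2 * t ^ 2 * C a a) := by
    simp
    ring
  have e3 : H (t • w0 + (c * t ^ 2) • a) (t • w0 + (c * t ^ 2) • a) =
      t ^ 2 * (H w0 w0 + c ^ 2 * t ^ 2 * H a a) := by
    simp [hw0, hHs a w0]
    ring
  rw [e1, e2, e3]
  field_simp
  ring

/-- Paper proof: fix `w0` with `H w0 a = 0`. For small `t > 0` the function
`s ↦ Φ (t • w0 + s • a) = s * H a a + t² (C w0 w0 / 2 - H w0 w0 / 2) + o(t²)` (for `|s| ≤ R t²`)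
changes sign on `[-R t², R t²]` if `R` is large, so it has a zero `s(t)` with
`s(t) / t² → (H w0 w0 - C w0 w0) / (2 H a a)`.
Then `0 = M (t • w0 + s(t) • a) = t * μ w0 + s(t) * μ a + (β / 2) t² H w0 w0 + o(t²)`;
divide by `t` and by `t²`. Here `C` is the quadratic form `w ↦ C w w`. -/
theorem ivt_core (H C : W →L[ℝ] W →L[ℝ] ℝ) (hHs : ∀ x y, H x y = H y x)
    (Φ M : W → ℝ) (μ : W →L[ℝ] ℝ) (β : ℝ) (a w0 : W) (ha : 0 < H a a) (hw0 : H w0 a = 0)
    (hΦc : ∀ᶠ w in 𝓝 (0 : W), ContinuousAt Φ w)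
    (hΦ : (fun w : W => Φ w - (H w a + (1 / 2) * C w w - (1 / 2) * H w w))
      =o[𝓝 0] (fun w : W => ‖w‖ ^ 2))
    (hM : (fun w : W => M w - (μ w + (1 / 2) * β * H w w)) =o[𝓝 0] (fun w : W => ‖w‖ ^ 2))
    (hz : ∀ᶠ w in 𝓝 (0 : W), Φ w = 0 → M w = 0) :
    μ w0 = 0 ∧ μ a * (H w0 w0 - C w0 w0) + β * H w0 w0 * H a a = 0 := by
  set σ : ℝ := (H w0 w0 - C w0 w0) / (2 * H a a) with hσ
  have hσ' : 2 * (σ * H a a) = H w0 w0 - C w0 w0 := by
    rw [hσ]; field_simp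
  -- a zero for every `ε`
  have key : ∀ ε : ℝ, 0 < ε → ∃ s : ℝ → ℝ, (∀ t, |s t - σ * t ^ 2| ≤ ε * t ^ 2) ∧
      ∀ᶠ t in 𝓝[>] (0 : ℝ), Φ (t • w0 + s t • a) = 0 := by
    intro ε hε
    have hp := Ivt_limit H C hHs Φ a w0 hw0 hΦ (σ + ε)
    have hm := Ivt_limit H C hHs Φ a w0 hw0 hΦ (σ - ε)
    have hεa : 0 < ε * H a a := mul_pos hε ha
    have hp' : ∀ᶠ t in 𝓝[>] (0 : ℝ), 0 < Φ (t • w0 + ((σ + ε) * t ^ 2) • a) := by
      have h0 : (0 : ℝ) < (σ + ε) * H a a + (1 / 2) * C w0 w0 - (1 / 2) * H w0 w0 := by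
        nlinarith
      filter_upwards [hp.eventually_const_lt h0, self_mem_nhdsWithin] with t h1 ht
      have ht2 : (0 : ℝ) < t ^ 2 := pow_pos ht 2
      exact (div_pos_iff_of_pos_right ht2).mp h1
    have hm' : ∀ᶠ t in 𝓝[>] (0 : ℝ), Φ (t • w0 + ((σ - ε) * t ^ 2) • a) < 0 := by
      have h0 : (σ - ε) * H a a + (1 / 2) * C w0 w0 - (1 / 2) * H w0 w0 < 0 := by
        nlinarith
      filter_upwards [hm.eventually_lt_const h0, self_mem_nhdsWithin] with t h1 ht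
      have ht2 : (0 : ℝ) < t ^ 2 := pow_pos ht 2
      have h2 := (div_lt_iff₀ ht2).mp h1
      simpa using h2
    -- continuity on a ball
    obtain ⟨δ, hδ, hball⟩ := Metric.eventually_nhds_iff_ball.mp hΦc
    have hsmall : ∀ᶠ t in 𝓝[>] (0 : ℝ), ∀ s ∈ Icc ((σ - ε) * t ^ 2) ((σ + ε) * t ^ 2),
        t • w0 + s • a ∈ ball (0 : W) δ := by
      have hlim : Tendsto (fun t : ℝ => |t| * ‖w0‖ + (|σ| + ε) * t ^ 2 * ‖a‖) (𝓝[>] 0) (𝓝 0) := by
        refine tendsto_nhdsWithin_of_tendsto_nhds ?_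
        refine Continuous.tendsto' (by fun_prop) _ _ (by simp)
      filter_upwards [hlim.eventually_lt_const hδ, self_mem_nhdsWithin] with t h1 ht s hs
      rw [mem_ball_zero_iff]
      refine lt_of_le_of_lt ?_ h1
      have ht2 : (0 : ℝ) ≤ t ^ 2 := sq_nonneg t
      have hs' : |s| ≤ (|σ| + ε) * t ^ 2 := by
        rw [abs_le]
        constructor
        · nlinarith [hs.1, neg_abs_le σ]
        · nlinarith [hs.2, le_abs_self σ]
      calc ‖t • w0 + s • a‖ ≤ ‖t • w0‖ + ‖s • a‖ := norm_add_le _ _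
        _ = |t| * ‖w0‖ + |s| * ‖a‖ := by rw [norm_smul, norm_smul]; rfl
        _ ≤ |t| * ‖w0‖ + (|σ| + ε) * t ^ 2 * ‖a‖ := by
          gcongr
    have hex : ∀ᶠ t in 𝓝[>] (0 : ℝ), ∃ s ∈ Icc ((σ - ε) * t ^ 2) ((σ + ε) * t ^ 2),
        Φ (t • w0 + s • a) = 0 := by
      filter_upwards [hp', hm', hsmall] with t h1 h2 h3
      have ht2 : (0 : ℝ) ≤ t ^ 2 := sq_nonneg t
      have hle : (σ - ε) * t ^ 2 ≤ (σ + ε) * t ^ 2 := by nlinarith
      have hcont : ContinuousOn (fun s : ℝ => Φ (t • w0 + s • a))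
          (Icc ((σ - ε) * t ^ 2) ((σ + ε) * t ^ 2)) := by
        intro s hs
        refine ContinuousAt.continuousWithinAt ?_
        have hc : ContinuousAt (fun s : ℝ => t • w0 + s • a) s := by fun_prop
        exact ContinuousAt.comp (f := fun s : ℝ => t • w0 + s • a) (hball _ (h3 s hs)) hc
      have := intermediate_value_Icc hle hcont
      obtain ⟨s, hs, hs0⟩ := this ⟨h2.le, h1.le⟩
      exact ⟨s, hs, hs0⟩
    classical
    refine ⟨fun t => if h : ∃ s ∈ Icc ((σ - ε) * t ^ 2) ((σ + ε) * t ^ 2),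
      Φ (t • w0 + s • a) = 0 then h.choose else σ * t ^ 2, ?_, ?_⟩
    · intro t
      have ht2 : (0 : ℝ) ≤ t ^ 2 := sq_nonneg t
      by_cases h : ∃ s ∈ Icc ((σ - ε) * t ^ 2) ((σ + ε) * t ^ 2), Φ (t • w0 + s • a) = 0
      · simp only [dif_pos h]
        have h1 := h.choose_spec.1
        rw [abs_le]
        constructor
        · nlinarith [h1.1]
        · nlinarith [h1.2]
      · simp only [dif_neg h, sub_self, abs_zero]
        positivity
    · filter_upwards [hex] with t ht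
      simp only [dif_pos ht]
      exact ht.choose_spec.2
  -- the expansion of `M`
  have exp : ∀ ε : ℝ, 0 < ε → ∃ s : ℝ → ℝ, (∀ t, |s t - σ * t ^ 2| ≤ ε * t ^ 2) ∧
      s =O[𝓝[>] 0] (fun t : ℝ => t ^ 2) ∧
      (fun t : ℝ => t * μ w0 + (s t * μ a + (1 / 2) * β * (t ^ 2 * H w0 w0) +
        (1 / 2) * β * (s t ^ 2 * H a a))) =o[𝓝[>] 0] (fun t : ℝ => t ^ 2) := by
    intro ε hε
    obtain ⟨s, hs1, hs2⟩ := key ε hε
    have hsO : s =O[𝓝[>] 0] (fun t : ℝ => t ^ 2) := by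
      refine IsBigO.of_bound (|σ| + ε) (Eventually.of_forall fun t => ?_)
      have ht2 : (0 : ℝ) ≤ t ^ 2 := sq_nonneg t
      rw [Real.norm_eq_abs, Real.norm_eq_abs, abs_of_nonneg ht2]
      have h1 := abs_le.mp (hs1 t)
      rw [abs_le]
      constructor
      · nlinarith [h1.1, neg_abs_le σ]
      · nlinarith [h1.2, le_abs_self σ]
    refine ⟨s, hs1, hsO, ?_⟩
    have h1 := Ivt_little a w0 hsO hM
    have h2 := (Ivt_tendsto a w0 hsO).eventually hz
    refine (h1.neg_left).congr' ?_ EventuallyEq.rfl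
    filter_upwards [h2, hs2] with t h3 h4
    rw [h3 h4]
    have e3 : H (t • w0 + s t • a) (t • w0 + s t • a) = t ^ 2 * H w0 w0 + s t ^ 2 * H a a := by
      simp [hw0, hHs a w0]
      ring
    rw [e3]
    simp
    ring
  have hpow : (fun t : ℝ => t ^ 2) =o[𝓝[>] 0] (fun t : ℝ => t) := by
    refine (isLittleO_pow_id (n := 2) one_lt_two).mono nhdsWithin_le_nhds
  have hsqO : ∀ s : ℝ → ℝ, s =O[𝓝[>] 0] (fun t : ℝ => t ^ 2) →
      (fun t : ℝ => (1 / 2) * β * (s t ^ 2 * H a a)) =o[𝓝[>] 0] (fun t : ℝ => t ^ 2) := by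
    intro s hs
    have h1 : (fun t : ℝ => s t ^ 2) =o[𝓝[>] 0] (fun t : ℝ => t ^ 2) := by
      have h2 := hs.pow 2
      refine h2.trans_isLittleO ?_
      have h3 := hpow.pow (n := 2) two_pos
      exact h3
    have h4 := h1.const_mul_left ((1 / 2) * β * H a a)
    refine h4.congr_left fun t => ?_
    ring
  have hμ : μ w0 = 0 := by
    obtain ⟨s, hs1, hsO, hexp⟩ := exp 1 one_pos
    have h1 : (fun t : ℝ => s t * μ a + (1 / 2) * β * (t ^ 2 * H w0 w0) +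
        (1 / 2) * β * (s t ^ 2 * H a a)) =O[𝓝[>] 0] (fun t : ℝ => t ^ 2) := by
      refine IsBigO.add (IsBigO.add ?_ ?_) (hsqO s hsO).isBigO
      · exact (hsO.const_mul_left (μ a)).congr_left fun t => by ring
      · exact ((isBigO_refl (fun t : ℝ => t ^ 2) _).const_mul_left
          ((1 / 2) * β * H w0 w0)).congr_left fun t => by ring
    have h2 : (fun t : ℝ => t * μ w0) =o[𝓝[>] 0] (fun t : ℝ => t) := by
      have h3 := (hexp.trans hpow).sub (h1.trans_isLittleO hpow)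
      exact h3.congr_left fun t => by ring
    have h4 := h2.tendsto_div_nhds_zero
    have h5 : Tendsto (fun t : ℝ => t * μ w0 / t) (𝓝[>] 0) (𝓝 (μ w0)) := by
      refine tendsto_const_nhds.congr' ?_
      filter_upwards [self_mem_nhdsWithin] with t ht
      have ht0 : t ≠ 0 := ne_of_gt ht
      field_simp
    exact tendsto_nhds_unique h5 h4
  refine ⟨hμ, ?_⟩
  -- the second order
  have hK : σ * μ a + (1 / 2) * β * H w0 w0 = 0 := by
    have hle : ∀ ε : ℝ, 0 < ε → |σ * μ a + (1 / 2) * β * H w0 w0| ≤ ε * |μ a| := by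
      intro ε hε
      obtain ⟨s, hs1, hsO, hexp⟩ := exp ε hε
      have h1 : (fun t : ℝ => s t * μ a + (1 / 2) * β * (t ^ 2 * H w0 w0)) =o[𝓝[>] 0]
          (fun t : ℝ => t ^ 2) := by
        refine (hexp.sub (hsqO s hsO)).congr_left fun t => ?_
        rw [hμ]; ring
      have h2 := h1.tendsto_div_nhds_zero
      have h3 : Tendsto (fun t : ℝ => |σ * μ a + (1 / 2) * β * H w0 w0| -
          |(s t * μ a + (1 / 2) * β * (t ^ 2 * H w0 w0)) / t ^ 2|) (𝓝[>] 0)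
          (𝓝 (|σ * μ a + (1 / 2) * β * H w0 w0| - |0|)) :=
        tendsto_const_nhds.sub h2.abs
      rw [abs_zero, sub_zero] at h3
      refine le_of_tendsto h3 ?_
      filter_upwards [self_mem_nhdsWithin] with t ht
      have ht2 : (0 : ℝ) < t ^ 2 := pow_pos ht 2
      have h4 : σ * μ a + (1 / 2) * β * H w0 w0 =
          (s t * μ a + (1 / 2) * β * (t ^ 2 * H w0 w0)) / t ^ 2 -
            (s t - σ * t ^ 2) / t ^ 2 * μ a := by
        have ht0 : t ≠ 0 := ne_of_gt ht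
        field_simp
        ring
      have h5 : |(s t - σ * t ^ 2) / t ^ 2| ≤ ε := by
        rw [abs_div, abs_of_pos ht2, div_le_iff₀ ht2]
        exact hs1 t
      rw [sub_le_iff_le_add]
      calc |σ * μ a + (1 / 2) * β * H w0 w0|
          = |(s t * μ a + (1 / 2) * β * (t ^ 2 * H w0 w0)) / t ^ 2 -
            (s t - σ * t ^ 2) / t ^ 2 * μ a| := by rw [← h4]
        _ ≤ |(s t * μ a + (1 / 2) * β * (t ^ 2 * H w0 w0)) / t ^ 2| +
            |(s t - σ * t ^ 2) / t ^ 2 * μ a| := abs_sub _ _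
        _ ≤ |(s t * μ a + (1 / 2) * β * (t ^ 2 * H w0 w0)) / t ^ 2| + ε * |μ a| := by
            rw [abs_mul]
            gcongr
        _ = ε * |μ a| + |(s t * μ a + (1 / 2) * β * (t ^ 2 * H w0 w0)) / t ^ 2| := by ring
    have h6 : |σ * μ a + (1 / 2) * β * H w0 w0| ≤ 0 := by
      have h7 : Tendsto (fun ε : ℝ => ε * |μ a|) (𝓝[>] 0) (𝓝 0) := by
        refine tendsto_nhdsWithin_of_tendsto_nhds ?_
        refine Continuous.tendsto' (by fun_prop) _ _ (by simp)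
      refine ge_of_tendsto h7 ?_
      filter_upwards [self_mem_nhdsWithin] with ε hε
      exact hle ε hε
    exact abs_nonpos_iff.mp h6
  have : μ a * (H w0 w0 - C w0 w0) + β * H w0 w0 * H a a =
      2 * H a a * (σ * μ a + (1 / 2) * β * H w0 w0) := by
    rw [← hσ']; ring
  rw [this, hK, mul_zero]

end MP80b30d
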