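import Pool.Agent.Lib.MP_80b30d_gt.Defs

/-! MP_80b30d_gt: derivative of a determinant. -/

namespace MP80b30d

open Set Filter Topology Metric Matrix

private theorem jacA_prod {m : ℕ} (A : Matrix (Fin m) (Fin m) ℝ) (i j : Fin m)
    (σ : Equiv.Perm (Fin m)) :
    ∏ l, (A.updateRow i (Pi.single j 1)) (σ l) l =
      if σ j = i then ∏ l ∈ Finset.univ.erase j, A (σ l) l else 0 := by
  split_ifs with h
  · rw [← Finset.mul_prod_erase Finset.univ _ (Finset.mem_univ j)]
    have h1 : (A.updateRow i (Pi.single j 1)) (σ j) j = 1 := by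
      rw [h, Matrix.updateRow_self, Pi.single_eq_same]
    rw [h1, one_mul]
    refine Finset.prod_congr rfl fun l hl => ?_
    have hlj : l ≠ j := (Finset.mem_erase.1 hl).1
    rw [Matrix.updateRow_ne]
    intro e
    exact hlj (σ.injective (e.trans h.symm))
  · apply Finset.prod_eq_zero (Finset.mem_univ (σ.symm i))
    rw [Equiv.apply_symm_apply, Matrix.updateRow_self, Pi.single_eq_of_ne]
    intro e
    apply h
    rw [← e, Equiv.apply_symm_apply]

/-- Jacobi's formula -/
theorem hasFDerivAt_det {m : ℕ} {W : Type*} [NormedAddCommGroup W] [NormedSpace ℝ W]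
    (A : W → Matrix (Fin m) (Fin m) ℝ) (A' : Fin m → Fin m → W →L[ℝ] ℝ) {x : W}
    (hA : ∀ i j, HasFDerivAt (fun y => A y i j) (A' i j) x) :
    HasFDerivAt (fun y => (A y).det) (∑ i, ∑ j, (A x).adjugate j i • A' i j) x := by
  classical
  have h1 : ∀ σ : Equiv.Perm (Fin m), HasFDerivAt
      (fun y => ((Equiv.Perm.sign σ : ℤ) : ℝ) * ∏ l, A y (σ l) l)
      (((Equiv.Perm.sign σ : ℤ) : ℝ) •
        ∑ l, (∏ l' ∈ Finset.univ.erase l, A x (σ l') l') • A' (σ l) l) x := by
    intro σ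
    apply HasFDerivAt.const_mul
    exact HasFDerivAt.finsetProd (u := Finset.univ) (g := fun l y => A y (σ l) l)
      (g' := fun l => A' (σ l) l) fun l _ => hA (σ l) l
  have h2 : HasFDerivAt (fun y => (A y).det)
      (∑ σ : Equiv.Perm (Fin m), (((Equiv.Perm.sign σ : ℤ) : ℝ) •
        ∑ l, (∏ l' ∈ Finset.univ.erase l, A x (σ l') l') • A' (σ l) l)) x := by
    have h3 := HasFDerivAt.fun_sum (u := Finset.univ) fun σ _ => h1 σ
    refine h3.congr_of_eventuallyEq (Eventually.of_forall fun y => ?_)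
    exact Matrix.det_apply' (A y)
  refine h2.congr_fderiv ?_
  have h4 : ∀ i j, (A x).adjugate j i = ∑ σ : Equiv.Perm (Fin m), ((Equiv.Perm.sign σ : ℤ) : ℝ) *
      (if σ j = i then ∏ l ∈ Finset.univ.erase j, A x (σ l) l else 0) := by
    intro i j
    rw [Matrix.adjugate_apply, Matrix.det_apply']
    exact Finset.sum_congr rfl fun σ _ => by rw [jacA_prod]
  have h5 : ∑ i, ∑ j, (A x).adjugate j i • A' i j =
      ∑ i, ∑ j, ∑ σ : Equiv.Perm (Fin m), (((Equiv.Perm.sign σ : ℤ) : ℝ) *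
        (if σ j = i then ∏ l ∈ Finset.univ.erase j, A x (σ l) l else 0)) • A' i j := by
    refine Finset.sum_congr rfl fun i _ => Finset.sum_congr rfl fun j _ => ?_
    rw [h4, Finset.sum_smul]
  rw [h5, Finset.sum_comm]
  have h6 : ∀ j, ∑ i, ∑ σ : Equiv.Perm (Fin m), (((Equiv.Perm.sign σ : ℤ) : ℝ) *
        (if σ j = i then ∏ l ∈ Finset.univ.erase j, A x (σ l) l else 0)) • A' i j =
      ∑ σ : Equiv.Perm (Fin m), (((Equiv.Perm.sign σ : ℤ) : ℝ) *
        ∏ l ∈ Finset.univ.erase j, A x (σ l) l) • A' (σ j) j := by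
    intro j
    rw [Finset.sum_comm]
    refine Finset.sum_congr rfl fun σ _ => ?_
    rw [Finset.sum_eq_single (σ j)]
    · rw [if_pos rfl]
    · intro i _ hi
      rw [if_neg (Ne.symm hi), mul_zero, zero_smul]
    · intro h
      exact absurd (Finset.mem_univ _) h
  rw [Finset.sum_congr rfl fun j _ => h6 j, Finset.sum_comm]
  refine Finset.sum_congr rfl fun σ _ => ?_
  rw [Finset.smul_sum]
  exact Finset.sum_congr rfl fun l _ => by rw [smul_smul]

end MP80b30d
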