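import Pool.Agent.Lib.MP_80b30d_gt.ChartB

/-! MP_80b30d_gt: the shadow boundary in a chart. -/

namespace MP80b30d

open Set Filter Topology Metric

variable {m n : ℕ} {K : Set (E n)} {Ψ : (E m × ℝ) ≃L[ℝ] E n} {f : E m → ℝ} {x : E m}

/-- the shadow boundary in the chart. Paper proof: let `v = Ψ (x', f x')`, `x' = x + w`. By the
hypothesis the line through `u` and `v` lies in the tangent hyperplane of the graph at `v`, which
contains no interior point of `K` (`Chart.support_interior` at `x'`). -/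
theorem shadow_chart (hK : Convex ℝ K) (h : Chart K Ψ f x) (a : E m) :
    ∀ᶠ w in 𝓝 (0 : E m), f (x + w) + fderiv ℝ f (x + w) (a - w) = f x + fderiv ℝ f x a →
      Ψ (x + w, f (x + w)) ∈ shadow K (Ψ (x + a, f x + fderiv ℝ f x a)) := by
  have hcont : Tendsto (fun w : E m => x + w) (𝓝 0) (𝓝 x) :=
    (continuous_const.add continuous_id).tendsto' 0 x (add_zero x)
  filter_upwards [hcont.eventually h.eventually] with w hw heq
  refine ⟨hw.graph_mem.1, fun t _ hint => ?_⟩
  have h1 := hw.support_interior hK hint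
  have h2 : Ψ.symm (Ψ (x + a, f x + fderiv ℝ f x a) +
      t • (Ψ (x + w, f (x + w)) - Ψ (x + a, f x + fderiv ℝ f x a))) =
      ((x + a, f x + fderiv ℝ f x a) : E m × ℝ) +
        t • (((x + w, f (x + w)) : E m × ℝ) - (x + a, f x + fderiv ℝ f x a)) := by
    rw [map_add, map_smul, map_sub, Ψ.symm_apply_apply, Ψ.symm_apply_apply]
  rw [h2] at h1
  simp only [Prod.fst_add, Prod.smul_fst, Prod.fst_sub, Prod.snd_add, Prod.smul_snd,
    Prod.snd_sub, smul_eq_mul] at h1
  have h3 : x + a + t • (x + w - (x + a)) - (x + w) = (1 - t) • (a - w) := by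
    rw [sub_smul, one_smul, smul_sub, smul_sub, smul_add, smul_add]
    abel
  rw [h3, map_smul, smul_eq_mul] at h1
  have h4 : (1 - t) * (fderiv ℝ f (x + w) (a - w)) =
      (1 - t) * (f x + fderiv ℝ f x a - f (x + w)) := by
    rw [← heq]
    ring
  rw [h4] at h1
  refine absurd h1 (not_lt.2 (le_of_eq ?_))
  ring

end MP80b30d
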