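import Pool.Agent.Lib.MP_80b30d_gt.Symm
import Pool.Agent.Lib.MP_80b30d_gt.Taylor
import Pool.Agent.Lib.MP_80b30d_gt.Ivt

/-! MP_80b30d_gt: the local analysis of one light, in a graph chart. -/

namespace MP80b30d

open Set Filter Topology Metric

/-- Paper proof: `μ b := lam0 b + β Df(x) b`; apply `ivt_core` with `H = D2 f x`,
`C w w = D3 f x w w a` (use `D3 f x` and its symmetry), `Φ w = f (x+w) + Df(x+w)(a-w) - f x - Df(x) a`,
`M w = lam0 w + β (f (x+w) - f x)`. The functional `μ` vanishes on the `H`-orthogonal complement of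
`a`, so `μ b = lam * H a b` with `lam = μ a / H a a`. If `lam = 0` then `μ = 0`, hence `β ≠ 0` and
`β * H w0 w0 = 0` for a nonzero `w0` orthogonal to `a`: contradiction. Then `κ = 1 + β / lam`. -/
theorem local_light {m : ℕ} (hm : 2 ≤ m) {f : E m → ℝ} {x : E m} (hf : ContDiffAt ℝ 3 f x)
    (hpos : ∀ h : E m, h ≠ 0 → 0 < D2 f x h h) {a : E m} (ha : a ≠ 0)
    (lam0 : E m →L[ℝ] ℝ) (β : ℝ) (hne : lam0 ≠ 0 ∨ β ≠ 0)
    (hz : ∀ᶠ w in 𝓝 (0 : E m), f (x + w) + fderiv ℝ f (x + w) (a - w) = f x + fderiv ℝ f x a →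
      lam0 w + β * (f (x + w) - f x) = 0) :
    ∃ lam κ : ℝ, lam ≠ 0 ∧ (∀ b : E m, lam0 b + β * fderiv ℝ f x b = lam * D2 f x a b) ∧
      ∀ w : E m, D2 f x a w = 0 → D3 f x a w w = κ * D2 f x w w := by
  have hf2 : ContDiffAt ℝ 2 f x := hf.of_le (by norm_num)
  have haa : 0 < D2 f x a a := hpos a ha
  set μ : E m →L[ℝ] ℝ := lam0 + β • fderiv ℝ f x with hμ
  have hμa : ∀ b, μ b = lam0 b + β * fderiv ℝ f x b := fun b => rfl
  have hΦc : ∀ᶠ w in 𝓝 (0 : E m), ContinuousAt
      (fun w => f (x + w) + fderiv ℝ f (x + w) (a - w) - f x - fderiv ℝ f x a) w := by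
    have h1 : ∀ᶠ y in 𝓝 x, ContDiffAt ℝ 3 f y := hf.eventually (by norm_num)
    have h2 : Tendsto (fun w : E m => x + w) (𝓝 0) (𝓝 x) := by
      have h3 : Continuous fun w : E m => x + w := by fun_prop
      have h4 := h3.tendsto 0
      rwa [add_zero] at h4
    filter_upwards [h2.eventually h1] with w hw
    have h3 : ContinuousAt (fun w : E m => x + w) w := by fun_prop
    have h4 : ContinuousAt (fun w : E m => f (x + w)) w :=
      ContinuousAt.comp (g := f) hw.continuousAt h3
    have h5 : ContinuousAt (fderiv ℝ f) (x + w) :=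
      (hw.fderiv_right (m := 2) (by norm_num)).continuousAt
    have h6 : ContinuousAt (fun w : E m => fderiv ℝ f (x + w)) w :=
      ContinuousAt.comp (g := fderiv ℝ f) h5 h3
    have h7 : ContinuousAt (fun w : E m => fderiv ℝ f (x + w) (a - w)) w :=
      h6.clm_apply (by fun_prop)
    exact ((h4.add h7).sub continuousAt_const).sub continuousAt_const
  have hC : ∀ w, D3 f x a w w = D3 f x w w a := by
    intro w
    rw [D3_symm12 hf, D3_symm23 hf]
  have hcore : ∀ w0, D2 f x w0 a = 0 → μ w0 = 0 ∧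
      μ a * (D2 f x w0 w0 - D3 f x a w0 w0) + β * D2 f x w0 w0 * D2 f x a a = 0 := by
    intro w0 hw0
    refine ivt_core (D2 f x) (D3 f x a) (fun b b' => D2_symm hf2 b b')
      (fun w => f (x + w) + fderiv ℝ f (x + w) (a - w) - f x - fderiv ℝ f x a)
      (fun w => lam0 w + β * (f (x + w) - f x)) μ β a w0 haa hw0 hΦc ?_ ?_ ?_
    · refine (taylor_shadow hf a).congr_left fun w => ?_
      rw [hC]
    · refine ((taylor_f hf2).const_mul_left β).congr_left fun w => ?_
      rw [hμa]
      ring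
    · filter_upwards [hz] with w hw h0
      exact hw (by linarith)
  have hμb : ∀ b, μ b = μ a / D2 f x a a * D2 f x a b := by
    intro b
    have h1 := (hcore (b - (D2 f x b a / D2 f x a a) • a) (by
      simp only [map_sub, map_smul, sub_apply, smul_apply, smul_eq_mul]
      field_simp
      ring)).1
    rw [map_sub, map_smul, smul_eq_mul, sub_eq_zero] at h1
    rw [h1, D2_symm hf2 a b]
    ring
  have hlam : μ a / D2 f x a a ≠ 0 := by
    intro h0
    have hμ0 : ∀ b, μ b = 0 := fun b => by rw [hμb b, h0, zero_mul]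
    have hker : LinearMap.ker ((D2 f x a).toLinearMap) ≠ ⊥ :=
      LinearMap.ker_ne_bot_of_finrank_lt (by
        rw [Module.finrank_self, finrank_euclideanSpace_fin]
        omega)
    obtain ⟨w0, hw0, hw0n⟩ := Submodule.exists_mem_ne_zero_of_ne_bot hker
    have hw0' : D2 f x w0 a = 0 := by
      rw [D2_symm hf2]
      exact hw0
    have h1 := (hcore w0 hw0').2
    rw [hμ0 a, zero_mul, zero_add] at h1
    have h2 := hpos w0 hw0n
    have hβ : β = 0 := by
      rcases mul_eq_zero.1 h1 with h3 | h3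
      · rcases mul_eq_zero.1 h3 with h4 | h4
        · exact h4
        · exact absurd h4 h2.ne'
      · exact absurd h3 haa.ne'
    rcases hne with h3 | h3
    · apply h3
      ext b
      have h4 := hμ0 b
      rw [hμa, hβ, zero_mul, add_zero] at h4
      rw [h4]
      rfl
    · exact h3 hβ
  refine ⟨μ a / D2 f x a a, 1 + β / (μ a / D2 f x a a), hlam, fun b => ?_, fun w hw => ?_⟩
  · rw [← hμa, hμb b]
  · have h1 := (hcore w (by rw [D2_symm hf2]; exact hw)).2
    have hμa0 : μ a ≠ 0 := fun h => hlam (by rw [h, zero_div])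
    field_simp
    linear_combination -h1

end MP80b30d
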