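import Pool.Agent.Lib.MP_80b30d_gt.LightA
import Pool.Agent.Lib.MP_80b30d_gt.LightB
import Pool.Agent.Lib.MP_80b30d_gt.Local

/-! MP_80b30d_gt: a light in a graph chart. -/

namespace MP80b30d

open Set Filter Topology Metric

variable {m n : ℕ} {K : Set (E n)} {Ψ : (E m × ℝ) ≃L[ℝ] E n} {f : E m → ℝ} {x : E m}

/-- one light with flat shadow boundary, in a chart -/
theorem light_chart (hm : 2 ≤ m) (hK : Convex ℝ K) (h : Chart K Ψ f x)
    (hpos : ∀ b : E m, b ≠ 0 → 0 < D2 f x b b) {a : E m} (ha : a ≠ 0)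
    {L : E n →L[ℝ] ℝ} {c : ℝ} (hL : L ≠ 0)
    (hs : shadow K (Ψ (x + a, f x + fderiv ℝ f x a)) ⊆ {z | L z = c}) :
    L (Ψ (x, f x)) = c ∧ ∃ lam κ : ℝ, lam ≠ 0 ∧
      (∀ b : E m, L (Ψ (b, fderiv ℝ f x b)) = lam * D2 f x a b) ∧
      ∀ w : E m, D2 f x a w = 0 → D3 f x a w w = κ * D2 f x w w := by
  have h1 := shadow_chart hK h a
  have h2 : L (Ψ (x, f x)) = c := by
    have h3 := h1.self_of_nhds
    rw [add_zero, sub_zero] at h3
    exact hs (h3 rfl)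
  refine ⟨h2, ?_⟩
  obtain ⟨lam0, hlam0⟩ : ∃ lam0 : E m →L[ℝ] ℝ, ∀ w, lam0 w = L (Ψ (w, 0)) :=
    ⟨(L.comp (Ψ : (E m × ℝ) →L[ℝ] E n)).comp (ContinuousLinearMap.inl ℝ (E m) ℝ), fun w => rfl⟩
  obtain ⟨β, hβ⟩ : ∃ β : ℝ, β = L (Ψ ((0 : E m), (1 : ℝ))) := ⟨_, rfl⟩
  have hsplit : ∀ (w : E m) (s : ℝ), L (Ψ (w, s)) = lam0 w + β * s := by
    intro w s
    have h3 : ((w, s) : E m × ℝ) = (w, 0) + s • ((0 : E m), (1 : ℝ)) := by
      ext1
      · simp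
      · simp
    rw [h3, map_add, map_add, map_smul, map_smul, ← hlam0, ← hβ, smul_eq_mul, mul_comm s β]
  have hne : lam0 ≠ 0 ∨ β ≠ 0 := by
    by_contra hcon
    push Not at hcon
    apply hL
    ext y
    have h3 := hsplit (Ψ.symm y).1 (Ψ.symm y).2
    rw [hcon.1, hcon.2, zero_mul, add_zero] at h3
    have h4 : Ψ ((Ψ.symm y).1, (Ψ.symm y).2) = y := Ψ.apply_symm_apply y
    rw [h4] at h3
    exact h3
  obtain ⟨lam, κ, hlam, h3, h4⟩ := local_light hm h.smooth hpos ha lam0 β hne (by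
    filter_upwards [h1] with w hw hw2
    have h5 : L (Ψ (x + w, f (x + w))) = c := hs (hw hw2)
    have h6 : ((x + w, f (x + w)) : E m × ℝ) = (x, f x) + (w, f (x + w) - f x) := by
      ext1
      · simp
      · simp
    rw [h6, map_add, map_add, h2, hsplit] at h5
    linarith)
  refine ⟨lam, κ, hlam, fun b => ?_, h4⟩
  rw [hsplit, h3]

end MP80b30d
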