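import Pool.Agent.Lib.MP_80b30d_gt.ChartB

/-! MP_80b30d_gt: the tangent plane in a chart. -/

namespace MP80b30d

open Set Filter Topology Metric

variable {m n : ℕ} {K : Set (E n)} {Ψ : (E m × ℝ) ≃L[ℝ] E n} {f : E m → ℝ} {x : E m}

/-- the tangent plane in the chart. Paper proof: the functional `l ∘ Ψ` is maximal on the graph at
`x`, so `l (Ψ (h, Df(x) h)) = 0` for all `h`; as `l ≠ 0`, `l (Ψ (0, 1)) ≠ 0`. -/
theorem tangent_chart (h : Chart K Ψ f x) {u : E n} (hu : u ∈ tangentPlane K (Ψ (x, f x))) :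
    ∃ a : E m, u = Ψ (x + a, f x + fderiv ℝ f x a) := by
  obtain ⟨l, hl0, hmax, hlu⟩ := hu
  have hfd : HasFDerivAt f (fderiv ℝ f x) x :=
    (h.smooth.differentiableAt (by norm_num)).hasFDerivAt
  -- the functional vanishes on tangent vectors of the graph
  have hzero : ∀ w : E m, l (Ψ (w, fderiv ℝ f x w)) = 0 := by
    intro w
    have hline : HasDerivAt (fun s : ℝ => x + s • w) w 0 := by
      have := ((hasDerivAt_id (0 : ℝ)).smul_const w).const_add x
      simpa using this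
    have hfd' : HasFDerivAt f (fderiv ℝ f x) (x + (0 : ℝ) • w) := by simpa using hfd
    have h1 : HasDerivAt (fun s : ℝ => f (x + s • w)) (fderiv ℝ f x w) 0 :=
      hfd'.comp_hasDerivAt (0 : ℝ) hline
    have h2 : HasDerivAt (fun s : ℝ => ((x + s • w, f (x + s • w)) : E m × ℝ))
        (w, fderiv ℝ f x w) 0 := hline.prodMk h1
    have h3 : HasDerivAt (fun s : ℝ => l (Ψ ((x + s • w, f (x + s • w)) : E m × ℝ)))
        (l (Ψ (w, fderiv ℝ f x w))) 0 := by
      have h4 : HasFDerivAt (fun z : E m × ℝ => l (Ψ z)) (l.comp (Ψ : (E m × ℝ) →L[ℝ] E n))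
          ((x + (0 : ℝ) • w, f (x + (0 : ℝ) • w)) : E m × ℝ) :=
        (l.comp (Ψ : (E m × ℝ) →L[ℝ] E n)).hasFDerivAt
      have h4' := HasFDerivAt.comp_hasDerivAt (f := fun s : ℝ => ((x + s • w, f (x + s • w)) :
        E m × ℝ)) (0 : ℝ) h4 h2
      exact h4'
    have hcont : Tendsto (fun s : ℝ => ((x + s • w, f (x + s • w)) : E m × ℝ)) (𝓝 0)
        (𝓝 (x, f x)) := by
      have h5 := h2.continuousAt.tendsto
      simpa using h5
    have hloc : IsLocalMax (fun s : ℝ => l (Ψ ((x + s • w, f (x + s • w)) : E m × ℝ))) 0 := by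
      filter_upwards [hcont.eventually h.mem] with s hs
      have h6 := hmax _ (hs.2 le_rfl)
      simpa using h6
    exact hloc.hasDerivAt_eq_zero h3
  have hone : l (Ψ ((0 : E m), (1 : ℝ))) ≠ 0 := by
    intro h0
    apply hl0
    ext v
    have e : v = Ψ (((Ψ.symm v).1, fderiv ℝ f x (Ψ.symm v).1) : E m × ℝ)
        + ((Ψ.symm v).2 - fderiv ℝ f x (Ψ.symm v).1) • Ψ ((0 : E m), (1 : ℝ)) := by
      rw [← map_smul, ← map_add]
      conv_lhs => rw [← Ψ.apply_symm_apply v]
      congr 1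
      ext1
      · simp
      · simp
    rw [e, map_add, map_smul, hzero, h0]
    simp
  refine ⟨(Ψ.symm u).1 - x, ?_⟩
  set a : E m := (Ψ.symm u).1 - x with ha
  set c : ℝ := (Ψ.symm u).2 - f x - fderiv ℝ f x a with hc
  have e : u = Ψ (x, f x) + Ψ ((a, fderiv ℝ f x a) : E m × ℝ) + c • Ψ ((0 : E m), (1 : ℝ)) := by
    rw [← map_smul, ← map_add, ← map_add]
    conv_lhs => rw [← Ψ.apply_symm_apply u]
    congr 1
    ext1
    · simp [ha]
    · simp [hc]
  have hc0 : c = 0 := by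
    have h1 := hlu
    rw [e, map_add, map_add, map_smul, hzero] at h1
    have h2 : c * l (Ψ ((0 : E m), (1 : ℝ))) = 0 := by
      simpa using h1
    exact (mul_eq_zero.1 h2).resolve_right hone
  rw [e, hc0, zero_smul, add_zero, ← map_add]
  rfl

end MP80b30d
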