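import Pool.Agent.Lib.MP_80b30d_gt.GlobA
import Pool.Agent.Lib.MP_80b30d_gt.GlobC
import Pool.Agent.Lib.MP_80b30d_gt.GlobD
import Pool.Agent.Lib.MP_80b30d_gt.ChartExists
import Pool.Agent.Lib.MP_80b30d_gt.EndQuad

/-! MP_80b30d_gt: main theorem. -/

namespace MP80b30d

open Set Filter Topology Metric

theorem main {n : ℕ} (hn : 4 ≤ n) {K : Set (E n)} (hK : Convex ℝ K) (hc : IsCompact K)
    (hint : (interior K).Nonempty) (h3 : C3Boundary K) {D : Set (E n)}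
    (hDK : D ⊆ frontier K) (hD : frontier K ⊆ closure D) (hl : ∀ p ∈ D, Lights K p) :
    IsEllipsoid K := by
  obtain ⟨m, rfl⟩ : ∃ m, n = m + 1 := ⟨n - 1, by omega⟩
  have hm : 3 ≤ m := by omega
  have hch : ∀ p ∈ frontier K, ∃ (Ψ : (E m × ℝ) ≃L[ℝ] E (m + 1)) (f : E m → ℝ) (x : E m),
      Chart K Ψ f x ∧ Ψ (x, f x) = p := fun p hp => chart_exists hc.isClosed h3 hp
  have hloc : ∀ (Ψ : (E m × ℝ) ≃L[ℝ] E (m + 1)) (f : E m → ℝ) (x : E m), Chart K Ψ f x →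
      (∀ b : E m, b ≠ 0 → 0 < D2 f x b b) →
      ∃ q : QF (E m × ℝ), (∃ z, q.eval z ≠ 0) ∧ ∀ᶠ y in 𝓝 x, q.eval (y, f y) = 0 :=
    fun Ψ f x h hpos => local_quadric hm hK hDK hD hl h hpos
  obtain ⟨p, hp, hs⟩ := farthest (by omega) hc (hint.mono interior_subset)
  obtain ⟨Ψ, f, x, hx, rfl⟩ := hch p hp
  have hpos := strong_pos hx hs
  obtain ⟨q', ⟨z, hz⟩, hq'⟩ := hloc Ψ f x hx hpos
  have key : ∀ y, ((q'.comp (Ψ.symm : E (m + 1) →L[ℝ] (E m × ℝ))).comp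
      (Ψ : (E m × ℝ) →L[ℝ] E (m + 1))).eval y = q'.eval y := by
    intro y
    rw [QF.eval_comp, QF.eval_comp]
    simp
  have hZ : Ψ (x, f x) ∈ Z K (q'.comp (Ψ.symm : E (m + 1) →L[ℝ] (E m × ℝ))) := by
    rw [mem_Z_iff _ hx]
    refine ⟨hpos, ?_⟩
    filter_upwards [hq'] with y hy
    rw [key]; exact hy
  have hne : ∃ z, (q'.comp (Ψ.symm : E (m + 1) →L[ℝ] (E m × ℝ))).eval z ≠ 0 := by
    refine ⟨Ψ z, ?_⟩
    rw [QF.eval_comp]; simpa using hz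
  have hall := Z_all (frontier_connected (by omega) hK hc hint) _
    (fun p hp => Z_open hch _ hp)
    (fun p hp hcl => Z_closed (by omega) hch hloc _ hne hp hcl) ⟨_, hZ⟩
  refine ellipsoid_of_quadric hK hc hint _ hne ?_
  intro y hy
  exact (hall hy).2.2.self_of_nhds hy

end MP80b30d
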