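import Pool.Agent.Lib.MP_80b30d_gt.NDefs

/-! MP_80b30d_gt: elementary facts. -/

namespace MP80b30d

open Set Filter Topology Metric

variable {n : ℕ}

/-- `X k` is affine, `X j (Vx k) = cc k` if `j = k` and `0` otherwise -/
theorem X_Vx (hn : 1 ≤ n) (j k : Fin (n + 1)) : X j (Vx k : E n) = if j = k then cc k else 0 := by
  have hn' : (n : ℝ) ≠ 0 := by exact_mod_cast (show n ≠ 0 by omega)
  induction k using Fin.cases with
  | zero =>
    induction j using Fin.cases with
    | zero => simp [X, X0, Vx, cc]
    | succ i => simp [X, Vx]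
  | succ i =>
    induction j using Fin.cases with
    | zero =>
      have h0 : ¬ ((0 : Fin (n + 1)) = i.succ) := fun h => (Fin.succ_ne_zero i) h.symm
      simp only [X, X0, Vx, Fin.cases_zero, Fin.cases_succ, if_neg h0]
      have h1 : ∑ i' : Fin n, (EuclideanSpace.single i (2 * (n : ℝ)) : E n) i' = 2 * n := by
        simp
      rw [h1, div_self (by positivity), sub_self]
    | succ i' =>
      simp only [X, Vx, cc, Fin.cases_succ, Fin.succ_inj]
      simp

/-- affine combinations -/
theorem X_comb (k : Fin (n + 1)) (s : ℝ) (x y : E n) :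
    X k (s • x + (1 - s) • y) = s * X k x + (1 - s) * X k y := by
  induction k using Fin.cases with
  | zero =>
    simp only [X, X0, Fin.cases_zero, PiLp.add_apply, PiLp.smul_apply, smul_eq_mul,
      Finset.sum_add_distrib, ← Finset.mul_sum]
    ring
  | succ i =>
    simp only [X, Fin.cases_succ, PiLp.add_apply, PiLp.smul_apply, smul_eq_mul]

/-- `G p u = ∑ Y k p * X k u` -/
theorem G_eq (p u : E n) : G p u = ∑ k : Fin (n + 1), Y k p * X k u := by
  rw [Fin.sum_univ_succ]
  simp only [G, X, Y, Fin.cases_zero, Fin.cases_succ]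
  ring

/-- a point is determined by its coordinates `X k`, `k ≠ 0` -/
theorem ext_X {x y : E n} (h : ∀ k : Fin (n + 1), X k x = X k y) : x = y := by
  ext i
  have := h i.succ
  simpa only [X, Fin.cases_succ] using this

theorem X0_pos_of_mem (hn : 1 ≤ n) {x : E n} (hx : x ∈ Kb n) : 0 < X0 x := by
  obtain ⟨h0, h1⟩ := hx
  rcases h0.lt_or_eq with h | h
  · exact h
  · exfalso
    rw [← h] at h1
    have h2 : ∀ i, 0 ≤ x i ^ 4 := fun i => by positivity
    have h3 : ∑ i, x i ^ 4 = 0 :=
      le_antisymm (by simpa using h1) (Finset.sum_nonneg fun i _ => h2 i)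
    have h4 : ∀ i, x i = 0 := fun i => by
      have := (Finset.sum_eq_zero_iff_of_nonneg fun i _ => h2 i).mp h3 i (Finset.mem_univ i)
      exact pow_eq_zero_iff (by norm_num) |>.mp this
    have h5 : X0 x = 1 := by simp [X0, h4]
    linarith

end MP80b30d
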