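import Pool.Agent.Lib.MP_80b30d_gt.NDefs

/-! MP_80b30d_gt: convexity. -/

namespace MP80b30d

open Set Filter Topology Metric

variable {n : ℕ}

private theorem nbodyA_le_of_sq {s t : ℝ} (ht : 0 ≤ t) (h : s ^ 2 ≤ t ^ 2) : s ≤ t :=
  (abs_le_of_sq_le_sq' h ht).2

private theorem nbodyA_22 (x y : Fin n → ℝ) {A B : ℝ} (hA : 0 ≤ A) (hB : 0 ≤ B)
    (hx : ∑ i, x i ^ 4 ≤ A ^ 4) (hy : ∑ i, y i ^ 4 ≤ B ^ 4) :
    ∑ i, x i ^ 2 * y i ^ 2 ≤ A ^ 2 * B ^ 2 := by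
  apply nbodyA_le_of_sq (by positivity)
  have h := Finset.sum_mul_sq_le_sq_mul_sq Finset.univ (fun i => x i ^ 2) (fun i => y i ^ 2)
  have h1 : ∑ i, (x i ^ 2) ^ 2 = ∑ i, x i ^ 4 := Finset.sum_congr rfl fun i _ => by ring
  have h2 : ∑ i, (y i ^ 2) ^ 2 = ∑ i, y i ^ 4 := Finset.sum_congr rfl fun i _ => by ring
  rw [h1, h2] at h
  calc (∑ i, x i ^ 2 * y i ^ 2) ^ 2 ≤ (∑ i, x i ^ 4) * ∑ i, y i ^ 4 := h
    _ ≤ A ^ 4 * B ^ 4 := by
        apply mul_le_mul hx hy (Finset.sum_nonneg fun i _ => by positivity) (by positivity)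
    _ = (A ^ 2 * B ^ 2) ^ 2 := by ring

private theorem nbodyA_31 (x y : Fin n → ℝ) {A B : ℝ} (hA : 0 ≤ A) (hB : 0 ≤ B)
    (hx : ∑ i, x i ^ 4 ≤ A ^ 4) (hy : ∑ i, y i ^ 4 ≤ B ^ 4) :
    ∑ i, x i ^ 3 * y i ≤ A ^ 3 * B := by
  apply nbodyA_le_of_sq (by positivity)
  have h := Finset.sum_mul_sq_le_sq_mul_sq Finset.univ (fun i => x i ^ 2) (fun i => x i * y i)
  have h0 : ∑ i, x i ^ 2 * (x i * y i) = ∑ i, x i ^ 3 * y i :=
    Finset.sum_congr rfl fun i _ => by ring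
  have h1 : ∑ i, (x i ^ 2) ^ 2 = ∑ i, x i ^ 4 := Finset.sum_congr rfl fun i _ => by ring
  have h2 : ∑ i, (x i * y i) ^ 2 = ∑ i, x i ^ 2 * y i ^ 2 :=
    Finset.sum_congr rfl fun i _ => by ring
  rw [h0, h1, h2] at h
  calc (∑ i, x i ^ 3 * y i) ^ 2 ≤ (∑ i, x i ^ 4) * ∑ i, x i ^ 2 * y i ^ 2 := h
    _ ≤ A ^ 4 * (A ^ 2 * B ^ 2) := by
        apply mul_le_mul hx (nbodyA_22 x y hA hB hx hy)
          (Finset.sum_nonneg fun i _ => by positivity) (by positivity)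
    _ = (A ^ 3 * B) ^ 2 := by ring

/-- Paper proof: `x ↦ (∑ x_i^4)^(1/4)` is convex (a norm), `X0` is affine. -/
theorem Kb_convex (n : ℕ) : Convex ℝ (Kb n) := by
  rintro x ⟨hx0, hx⟩ y ⟨hy0, hy⟩ a b ha hb hab
  have hX : X0 (a • x + b • y) = a * X0 x + b * X0 y := by
    unfold X0
    have h1 : ∑ i, (a • x + b • y) i = a * ∑ i, x i + b * ∑ i, y i := by
      rw [Finset.mul_sum, Finset.mul_sum, ← Finset.sum_add_distrib]
      exact Finset.sum_congr rfl fun i _ => by simp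
    rw [h1]
    have h2 : (1 : ℝ) = a + b := hab.symm
    rw [add_div, mul_div_assoc, mul_div_assoc]
    linear_combination (1 : ℝ) * h2
  refine ⟨?_, ?_⟩
  · rw [hX]
    positivity
  · rw [hX]
    have h1 : ∑ i, (a • x + b • y) i ^ 4 = a ^ 4 * ∑ i, x i ^ 4 + 4 * a ^ 3 * b * ∑ i, x i ^ 3 * y i +
        6 * a ^ 2 * b ^ 2 * ∑ i, x i ^ 2 * y i ^ 2 + 4 * a * b ^ 3 * ∑ i, y i ^ 3 * x i +
        b ^ 4 * ∑ i, y i ^ 4 := by
      simp only [Finset.mul_sum]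
      rw [← Finset.sum_add_distrib, ← Finset.sum_add_distrib, ← Finset.sum_add_distrib,
        ← Finset.sum_add_distrib]
      refine Finset.sum_congr rfl fun i _ => ?_
      have h2 : (a • x + b • y) i = a * x i + b * y i := by simp
      rw [h2]
      ring
    rw [h1]
    have e22 := nbodyA_22 (fun i => x i) (fun i => y i) hx0 hy0 hx hy
    have e31 := nbodyA_31 (fun i => x i) (fun i => y i) hx0 hy0 hx hy
    have e13 := nbodyA_31 (fun i => y i) (fun i => x i) hy0 hx0 hy hx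
    have k1 := mul_le_mul_of_nonneg_left hx (by positivity : (0 : ℝ) ≤ a ^ 4)
    have k2 := mul_le_mul_of_nonneg_left e31 (by positivity : (0 : ℝ) ≤ 4 * a ^ 3 * b)
    have k3 := mul_le_mul_of_nonneg_left e22 (by positivity : (0 : ℝ) ≤ 6 * a ^ 2 * b ^ 2)
    have k4 := mul_le_mul_of_nonneg_left e13 (by positivity : (0 : ℝ) ≤ 4 * a * b ^ 3)
    have k5 := mul_le_mul_of_nonneg_left hy (by positivity : (0 : ℝ) ≤ b ^ 4)
    simp only at k2 k3 k4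
    calc _ ≤ a ^ 4 * X0 x ^ 4 + 4 * a ^ 3 * b * (X0 x ^ 3 * X0 y) +
        6 * a ^ 2 * b ^ 2 * (X0 x ^ 2 * X0 y ^ 2) + 4 * a * b ^ 3 * (X0 y ^ 3 * X0 x) +
        b ^ 4 * X0 y ^ 4 := by linarith
      _ = (a * X0 x + b * X0 y) ^ 4 := by ring

end MP80b30d
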