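import Pool.Agent.Lib.MP_80b30d_gt.NDefs

/-! MP_80b30d_gt: compactness, interior points. -/

namespace MP80b30d

open Set Filter Topology Metric

variable {n : ℕ}

theorem NBodyB_cont : Continuous (X0 : E n → ℝ) := by
  unfold X0
  fun_prop

theorem NBodyB_cont4 : Continuous (fun x : E n => ∑ i, x i ^ 4) := by
  fun_prop

theorem NBodyB_mem_interior {x : E n} (h0 : 0 < X0 x) (h : ∑ i, x i ^ 4 < X0 x ^ 4) :
    x ∈ interior (Kb n) := by
  rw [mem_interior]
  refine ⟨{x | 0 < X0 x} ∩ {x | ∑ i, x i ^ 4 < X0 x ^ 4}, ?_, ?_, ⟨h0, h⟩⟩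
  · rintro y ⟨h1, h2⟩
    exact ⟨le_of_lt h1, le_of_lt h2⟩
  · exact (isOpen_lt continuous_const NBodyB_cont).inter
      (isOpen_lt NBodyB_cont4 (NBodyB_cont.pow 4))

theorem NBodyB_abs {x : E n} (hx : x ∈ Kb n) (i : Fin n) : |x i| ≤ X0 x := by
  obtain ⟨h0, h4⟩ := hx
  have h1 : x i ^ 4 ≤ ∑ j, x j ^ 4 :=
    Finset.single_le_sum (f := fun j => x j ^ 4) (fun j _ => by positivity) (Finset.mem_univ i)
  have h2 : |x i| ^ 4 ≤ X0 x ^ 4 := by
    have : |x i| ^ 4 = x i ^ 4 := by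
      rw [← abs_pow]
      exact abs_of_nonneg (by positivity)
    rw [this]
    exact h1.trans h4
  exact le_of_pow_le_pow_left₀ (by norm_num) h0 h2

theorem NBodyB_two (hn : 1 ≤ n) {x : E n} (hx : x ∈ Kb n) (i : Fin n) : |x i| ≤ 2 := by
  have hn' : (1 : ℝ) ≤ n := by exact_mod_cast hn
  have h1 : ∑ j, |x j| ≤ n * X0 x := by
    have := Finset.sum_le_sum fun (j : Fin n) (_ : j ∈ Finset.univ) => NBodyB_abs hx j
    simpa using this
  have h2 : X0 x ≤ 1 + (∑ j, |x j|) / (2 * n) := by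
    unfold X0
    have h3 : -(∑ j, |x j|) ≤ ∑ j, x j := by
      rw [← Finset.sum_neg_distrib]
      exact Finset.sum_le_sum fun j _ => neg_abs_le (x j)
    have h4 : -((∑ j, x j) / (2 * n)) ≤ (∑ j, |x j|) / (2 * n) := by
      rw [← neg_div]
      gcongr
      linarith
    linarith
  have h3 : X0 x ≤ 1 + X0 x / 2 := by
    refine h2.trans ?_
    have : (∑ j, |x j|) / (2 * n) ≤ (n * X0 x) / (2 * n) := by gcongr
    have h5 : (n * X0 x) / (2 * (n : ℝ)) = X0 x / 2 := by
      field_simp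
    linarith
  have := NBodyB_abs hx i
  linarith

/-- Paper proof: closed; bounded since `|x_i|^4 ≤ X0(x)^4` gives
`max |x_i| ≤ 1 + (1/2) max |x_i|`. -/
theorem Kb_compact (hn : 1 ≤ n) : IsCompact (Kb n) := by
  refine Metric.isCompact_of_isClosed_isBounded ?_ ?_
  · exact (isClosed_le continuous_const NBodyB_cont).inter
      (isClosed_le NBodyB_cont4 (NBodyB_cont.pow 4))
  · refine (Metric.isBounded_closedBall (x := (0 : E n)) (r := 4 * n + 1)).subset fun x hx => ?_
    rw [mem_closedBall_zero_iff]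
    have h1 : ‖x‖ ^ 2 ≤ 4 * n := by
      rw [EuclideanSpace.norm_sq_eq]
      have h2 : ∀ i : Fin n, ‖x i‖ ^ 2 ≤ 4 := by
        intro i
        have := NBodyB_two hn hx i
        rw [Real.norm_eq_abs]
        nlinarith [abs_nonneg (x i)]
      have := Finset.sum_le_sum fun (j : Fin n) (_ : j ∈ Finset.univ) => h2 j
      simpa [mul_comm] using this
    have h3 : (0 : ℝ) ≤ n := Nat.cast_nonneg n
    by_contra hcon
    push Not at hcon
    nlinarith [norm_nonneg x]

theorem Kb_interior (n : ℕ) : (0 : E n) ∈ interior (Kb n) := by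
  have h : X0 (0 : E n) = 1 := by simp [X0]
  refine NBodyB_mem_interior ?_ ?_
  · rw [h]; norm_num
  · rw [h]; simp

/-- points with strict inequality are interior -/
theorem mem_interior_Kb {x : E n} (h0 : 0 < X0 x) (h : ∑ i, x i ^ 4 < X0 x ^ 4) :
    x ∈ interior (Kb n) := NBodyB_mem_interior h0 h

end MP80b30d
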