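import Pool.Agent.Lib.MP_80b30d_gt.NYoung
import Pool.Agent.Lib.MP_80b30d_gt.NBodyA
import Pool.Agent.Lib.MP_80b30d_gt.NBodyB

/-! MP_80b30d_gt: the boundary. -/

namespace MP80b30d

open Set Filter Topology Metric

variable {n : ℕ}

private theorem nbody_X0_cont : Continuous (X0 : E n → ℝ) := by
  unfold X0
  fun_prop

private theorem nbody_X0_smul (x : E n) (s : ℝ) :
    X0 (x + s • x) = X0 x + s * (X0 x - 1) := by
  unfold X0
  have h1 : ∑ i, (x + s • x) i = (∑ i, x i) + s * ∑ i, x i := by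
    rw [Finset.mul_sum, ← Finset.sum_add_distrib]
    exact Finset.sum_congr rfl fun i _ => by simp
  rw [h1, add_div, mul_div_assoc]
  ring

private theorem nbody_sum_smul (x : E n) (s : ℝ) :
    ∑ i, (x + s • x) i ^ 4 = (1 + s) ^ 4 * ∑ i, x i ^ 4 := by
  rw [Finset.mul_sum]
  refine Finset.sum_congr rfl fun i _ => ?_
  have h2 : (x + s • x) i = (1 + s) * x i := by simp; ring
  rw [h2]
  ring

private theorem nbody_tendsto (x : E n) :
    Tendsto (fun s : ℝ => x + s • x) (𝓝 0) (𝓝 x) := by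
  have h : Continuous (fun s : ℝ => x + s • x) := by fun_prop
  have h1 := h.tendsto 0
  rwa [zero_smul, add_zero] at h1

/-- Paper proof: `Kb n` is closed; at a point of `Kb n` with `∑ x_i^4 = X0^4` the gradient of
`F = ∑ x_i^4 - X0^4` is not zero (`dF(x) x = 4 X0(x)³`), so there are points with `F > 0` nearby. -/
theorem mem_frontier_Kb (hn : 1 ≤ n) {x : E n} :
    x ∈ frontier (Kb n) ↔ 0 < X0 x ∧ ∑ i, x i ^ 4 = X0 x ^ 4 := by
  have hcl : IsClosed (Kb n) := (Kb_compact hn).isClosed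
  constructor
  · intro hx
    rw [hcl.frontier_eq] at hx
    have h0 := X0_pos_of_mem hn hx.1
    refine ⟨h0, le_antisymm hx.1.2 ?_⟩
    by_contra hcon
    exact hx.2 (mem_interior_Kb h0 (not_le.1 hcon))
  · rintro ⟨h0, h1⟩
    rw [hcl.frontier_eq]
    refine ⟨⟨h0.le, h1.le⟩, fun hint => ?_⟩
    have h2 : ∀ᶠ s in 𝓝[>] (0 : ℝ), x + s • x ∈ Kb n :=
      ((nbody_tendsto x).eventually (mem_interior_iff_mem_nhds.1 hint)).filter_mono
        nhdsWithin_le_nhds
    obtain ⟨s, hs, hs0⟩ := (h2.and self_mem_nhdsWithin).exists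
    have s0 : (0 : ℝ) < s := hs0
    obtain ⟨h3, h4⟩ := hs
    rw [nbody_X0_smul] at h3 h4
    rw [nbody_sum_smul, h1] at h4
    have h5 : X0 x + s * (X0 x - 1) < (1 + s) * X0 x := by nlinarith
    have h6 : (X0 x + s * (X0 x - 1)) ^ 4 < ((1 + s) * X0 x) ^ 4 :=
      pow_lt_pow_left₀ h5 h3 (by norm_num)
    rw [mul_pow] at h6
    linarith

theorem Kb_smooth (hn : 1 ≤ n) : SmoothBoundary (Kb n) := by
  intro p hp
  obtain ⟨h0, h1⟩ := (mem_frontier_Kb hn).1 hp
  have hsm : ∀ r : ℕ, ContDiff ℝ r (fun x : E n => ∑ i, x i ^ 4 - X0 x ^ 4) := by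
    intro r
    unfold X0
    fun_prop
  refine ⟨fun x => ∑ i, x i ^ 4 - X0 x ^ 4, hsm, ?_, ?_⟩
  · intro hzero
    have hd : HasFDerivAt (fun x : E n => ∑ i, x i ^ 4 - X0 x ^ 4)
        (fderiv ℝ (fun x : E n => ∑ i, x i ^ 4 - X0 x ^ 4) p) p :=
      (((hsm 1).differentiable (by norm_num)) p).hasFDerivAt
    rw [hzero] at hd
    have hl : HasDerivAt (fun s : ℝ => p + s • p) p 0 := by
      have h3 : HasDerivAt (fun s : ℝ => s • p) ((1 : ℝ) • p) 0 :=
        (hasDerivAt_id (0 : ℝ)).smul_const p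
      rw [one_smul] at h3
      exact h3.const_add p
    have hd' : HasFDerivAt (fun x : E n => ∑ i, x i ^ 4 - X0 x ^ 4) (0 : E n →L[ℝ] ℝ)
        (p + (0 : ℝ) • p) := by
      rw [zero_smul, add_zero]; exact hd
    have hc := hd'.comp_hasDerivAt (0 : ℝ) hl
    have he : (fun x : E n => ∑ i, x i ^ 4 - X0 x ^ 4) ∘ (fun s : ℝ => p + s • p) =
        fun s : ℝ => (1 + s) ^ 4 * X0 p ^ 4 - (X0 p + s * (X0 p - 1)) ^ 4 := by
      funext s
      simp only [Function.comp]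
      rw [nbody_X0_smul, nbody_sum_smul, h1]
    rw [he] at hc
    have hc2 : HasDerivAt (fun s : ℝ => (1 + s) ^ 4 * X0 p ^ 4 - (X0 p + s * (X0 p - 1)) ^ 4)
        (4 * X0 p ^ 3) 0 := by
      have e1 : HasDerivAt (fun s : ℝ => (1 + s) ^ 4 * X0 p ^ 4) (4 * X0 p ^ 4) 0 := by
        have := (((hasDerivAt_id (0 : ℝ)).const_add 1).pow 4).mul_const (X0 p ^ 4)
        simpa using this
      have e2 : HasDerivAt (fun s : ℝ => (X0 p + s * (X0 p - 1)) ^ 4)
          (4 * X0 p ^ 3 * (X0 p - 1)) 0 := by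
        have h4 := (((hasDerivAt_id (0 : ℝ)).mul_const (X0 p - 1)).const_add (X0 p)).pow 4
        exact h4.congr_deriv (by simp)
      have e3 := e1.sub e2
      have e4 : 4 * X0 p ^ 4 - 4 * X0 p ^ 3 * (X0 p - 1) = 4 * X0 p ^ 3 := by ring
      rw [e4] at e3
      exact e3
    have h3 := hc.unique hc2
    have h4 : (0 : ℝ) < 4 * X0 p ^ 3 := by positivity
    rw [← h3] at h4
    simp at h4
  · have h2 : ∀ᶠ x in 𝓝 p, 0 < X0 x :=
      (nbody_X0_cont.tendsto p).eventually (lt_mem_nhds h0)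
    filter_upwards [h2] with x hx
    constructor
    · rintro ⟨-, h3⟩
      linarith
    · intro h3
      exact ⟨hx.le, by linarith⟩

end MP80b30d
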