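import Mathlib

/-! MP_80b30d_gt, second part: combinatorics of the edge sets. -/

namespace MP80b30d

/-- A family of `N` edges on `Fin (n + 1)` such that any `n - 1` of them are independent modulo the
weight vector, for all weights with one negative sign and sum zero. -/
def Comb {n N : ℕ} (e : Fin N → Fin (n + 1) × Fin (n + 1)) : Prop :=
  (∀ a, (e a).1 ≠ (e a).2) ∧
  ∀ s : Finset (Fin N), s.card = n - 1 → ∀ w : Fin (n + 1) → ℝ, w 0 < 0 →
    (∀ k, k ≠ 0 → 0 < w k) → ∑ k, w k = 0 → ∀ (lam : Fin N → ℝ) (Λ : ℝ),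
    (∀ a, a ∉ s → lam a = 0) →
    (∀ k, ∑ a, lam a * ((if k = (e a).1 then 1 else 0) - (if k = (e a).2 then 1 else 0))
      = Λ * w k) → ∀ a, lam a = 0

end MP80b30d
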