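import Pool.Agent.Lib.MP_80b30d_gt.NComb

/-! MP_80b30d_gt, second part: the cycle. -/

namespace MP80b30d

/-- The cycle. Paper proof: with `e a = (a, a + 1)` the equations are
`lam k - lam (k - 1) = Λ w k` (cyclically). If `Λ ≠ 0` then `lam` is strictly monotone on
`0, 1, …, n`, but it vanishes at the two indices outside `s`. So `Λ = 0`, `lam` is constant, and
zero at some index. -/
theorem comb_cycle {n : ℕ} (hn : 3 ≤ n) :
    Comb (n := n) (N := n + 1) (fun a => (a, a + 1)) := by
  refine ⟨fun a h => ?_, ?_⟩
  · have h1 : (0 : Fin (n + 1)) = 1 := by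
      have h2 : a + 0 = a + 1 := by rw [add_zero]; exact h
      exact add_left_cancel h2
    have h3 := congrArg Fin.val h1
    rw [Fin.val_zero, Fin.val_one', Nat.mod_eq_of_lt (by omega)] at h3
    exact zero_ne_one h3
  · intro s hs w hw0 hw _ lam Λ hlam hsum
    have hstep : ∀ j : Fin n, lam j.succ - lam j.castSucc = Λ * w j.succ := by
      intro j
      rw [← hsum j.succ]
      have h1 : ∀ a : Fin (n + 1), (j.succ = a + 1) ↔ (j.castSucc = a) := by
        intro a
        rw [← Fin.coeSucc_eq_succ]
        exact ⟨fun h => add_right_cancel h, fun h => by rw [h]⟩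
      simp only [h1, mul_sub, Finset.sum_sub_distrib, mul_ite, mul_one, mul_zero,
        Finset.sum_ite_eq, Finset.mem_univ, if_true]
    have hcard : 1 < sᶜ.card := by
      rw [Finset.card_compl, hs, Fintype.card_fin]
      omega
    obtain ⟨p, hp, q, hq, hpq⟩ := Finset.one_lt_card.1 hcard
    have hp0 : lam p = 0 := hlam p (Finset.mem_compl.1 hp)
    have hq0 : lam q = 0 := hlam q (Finset.mem_compl.1 hq)
    have hws : ∀ j : Fin n, 0 < w j.succ := fun j => hw _ (Fin.succ_ne_zero j)
    rcases lt_trichotomy Λ 0 with hΛ | hΛ | hΛ
    · exfalso
      have hmono : StrictAnti lam := by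
        rw [Fin.strictAnti_iff_succ_lt]
        intro j
        have := hstep j
        have h2 := mul_neg_of_neg_of_pos hΛ (hws j)
        linarith
      exact hpq (hmono.injective (hp0.trans hq0.symm))
    · have hconst : ∀ k : Fin (n + 1), lam k = lam 0 := by
        intro k
        induction k using Fin.induction with
        | zero => rfl
        | succ j ih =>
          have := hstep j
          rw [hΛ, zero_mul] at this
          rw [← ih]
          linarith
      intro a
      rw [hconst a, ← hconst p, hp0]
    · exfalso
      have hmono : StrictMono lam := by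
        rw [Fin.strictMono_iff_lt_succ]
        intro j
        have := hstep j
        have h2 := mul_pos hΛ (hws j)
        linarith
      exact hpq (hmono.injective (hp0.trans hq0.symm))

end MP80b30d
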