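import Pool.Agent.Lib.MP_80b30d_gt.NComb

/-! MP_80b30d_gt, second part: the complete graph on four vertices. -/

namespace MP80b30d

/-- the linear algebra of `comb_K4` -/
private theorem combK4_aux (L w1 w2 w3 : ℝ) (h1 : 0 < w1) (h2 : 0 < w2)
    (h3 : 0 < w3)
    (hL : L * w1 = 0 ∨ L * w2 = 0 ∨ L * w3 = 0 ∨ L * (w1 + w2 + w3) = 0 ∨ L * (w1 + w2) = 0 ∨
      L * (w1 + w3) = 0 ∨ L * (w2 + w3) = 0) :
    L = 0 := by
  rcases hL with h | h | h | h | h | h | h
  · exact (mul_eq_zero.1 h).resolve_right (by linarith)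
  · exact (mul_eq_zero.1 h).resolve_right (by linarith)
  · exact (mul_eq_zero.1 h).resolve_right (by linarith)
  · exact (mul_eq_zero.1 h).resolve_right (by linarith)
  · exact (mul_eq_zero.1 h).resolve_right (by linarith)
  · exact (mul_eq_zero.1 h).resolve_right (by linarith)
  · exact (mul_eq_zero.1 h).resolve_right (by linarith)

/-- The six edges of the complete graph on `Fin 4`. Paper proof: `s` has two edges. If they have a
common vertex, some vertex `k` is on no edge of `s`, so `Λ w k = 0` and `Λ = 0`. If they are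
disjoint, `i j` and `k l`, then `Λ (w i + w j) = 0`, and `w i + w j ≠ 0` (it is positive or equal
to `- (w k + w l)`). With `Λ = 0` all `lam` vanish. -/
theorem comb_K4 : Comb (n := 3) (N := 6) ![(0, 1), (0, 2), (0, 3), (1, 2), (1, 3), (2, 3)] := by
  constructor
  · decide
  intro s hs w hw0 hw hsum lam Λ hlam heq
  have e0 := heq 0
  have e1 := heq 1
  have e2 := heq 2
  have e3 := heq 3
  simp [Fin.sum_univ_six] at e0 e1 e2 e3
  have hsum' : w 0 + w 1 + w 2 + w 3 = 0 := (Fin.sum_univ_four w).symm.trans hsum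
  have h1 := hw 1 (by decide)
  have h2 := hw 2 (by decide)
  have h3 := hw 3 (by decide)
  change s.card = 2 at hs
  rw [Finset.card_eq_two] at hs
  obtain ⟨a, b, hab, rfl⟩ := hs
  have key : ∀ c, c ≠ a → c ≠ b → lam c = 0 := fun c g1 g2 => hlam c (by simp [g1, g2])
  have k0 := key 0
  have k1 := key 1
  have k2 := key 2
  have k3 := key 3
  have k4 := key 4
  have k5 := key 5
  clear hlam heq key hw hsum
  have hs' : Λ * w 0 = -(Λ * w 1) - Λ * w 2 - Λ * w 3 := by
    rw [show w 0 = -(w 1) - w 2 - w 3 by linarith]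
    ring
  have hL : Λ = 0 := by
    fin_cases a <;> fin_cases b <;> simp at hab k0 k1 k2 k3 k4 k5 <;>
    first
    | exact combK4_aux Λ _ _ _ h1 h2 h3 (Or.inl (by linarith))
    | exact combK4_aux Λ _ _ _ h1 h2 h3 (Or.inr (Or.inl (by linarith)))
    | exact combK4_aux Λ _ _ _ h1 h2 h3 (Or.inr (Or.inr (Or.inl (by linarith))))
    | exact combK4_aux Λ _ _ _ h1 h2 h3 (Or.inr (Or.inr (Or.inr (Or.inl (by linarith)))))
    | exact combK4_aux Λ _ _ _ h1 h2 h3
        (Or.inr (Or.inr (Or.inr (Or.inr (Or.inl (by linarith))))))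
    | exact combK4_aux Λ _ _ _ h1 h2 h3
        (Or.inr (Or.inr (Or.inr (Or.inr (Or.inr (Or.inl (by linarith)))))))
    | exact combK4_aux Λ _ _ _ h1 h2 h3
        (Or.inr (Or.inr (Or.inr (Or.inr (Or.inr (Or.inr (by linarith)))))))
  subst hL
  simp only [zero_mul] at e0 e1 e2 e3
  have hall : lam 0 = 0 ∧ lam 1 = 0 ∧ lam 2 = 0 ∧ lam 3 = 0 ∧ lam 4 = 0 ∧ lam 5 = 0 := by
    fin_cases a <;> fin_cases b <;> simp at hab k0 k1 k2 k3 k4 k5 <;>
    refine ⟨?_, ?_, ?_, ?_, ?_, ?_⟩ <;> linarith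
  intro c
  fin_cases c
  · exact hall.1
  · exact hall.2.1
  · exact hall.2.2.1
  · exact hall.2.2.2.1
  · exact hall.2.2.2.2.1
  · exact hall.2.2.2.2.2

end MP80b30d
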