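import Pool.Agent.Lib.MP_80b30d_gt.NComb

/-! MP_80b30d_gt, second part: the complete bipartite graph `K_{2,3}`. -/

namespace MP80b30d

private theorem NCombC_sign {Λ w x y : ℝ} (hw : 0 < w) (h : -x - y = Λ * w)
    (hz : x = 0 ∨ y = 0) : y * Λ ≤ 0 := by
  rcases hz with hz | hz
  · have h1 : y = -(Λ * w) := by rw [hz] at h; linarith
    rw [h1]
    nlinarith [mul_nonneg (mul_self_nonneg Λ) hw.le]
  · rw [hz, zero_mul]

/-- The six edges of the complete bipartite graph with parts `{0, 1}` and `{2, 3, 4}`. Paper proof: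
`s` has three edges. The equations at `k = 2, 3, 4` are `lam (0 k) + lam (1 k) = - Λ w k`, at `0`:
`lam (0 2) + lam (0 3) + lam (0 4) = Λ w 0`, at `1`: `lam (1 2) + lam (1 3) + lam (1 4) = Λ w 1`. If
`Λ ≠ 0` then each of `2, 3, 4` is on exactly one edge of `s`, so each `lam (1 k)` is `0` or
`- Λ w k`, and the equation at `1` has `Λ w 1` on the right: the signs do not fit (`w k > 0` for
`k ≥ 1`). So `Λ = 0`, and then all `lam` vanish because `s` contains no cycle (a cycle has four
edges). -/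
theorem comb_K23 : Comb (n := 4) (N := 6) ![(0, 2), (0, 3), (0, 4), (1, 2), (1, 3), (1, 4)] := by
  classical
  refine ⟨by decide, ?_⟩
  intro s hs w hw0 hw hsum lam Λ hlam hk
  have e0 := hk 0
  have e1 := hk 1
  have e2 := hk 2
  have e3 := hk 3
  have e4 := hk 4
  rw [Fin.sum_univ_six] at e0 e1 e2 e3 e4
  simp at e0 e1 e2 e3 e4
  obtain ⟨c, hc⟩ : ∃ c : Fin 6 → ℕ, c = fun a => if a ∈ s then 1 else 0 := ⟨_, rfl⟩
  have hc1 : ∀ a, c a ≤ 1 := by
    intro a
    rw [hc]
    show (if a ∈ s then 1 else 0) ≤ 1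
    split_ifs <;> omega
  have hcz : ∀ a, c a = 0 → lam a = 0 := by
    intro a ha
    refine hlam a fun h => ?_
    rw [hc] at ha
    simp [h] at ha
  have hcs : c 0 + c 1 + c 2 + c 3 + c 4 + c 5 = 3 := by
    have h1 : ∑ a, c a = s.card := by
      rw [hc]
      simp
    rw [Fin.sum_univ_six, hs] at h1
    exact h1
  have b0 := hc1 0
  have b1 := hc1 1
  have b2 := hc1 2
  have b3 := hc1 3
  have b4 := hc1 4
  have b5 := hc1 5
  have w1 : 0 < w 1 := hw 1 (by decide)
  have w2 : 0 < w 2 := hw 2 (by decide)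
  have w3 : 0 < w 3 := hw 3 (by decide)
  have w4 : 0 < w 4 := hw 4 (by decide)
  have hΛ : Λ = 0 := by
    by_contra hne
    have p2 : 1 ≤ c 0 + c 3 := by
      by_contra hcon
      have z1 := hcz 0 (by omega)
      have z2 := hcz 3 (by omega)
      rw [z1, z2] at e2
      have : Λ * w 2 = 0 := by linarith
      rcases mul_eq_zero.1 this with h | h
      · exact hne h
      · exact w2.ne' h
    have p3 : 1 ≤ c 1 + c 4 := by
      by_contra hcon
      have z1 := hcz 1 (by omega)
      have z2 := hcz 4 (by omega)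
      rw [z1, z2] at e3
      have : Λ * w 3 = 0 := by linarith
      rcases mul_eq_zero.1 this with h | h
      · exact hne h
      · exact w3.ne' h
    have p4 : 1 ≤ c 2 + c 5 := by
      by_contra hcon
      have z1 := hcz 2 (by omega)
      have z2 := hcz 5 (by omega)
      rw [z1, z2] at e4
      have : Λ * w 4 = 0 := by linarith
      rcases mul_eq_zero.1 this with h | h
      · exact hne h
      · exact w4.ne' h
    have q2 : lam 0 = 0 ∨ lam 3 = 0 := by
      rcases (by omega : c 0 = 0 ∨ c 3 = 0) with h | h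
      · exact Or.inl (hcz 0 h)
      · exact Or.inr (hcz 3 h)
    have q3 : lam 1 = 0 ∨ lam 4 = 0 := by
      rcases (by omega : c 1 = 0 ∨ c 4 = 0) with h | h
      · exact Or.inl (hcz 1 h)
      · exact Or.inr (hcz 4 h)
    have q4 : lam 2 = 0 ∨ lam 5 = 0 := by
      rcases (by omega : c 2 = 0 ∨ c 5 = 0) with h | h
      · exact Or.inl (hcz 2 h)
      · exact Or.inr (hcz 5 h)
    have r2 := NCombC_sign w2 (by linarith : -lam 0 - lam 3 = Λ * w 2) q2
    have r3 := NCombC_sign w3 (by linarith : -lam 1 - lam 4 = Λ * w 3) q3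
    have r4 := NCombC_sign w4 (by linarith : -lam 2 - lam 5 = Λ * w 4) q4
    have r1 : (lam 3 + lam 4 + lam 5) * Λ = Λ * Λ * w 1 := by rw [e1]; ring
    have r5 : 0 < Λ * Λ * w 1 := mul_pos (mul_self_pos.2 hne) w1
    nlinarith
  rw [hΛ] at e0 e1 e2 e3 e4
  have f0 : lam 0 = -lam 3 := by linarith
  have f1 : lam 1 = -lam 4 := by linarith
  have f2 : lam 2 = -lam 5 := by linarith
  have g : lam 0 + lam 1 + lam 2 = 0 := by linarith
  have hd : ∀ a, lam a ≠ 0 → c a = 1 := by
    intro a ha
    have h1 := hc1 a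
    have h2 : c a ≠ 0 := fun h => ha (hcz a h)
    omega
  have k0 : lam 0 = 0 := by
    by_contra h0
    have h3 : lam 3 ≠ 0 := fun h => h0 (by rw [f0, h, neg_zero])
    have d0 := hd 0 h0
    have d3 := hd 3 h3
    by_cases h1 : lam 1 = 0
    · have h2 : lam 2 ≠ 0 := fun h => h0 (by linarith)
      have h5 : lam 5 ≠ 0 := fun h => h2 (by rw [f2, h, neg_zero])
      have d2 := hd 2 h2
      have d5 := hd 5 h5
      omega
    · have h4 : lam 4 ≠ 0 := fun h => h1 (by rw [f1, h, neg_zero])
      have d1 := hd 1 h1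
      have d4 := hd 4 h4
      omega
  have k1 : lam 1 = 0 := by
    by_contra h1
    have h4 : lam 4 ≠ 0 := fun h => h1 (by rw [f1, h, neg_zero])
    have h2 : lam 2 ≠ 0 := fun h => h1 (by linarith)
    have h5 : lam 5 ≠ 0 := fun h => h2 (by rw [f2, h, neg_zero])
    have d1 := hd 1 h1
    have d4 := hd 4 h4
    have d2 := hd 2 h2
    have d5 := hd 5 h5
    omega
  have k2 : lam 2 = 0 := by linarith
  intro a
  fin_cases a
  · exact k0
  · exact k1
  · exact k2
  · show lam 3 = 0
    linarith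
  · show lam 4 = 0
    linarith
  · show lam 5 = 0
    linarith

end MP80b30d
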