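import Pool.Agent.Lib.MP_80b30d_gt.TDefs

/-! MP_80b30d_gt, second part: the bodies `Kb n` (projective images of the unit ball of `ℓ_4`). -/

namespace MP80b30d

open Set Filter Topology Metric

variable {n : ℕ}

/-- the affine function `1 - (x_1 + ... + x_n) / (2 n)` -/
noncomputable def X0 (x : E n) : ℝ := 1 - (∑ i, x i) / (2 * n)

/-- the affine functions `X 0 = X0`, `X (i + 1) = x_i` -/
noncomputable def X (k : Fin (n + 1)) (x : E n) : ℝ := Fin.cases (X0 x) (fun i => x i) k

/-- the coefficients of the tangent hyperplane: `Y 0 = - X0³`, `Y (i + 1) = x_i³` -/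
noncomputable def Y (k : Fin (n + 1)) (x : E n) : ℝ := Fin.cases (-(X0 x) ^ 3) (fun i => x i ^ 3) k

/-- `cc 0 = 1`, `cc (i + 1) = 2 n` -/
noncomputable def cc (k : Fin (n + 1)) : ℝ := Fin.cases 1 (fun _ => 2 * (n : ℝ)) k

/-- the vertices of the simplex: `0` and `2 n e_i` -/
noncomputable def Vx (k : Fin (n + 1)) : E n :=
  Fin.cases 0 (fun i => EuclideanSpace.single i (2 * (n : ℝ))) k

/-- the body: `x_1^4 + ... + x_n^4 ≤ X0(x)^4`, `X0 x ≥ 0` -/
def Kb (n : ℕ) : Set (E n) := {x | 0 ≤ X0 x ∧ ∑ i, x i ^ 4 ≤ X0 x ^ 4}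

/-- the pairing: `u` is in the tangent hyperplane at `p` iff `G p u = 0` -/
noncomputable def G (p u : E n) : ℝ := ∑ i, p i ^ 3 * u i - X0 p ^ 3 * X0 u

/-- the light on the edge `i j` of the simplex in the tangent hyperplane at `p` -/
noncomputable def lt (i j : Fin (n + 1)) (p : E n) : E n :=
  (cc j * Y j p / (cc j * Y j p - cc i * Y i p)) • Vx i +
    (1 - cc j * Y j p / (cc j * Y j p - cc i * Y i p)) • Vx j

/-- the points outside finitely many hyperplane sections -/
def Gen (p : E n) : Prop :=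
  (∀ k : Fin (n + 1), X k p ≠ 0) ∧ ∀ i j : Fin (n + 1), i ≠ j → cc i * Y i p ≠ cc j * Y j p

end MP80b30d
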