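import Pool.Agent.Lib.MP_80b30d_gt.NDefs

/-! MP_80b30d_gt: the exceptional hyperplanes. -/

namespace MP80b30d

open Set Filter Topology Metric

variable {n : ℕ}

private noncomputable def ghl (n : ℕ) (k : Fin (n + 1)) : E n →L[ℝ] ℝ :=
  Fin.cases (-(1 / (2 * (n : ℝ))) • ∑ i : Fin n, (EuclideanSpace.proj i : E n →L[ℝ] ℝ))
    (fun i => (EuclideanSpace.proj i : E n →L[ℝ] ℝ)) k

private noncomputable def gha (n : ℕ) (k : Fin (n + 1)) : ℝ := Fin.cases 1 (fun _ => 0) k

private noncomputable def ghg (n : ℕ) (g : ℝ) (k : Fin (n + 1)) : ℝ := Fin.cases (-1) (fun _ => g) k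

private theorem ghX (k : Fin (n + 1)) (p : E n) : X k p = gha n k + ghl n k p := by
  refine Fin.cases ?_ (fun i => ?_) k
  · simp only [X, gha, ghl, Fin.cases_zero, X0]
    simp [ContinuousLinearMap.sum_apply]
    ring
  · simp only [X, gha, ghl, Fin.cases_succ]
    simp

private theorem ghl_single_zero (j : Fin n) : ghl n 0 (EuclideanSpace.single j (1 : ℝ)) = -(1 / (2 * (n : ℝ))) := by
  simp only [ghl, Fin.cases_zero]
  simp [ContinuousLinearMap.sum_apply, EuclideanSpace.single_apply]

private theorem ghl_single_succ (i j : Fin n) :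
    ghl n i.succ (EuclideanSpace.single j (1 : ℝ)) = if i = j then 1 else 0 := by
  simp only [ghl, Fin.cases_succ]
  simp [EuclideanSpace.single_apply]

private theorem ghY {g : ℝ} (hg : g ^ 3 = 2 * n) (k : Fin (n + 1)) (p : E n) :
    cc k * Y k p = (ghg n g k * X k p) ^ 3 := by
  refine Fin.cases ?_ (fun i => ?_) k
  · simp only [cc, Y, ghg, X, Fin.cases_zero]
    ring
  · simp only [cc, Y, ghg, X, Fin.cases_succ]
    rw [mul_pow, hg]

/-- Paper proof: `Gen p` fails iff `p` lies in one of finitely many hyperplanes: `X k p = 0`, or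
`cc i * Y i p = cc j * Y j p`, which is `a X i p = b X j p` with nonzero real `a`, `b` (cube roots;
`Y 0 = - X0³`). -/
theorem gen_hyperplanes (hn : 2 ≤ n) : ∃ (M : ℕ) (L : Fin M → (E n →L[ℝ] ℝ)) (c : Fin M → ℝ),
    (∀ i, L i ≠ 0) ∧ ∀ p : E n, (∀ i, L i p ≠ c i) → Gen p := by
  classical
  have hn0 : (0 : ℝ) < 2 * n := by
    have : (2 : ℝ) ≤ n := by exact_mod_cast hn
    linarith
  obtain ⟨g, hg0, hg⟩ : ∃ g : ℝ, 0 < g ∧ g ^ 3 = 2 * n := by
    refine ⟨(2 * (n : ℝ)) ^ ((3 : ℝ)⁻¹), Real.rpow_pos_of_pos hn0 _, ?_⟩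
    rw [← Real.rpow_natCast, ← Real.rpow_mul hn0.le]
    norm_num
  -- the linear forms
  have hl : ∀ k : Fin (n + 1), ghl n k ≠ 0 := by
    intro k
    refine Fin.cases ?_ (fun i => ?_) k
    · intro h0
      have h1 := ghl_single_zero (n := n) ⟨0, by omega⟩
      rw [h0] at h1
      have h2 : (0 : ℝ) = -(1 / (2 * (n : ℝ))) := h1
      have h3 : 0 < 1 / (2 * (n : ℝ)) := by positivity
      linarith
    · intro h0
      have h1 := ghl_single_succ i i
      rw [h0, if_pos rfl] at h1
      have h2 : (0 : ℝ) = 1 := h1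
      norm_num at h2
  have hgs : ∀ i : Fin n, ghg n g i.succ = g := fun i => by simp only [ghg, Fin.cases_succ]
  have hgz : ghg n g 0 = -1 := by simp only [ghg, Fin.cases_zero]
  have key0 : ∀ j : Fin n, (ghg n g 0) • ghl n 0 - (ghg n g j.succ) • ghl n j.succ ≠ 0 := by
    intro j h0
    obtain ⟨m, hm⟩ : ∃ m : Fin n, m ≠ j := by
      by_cases hj : j = ⟨0, by omega⟩
      · refine ⟨⟨1, by omega⟩, ?_⟩
        rw [hj]
        intro h
        have := congrArg Fin.val h
        simp at this
      · exact ⟨⟨0, by omega⟩, fun h => hj h.symm⟩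
    have h1 : ((ghg n g 0) • ghl n 0 - (ghg n g j.succ) • ghl n j.succ) (EuclideanSpace.single m (1 : ℝ)) = 0 := by
      rw [h0]; rfl
    rw [ContinuousLinearMap.sub_apply, ContinuousLinearMap.smul_apply, ContinuousLinearMap.smul_apply,
      ghl_single_zero, ghl_single_succ, if_neg hm.symm, hgz] at h1
    have h3 : 0 < 1 / (2 * (n : ℝ)) := by positivity
    simp only [smul_eq_mul, mul_zero, sub_zero] at h1
    linarith
  have key : ∀ i j : Fin (n + 1), i ≠ j → (ghg n g i) • ghl n i - (ghg n g j) • ghl n j ≠ 0 := by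
    intro i j
    refine Fin.cases ?_ (fun i' => ?_) i
    · refine Fin.cases ?_ (fun j' => ?_) j
      · intro h; exact absurd rfl h
      · intro _; exact key0 j'
    · refine Fin.cases ?_ (fun j' => ?_) j
      · intro _ h0
        apply key0 i'
        rw [← neg_sub, h0, neg_zero]
      · intro hij h0
        have hij' : i' ≠ j' := fun h => hij (by rw [h])
        have h1 : ((ghg n g i'.succ) • ghl n i'.succ - (ghg n g j'.succ) • ghl n j'.succ)
            (EuclideanSpace.single i' (1 : ℝ)) = 0 := by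
          rw [h0]; rfl
        rw [ContinuousLinearMap.sub_apply, ContinuousLinearMap.smul_apply, ContinuousLinearMap.smul_apply,
          ghl_single_succ, ghl_single_succ, if_pos rfl, if_neg hij'.symm, hgs] at h1
        simp only [smul_eq_mul, mul_zero, sub_zero, mul_one] at h1
        linarith
  -- the index type
  let ι := Fin (n + 1) ⊕ {q : Fin (n + 1) × Fin (n + 1) // q.1 ≠ q.2}
  let L' : ι → (E n →L[ℝ] ℝ) := Sum.elim (fun k => ghl n k)
    (fun q => (ghg n g q.1.1) • ghl n q.1.1 - (ghg n g q.1.2) • ghl n q.1.2)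
  let c' : ι → ℝ := Sum.elim (fun k => -gha n k)
    (fun q => -(ghg n g q.1.1 * gha n q.1.1 - ghg n g q.1.2 * gha n q.1.2))
  let e : ι ≃ Fin (Fintype.card ι) := Fintype.equivFin ι
  refine ⟨Fintype.card ι, fun t => L' (e.symm t), fun t => c' (e.symm t), ?_, ?_⟩
  · intro t
    rcases h : e.symm t with k | q
    · simp only [L', h, Sum.elim_inl]
      exact hl k
    · simp only [L', h, Sum.elim_inr]
      exact key _ _ q.2
  · intro p hp
    have hp' : ∀ s : ι, L' s p ≠ c' s := by
      intro s
      have := hp (e s)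
      simpa only [Equiv.symm_apply_apply] using this
    constructor
    · intro k hk
      have h1 := hp' (Sum.inl k)
      simp only [L', c', Sum.elim_inl] at h1
      apply h1
      rw [ghX] at hk
      linarith
    · intro i j hij hYY
      have h1 := hp' (Sum.inr ⟨(i, j), hij⟩)
      simp only [L', c', Sum.elim_inr] at h1
      apply h1
      rw [ghY hg, ghY hg] at hYY
      have h2 : ghg n g i * X i p = ghg n g j * X j p := by
        exact (Odd.strictMono_pow (n := 3) (by decide)).injective hYY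
      rw [ghX, ghX] at h2
      rw [ContinuousLinearMap.sub_apply, ContinuousLinearMap.smul_apply, ContinuousLinearMap.smul_apply,
        smul_eq_mul, smul_eq_mul]
      linarith

end MP80b30d
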