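import Pool.Agent.Lib.MP_80b30d_gt.NBody
import Pool.Agent.Lib.MP_80b30d_gt.NDenseA

/-! MP_80b30d_gt: finitely many hyperplane sections are nowhere dense. -/

namespace MP80b30d

open Set Filter Topology Metric

variable {n : ℕ}

private theorem ndense_cross {K S : Set (E n)} (hK : IsClosed K) (hS : IsPreconnected S)
    {a b : E n} (ha : a ∈ S) (hb : b ∈ S) (haK : a ∈ interior K) (hbK : b ∉ K) :
    ∃ r ∈ S, r ∈ frontier K := by
  by_contra hno
  push Not at hno
  have hcov : S ⊆ interior K ∪ Kᶜ := by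
    intro x hx
    by_cases hxK : x ∈ K
    · left
      by_contra hxi
      exact hno x hx ⟨subset_closure hxK, hxi⟩
    · exact Or.inr hxK
  obtain ⟨x, hx, hx1, hx2⟩ :=
    hS (interior K) Kᶜ isOpen_interior hK.isOpen_compl hcov ⟨a, ha, haK⟩ ⟨b, hb, hbK⟩
  exact hx2 (interior_subset hx1)

private theorem ndense_X0_add (p w : E n) : X0 (p + w) + X0 (p - w) = 2 * X0 p := by
  have h1 : ∑ i, (p + w) i = ∑ i, p i + ∑ i, w i := by
    rw [← Finset.sum_add_distrib]
    rfl
  have h2 : ∑ i, (p - w) i = ∑ i, p i - ∑ i, w i := by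
    rw [← Finset.sum_sub_distrib]
    rfl
  simp only [X0, h1, h2]
  ring

private theorem ndense_G_add (p w : E n) : G p (p + w) + G p (p - w) = 2 * G p p := by
  have h1 : ∑ i, p i ^ 3 * (p + w) i = ∑ i, p i ^ 3 * p i + ∑ i, p i ^ 3 * w i := by
    rw [← Finset.sum_add_distrib]
    refine Finset.sum_congr rfl fun i _ => ?_
    change p i ^ 3 * (p i + w i) = _
    ring
  have h2 : ∑ i, p i ^ 3 * (p - w) i = ∑ i, p i ^ 3 * p i - ∑ i, p i ^ 3 * w i := by
    rw [← Finset.sum_sub_distrib]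
    refine Finset.sum_congr rfl fun i _ => ?_
    change p i ^ 3 * (p i - w i) = _
    ring
  have h3 := ndense_X0_add p w
  simp only [G, h1, h2]
  have h4 : X0 p ^ 3 * X0 (p + w) + X0 p ^ 3 * X0 (p - w) = 2 * (X0 p ^ 3 * X0 p) := by
    rw [← mul_add, h3]
    ring
  linarith

private theorem ndense_exit (hn : 2 ≤ n) {p w : E n} (hp : p ∈ frontier (Kb n)) (hw : w ≠ 0) :
    p + w ∉ Kb n ∨ p - w ∉ Kb n := by
  by_contra hcon
  push Not at hcon
  obtain ⟨h1, h2⟩ := hcon
  have hpK : p ∈ Kb n := by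
    have := (Kb_compact (n := n) (by omega)).isClosed.frontier_subset hp
    exact this
  have hg1 := G_neg (by omega) hpK h1 (by
    intro h
    exact hw (by simpa using h))
  have hg2 := G_neg (by omega) hpK h2 (by
    intro h
    exact hw (by simpa using h))
  have hg3 := ndense_G_add p w
  have hfr := (mem_frontier_Kb (n := n) (by omega)).1 hp
  have hg4 : G p p = 0 := by
    have : ∑ i, p i ^ 3 * p i = ∑ i, p i ^ 4 :=
      Finset.sum_congr rfl fun i _ => by ring
    simp only [G, this, hfr.2]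
    ring
  linarith

private theorem ndense_one (hn : 2 ≤ n) (L : E n →L[ℝ] ℝ) (c : ℝ) (hL : L ≠ 0) {p : E n}
    (hp : p ∈ frontier (Kb n)) {ε : ℝ} (hε : 0 < ε) :
    ∃ r ∈ frontier (Kb n), dist r p < ε ∧ L r ≠ c := by
  by_cases hLp : L p = c
  swap
  · exact ⟨p, hp, by simpa using hε, hLp⟩
  have hKcl : IsClosed (Kb n) := (Kb_compact (n := n) (by omega)).isClosed
  -- a direction in the kernel
  obtain ⟨v, hvk, hv0⟩ : ∃ v : E n, L v = 0 ∧ v ≠ 0 := by
    have hker : LinearMap.ker (L : E n →ₗ[ℝ] ℝ) ≠ ⊥ := by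
      apply LinearMap.ker_ne_bot_of_finrank_lt
      rw [Module.finrank_self]
      simp
      omega
    obtain ⟨v, hv, hv0⟩ := Submodule.exists_mem_ne_zero_of_ne_bot hker
    exact ⟨v, hv, hv0⟩
  obtain ⟨w, hwk, hw0, hwn⟩ : ∃ w : E n, L w = 0 ∧ w ≠ 0 ∧ ‖w‖ < ε := by
    have hvn : 0 < ‖v‖ := norm_pos_iff.2 hv0
    refine ⟨(ε / (2 * ‖v‖)) • v, by simp [hvk], ?_, ?_⟩
    · exact smul_ne_zero (by positivity) hv0
    · rw [norm_smul, Real.norm_of_nonneg (by positivity)]
      field_simp
      linarith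
  obtain ⟨q, hqL, hqK, hqp⟩ : ∃ q : E n, L q = c ∧ q ∉ Kb n ∧ q ∈ ball p ε := by
    rcases ndense_exit hn hp hw0 with h | h
    · exact ⟨p + w, by simp [hLp, hwk], h, by simpa [mem_ball, dist_eq_norm] using hwn⟩
    · exact ⟨p - w, by simp [hLp, hwk], h, by simpa [mem_ball, dist_eq_norm] using hwn⟩
  -- an interior point near p
  obtain ⟨z₀, hz₀i, hz₀b⟩ : ∃ z : E n, z ∈ interior (Kb n) ∧ z ∈ ball p ε := by
    have hcl : closure (interior (Kb n)) = closure (Kb n) :=
      (Kb_convex n).closure_interior_eq_closure_of_nonempty_interior ⟨0, Kb_interior n⟩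
    have hpc : p ∈ closure (interior (Kb n)) := by
      rw [hcl]
      exact frontier_subset_closure hp
    obtain ⟨z, hz1, hz2⟩ := mem_closure_iff_nhds.1 hpc (ball p ε) (ball_mem_nhds p hε)
    exact ⟨z, hz2, hz1⟩
  obtain ⟨z, hzi, hzb, hzL⟩ : ∃ z : E n, z ∈ interior (Kb n) ∧ z ∈ ball p ε ∧ L z ≠ c := by
    by_cases hz : L z₀ = c
    swap
    · exact ⟨z₀, hz₀i, hz₀b, hz⟩
    obtain ⟨y, hy⟩ : ∃ y : E n, L y ≠ 0 := by
      by_contra hno
      push Not at hno
      exact hL (ContinuousLinearMap.ext hno)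
    have hopen : interior (Kb n) ∩ ball p ε ∈ 𝓝 (z₀ + (0 : ℝ) • y) := by
      rw [zero_smul, add_zero]
      exact (isOpen_interior.inter isOpen_ball).mem_nhds ⟨hz₀i, hz₀b⟩
    have hcont : Continuous fun s : ℝ => z₀ + s • y := by fun_prop
    have hev : ∀ᶠ s in 𝓝[>] (0 : ℝ), z₀ + s • y ∈ interior (Kb n) ∩ ball p ε :=
      (hcont.continuousAt.eventually_mem hopen).filter_mono nhdsWithin_le_nhds
    obtain ⟨s, hs1, hs2⟩ := (hev.and self_mem_nhdsWithin).exists
    have hs3 : (0 : ℝ) < s := hs2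
    refine ⟨z₀ + s • y, hs1.1, hs1.2, ?_⟩
    intro h
    rw [map_add, map_smul, hz] at h
    have : s * L y = 0 := by
      simpa using h
    rcases mul_eq_zero.1 this with h1 | h1
    · exact hs3.ne' h1
    · exact hy h1
  -- a point outside on the same side
  obtain ⟨s, hs0, hsK, hsb⟩ : ∃ s : ℝ, 0 < s ∧ q + s • (z - p) ∉ Kb n ∧
      q + s • (z - p) ∈ ball p ε := by
    have hopen : (Kb n)ᶜ ∩ ball p ε ∈ 𝓝 (q + (0 : ℝ) • (z - p)) := by
      rw [zero_smul, add_zero]
      exact (hKcl.isOpen_compl.inter isOpen_ball).mem_nhds ⟨hqK, hqp⟩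
    have hcont : Continuous fun s : ℝ => q + s • (z - p) := by fun_prop
    have hev : ∀ᶠ s in 𝓝[>] (0 : ℝ), q + s • (z - p) ∈ (Kb n)ᶜ ∩ ball p ε :=
      (hcont.continuousAt.eventually_mem hopen).filter_mono nhdsWithin_le_nhds
    obtain ⟨s, hs1, hs2⟩ := (hev.and self_mem_nhdsWithin).exists
    exact ⟨s, hs2, hs1.1, hs1.2⟩
  obtain ⟨r, hrS, hrF⟩ := ndense_cross hKcl
    (convex_segment (𝕜 := ℝ) z (q + s • (z - p))).isPreconnected
    (left_mem_segment ℝ _ _) (right_mem_segment ℝ _ _) hzi hsK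
  refine ⟨r, hrF, ?_, ?_⟩
  · have := (convex_ball p ε).segment_subset hzb hsb hrS
    simpa [mem_ball] using this
  · obtain ⟨a, b, ha, hb, hab, rfl⟩ := hrS
    intro h
    rw [map_add, map_smul, map_smul, map_add, map_smul, map_sub, hqL, hLp] at h
    simp only [smul_eq_mul] at h
    have h2 : (a + b * s) * (L z - c) = 0 := by
      have hc : a * c + b * c = c := by
        rw [← add_mul, hab, one_mul]
      linarith
    rcases mul_eq_zero.1 h2 with h3 | h3
    · have h4 : 0 ≤ b * s := by positivity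
      have h5 : a = 0 := by linarith
      have h6 : b * s = 0 := by linarith
      rcases mul_eq_zero.1 h6 with h7 | h7
      · linarith
      · exact hs0.ne' h7
    · exact hzL (by linarith)

private theorem ndense_fin (hn : 2 ≤ n) {M : ℕ} (L : Fin M → (E n →L[ℝ] ℝ)) (c : Fin M → ℝ)
    (hL : ∀ i, L i ≠ 0) (S : Finset (Fin M)) :
    ∀ p ∈ frontier (Kb n), ∀ ε : ℝ, 0 < ε →
      ∃ r ∈ frontier (Kb n), dist r p < ε ∧ ∀ i ∈ S, L i r ≠ c i := by
  induction S using Finset.induction_on with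
  | empty =>
    intro p hp ε hε
    exact ⟨p, hp, by simpa using hε, by simp⟩
  | insert a S ha ih =>
    intro p hp ε hε
    obtain ⟨r, hr, hrp, hrS⟩ := ih p hp ε hε
    have hopen : IsOpen {x : E n | ∀ i ∈ S, L i x ≠ c i} := by
      have : {x : E n | ∀ i ∈ S, L i x ≠ c i} = ⋂ i ∈ S, {x : E n | L i x ≠ c i} := by
        ext x
        simp
      rw [this]
      refine isOpen_biInter_finset fun i _ => ?_
      exact isOpen_ne_fun (L i).continuous continuous_const
    obtain ⟨δ, hδ, hδs⟩ := Metric.isOpen_iff.1 hopen r hrS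
    obtain ⟨r', hr', hr'r, hr'L⟩ := ndense_one hn (L a) (c a) (hL a) hr
      (lt_min hδ (sub_pos.2 hrp))
    refine ⟨r', hr', ?_, ?_⟩
    · have h1 : dist r' r < ε - dist r p := lt_of_lt_of_le hr'r (min_le_right _ _)
      have h2 := dist_triangle r' r p
      linarith
    · intro i hi
      rcases Finset.mem_insert.1 hi with rfl | hi
      · exact hr'L
      · exact hδs (mem_ball.2 (lt_of_lt_of_le hr'r (min_le_left _ _))) i hi

/-- Paper proof: it suffices that one hyperplane section `H = {L = c}` is nowhere dense in the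
boundary (finite unions of closed nowhere dense sets are nowhere dense; induction on `M`). Suppose
`U` is open, `U ∩ frontier K ⊆ H`, `p ∈ U ∩ frontier K`; take `U` a ball. Each of the two open half
balls of `U \ H` is connected and contains no boundary point, so it lies in the interior or in the
complement of `K = Kb n`; both in the interior or both in the complement is impossible (`K` is the
closure of its interior, and convex). So `H ∩ U ⊆ frontier K`, and two different points of `H ∩ U` and their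
midpoint are boundary points, contradicting `G_neg` (`G p` is affine, with `p` the midpoint,
`G p p = 0`, and `G p < 0` at the two points). Here `n ≥ 2` is used. -/
theorem dense_off_hyperplanes (hn : 2 ≤ n) {M : ℕ} (L : Fin M → (E n →L[ℝ] ℝ)) (c : Fin M → ℝ)
    (hL : ∀ i, L i ≠ 0) :
    frontier (Kb n) ⊆ closure {p | p ∈ frontier (Kb n) ∧ ∀ i, L i p ≠ c i} := by
  intro p hp
  rw [Metric.mem_closure_iff]
  intro ε hε
  obtain ⟨r, hr, hrp, hrL⟩ := ndense_fin hn L c hL Finset.univ p hp ε hε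
  exact ⟨r, ⟨hr, fun i => hrL i (Finset.mem_univ i)⟩, by rw [dist_comm]; exact hrp⟩

end MP80b30d
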