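import Pool.Agent.Lib.MP_80b30d_gt.NLight
import Pool.Agent.Lib.MP_80b30d_gt.NComb

/-! MP_80b30d_gt, second part: linear independence. -/

namespace MP80b30d

open Set Filter Topology Metric

variable {n : ℕ}

private theorem nInd_lin (k : Fin (n + 1)) :
    ∃ M : E n →ₗ[ℝ] ℝ, ∀ x y : E n, X k x - X k y = M (x - y) := by
  refine Fin.cases ?_ (fun i => ?_) k
  · refine ⟨{ toFun := fun z => -(∑ i, z i) / (2 * n), map_add' := ?_, map_smul' := ?_ }, ?_⟩
    · intro x y
      simp only [PiLp.add_apply, Finset.sum_add_distrib]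
      ring
    · intro c x
      simp only [PiLp.smul_apply, smul_eq_mul, RingHom.id_apply, ← Finset.mul_sum]
      ring
    · intro x y
      simp only [X, X0, Fin.cases_zero, LinearMap.coe_mk, AddHom.coe_mk, PiLp.sub_apply,
        Finset.sum_sub_distrib]
      ring
  · refine ⟨{ toFun := fun z => z i, map_add' := ?_, map_smul' := ?_ }, ?_⟩
    · intro x y
      simp
    · intro c x
      simp
    · intro x y
      simp only [X, Fin.cases_succ]
      rfl

private theorem nInd_Y_ne {p : E n} (hg : Gen p) (k : Fin (n + 1)) : Y k p ≠ 0 := by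
  have h := hg.1 k
  revert h
  refine Fin.cases ?_ (fun i => ?_) k
  · intro h
    simp only [X, Y, Fin.cases_zero] at h ⊢
    exact neg_ne_zero.2 (pow_ne_zero 3 (by simpa using h))
  · intro h
    simp only [X, Y, Fin.cases_succ] at h ⊢
    exact pow_ne_zero 3 h

private theorem nInd_cc_ne (hn : 2 ≤ n) (k : Fin (n + 1)) : (cc k : ℝ) ≠ 0 := by
  refine Fin.cases ?_ (fun i => ?_) k
  · simp [cc]
  · simp only [cc, Fin.cases_succ]
    have : (n : ℝ) ≠ 0 := by
      have : n ≠ 0 := by omega
      exact_mod_cast this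
    positivity

/-- Paper proof: let `∑ lam a • (u a - p) = 0` with `u a = lt (e a).1 (e a).2 p`. Apply the linear
part of `X k` (`X k` is affine): `∑ lam a * (X k (u a) - X k p) = 0`; multiply by `Y k p` and use
`X_lt`: with `lam' a = lam a * cc i * cc j * Y i p * Y j p / (cc j Y j p - cc i Y i p)`,
`(i, j) = e a`, this is `∑ lam' a * ([k = i] - [k = j]) = Λ * (Y k p * X k p)`, `Λ = ∑ lam a`.
Use `Comb` and `weights`: `lam' = 0`, and the factors are not zero. -/
theorem ind_of_comb (hn : 2 ≤ n) {N : ℕ} {e : Fin N → Fin (n + 1) × Fin (n + 1)} (he : Comb e)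
    {p : E n} (h0 : 0 < X0 p) (h1 : ∑ i, p i ^ 4 = X0 p ^ 4) (hg : Gen p) (s : Finset (Fin N))
    (hs : s.card = n - 1) :
    LinearIndependent ℝ (fun a : s => lt (e a).1 (e a).2 p - p) := by
  classical
  obtain ⟨hw0, hwk, hws⟩ := weights (by omega : 1 ≤ n) h0 h1 hg
  rw [Fintype.linearIndependent_iff]
  intro g hsum
  set lam : Fin N → ℝ := fun a => if h : a ∈ s then g ⟨a, h⟩ else 0 with hlam
  have hlam_mem : ∀ a : s, lam a = g a := by
    intro a
    simp [hlam]
  have hlam_not : ∀ a, a ∉ s → lam a = 0 := by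
    intro a ha
    simp [hlam, ha]
  have hfull : ∑ a : Fin N, lam a • (lt (e a).1 (e a).2 p - p) = 0 := by
    rw [← Finset.sum_subset (Finset.subset_univ s) (fun a _ ha => by rw [hlam_not a ha, zero_smul]),
      ← Finset.sum_coe_sort s]
    rw [← hsum]
    exact Finset.sum_congr rfl fun a _ => by rw [hlam_mem a]
  have hk : ∀ k : Fin (n + 1), ∑ a : Fin N, lam a * (X k (lt (e a).1 (e a).2 p) - X k p) = 0 := by
    intro k
    obtain ⟨M, hM⟩ := nInd_lin (n := n) k
    have h2 := congrArg M hfull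
    rw [map_sum, map_zero] at h2
    rw [← h2]
    refine Finset.sum_congr rfl fun a _ => ?_
    rw [map_smul, smul_eq_mul, hM]
  have hne : ∀ a, (cc (e a).2 * Y (e a).2 p - cc (e a).1 * Y (e a).1 p : ℝ) ≠ 0 := by
    intro a h
    exact hg.2 (e a).1 (e a).2 (he.1 a) (sub_eq_zero.1 h).symm
  have hY := nInd_Y_ne hg
  have hcc := nInd_cc_ne hn
  have key := he.2 s hs (fun k => Y k p * X k p) hw0 hwk hws
    (fun a => lam a * (cc (e a).1 * cc (e a).2 /
      (cc (e a).2 * Y (e a).2 p - cc (e a).1 * Y (e a).1 p) * (Y (e a).1 p * Y (e a).2 p)))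
    (∑ a, lam a) (fun a ha => by simp only [hlam_not a ha, zero_mul]) (fun k => by
      have h3 := hk k
      simp only [mul_sub, Finset.sum_sub_distrib] at h3
      rw [← Finset.sum_mul] at h3
      have h4 : ∑ a, lam a * X k (lt (e a).1 (e a).2 p) = (∑ a, lam a) * X k p := by linarith
      have h5 : (∑ a, lam a) * (Y k p * X k p)
          = Y k p * ∑ a, lam a * X k (lt (e a).1 (e a).2 p) := by rw [h4]; ring
      rw [h5, Finset.mul_sum]
      refine Finset.sum_congr rfl fun a _ => ?_
      rw [X_lt (by omega : 1 ≤ n) (he.1 a) hg k]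
      by_cases c1 : k = (e a).1
      · have c2 : k ≠ (e a).2 := by
          rw [c1]
          exact he.1 a
        rw [if_pos c1, if_neg c2, if_pos c1, if_neg c2, c1]
        ring
      · by_cases c2 : k = (e a).2
        · rw [if_neg c1, if_pos c2, if_neg c1, if_pos c2, c2]
          ring
        · rw [if_neg c1, if_neg c2, if_neg c1, if_neg c2]
          ring)
  intro a
  have h6 := key a
  rw [← hlam_mem a]
  have h7 : (cc (e (a : Fin N)).1 * cc (e (a : Fin N)).2 /
      (cc (e (a : Fin N)).2 * Y (e (a : Fin N)).2 p - cc (e (a : Fin N)).1 * Y (e (a : Fin N)).1 p) *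
      (Y (e (a : Fin N)).1 p * Y (e (a : Fin N)).2 p) : ℝ) ≠ 0 :=
    mul_ne_zero (div_ne_zero (mul_ne_zero (hcc _) (hcc _)) (hne a)) (mul_ne_zero (hY _) (hY _))
  exact (mul_eq_zero.1 h6).resolve_right h7

end MP80b30d
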