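import Pool.Agent.Lib.MP_80b30d_gt.NYoung

/-! MP_80b30d_gt, second part: the lights `lt i j p`. -/

namespace MP80b30d

open Set Filter Topology Metric

variable {n : ℕ}

private theorem nl_den {i j : Fin (n + 1)} (hij : i ≠ j) {p : E n} (hp : Gen p) :
    cc j * Y j p - cc i * Y i p ≠ 0 := by
  intro h
  exact hp.2 i j hij (by linarith)

/-- coordinates of the light -/
theorem X_lt (hn : 1 ≤ n) {i j : Fin (n + 1)} (hij : i ≠ j) {p : E n} (hp : Gen p)
    (k : Fin (n + 1)) : X k (lt i j p) =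
      cc i * cc j / (cc j * Y j p - cc i * Y i p) *
        ((if k = i then Y j p else 0) - (if k = j then Y i p else 0)) := by
  have hD := nl_den hij hp
  unfold lt
  rw [X_comb, X_Vx hn, X_Vx hn]
  by_cases h1 : k = i
  · have h2 : k ≠ j := fun h => hij (h1.symm.trans h)
    rw [if_pos h1, if_neg h2, if_pos h1, if_neg h2]
    field_simp
    ring
  · rw [if_neg h1, if_neg h1]
    by_cases h2 : k = j
    · rw [if_pos h2, if_pos h2]
      field_simp
      ring
    · rw [if_neg h2, if_neg h2]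
      ring

theorem G_lt (hn : 1 ≤ n) {i j : Fin (n + 1)} (hij : i ≠ j) {p : E n} (hp : Gen p) :
    G p (lt i j p) = 0 := by
  rw [G_eq]
  have h1 : ∀ k : Fin (n + 1), Y k p * X k (lt i j p) =
      cc i * cc j / (cc j * Y j p - cc i * Y i p) * (if k = i then Y k p * Y j p else 0) -
        cc i * cc j / (cc j * Y j p - cc i * Y i p) * (if k = j then Y k p * Y i p else 0) := by
    intro k
    rw [X_lt hn hij hp]
    by_cases h1 : k = i
    · by_cases h2 : k = j
      · rw [if_pos h1, if_pos h1, if_pos h2, if_pos h2]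
        ring
      · rw [if_pos h1, if_pos h1, if_neg h2, if_neg h2]
        ring
    · by_cases h2 : k = j
      · rw [if_neg h1, if_neg h1, if_pos h2, if_pos h2]
        ring
      · rw [if_neg h1, if_neg h1, if_neg h2, if_neg h2]
        ring
  rw [Finset.sum_congr rfl fun k _ => h1 k, Finset.sum_sub_distrib, ← Finset.mul_sum,
    ← Finset.mul_sum, Finset.sum_ite_eq' Finset.univ i, Finset.sum_ite_eq' Finset.univ j,
    if_pos (Finset.mem_univ _), if_pos (Finset.mem_univ _)]
  ring

/-- Paper proof: `G_neg` for `y = lt i j p`, which is not `p`, since it has a coordinate `X k = 0`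
(`n + 1 ≥ 3` coordinates). -/
theorem lt_not_mem (hn : 2 ≤ n) {i j : Fin (n + 1)} (hij : i ≠ j) {p : E n}
    (hp : p ∈ Kb n) (hg : Gen p) : lt i j p ∉ Kb n := by
  intro hmem
  have hn1 : 1 ≤ n := by omega
  obtain ⟨k, hki, hkj⟩ : ∃ k : Fin (n + 1), k ≠ i ∧ k ≠ j := by
    by_contra hcon
    push Not at hcon
    have hsub : (Finset.univ : Finset (Fin (n + 1))) ⊆ {i, j} := by
      intro k _
      rw [Finset.mem_insert, Finset.mem_singleton]
      by_cases h : k = i
      · exact Or.inl h
      · exact Or.inr (hcon k h)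
    have h1 := Finset.card_le_card hsub
    rw [Finset.card_univ, Fintype.card_fin] at h1
    have h2 := Finset.card_le_two (a := i) (b := j)
    omega
  have hne : lt i j p ≠ p := by
    intro h
    apply hg.1 k
    rw [← h, X_lt hn1 hij hg, if_neg hki, if_neg hkj]
    ring
  have h1 := G_neg hn1 hp hmem hne
  rw [G_lt hn1 hij hg] at h1
  exact lt_irrefl _ h1

/-- signs of the weights `Y k p * X k p` -/
theorem weights (hn : 1 ≤ n) {p : E n} (h0 : 0 < X0 p) (h1 : ∑ i, p i ^ 4 = X0 p ^ 4)
    (hg : Gen p) : Y 0 p * X 0 p < 0 ∧ (∀ k : Fin (n + 1), k ≠ 0 → 0 < Y k p * X k p) ∧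
      ∑ k : Fin (n + 1), Y k p * X k p = 0 := by
  have e0 : Y 0 p * X 0 p = -(X0 p ^ 4) := by
    change -(X0 p) ^ 3 * X0 p = -(X0 p ^ 4)
    ring
  have e1 : ∀ i : Fin n, Y i.succ p * X i.succ p = p i ^ 4 := by
    intro i
    change p i ^ 3 * p i = p i ^ 4
    ring
  refine ⟨?_, ?_, ?_⟩
  · rw [e0]
    have := pow_pos h0 4
    linarith
  · intro k hk
    obtain ⟨i, rfl⟩ := Fin.exists_succ_eq.2 hk
    rw [e1]
    have h2 : p i ≠ 0 := hg.1 i.succ
    positivity
  · rw [Fin.sum_univ_succ, e0, Finset.sum_congr rfl fun i _ => e1 i, h1]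
    ring

end MP80b30d
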