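import Pool.Agent.Lib.MP_80b30d_gt.NBody

/-! MP_80b30d_gt: a flat point. -/

namespace MP80b30d

open Set Filter Topology Metric

variable {n : ℕ}

private theorem notB_sum {i j : Fin n} (A B : ℝ) :
    ∑ k, (A • EuclideanSpace.single i (1 : ℝ) + B • EuclideanSpace.single j (1 : ℝ) : E n) k
      = A + B := by
  simp [Finset.sum_add_distrib]

private theorem notB_sum4 {i j : Fin n} (hij : i ≠ j) (A B : ℝ) :
    ∑ k, (A • EuclideanSpace.single i (1 : ℝ) + B • EuclideanSpace.single j (1 : ℝ) : E n) k ^ 4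
      = A ^ 4 + B ^ 4 := by
  have h : ∀ k, (A • EuclideanSpace.single i (1 : ℝ) + B • EuclideanSpace.single j (1 : ℝ) : E n) k
      ^ 4 = (if k = i then A ^ 4 else 0) + (if k = j then B ^ 4 else 0) := by
    intro k
    by_cases h1 : k = i
    · subst h1
      simp [hij]
    · by_cases h2 : k = j
      · subst h2
        simp [h1]
      · simp [h1, h2]
  simp only [h, Finset.sum_add_distrib]
  simp

private theorem notB_X0 {i j : Fin n} (A B : ℝ) :
    X0 (A • EuclideanSpace.single i (1 : ℝ) + B • EuclideanSpace.single j (1 : ℝ) : E n)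
      = 1 - (A + B) / (2 * n) := by
  unfold X0
  rw [notB_sum]

/-- Paper proof: at `p = (t, 0, …, 0)`, `t = 1 / (1 + ε)`, `ε = 1 / (2 n)`, let
`v = τ (-ε / (1 + ε), 1, 0, …)`. For `± v`, with `z = (p ± v)_1 = X0 (p ± v)`, the point
`(1 - η) (p ± v)` is in `Kb n` if `(1 - η) (z^4 + τ^4)^(1/4) ≤ z + η (1 - z)`, which holds for
`η = C τ^4`. Add the two inequalities `ε' ‖y - p‖² ≤ l p - l y`: the left side is at least
`ε' τ²`-ish, the right side is `2 η l p = O(τ^4)`: contradiction for `τ → 0`. -/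
theorem Kb_not_strong (hn : 2 ≤ n) : ∃ p ∈ frontier (Kb n), ¬ Strong (Kb n) p := by
  have hnR : (2 : ℝ) ≤ n := by exact_mod_cast hn
  set i : Fin n := ⟨0, by omega⟩ with hi
  set j : Fin n := ⟨1, by omega⟩ with hj
  have hij : i ≠ j := by
    intro h
    have := congrArg Fin.val h
    simp [hi, hj] at this
  set e0 : E n := EuclideanSpace.single i (1 : ℝ) with he0
  set e1 : E n := EuclideanSpace.single j (1 : ℝ) with he1
  set t : ℝ := 2 * n / (2 * n + 1) with ht
  set s : ℝ := 1 / (2 * n + 1) with hs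
  have hpos : (0 : ℝ) < 2 * n + 1 := by linarith
  have hs0 : 0 < s := by positivity
  have hs1 : s ≤ 1 / 5 := by
    rw [hs]
    apply one_div_le_one_div_of_le (by norm_num)
    linarith
  have hts : t = 1 - s := by
    rw [ht, hs]
    field_simp
    ring
  have hn2 : (2 : ℝ) * n ≠ 0 := by positivity
  -- the curve
  set A : ℝ → ℝ := fun τ => (1 - 16 * τ ^ 4) * (t - τ * s) with hA
  set B : ℝ → ℝ := fun τ => (1 - 16 * τ ^ 4) * τ with hB
  set y : ℝ → E n := fun τ => A τ • e0 + B τ • e1 with hy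
  have hX0 : ∀ a b : ℝ, X0 (a • e0 + b • e1) = 1 - (a + b) / (2 * n) := fun a b => notB_X0 a b
  have hS4 : ∀ a b : ℝ, ∑ k, (a • e0 + b • e1 : E n) k ^ 4 = a ^ 4 + b ^ 4 :=
    fun a b => notB_sum4 hij a b
  have hinv : (1 : ℝ) / (2 * n) = s / (1 - s) := by
    rw [hs]
    field_simp
    ring
  have hp0 : y 0 = t • e0 + (0 : ℝ) • e1 := by
    simp [hy, hA, hB]
  have hcont : Continuous y := by
    rw [hy, hA, hB]
    fun_prop
  refine ⟨y 0, ?_, ?_⟩
  · rw [mem_frontier_Kb (by omega), hp0, hX0, hS4]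
    have h1 : 1 - (t + 0) / (2 * n) = t := by
      rw [ht]
      field_simp
      ring
    rw [h1]
    constructor
    · rw [hts]
      linarith
    · ring
  · rintro ⟨l, ε, hε, hev⟩
    -- membership
    have hmem : ∀ τ : ℝ, |τ| ≤ 1 / 4 → y τ ∈ Kb n := by
      intro τ hτ
      have hτ' := abs_le.mp hτ
      have hτ4 : τ ^ 4 ≤ 1 / 256 := by
        have : |τ| ^ 4 ≤ (1 / 4 : ℝ) ^ 4 := pow_le_pow_left₀ (abs_nonneg _) hτ 4
        have h2 : |τ| ^ 4 = τ ^ 4 := by
          rw [← abs_pow, abs_of_nonneg (by positivity)]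
        rw [h2] at this
        norm_num at this
        linarith
      have hτ40 : 0 ≤ τ ^ 4 := by positivity
      set z : ℝ := t - τ * s with hz
      set η : ℝ := 16 * τ ^ 4 with hη
      have hη0 : 0 ≤ η := by positivity
      have hη1 : η ≤ 1 / 16 := by rw [hη]; linarith
      have hzs : |τ * s| ≤ 1 / 20 := by
        rw [abs_mul, abs_of_pos hs0]
        calc |τ| * s ≤ (1 / 4) * (1 / 5) := mul_le_mul hτ hs1 hs0.le (by norm_num)
          _ = 1 / 20 := by norm_num
      have hzs' := abs_le.mp hzs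
      have hz1 : 1 / 2 ≤ z := by
        rw [hz, hts]
        linarith
      have hz2 : z ≤ 1 := by
        have : z = 1 - s * (1 + τ) := by rw [hz, hts]; ring
        rw [this]
        have : 0 ≤ s * (1 + τ) := by
          apply mul_nonneg hs0.le
          linarith
        linarith
      have hX : X0 (y τ) = z + η * (1 - z) := by
        have e1 : y τ = ((1 - η) * z) • e0 + ((1 - η) * τ) • e1 := rfl
        rw [e1, hX0]
        have : ((1 - η) * z + (1 - η) * τ) / (2 * n) = (1 - η) * (z + τ) * (1 / (2 * n)) := by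
          ring
        rw [this, hinv]
        have h1s : 1 - s ≠ 0 := by linarith
        have hzt : z + τ = (1 - s) * (1 + τ) := by
          rw [hz, hts]
          ring
        rw [hzt]
        have hz3 : z = 1 - s * (1 + τ) := by rw [hz, hts]; ring
        rw [hz3]
        field_simp
        ring
      have hX1 : z ≤ X0 (y τ) := by
        rw [hX]
        have : 0 ≤ η * (1 - z) := mul_nonneg hη0 (by linarith)
        linarith
      refine ⟨by linarith, ?_⟩
      have e1 : y τ = ((1 - η) * z) • e0 + ((1 - η) * τ) • e1 := rfl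
      have e2 : ∑ k, (y τ) k ^ 4 = ((1 - η) * z) ^ 4 + ((1 - η) * τ) ^ 4 := by
        rw [e1]
        exact hS4 _ _
      rw [e2]
      have h4 : (1 - η) ^ 4 ≤ 1 - η := by
        have h5 : (1 - η) ^ 3 ≤ 1 := pow_le_one₀ (by linarith) (by linarith)
        have : (1 - η) ^ 4 = (1 - η) * (1 - η) ^ 3 := by ring
        rw [this]
        exact mul_le_of_le_one_right (by linarith) h5
      have hz4 : 1 / 16 ≤ z ^ 4 := by
        have := pow_le_pow_left₀ (by norm_num : (0 : ℝ) ≤ 1 / 2) hz1 4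
        norm_num at this
        linarith
      calc ((1 - η) * z) ^ 4 + ((1 - η) * τ) ^ 4 = (1 - η) ^ 4 * (z ^ 4 + τ ^ 4) := by ring
        _ ≤ (1 - η) * (z ^ 4 + τ ^ 4) := mul_le_mul_of_nonneg_right h4 (by positivity)
        _ ≤ z ^ 4 := by
          have h6 : τ ^ 4 ≤ η * z ^ 4 := by
            rw [hη]
            nlinarith
          have h7 : 0 ≤ η * τ ^ 4 := by positivity
          nlinarith
        _ ≤ (X0 (y τ)) ^ 4 := pow_le_pow_left₀ (by linarith) hX1 4
    -- the two inequalities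
    have hev1 : ∀ᶠ τ in 𝓝 (0 : ℝ), y τ ∈ Kb n → ε * ‖y τ - y 0‖ ^ 2 ≤ l (y 0) - l (y τ) :=
      hcont.continuousAt.eventually hev
    have hcont2 : Continuous (fun τ : ℝ => y (-τ)) := hcont.comp continuous_neg
    have hev2 : ∀ᶠ τ in 𝓝 (0 : ℝ), y (-τ) ∈ Kb n →
        ε * ‖y (-τ) - y 0‖ ^ 2 ≤ l (y 0) - l (y (-τ)) := by
      have h1 : Tendsto (fun τ : ℝ => y (-τ)) (𝓝 0) (𝓝 (y 0)) := by
        have := hcont2.tendsto 0
        simpa using this
      exact h1.eventually hev
    have hsmall : ∀ᶠ τ in 𝓝 (0 : ℝ), |τ| < 1 / 4 := by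
      have : Tendsto (fun τ : ℝ => |τ|) (𝓝 0) (𝓝 |0|) := continuous_abs.tendsto 0
      rw [abs_zero] at this
      exact this.eventually (gt_mem_nhds (by norm_num))
    have hlast : ∀ᶠ τ in 𝓝 (0 : ℝ), 64 * τ ^ 2 * (t * l e0) < ε := by
      have : Tendsto (fun τ : ℝ => 64 * τ ^ 2 * (t * l e0)) (𝓝 0) (𝓝 (64 * 0 ^ 2 * (t * l e0))) := by
        apply Continuous.tendsto
        fun_prop
      have h0 : 64 * (0 : ℝ) ^ 2 * (t * l e0) = 0 := by ring
      rw [h0] at this
      exact this.eventually (gt_mem_nhds hε)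
    have hall := hev1.and (hev2.and (hsmall.and hlast))
    have hall2 : ∀ᶠ τ in 𝓝[>] (0 : ℝ), (y τ ∈ Kb n → ε * ‖y τ - y 0‖ ^ 2 ≤ l (y 0) - l (y τ)) ∧
        (y (-τ) ∈ Kb n → ε * ‖y (-τ) - y 0‖ ^ 2 ≤ l (y 0) - l (y (-τ))) ∧ |τ| < 1 / 4 ∧
        64 * τ ^ 2 * (t * l e0) < ε := hall.filter_mono nhdsWithin_le_nhds
    obtain ⟨τ, ⟨h1, h2, h3, h4⟩, hτpos⟩ := (hall2.and self_mem_nhdsWithin).exists
    have hτpos : 0 < τ := hτpos
    have k1 := h1 (hmem τ h3.le)
    have k2 := h2 (hmem (-τ) (by rw [abs_neg]; exact h3.le))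
    have hcoord : ∀ σ : ℝ, |B σ| ≤ ‖y σ - y 0‖ := by
      intro σ
      have h5 := PiLp.norm_apply_le (y σ - y 0) j
      have h6 : (y σ - y 0) j = B σ := by
        simp [hy, he0, he1, hij.symm, hB]
      rw [h6] at h5
      simpa using h5
    have hτ14 : τ < 1 / 4 := by rwa [abs_of_pos hτpos] at h3
    have hτ4 : 16 * τ ^ 4 ≤ 1 / 16 := by
      have := pow_le_pow_left₀ hτpos.le hτ14.le 4
      norm_num at this
      linarith
    have hB1 : τ / 2 ≤ B τ := by
      simp only [hB]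
      nlinarith
    have hB2 : τ / 2 ≤ |B τ| := hB1.trans (le_abs_self _)
    have hB3 : |B (-τ)| = |B τ| := by
      simp only [hB]
      have : (1 - 16 * (-τ) ^ 4) * -τ = -((1 - 16 * τ ^ 4) * τ) := by ring
      rw [this, abs_neg]
    have n1 : τ ^ 2 / 4 ≤ ‖y τ - y 0‖ ^ 2 := by
      have := pow_le_pow_left₀ (by positivity) (hB2.trans (hcoord τ)) 2
      calc τ ^ 2 / 4 = (τ / 2) ^ 2 := by ring
        _ ≤ _ := this
    have n2 : τ ^ 2 / 4 ≤ ‖y (-τ) - y 0‖ ^ 2 := by
      have h7 : τ / 2 ≤ ‖y (-τ) - y 0‖ := by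
        have := hcoord (-τ)
        rw [hB3] at this
        exact hB2.trans this
      have := pow_le_pow_left₀ (by positivity) h7 2
      calc τ ^ 2 / 4 = (τ / 2) ^ 2 := by ring
        _ ≤ _ := this
    have hsum : (l (y 0) - l (y τ)) + (l (y 0) - l (y (-τ))) = 32 * τ ^ 4 * (t * l e0) := by
      simp only [hy, hA, hB, map_add, map_smul, smul_eq_mul]
      ring
    have m1 : ε * (τ ^ 2 / 4) ≤ ε * ‖y τ - y 0‖ ^ 2 := mul_le_mul_of_nonneg_left n1 hε.le
    have m2 : ε * (τ ^ 2 / 4) ≤ ε * ‖y (-τ) - y 0‖ ^ 2 := mul_le_mul_of_nonneg_left n2 hε.le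
    have hfin : ε * (τ ^ 2 / 2) ≤ 32 * τ ^ 4 * (t * l e0) := by
      rw [← hsum]
      linarith
    have hτ2 : 0 < τ ^ 2 := by positivity
    have h8 : ε ≤ 64 * τ ^ 2 * (t * l e0) := by
      have h9 : τ ^ 2 * ε ≤ τ ^ 2 * (64 * τ ^ 2 * (t * l e0)) := by
        nlinarith
      exact le_of_mul_le_mul_left h9 hτ2
    linarith

end MP80b30d
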