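import Pool.Agent.Lib.MP_80b30d_gt.NNotA
import Pool.Agent.Lib.MP_80b30d_gt.NNotB

/-! MP_80b30d_gt: not an ellipsoid. -/

namespace MP80b30d

open Set Filter Topology Metric

variable {n : ℕ}

theorem Kb_not_ellipsoid (hn : 2 ≤ n) : ¬ IsEllipsoid (Kb n) := by
  intro h
  obtain ⟨p, hp, hs⟩ := Kb_not_strong hn
  exact hs (ellipsoid_strong h hp)

end MP80b30d
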