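import Pool.Agent.Lib.MP_80b30d_gt.NShadow
import Pool.Agent.Lib.MP_80b30d_gt.NInd
import Pool.Agent.Lib.MP_80b30d_gt.NCombA
import Pool.Agent.Lib.MP_80b30d_gt.NCombB
import Pool.Agent.Lib.MP_80b30d_gt.NCombC
import Pool.Agent.Lib.MP_80b30d_gt.NNot
import Pool.Agent.Lib.MP_80b30d_gt.NDense

/-! MP_80b30d_gt, second part: the bodies `Kb n` have many lights at the general boundary point. -/

namespace MP80b30d

open Set Filter Topology Metric

variable {n : ℕ}

theorem nlights_of_comb (hn : 2 ≤ n) {N : ℕ} {e : Fin N → Fin (n + 1) × Fin (n + 1)}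
    (he : Comb e) {p : E n} (hp : p ∈ frontier (Kb n)) (hg : Gen p) : NLights (Kb n) N p := by
  obtain ⟨h0, h1⟩ := (mem_frontier_Kb (by omega)).1 hp
  have hpK : p ∈ Kb n := ⟨h0.le, h1.le⟩
  refine ⟨fun a => lt (e a).1 (e a).2 p, fun a => ⟨?_, ?_⟩, fun s hs => ?_, fun a => ?_⟩
  · exact mem_tangent_Kb (by omega) hp (G_lt (by omega) (he.1 a) hg)
  · exact lt_not_mem hn (he.1 a) hpK hg
  · exact ind_of_comb hn he h0 h1 hg s hs
  · exact flat_Kb hn (he.1 a) _

/-- the negative part -/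
theorem many_lights {n N : ℕ} (hn : 3 ≤ n) (hN : N ≤ n + 1 ∨ (n ≤ 4 ∧ N ≤ 6)) :
    ∃ K : Set (E n), Convex ℝ K ∧ IsCompact K ∧ (interior K).Nonempty ∧ SmoothBoundary K ∧
      ¬ IsEllipsoid K ∧ ∃ (M : ℕ) (L : Fin M → (E n →L[ℝ] ℝ)) (c : Fin M → ℝ), (∀ i, L i ≠ 0) ∧
        frontier K ⊆ closure {p | p ∈ frontier K ∧ ∀ i, L i p ≠ c i} ∧
        ∀ p ∈ frontier K, (∀ i, L i p ≠ c i) → NLights K N p := by
  obtain ⟨M, L, c, hL, hgen⟩ := gen_hyperplanes (n := n) (by omega)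
  refine ⟨Kb n, Kb_convex n, Kb_compact (by omega), ⟨0, Kb_interior n⟩, Kb_smooth (by omega),
    Kb_not_ellipsoid (by omega), M, L, c, hL, dense_off_hyperplanes (by omega) L c hL, ?_⟩
  intro p hp hi
  have hg := hgen p hi
  rcases hN with hN | ⟨h4, hN⟩
  · exact nlights_mono hN (nlights_of_comb (by omega) (comb_cycle hn) hp hg)
  · rcases Nat.lt_or_ge n 4 with h | h
    · have h3 : n = 3 := by omega
      subst h3
      exact nlights_mono hN (nlights_of_comb (by omega) comb_K4 hp hg)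
    · have h4' : n = 4 := by omega
      subst h4'
      exact nlights_mono hN (nlights_of_comb (by omega) comb_K23 hp hg)

end MP80b30d
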