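import Pool.Agent.Lib.MP_80b30d_gt.NDefs

/-! MP_80b30d_gt: ellipsoids are strongly curved. -/

namespace MP80b30d

open Set Filter Topology Metric

variable {n : ℕ}

/-- Paper proof: `p = A s + c`, `‖s‖ = 1`; for `y = A z + c`, `‖z‖ ≤ 1`:
`l p - l y = 2 - 2 ⟪s, z⟫ ≥ ‖z - s‖²` for `l y = 2 ⟪s, A⁻¹ y⟫`, and `‖z - s‖ ≥ ‖y - p‖ / ‖A‖`. -/
theorem ellipsoid_strong {K : Set (E n)} (hK : IsEllipsoid K) {p : E n} (hp : p ∈ frontier K) :
    Strong K p := by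
  obtain ⟨A, c, rfl⟩ := hK
  have hfr : frontier ((fun x => A x + c) '' closedBall (0 : E n) 1) =
      (fun x => A x + c) '' sphere (0 : E n) 1 := by
    have h1 := (A.toHomeomorph.trans (Homeomorph.addRight c)).image_frontier (closedBall (0 : E n) 1)
    rw [frontier_closedBall (0 : E n) (one_ne_zero)] at h1
    exact h1.symm
  rw [hfr] at hp
  obtain ⟨s, hs, rfl⟩ := hp
  have hs1 : ‖s‖ = 1 := by simpa using hs
  refine ⟨(2 : ℝ) • (innerSL ℝ s).comp (A.symm : E n →L[ℝ] E n),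
    1 / (‖(A : E n →L[ℝ] E n)‖ + 1) ^ 2, by positivity, Filter.Eventually.of_forall ?_⟩
  rintro y ⟨z, hz, rfl⟩
  have hz1 : ‖z‖ ≤ 1 := by simpa using hz
  have e1 : ((2 : ℝ) • (innerSL ℝ s).comp (A.symm : E n →L[ℝ] E n)) (A s + c) -
      ((2 : ℝ) • (innerSL ℝ s).comp (A.symm : E n →L[ℝ] E n)) (A z + c) =
      2 * (inner ℝ s s - inner ℝ s z) := by
    simp only [ContinuousLinearMap.smul_apply, ContinuousLinearMap.comp_apply, map_add,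
      smul_eq_mul, innerSL_apply_apply, ContinuousLinearEquiv.coe_coe,
      ContinuousLinearEquiv.symm_apply_apply, inner_add_right]
    ring
  have e2 : (fun x => A x + c) z - (fun x => A x + c) s = (A : E n →L[ℝ] E n) (z - s) := by
    simp
  rw [e1, e2]
  have h3 : ‖(A : E n →L[ℝ] E n) (z - s)‖ ≤ (‖(A : E n →L[ℝ] E n)‖ + 1) * ‖z - s‖ := by
    refine ((A : E n →L[ℝ] E n).le_opNorm (z - s)).trans ?_
    nlinarith [norm_nonneg (z - s)]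
  have h4 : ‖(A : E n →L[ℝ] E n) (z - s)‖ ^ 2 ≤
      (‖(A : E n →L[ℝ] E n)‖ + 1) ^ 2 * ‖z - s‖ ^ 2 := by
    rw [← mul_pow]
    exact pow_le_pow_left₀ (norm_nonneg _) h3 2
  have h5 : ‖z - s‖ ^ 2 ≤ 2 * (inner ℝ s s - inner ℝ s z) := by
    rw [norm_sub_sq_real, real_inner_self_eq_norm_sq, hs1, real_inner_comm z s]
    nlinarith [norm_nonneg z]
  have hpos : (0 : ℝ) < (‖(A : E n →L[ℝ] E n)‖ + 1) ^ 2 := by positivity
  rw [div_mul_eq_mul_div, one_mul, div_le_iff₀ hpos]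
  calc ‖(A : E n →L[ℝ] E n) (z - s)‖ ^ 2 ≤ (‖(A : E n →L[ℝ] E n)‖ + 1) ^ 2 * ‖z - s‖ ^ 2 := h4
    _ = ‖z - s‖ ^ 2 * (‖(A : E n →L[ℝ] E n)‖ + 1) ^ 2 := by ring
    _ ≤ 2 * (inner ℝ s s - inner ℝ s z) * (‖(A : E n →L[ℝ] E n)‖ + 1) ^ 2 :=
        mul_le_mul_of_nonneg_right h5 hpos.le

end MP80b30d
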