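import Pool.Agent.Lib.MP_80b30d_gt.NBody

/-! MP_80b30d_gt: shadow boundaries. -/

namespace MP80b30d

open Set Filter Topology Metric

variable {n : ℕ}

private theorem nshadowB_X0_line (x u : E n) (t : ℝ) :
    X0 (u + t • (x - u)) = X0 u + t * (X0 x - X0 u) := by
  have h1 : ∑ i, (u + t • (x - u)) i = ∑ i, u i + t * (∑ i, x i - ∑ i, u i) := by
    rw [← Finset.sum_sub_distrib, Finset.mul_sum, ← Finset.sum_add_distrib]
    exact Finset.sum_congr rfl fun i _ => by simp
  unfold X0
  rw [h1]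
  ring

/-- Paper proof: if `G x u ≠ 0`, the derivative of `F = ∑ x_i^4 - X0^4` at `x` in the direction
`x - u` is `- 4 G x u ≠ 0`, so `F (u + t (x - u)) < 0` for some `t` near `1`, which is then an
interior point of `Kb n` on the ray. -/
theorem shadow_Kb (hn : 1 ≤ n) {x u : E n} (hx : x ∈ shadow (Kb n) u) : G x u = 0 := by
  obtain ⟨hfr, hray⟩ := hx
  obtain ⟨hpos, heq⟩ := (mem_frontier_Kb hn).1 hfr
  -- the function along the ray
  set φ : ℝ → ℝ := fun t => ∑ i, (u i + t * (x i - u i)) ^ 4 - (X0 u + t * (X0 x - X0 u)) ^ 4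
    with hφ
  have hφ1 : φ 1 = 0 := by
    have h1 : ∑ i, (u i + 1 * (x i - u i)) ^ 4 = ∑ i, x i ^ 4 :=
      Finset.sum_congr rfl fun i _ => by ring
    simp only [hφ]
    rw [h1, heq]
    ring
  have hderiv : HasDerivAt φ (-4 * G x u) 1 := by
    have h1 : ∀ i ∈ (Finset.univ : Finset (Fin n)),
        HasDerivAt (fun t : ℝ => (u i + t * (x i - u i)) ^ 4) (4 * x i ^ 3 * (x i - u i)) 1 := by
      intro i _
      have h2 : HasDerivAt (fun t : ℝ => u i + t * (x i - u i)) (x i - u i) 1 := by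
        simpa using ((hasDerivAt_id (1 : ℝ)).mul_const (x i - u i)).const_add (u i)
      have h3 := h2.pow 4
      refine h3.congr_deriv ?_
      have h4 : u i + 1 * (x i - u i) = x i := by ring
      rw [h4]
      norm_num
    have h5 : HasDerivAt (fun t : ℝ => (X0 u + t * (X0 x - X0 u)) ^ 4)
        (4 * X0 x ^ 3 * (X0 x - X0 u)) 1 := by
      have h2 : HasDerivAt (fun t : ℝ => X0 u + t * (X0 x - X0 u)) (X0 x - X0 u) 1 := by
        simpa using ((hasDerivAt_id (1 : ℝ)).mul_const (X0 x - X0 u)).const_add (X0 u)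
      have h3 := h2.pow 4
      refine h3.congr_deriv ?_
      have h4 : X0 u + 1 * (X0 x - X0 u) = X0 x := by ring
      rw [h4]
      norm_num
    have h6 := (HasDerivAt.fun_sum h1).sub h5
    refine h6.congr_deriv ?_
    have h7 : ∑ i, 4 * x i ^ 3 * (x i - u i) = 4 * ∑ i, x i ^ 4 - 4 * ∑ i, x i ^ 3 * u i := by
      rw [Finset.mul_sum, Finset.mul_sum, ← Finset.sum_sub_distrib]
      exact Finset.sum_congr rfl fun i _ => by ring
    rw [h7, heq]
    unfold G
    ring
  have hmin : IsLocalMin φ 1 := by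
    have hc : Continuous fun t : ℝ => X0 u + t * (X0 x - X0 u) := by fun_prop
    have h1 : ∀ᶠ t in 𝓝 (1 : ℝ), 0 < X0 u + t * (X0 x - X0 u) := by
      refine hc.continuousAt.eventually (lt_mem_nhds ?_)
      have h4 : X0 u + 1 * (X0 x - X0 u) = X0 x := by ring
      change 0 < X0 u + 1 * (X0 x - X0 u)
      rw [h4]
      exact hpos
    have h2 : ∀ᶠ t in 𝓝 (1 : ℝ), 0 < t := lt_mem_nhds one_pos
    filter_upwards [h1, h2] with t ht ht0
    rw [hφ1]
    by_contra hlt
    rw [not_le] at hlt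
    apply hray t ht0.le
    apply mem_interior_Kb
    · rw [nshadowB_X0_line]
      exact ht
    · rw [nshadowB_X0_line]
      have h3 : ∑ i, (u + t • (x - u)) i ^ 4 = ∑ i, (u i + t * (x i - u i)) ^ 4 :=
        Finset.sum_congr rfl fun i _ => by simp
      rw [h3]
      exact sub_neg.1 hlt
  have := hmin.hasDerivAt_eq_zero hderiv
  linarith

end MP80b30d
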