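import Pool.Agent.Lib.MP_80b30d_gt.NShadowA
import Pool.Agent.Lib.MP_80b30d_gt.NShadowB

/-! MP_80b30d_gt: flat shadow boundaries. -/

namespace MP80b30d

open Set Filter Topology Metric

variable {n : ℕ}

private noncomputable def nshL (k : Fin (n + 1)) : E n →L[ℝ] ℝ :=
  Fin.cases (-(1 / (2 * (n : ℝ))) • ∑ i : Fin n, EuclideanSpace.proj (𝕜 := ℝ) i)
    (fun i => EuclideanSpace.proj (𝕜 := ℝ) i) k

private theorem nsh_X (k : Fin (n + 1)) (x : E n) : X k x = nshL k x + X k (0 : E n) := by
  refine Fin.cases ?_ (fun k => ?_) k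
  · simp [X, X0, nshL]
    ring
  · simp [X, nshL]

private theorem nsh_XV (hn : 1 ≤ n) (k l : Fin (n + 1)) :
    X k (Vx l) = if k = l then cc k else 0 := by
  have hn' : (n : ℝ) ≠ 0 := by
    have : (1 : ℝ) ≤ n := by exact_mod_cast hn
    intro h
    rw [h] at this
    norm_num at this
  refine Fin.cases ?_ (fun k => ?_) k
  · refine Fin.cases ?_ (fun l => ?_) l
    · simp [X, X0, Vx, cc]
    · rw [if_neg (Fin.succ_ne_zero l).symm]
      simp only [X, X0, Vx, Fin.cases_zero, Fin.cases_succ, PiLp.single_apply,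
        Finset.sum_ite_eq', Finset.mem_univ, if_true]
      field_simp
      ring
  · refine Fin.cases ?_ (fun l => ?_) l
    · rw [if_neg (Fin.succ_ne_zero k)]
      simp [X, Vx]
    · by_cases h : k = l
      · subst h
        simp [X, Vx, cc]
      · rw [if_neg (fun h' => h (Fin.succ_injective _ h'))]
        simp [X, Vx, h]

private theorem nsh_GV (hn : 1 ≤ n) (x : E n) (i : Fin (n + 1)) :
    G x (Vx i) = cc i * Y i x := by
  have h0 : ∀ l : Fin (n + 1), X0 (Vx l : E n) = if (0 : Fin (n + 1)) = l then cc 0 else 0 :=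
    fun l => nsh_XV hn 0 l
  unfold G
  rw [h0]
  refine Fin.cases ?_ (fun i => ?_) i
  · simp [Vx, cc, Y]
  · rw [if_neg (Fin.succ_ne_zero i).symm]
    simp only [Vx, Fin.cases_succ, PiLp.single_apply, mul_ite, mul_zero,
      Finset.sum_ite_eq', Finset.mem_univ, if_true, cc, Y, sub_zero]
    ring

private theorem nsh_G (x a b : E n) (s : ℝ) :
    G x (s • a + (1 - s) • b) = s * G x a + (1 - s) * G x b := by
  unfold G X0
  have h1 : ∑ i, x i ^ 3 * (s • a + (1 - s) • b : E n) i =
      s * ∑ i, x i ^ 3 * a i + (1 - s) * ∑ i, x i ^ 3 * b i := by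
    rw [Finset.mul_sum, Finset.mul_sum, ← Finset.sum_add_distrib]
    refine Finset.sum_congr rfl fun i _ => ?_
    simp only [PiLp.add_apply, PiLp.smul_apply, smul_eq_mul]
    ring
  have h2 : ∑ i, (s • a + (1 - s) • b : E n) i = s * ∑ i, a i + (1 - s) * ∑ i, b i := by
    rw [Finset.mul_sum, Finset.mul_sum, ← Finset.sum_add_distrib]
    refine Finset.sum_congr rfl fun i _ => ?_
    simp only [PiLp.add_apply, PiLp.smul_apply, smul_eq_mul]
  rw [h1, h2]
  ring

private theorem nsh_cube (a : ℝ) : ∃ α : ℝ, α ^ 3 = a := by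
  rcases le_total 0 a with h | h
  · exact ⟨a ^ (((3 : ℕ) : ℝ)⁻¹), Real.rpow_inv_natCast_pow h (by norm_num)⟩
  · refine ⟨-((-a) ^ (((3 : ℕ) : ℝ)⁻¹)), ?_⟩
    have h1 : ((-a) ^ (((3 : ℕ) : ℝ)⁻¹)) ^ 3 = -a :=
      Real.rpow_inv_natCast_pow (by linarith) (by norm_num)
    rw [Odd.neg_pow (by decide), h1, neg_neg]

private theorem nsh_cube_inj {a b : ℝ} (h : a ^ 3 = b ^ 3) : a = b :=
  (Odd.strictMono_pow (by decide : Odd 3)).injective h

private theorem nsh_Y (k : Fin (n + 1)) : ∃ ε : ℝ, ε ^ 2 = 1 ∧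
    ∀ x : E n, Y k x = (ε * X k x) ^ 3 := by
  refine Fin.cases ?_ (fun k => ?_) k
  · refine ⟨-1, by norm_num, fun x => ?_⟩
    simp only [Y, X, Fin.cases_zero]
    ring
  · refine ⟨1, by norm_num, fun x => ?_⟩
    simp only [Y, X, Fin.cases_succ]
    ring

/-- Paper proof: `G x u = Y i x * (s cc i) + Y j x * ((1 - s) cc j)` for `u = s Vx i + (1-s) Vx j`, so
it vanishes iff a linear relation between `X i x` and `X j x` (real cube roots) holds, not trivial
as `s`, `1 - s` are not both zero; the linear parts of `X i` and `X j` are independent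
(`n ≥ 2`). -/
theorem flat_Kb (hn : 2 ≤ n) {i j : Fin (n + 1)} (hij : i ≠ j) (s : ℝ) :
    ∃ (L : E n →L[ℝ] ℝ) (c : ℝ), L ≠ 0 ∧
      shadow (Kb n) (s • Vx i + (1 - s) • Vx j) ⊆ {x | L x = c} := by
  have hn1 : 1 ≤ n := by omega
  have hcc : ∀ k : Fin (n + 1), (cc k : ℝ) ≠ 0 := by
    intro k
    refine Fin.cases ?_ (fun k => ?_) k
    · simp [cc]
    · have : (1 : ℝ) ≤ n := by exact_mod_cast hn1
      simp only [cc, Fin.cases_succ]
      positivity
  obtain ⟨α, hα⟩ := nsh_cube (s * cc i)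
  obtain ⟨β, hβ⟩ := nsh_cube ((1 - s) * cc j)
  obtain ⟨εi, hεi, hYi⟩ := nsh_Y (n := n) i
  obtain ⟨εj, hεj, hYj⟩ := nsh_Y (n := n) j
  refine ⟨(α * εi) • nshL i + (β * εj) • nshL j,
    -(α * εi * X i (0 : E n) + β * εj * X j (0 : E n)), ?_, ?_⟩
  · intro hL
    obtain ⟨l, hli, hlj⟩ : ∃ l : Fin (n + 1), l ≠ i ∧ l ≠ j := by
      have h1 : ({i, j} : Finset (Fin (n + 1))).card < (Finset.univ : Finset (Fin (n + 1))).card := by
        have := Finset.card_le_two (a := i) (b := j)
        rw [Finset.card_univ, Fintype.card_fin]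
        omega
      obtain ⟨l, -, hl⟩ := Finset.exists_mem_notMem_of_card_lt_card h1
      rw [Finset.mem_insert, Finset.mem_singleton, not_or] at hl
      exact ⟨l, hl.1, hl.2⟩
    have hA : ∀ x y : E n, α * εi * X i x + β * εj * X j x =
        α * εi * X i y + β * εj * X j y := by
      intro x y
      have hx := congrArg (fun F : E n →L[ℝ] ℝ => F x) hL
      have hy := congrArg (fun F : E n →L[ℝ] ℝ => F y) hL
      simp only [ContinuousLinearMap.add_apply, ContinuousLinearMap.smul_apply, smul_eq_mul,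
        ContinuousLinearMap.zero_apply] at hx hy
      rw [nsh_X i x, nsh_X j x, nsh_X i y, nsh_X j y]
      linear_combination hx - hy
    have h1 := hA (Vx i) (Vx l)
    have h2 := hA (Vx j) (Vx l)
    rw [nsh_XV hn1, nsh_XV hn1, nsh_XV hn1, nsh_XV hn1, if_pos rfl, if_neg hij.symm,
      if_neg hli.symm, if_neg hlj.symm] at h1
    rw [nsh_XV hn1, nsh_XV hn1, nsh_XV hn1, nsh_XV hn1, if_pos rfl, if_neg hij,
      if_neg hli.symm, if_neg hlj.symm] at h2
    have hεi0 : εi ≠ 0 := by
      rintro rfl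
      norm_num at hεi
    have hεj0 : εj ≠ 0 := by
      rintro rfl
      norm_num at hεj
    have hα0 : α = 0 := by
      have h3 : α * εi * cc i = 0 := by linear_combination h1
      rcases mul_eq_zero.mp h3 with h4 | h4
      · rcases mul_eq_zero.mp h4 with h5 | h5
        · exact h5
        · exact absurd h5 hεi0
      · exact absurd h4 (hcc i)
    have hβ0 : β = 0 := by
      have h3 : β * εj * cc j = 0 := by linear_combination h2
      rcases mul_eq_zero.mp h3 with h4 | h4
      · rcases mul_eq_zero.mp h4 with h5 | h5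
        · exact h5
        · exact absurd h5 hεj0
      · exact absurd h4 (hcc j)
    rw [hα0] at hα
    rw [hβ0] at hβ
    have hs : s = 0 := by
      have h3 : s * cc i = 0 := by rw [← hα]; norm_num
      exact (mul_eq_zero.mp h3).resolve_right (hcc i)
    have hs' : 1 - s = 0 := by
      have h3 : (1 - s) * cc j = 0 := by rw [← hβ]; norm_num
      exact (mul_eq_zero.mp h3).resolve_right (hcc j)
    linarith
  · intro x hx
    have hG := shadow_Kb hn1 hx
    rw [nsh_G, nsh_GV hn1, nsh_GV hn1, hYi, hYj] at hG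
    have h1 : (α * (εi * X i x)) ^ 3 = (-(β * (εj * X j x))) ^ 3 := by
      have h2 : (α * (εi * X i x)) ^ 3 = s * cc i * (εi * X i x) ^ 3 := by
        rw [mul_pow, hα]
      have h3 : (-(β * (εj * X j x))) ^ 3 = -((1 - s) * cc j * (εj * X j x) ^ 3) := by
        rw [neg_pow, mul_pow, hβ]
        ring
      rw [h2, h3]
      linear_combination hG
    have h4 := nsh_cube_inj h1
    show ((α * εi) • nshL i + (β * εj) • nshL j) x =
      -(α * εi * X i (0 : E n) + β * εj * X j (0 : E n))
    simp only [ContinuousLinearMap.add_apply, ContinuousLinearMap.smul_apply, smul_eq_mul]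
    rw [nsh_X i x, nsh_X j x] at h4
    linear_combination h4

end MP80b30d
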