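import Pool.Agent.Lib.MP_80b30d_gt.NBody

/-! MP_80b30d_gt: tangent hyperplanes. -/

namespace MP80b30d

open Set Filter Topology Metric

variable {n : ℕ}

/-- Paper proof: `l x = ∑ p_k³ x_k + (X0 p)³ (∑ x_i) / (2 n)`, so `G p x = l x - (X0 p)³`;
`G p y ≤ 0 = G p p` on `Kb n`; `l ≠ 0` since `G p 0 < 0`. -/
theorem mem_tangent_Kb (hn : 1 ≤ n) {p u : E n} (hp : p ∈ frontier (Kb n)) (hu : G p u = 0) :
    u ∈ tangentPlane (Kb n) p := by
  obtain ⟨h0, h4⟩ := (mem_frontier_Kb hn).mp hp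
  set l : E n →L[ℝ] ℝ :=
    ∑ k : Fin n, (p k ^ 3 + X0 p ^ 3 / (2 * n)) • (EuclideanSpace.proj k : E n →L[ℝ] ℝ) with hl
  have hlx : ∀ x : E n, l x = G p x + X0 p ^ 3 := by
    intro x
    have h1 : l x = ∑ k : Fin n, (p k ^ 3 + X0 p ^ 3 / (2 * n)) * x k := by
      rw [hl, ContinuousLinearMap.sum_apply]
      refine Finset.sum_congr rfl fun k _ => ?_
      rw [ContinuousLinearMap.smul_apply]
      rfl
    rw [h1]
    unfold G
    have h2 : X0 x = 1 - (∑ i, x i) / (2 * n) := rfl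
    rw [h2]
    simp only [add_mul, Finset.sum_add_distrib]
    rw [← Finset.mul_sum]
    ring
  have hGp : G p p = 0 := by
    unfold G
    have h1 : ∑ i, p i ^ 3 * p i = ∑ i, p i ^ 4 :=
      Finset.sum_congr rfl fun i _ => by ring
    rw [h1, h4]
    ring
  refine ⟨l, ?_, ?_, ?_⟩
  · intro h
    have h1 := hlx p
    rw [h, hGp, zero_add] at h1
    have h2 : 0 < X0 p ^ 3 := by positivity
    rw [← h1] at h2
    simp at h2
  · intro y hy
    rw [hlx, hlx, hGp]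
    by_cases hyp : y = p
    · rw [hyp, hGp]
    · have := G_neg hn (p := p) ⟨h0.le, h4.le⟩ hy hyp
      linarith
  · rw [hlx, hlx, hGp, hu]

end MP80b30d
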