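import Pool.Agent.Lib.MP_80b30d_gt.NBasic

/-! MP_80b30d_gt: the key inequality. -/

namespace MP80b30d

open Set Filter Topology Metric

variable {n : ℕ}

private theorem NYoung_nonneg (P Q : ℝ) : 0 ≤ 3 * P ^ 4 + Q ^ 4 - 4 * (P ^ 3 * Q) := by
  have h : 3 * P ^ 4 + Q ^ 4 - 4 * (P ^ 3 * Q) = (P - Q) ^ 2 * (2 * P ^ 2 + (P + Q) ^ 2) := by ring
  rw [h]
  positivity

private theorem NYoung_eq {P Q : ℝ} (h : 3 * P ^ 4 + Q ^ 4 - 4 * (P ^ 3 * Q) = 0) : P = Q := by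
  have h1 : (P - Q) ^ 2 * (2 * P ^ 2 + (P + Q) ^ 2) = 0 := by rw [← h]; ring
  rcases mul_eq_zero.1 h1 with h2 | h2
  · have := pow_eq_zero_iff (two_ne_zero) |>.1 h2
    linarith
  · have h3 : P ^ 2 = 0 := by nlinarith [sq_nonneg P, sq_nonneg (P + Q)]
    have h4 : P = 0 := pow_eq_zero_iff (two_ne_zero) |>.1 h3
    have h5 : (P + Q) ^ 2 = 0 := by nlinarith [sq_nonneg P, sq_nonneg (P + Q)]
    have h6 : P + Q = 0 := pow_eq_zero_iff (two_ne_zero) |>.1 h5
    linarith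

/-- the key inequality (Young): for `p`, `y` in `Kb n`, `G p y ≤ 0`, with equality only if `y = p`
and `p` is on the boundary. Paper proof: with `a = X0 p`, `b = X0 y > 0`, sum
`(p_k/a)³ (y_k/b) ≤ (3/4) (p_k/a)^4 + (1/4) (y_k/b)^4`, equality iff `p_k/a = y_k/b`; then
`y = (b/a) p` and `X0 y = b` gives `a = b`. -/
theorem G_neg (hn : 1 ≤ n) {p y : E n} (hp : p ∈ Kb n) (hy : y ∈ Kb n) (hne : y ≠ p) :
    G p y < 0 := by
  have ha := X0_pos_of_mem hn hp
  have hb := X0_pos_of_mem hn hy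
  obtain ⟨a, hadef⟩ : ∃ a, a = X0 p := ⟨_, rfl⟩
  obtain ⟨b, hbdef⟩ : ∃ b, b = X0 y := ⟨_, rfl⟩
  have hp2 : ∑ i, p i ^ 4 ≤ a ^ 4 := by rw [hadef]; exact hp.2
  have hy2 : ∑ i, y i ^ 4 ≤ b ^ 4 := by rw [hbdef]; exact hy.2
  rw [← hadef] at ha
  rw [← hbdef] at hb
  by_contra hcon
  rw [not_lt] at hcon
  unfold G at hcon
  rw [← hadef, ← hbdef] at hcon
  have s1 : ∑ i, (p i / a) ^ 4 ≤ 1 := by
    simp only [div_pow]
    rw [← Finset.sum_div, div_le_one (by positivity)]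
    exact hp2
  have s2 : ∑ i, (y i / b) ^ 4 ≤ 1 := by
    simp only [div_pow]
    rw [← Finset.sum_div, div_le_one (by positivity)]
    exact hy2
  have s3 : 1 ≤ ∑ i, (p i / a) ^ 3 * (y i / b) := by
    have h1 : ∑ i, (p i / a) ^ 3 * (y i / b) = (∑ i, p i ^ 3 * y i) / (a ^ 3 * b) := by
      rw [Finset.sum_div]
      refine Finset.sum_congr rfl fun i _ => ?_
      rw [div_pow, div_mul_div_comm]
    rw [h1, le_div_iff₀ (by positivity), one_mul]
    linarith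
  have s4 : ∑ i, (3 * (p i / a) ^ 4 + (y i / b) ^ 4 - 4 * ((p i / a) ^ 3 * (y i / b))) ≤ 0 := by
    rw [Finset.sum_sub_distrib, Finset.sum_add_distrib, ← Finset.mul_sum, ← Finset.mul_sum]
    linarith
  have s5 : ∀ i, p i / a = y i / b := by
    intro i
    have h1 : ∑ i, (3 * (p i / a) ^ 4 + (y i / b) ^ 4 - 4 * ((p i / a) ^ 3 * (y i / b))) = 0 :=
      le_antisymm s4 (Finset.sum_nonneg fun i _ => NYoung_nonneg _ _)
    have h2 := (Finset.sum_eq_zero_iff_of_nonneg fun i _ => NYoung_nonneg _ _).1 h1 i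
      (Finset.mem_univ i)
    exact NYoung_eq h2
  have s6 : ∀ i, y i = b / a * p i := by
    intro i
    have h1 := s5 i
    rw [div_eq_div_iff ha.ne' hb.ne'] at h1
    rw [div_mul_eq_mul_div, eq_div_iff ha.ne']
    linarith
  have hn0 : (0 : ℝ) < 2 * n := by
    have : (0 : ℝ) < n := by exact_mod_cast hn
    linarith
  have e1 : a = 1 - (∑ i, p i) / (2 * n) := hadef
  have e2 : b = 1 - (∑ i, y i) / (2 * n) := hbdef
  have e3 : ∑ i, y i = b / a * ∑ i, p i := by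
    rw [Finset.mul_sum]
    exact Finset.sum_congr rfl fun i _ => s6 i
  obtain ⟨S, hS⟩ : ∃ S, S = (∑ i, p i) / (2 * n) := ⟨_, rfl⟩
  rw [← hS] at e1
  have e4 : (∑ i, y i) / (2 * n) = b / a * S := by
    rw [e3, hS, mul_div_assoc]
  rw [e4] at e2
  have e5 : a * b = a - b * S := by
    have : a * b = a * (1 - b / a * S) := by rw [← e2]
    rw [this]
    field_simp
  have e6 : a = b := by
    have : S = 1 - a := by linarith
    rw [this] at e5
    linarith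
  apply hne
  ext i
  rw [s6 i, e6, div_self hb.ne', one_mul]

end MP80b30d
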