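import Mathlib

/-! MP_80b30d_gt, third part: algebra in dimension at least three. -/

namespace MP80b30d

variable {W : Type*} [AddCommGroup W] [Module ℝ W]

private theorem pa_polar2 {H : W →ₗ[ℝ] W →ₗ[ℝ] ℝ} (hH : ∀ x y, H x y = H y x)
    {C : W →ₗ[ℝ] W →ₗ[ℝ] W →ₗ[ℝ] ℝ} (hC23 : ∀ x y z, C x y z = C x z y) {a : W}
    {κ : ℝ} (hκ : ∀ w, H a w = 0 → C a w w = κ * H w w) {x y : W} (hx : H a x = 0)
    (hy : H a y = 0) : C a x y = κ * H x y := by
  have h1 := hκ (x + y) (by rw [map_add, hx, hy, add_zero])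
  have h2 := hκ x hx
  have h3 := hκ y hy
  simp only [map_add, LinearMap.add_apply] at h1
  rw [hC23 a y x, hH y x] at h1
  linarith

private theorem pa_polar3 {H : W →ₗ[ℝ] W →ₗ[ℝ] ℝ} (hH : ∀ x y, H x y = H y x)
    {C : W →ₗ[ℝ] W →ₗ[ℝ] W →ₗ[ℝ] ℝ} (hC12 : ∀ x y z, C x y z = C y x z)
    (hC23 : ∀ x y z, C x y z = C x z y) {a : W}
    (h3 : ∀ b, H a b = 0 → C b b b * H a a = 3 * C a a b * H b b) {x y z : W} (hx : H a x = 0)
    (hy : H a y = 0) (hz : H a z = 0) :
    C x y z * H a a = C a a x * H y z + C a a y * H x z + C a a z * H x y := by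
  have sym : ∀ u v : W, C u v u = C u u v ∧ C v u u = C u u v := by
    intro u v
    have e1 := hC23 u v u
    have e2 := hC12 v u u
    exact ⟨e1, e2.trans e1⟩
  have exx := h3 x hx
  have eyy := h3 y hy
  have ezz := h3 z hz
  have exy := h3 (x + y) (by rw [map_add, hx, hy, add_zero])
  have exz := h3 (x + z) (by rw [map_add, hx, hz, add_zero])
  have eyz := h3 (y + z) (by rw [map_add, hy, hz, add_zero])
  have exyz := h3 (x + y + z) (by rw [map_add, map_add, hx, hy, hz, add_zero, add_zero])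
  simp only [map_add, LinearMap.add_apply] at exy exz eyz exyz
  have p1 : C x z y = C x y z := (hC23 x y z).symm
  have p2 : C y x z = C x y z := (hC12 x y z).symm
  have p3 : C y z x = C x y z := (hC23 y x z).symm.trans p2
  have p4 : C z x y = C x y z := (hC12 x z y).symm.trans p1
  have p5 : C z y x = C x y z := (hC23 z x y).symm.trans p4
  rw [(sym x y).1, (sym x y).2, (sym y x).1, (sym y x).2, hH y x] at exy
  rw [(sym x z).1, (sym x z).2, (sym z x).1, (sym z x).2, hH z x] at exz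
  rw [(sym y z).1, (sym y z).2, (sym z y).1, (sym z y).2, hH z y] at eyz
  rw [(sym x y).1, (sym x y).2, (sym y x).1, (sym y x).2, hH y x,
    (sym x z).1, (sym x z).2, (sym z x).1, (sym z x).2, hH z x,
    (sym y z).1, (sym y z).2, (sym z y).1, (sym z y).2, hH z y, p1, p2, p3, p4, p5] at exyz
  linear_combination (1 / 6 : ℝ) * (exyz - exy - exz - eyz + exx + eyy + ezz)

private theorem pa_split {H : W →ₗ[ℝ] W →ₗ[ℝ] ℝ} {a : W} (haa : H a a ≠ 0) (h : W) :
    ∃ (s : ℝ) (h' : W), H a h' = 0 ∧ h = s • a + h' := by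
  refine ⟨H a h / H a a, h - (H a h / H a a) • a, ?_, by abel⟩
  rw [map_sub, map_smul, smul_eq_mul]
  field_simp
  ring

private theorem pa_two [FiniteDimensional ℝ W] (hdim : 3 ≤ Module.finrank ℝ W)
    (H : W →ₗ[ℝ] W →ₗ[ℝ] ℝ) (a a' : W) : ∃ x : W, x ≠ 0 ∧ H a x = 0 ∧ H a' x = 0 := by
  have h1 : LinearMap.ker ((H a).prod (H a')) ≠ ⊥ := by
    apply LinearMap.ker_ne_bot_of_finrank_lt
    rw [Module.finrank_prod, Module.finrank_self]
    omega
  obtain ⟨x, hx, hx0⟩ := Submodule.exists_mem_ne_zero_of_ne_bot h1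
  rw [LinearMap.mem_ker] at hx
  exact ⟨x, hx0, congrArg Prod.fst hx, congrArg Prod.snd hx⟩

private theorem pa_one {H : W →ₗ[ℝ] W →ₗ[ℝ] ℝ}
    (hpos : ∀ x, x ≠ 0 → 0 < H x x) {a a' : W} (hind : LinearIndependent ℝ ![a, a']) :
    ∃ w : W, H a' w = 0 ∧ H a w ≠ 0 := by
  have ha' : a' ≠ 0 := hind.ne_zero 1
  have h1 := hpos a' ha'
  obtain ⟨s, w, hw, hsw⟩ := pa_split (H := H) h1.ne' a
  refine ⟨w, hw, ?_⟩
  have hw0 : w ≠ 0 := by
    rintro rfl
    rw [add_zero] at hsw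
    have h2 := LinearIndependent.pair_iff.1 hind 1 (-s) (by rw [hsw]; module)
    exact one_ne_zero h2.1
  have h2 := hpos w hw0
  have h3 : H a w = H w w := by
    rw [hsw, map_add, LinearMap.add_apply, map_smul, LinearMap.smul_apply, hw, smul_zero,
      zero_add]
  rw [h3]
  exact h2.ne'

/-- Paper proof: `ω b = C a a b / H a a` for `b` orthogonal to `a`, `ω a = κ`, and
`c = (C a a a - 3 κ H a a) / (H a a)³`. Polarize `h3` on the orthogonal complement of `a`
(and `hκ`), and expand `h = s a + h'`, `h'` orthogonal to `a`. -/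
theorem cube_form (H : W →ₗ[ℝ] W →ₗ[ℝ] ℝ) (hH : ∀ x y, H x y = H y x)
    (hpos : ∀ x, x ≠ 0 → 0 < H x x) (C : W →ₗ[ℝ] W →ₗ[ℝ] W →ₗ[ℝ] ℝ)
    (hC12 : ∀ x y z, C x y z = C y x z) (hC23 : ∀ x y z, C x y z = C x z y) {a : W}
    (ha : a ≠ 0) {κ : ℝ} (hκ : ∀ w, H a w = 0 → C a w w = κ * H w w)
    (h3 : ∀ b, H a b = 0 → C b b b * H a a = 3 * C a a b * H b b) :
    ∃ (ω : W →ₗ[ℝ] ℝ) (c : ℝ), ∀ h k l, C h k l =
      ω h * H k l + ω k * H h l + ω l * H h k + c * (H a h * H a k * H a l) := by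
  have haa := (hpos a ha).ne'
  refine ⟨((κ / H a a - C a a a / H a a ^ 2) • H a) + (1 / H a a) • (C a a),
    (C a a a - 3 * κ * H a a) / H a a ^ 3, fun h k l => ?_⟩
  obtain ⟨s1, h, hh, rfl⟩ := pa_split (H := H) haa h
  obtain ⟨s2, k, hk, rfl⟩ := pa_split (H := H) haa k
  obtain ⟨s3, l, hl, rfl⟩ := pa_split (H := H) haa l
  have ph : H h a = 0 := by rw [hH, hh]
  have pk : H k a = 0 := by rw [hH, hk]
  have pl : H l a = 0 := by rw [hH, hl]
  have q1 : C a k a = C a a k := hC23 a k a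
  have q2 : C h a a = C a a h := (hC12 h a a).trans (hC23 a h a)
  have q3 : C h a l = C a h l := hC12 h a l
  have q4 : C h k a = C a h k := (hC23 h k a).trans (hC12 h a k)
  have r1 := pa_polar2 hH hC23 hκ hk hl
  have r2 := pa_polar2 hH hC23 hκ hh hl
  have r3 := pa_polar2 hH hC23 hκ hh hk
  have r4 : C h k l = (C a a h * H k l + C a a k * H h l + C a a l * H h k) / H a a := by
    rw [eq_div_iff haa]
    exact pa_polar3 hH hC12 hC23 h3 hh hk hl
  simp only [map_add, map_smul, LinearMap.add_apply, LinearMap.smul_apply, smul_eq_mul]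
  rw [q1, q2, q3, q4, r1, r2, r3, r4, hh, hk, hl, ph, pk]
  field_simp
  ring

/-- Paper proof: with `C` as in `cube_form`, for `w` orthogonal to `a'`:
`C a' w w = ω a' H w w + c H a a' (H a w)²`. Take `w ≠ 0` orthogonal to `a` and `a'` (dimension at
least three): `κ' = ω a'`. Take `w` orthogonal to `a'` with `H a w ≠ 0` (`a`, `a'` independent):
`c H a a' = 0`, so `c = 0`. -/
theorem three_alg [FiniteDimensional ℝ W] (hdim : 3 ≤ Module.finrank ℝ W)
    (H : W →ₗ[ℝ] W →ₗ[ℝ] ℝ) (hH : ∀ x y, H x y = H y x)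
    (hpos : ∀ x, x ≠ 0 → 0 < H x x) (C : W →ₗ[ℝ] W →ₗ[ℝ] W →ₗ[ℝ] ℝ) {a a' : W}
    (hind : LinearIndependent ℝ ![a, a']) (haa : H a a' ≠ 0) {ω : W →ₗ[ℝ] ℝ} {c κ' : ℝ}
    (hC : ∀ h k l, C h k l =
      ω h * H k l + ω k * H h l + ω l * H h k + c * (H a h * H a k * H a l))
    (hκ' : ∀ w, H a' w = 0 → C a' w w = κ' * H w w) : c = 0 := by
  have key : ∀ w, H a' w = 0 → (κ' - ω a') * H w w = c * H a a' * H a w ^ 2 := by
    intro w hw
    have h1 := hκ' w hw
    rw [hC, hw] at h1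
    linear_combination -h1
  obtain ⟨x, hx0, hx1, hx2⟩ := pa_two hdim H a a'
  have h1 := key x hx2
  rw [hx1] at h1
  have h2 : κ' - ω a' = 0 := by
    have h3 : (κ' - ω a') * H x x = 0 := by rw [h1]; ring
    exact (mul_eq_zero.1 h3).resolve_right (hpos x hx0).ne'
  obtain ⟨w, hw1, hw2⟩ := pa_one hpos hind
  have h3 := key w hw1
  rw [h2, zero_mul] at h3
  have h4 := (mul_eq_zero.1 h3.symm).resolve_right (pow_ne_zero 2 hw2)
  exact (mul_eq_zero.1 h4).resolve_right haa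

/-- Paper proof: `3 (ω - ω') y H y y = c' (H a' y)³ - c (H a y)³`. Take `x0 ≠ 0` orthogonal to `a`,
`a'` and replace `y` by `y + t x0`: the right side does not change; the coefficients of `t³`, `t²`
on the left give `ω = ω'`. Then take `y` orthogonal to `a'`, not to `a`: `c = 0`. -/
theorem pairs_alg [FiniteDimensional ℝ W] (hdim : 3 ≤ Module.finrank ℝ W)
    (H : W →ₗ[ℝ] W →ₗ[ℝ] ℝ) (hH : ∀ x y, H x y = H y x)
    (hpos : ∀ x, x ≠ 0 → 0 < H x x) (C : W →ₗ[ℝ] W →ₗ[ℝ] W →ₗ[ℝ] ℝ) {a a' : W}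
    (hind : LinearIndependent ℝ ![a, a']) {ω ω' : W →ₗ[ℝ] ℝ} {c c' : ℝ}
    (hC : ∀ h k l, C h k l =
      ω h * H k l + ω k * H h l + ω l * H h k + c * (H a h * H a k * H a l))
    (hC' : ∀ h k l, C h k l =
      ω' h * H k l + ω' k * H h l + ω' l * H h k + c' * (H a' h * H a' k * H a' l)) :
    c = 0 := by
  have key : ∀ y, 3 * (ω y - ω' y) * H y y = c' * H a' y ^ 3 - c * H a y ^ 3 := by
    intro y
    have h1 := (hC y y y).symm.trans (hC' y y y)
    linear_combination h1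
  obtain ⟨x, hx0, hx1, hx2⟩ := pa_two hdim H a a'
  have hxx := hpos x hx0
  have ex : ω x - ω' x = 0 := by
    have h1 := key x
    rw [hx1, hx2] at h1
    have h2 : (ω x - ω' x) * H x x = 0 := by linear_combination (1 / 3 : ℝ) * h1
    exact (mul_eq_zero.1 h2).resolve_right hxx.ne'
  have ey : ∀ y, ω y - ω' y = 0 := by
    intro y
    have h1 := key y
    have h2 := key (y + x)
    have h3 := key (y - x)
    simp only [map_add, map_sub, LinearMap.add_apply, LinearMap.sub_apply, hx1, hx2, add_zero,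
      sub_zero] at h2 h3
    have h4 : (ω y - ω' y) * H x x = 0 := by
      linear_combination (1 / 6 : ℝ) * (h2 + h3 - 2 * h1) -
        (H y x + H x y) * ex
    exact (mul_eq_zero.1 h4).resolve_right hxx.ne'
  obtain ⟨w, hw1, hw2⟩ := pa_one hpos hind
  have h1 := key w
  rw [ey w, hw1] at h1
  have h2 : c * H a w ^ 3 = 0 := by linear_combination h1
  exact (mul_eq_zero.1 h2).resolve_right (pow_ne_zero 3 hw2)

end MP80b30d
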