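import Mathlib

/-! MP_80b30d_gt, third part: algebra in dimension two. -/

namespace MP80b30d

variable {W : Type*} [AddCommGroup W] [Module ℝ W]

/-- The expansion in an orthonormal basis. -/
private theorem pairAlg2_exp (hdim : Module.finrank ℝ W = 2)
    (H : W →ₗ[ℝ] W →ₗ[ℝ] ℝ) (hH : ∀ x y, H x y = H y x) {e1 e2 : W} (h11 : H e1 e1 = 1)
    (h22 : H e2 e2 = 1) (h12 : H e1 e2 = 0) (x : W) : x = H e1 x • e1 + H e2 x • e2 := by
  have h21 : H e2 e1 = 0 := by rw [hH, h12]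
  have hli : LinearIndependent ℝ ![e1, e2] := by
    rw [LinearIndependent.pair_iff]
    intro s t' h
    constructor
    · have h2 := congrArg (H e1) h
      rw [map_add, map_smul, map_smul, h11, h12, map_zero, smul_zero, add_zero, smul_eq_mul,
        mul_one] at h2
      exact h2
    · have h2 := congrArg (H e2) h
      rw [map_add, map_smul, map_smul, h21, h22, map_zero, smul_zero, zero_add, smul_eq_mul,
        mul_one] at h2
      exact h2
  have hcard : Fintype.card (Fin 2) = Module.finrank ℝ W := by rw [hdim]; rfl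
  let B := basisOfLinearIndependentOfCardEqFinrank hli hcard
  have hB : ⇑B = ![e1, e2] := coe_basisOfLinearIndependentOfCardEqFinrank hli hcard
  have h2 := B.sum_repr x
  rw [Fin.sum_univ_two, hB] at h2
  simp only [Matrix.cons_val_zero, Matrix.cons_val_one] at h2
  generalize B.repr x 0 = s at h2
  generalize B.repr x 1 = t at h2
  have h3 : H e1 x = s := by
    rw [← h2, map_add, map_smul, map_smul, h11, h12, smul_zero, add_zero, smul_eq_mul, mul_one]
  have h4 : H e2 x = t := by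
    rw [← h2, map_add, map_smul, map_smul, h21, h22, smul_zero, zero_add, smul_eq_mul, mul_one]
  rw [h3, h4, h2]

/-- An orthonormal basis. -/
private theorem pairAlg2_basis (hdim : Module.finrank ℝ W = 2)
    (H : W →ₗ[ℝ] W →ₗ[ℝ] ℝ) (hH : ∀ x y, H x y = H y x)
    (hpos : ∀ x, x ≠ 0 → 0 < H x x) {v w : W} (hind : LinearIndependent ℝ ![v, w]) :
    ∃ e1 e2 : W, H e1 e1 = 1 ∧ H e2 e2 = 1 ∧ H e1 e2 = 0 ∧
      ∀ x, x = H e1 x • e1 + H e2 x • e2 := by
  have h1 := LinearIndependent.pair_iff.1 hind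
  have hv : v ≠ 0 := by
    intro h0
    have h2 := h1 1 0 (by rw [h0]; simp)
    exact one_ne_zero h2.1
  have hvv := hpos v hv
  set t : ℝ := H v w / H v v with ht
  set u : W := w - t • v with hu
  have hu0 : u ≠ 0 := by
    intro h0
    have h2 := h1 (-t) 1 (by
      have e : (-t) • v + (1 : ℝ) • w = u := by rw [hu]; module
      rw [e, h0])
    exact one_ne_zero h2.2
  have huu := hpos u hu0
  have hvu : H v u = 0 := by
    rw [hu, map_sub, map_smul, smul_eq_mul, ht, div_mul_cancel₀ _ hvv.ne', sub_self]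
  set r : ℝ := (Real.sqrt (H v v))⁻¹ with hr
  set q : ℝ := (Real.sqrt (H u u))⁻¹ with hq
  have hr2 : r * (r * H v v) = 1 := by
    have h2 := Real.mul_self_sqrt hvv.le
    have h3 : Real.sqrt (H v v) ≠ 0 := (Real.sqrt_pos.2 hvv).ne'
    rw [hr]
    nth_rewrite 3 [← h2]
    field_simp
  have hq2 : q * (q * H u u) = 1 := by
    have h2 := Real.mul_self_sqrt huu.le
    have h3 : Real.sqrt (H u u) ≠ 0 := (Real.sqrt_pos.2 huu).ne'
    rw [hq]
    nth_rewrite 3 [← h2]
    field_simp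
  have h11 : H (r • v) (r • v) = 1 := by
    rw [map_smul, map_smul, LinearMap.smul_apply, smul_eq_mul, smul_eq_mul, hr2]
  have h22 : H (q • u) (q • u) = 1 := by
    rw [map_smul, map_smul, LinearMap.smul_apply, smul_eq_mul, smul_eq_mul, hq2]
  have h12 : H (r • v) (q • u) = 0 := by
    rw [map_smul, map_smul, LinearMap.smul_apply, hvu, smul_zero, smul_zero]
  exact ⟨r • v, q • u, h11, h22, h12, pairAlg2_exp hdim H hH h11 h22 h12⟩

/-- A binary cubic form `P Re z³ + Q Im z³` with four independent zeros vanishes. -/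
private theorem pairAlg2_cubic {P Q : ℝ} (X Y : Fin 4 → ℝ)
    (hcross : ∀ i j, i ≠ j → X i * Y j - Y i * X j ≠ 0)
    (hcub : ∀ i, P * (X i ^ 3 - 3 * X i * Y i ^ 2) + Q * (3 * X i ^ 2 * Y i - Y i ^ 3) = 0) :
    P = 0 ∧ Q = 0 := by
  by_contra hPQ
  -- the determinants vanish
  have hdet : ∀ i j, (X i ^ 3 - 3 * X i * Y i ^ 2) * (3 * X j ^ 2 * Y j - Y j ^ 3) -
      (X j ^ 3 - 3 * X j * Y j ^ 2) * (3 * X i ^ 2 * Y i - Y i ^ 3) = 0 := by
    intro i j
    have hi := hcub i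
    have hj := hcub j
    by_cases hP : P = 0
    · have hQ : Q ≠ 0 := fun hQ => hPQ ⟨hP, hQ⟩
      refine (mul_eq_zero.1 (?_ : Q * _ = 0)).resolve_left hQ
      linear_combination (X i ^ 3 - 3 * X i * Y i ^ 2) * hj - (X j ^ 3 - 3 * X j * Y j ^ 2) * hi
    · refine (mul_eq_zero.1 (?_ : P * _ = 0)).resolve_left hP
      linear_combination (3 * X j ^ 2 * Y j - Y j ^ 3) * hi - (3 * X i ^ 2 * Y i - Y i ^ 3) * hj
  have hsq : ∀ i j, i ≠ j → (X i * Y j - Y i * X j) ^ 2 = 3 * (X i * X j + Y i * Y j) ^ 2 := by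
    intro i j hij
    have h1 := hdet i j
    have h2 : (X i * Y j - Y i * X j) *
        (3 * (X i * X j + Y i * Y j) ^ 2 - (X i * Y j - Y i * X j) ^ 2) = 0 := by
      linear_combination h1
    have h3 := (mul_eq_zero.1 h2).resolve_left (hcross i j hij)
    linarith
  -- the three quotients
  have hkey : ∀ j k, (0 : Fin 4) ≠ j → (0 : Fin 4) ≠ k → j ≠ k →
      (X 0 * X j + Y 0 * Y j) * (X 0 * Y k - Y 0 * X k) +
        (X 0 * Y j - Y 0 * X j) * (X 0 * X k + Y 0 * Y k) = 0 := by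
    intro j k hj hk hjk
    have h1 := hsq 0 j hj
    have h2 := hsq 0 k hk
    have h0 : X 0 ^ 2 + Y 0 ^ 2 ≠ 0 := by
      intro h0
      have h4 : X 0 = 0 := by nlinarith [sq_nonneg (X 0), sq_nonneg (Y 0)]
      have h5 : Y 0 = 0 := by nlinarith [sq_nonneg (X 0), sq_nonneg (Y 0)]
      apply hcross 0 j hj
      rw [h4, h5]
      ring
    have h3 : (X 0 * X j + Y 0 * Y j) * (X 0 * Y k - Y 0 * X k) -
        (X 0 * Y j - Y 0 * X j) * (X 0 * X k + Y 0 * Y k) ≠ 0 := by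
      have e : (X 0 * X j + Y 0 * Y j) * (X 0 * Y k - Y 0 * X k) -
          (X 0 * Y j - Y 0 * X j) * (X 0 * X k + Y 0 * Y k) =
            (X 0 ^ 2 + Y 0 ^ 2) * (X j * Y k - Y j * X k) := by ring
      rw [e]
      exact mul_ne_zero h0 (hcross j k hjk)
    refine (mul_eq_zero.1 (?_ : _ * ((X 0 * X j + Y 0 * Y j) * (X 0 * Y k - Y 0 * X k) -
        (X 0 * Y j - Y 0 * X j) * (X 0 * X k + Y 0 * Y k)) = 0)).resolve_right h3
    linear_combination (X 0 * X j + Y 0 * Y j) ^ 2 * h2 - (X 0 * X k + Y 0 * Y k) ^ 2 * h1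
  have hne : ∀ j, (0 : Fin 4) ≠ j → X 0 * X j + Y 0 * Y j ≠ 0 := by
    intro j hj h0
    have h1 := hsq 0 j hj
    rw [h0] at h1
    have h2 : (X 0 * Y j - Y 0 * X j) ^ 2 = 0 := by linarith
    exact hcross 0 j hj (pow_eq_zero_iff (two_ne_zero) |>.1 h2)
  have k12 := hkey 1 2 (by decide) (by decide) (by decide)
  have k13 := hkey 1 3 (by decide) (by decide) (by decide)
  have k23 := hkey 2 3 (by decide) (by decide) (by decide)
  have n1 := hne 1 (by decide)
  have n2 := hne 2 (by decide)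
  have n3 := hne 3 (by decide)
  have d1 := hcross 0 1 (by decide)
  generalize X 0 * X 1 + Y 0 * Y 1 = u1 at *
  generalize X 0 * X 2 + Y 0 * Y 2 = u2 at *
  generalize X 0 * X 3 + Y 0 * Y 3 = u3 at *
  generalize X 0 * Y 1 - Y 0 * X 1 = v1 at *
  generalize X 0 * Y 2 - Y 0 * X 2 = v2 at *
  generalize X 0 * Y 3 - Y 0 * X 3 = v3 at *
  have h : v1 * (u2 * u3) = 0 := by
    linear_combination (1 / 2 : ℝ) * (u3 * k12 + u2 * k13 - u1 * k23)
  exact d1 ((mul_eq_zero.1 h).resolve_right (mul_ne_zero n2 n3))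

/-- Paper proof: in an `H`-orthonormal basis `e1`, `e2` write `c0 = C e1 e1 e1`, `c1 = C e1 e1 e2`,
`c2 = C e1 e2 e2`, `c3 = C e2 e2 e2`. For `a = x e1 + y e2`, `b = -y e1 + x e2` one has `H a b = 0`,
`H a a = H b b`, and `C b b b - 3 C a a b = P (x³ - 3 x y²) + Q (3 x² y - y³)`, `P = c3 - 3 c1`,
`Q = c0 - 3 c2`. This binary cubic form has the four pairwise independent zeros `a i`, so
`P = Q = 0`, and `ω e1 = c2`, `ω e2 = c1`. -/
theorem four_alg (hdim : Module.finrank ℝ W = 2)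
    (H : W →ₗ[ℝ] W →ₗ[ℝ] ℝ) (hH : ∀ x y, H x y = H y x)
    (hpos : ∀ x, x ≠ 0 → 0 < H x x) (C : W →ₗ[ℝ] W →ₗ[ℝ] W →ₗ[ℝ] ℝ)
    (hC12 : ∀ x y z, C x y z = C y x z) (hC23 : ∀ x y z, C x y z = C x z y) (a : Fin 4 → W)
    (hind : ∀ i j, i ≠ j → LinearIndependent ℝ ![a i, a j])
    (h3 : ∀ i b, H (a i) b = 0 → C b b b * H (a i) (a i) = 3 * C (a i) (a i) b * H b b) :
    ∃ ω : W →ₗ[ℝ] ℝ, ∀ h k l, C h k l = ω h * H k l + ω k * H h l + ω l * H h k := by
  obtain ⟨e1, e2, h11, h22, h12, hex⟩ :=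
    pairAlg2_basis hdim H hH hpos (hind 0 1 (by decide))
  have h21 : H e2 e1 = 0 := by rw [hH, h12]
  have hHexp : ∀ x1 x2 y1 y2 : ℝ, H (x1 • e1 + x2 • e2) (y1 • e1 + y2 • e2) =
      x1 * y1 + x2 * y2 := by
    intro x1 x2 y1 y2
    simp only [map_add, map_smul, LinearMap.add_apply, LinearMap.smul_apply, smul_eq_mul, h11,
      h22, h12, h21]
    ring
  have hCexp : ∀ x1 x2 y1 y2 z1 z2 : ℝ,
      C (x1 • e1 + x2 • e2) (y1 • e1 + y2 • e2) (z1 • e1 + z2 • e2) =
        x1 * y1 * z1 * C e1 e1 e1 + (x1 * y1 * z2 + x1 * y2 * z1 + x2 * y1 * z1) * C e1 e1 e2 +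
          (x1 * y2 * z2 + x2 * y1 * z2 + x2 * y2 * z1) * C e1 e2 e2 +
          x2 * y2 * z2 * C e2 e2 e2 := by
    intro x1 x2 y1 y2 z1 z2
    have q1 : C e1 e2 e1 = C e1 e1 e2 := hC23 _ _ _
    have q2 : C e2 e1 e1 = C e1 e1 e2 := by rw [hC12, q1]
    have q3 : C e2 e1 e2 = C e1 e2 e2 := hC12 _ _ _
    have q4 : C e2 e2 e1 = C e1 e2 e2 := by rw [hC23, q3]
    simp only [map_add, map_smul, LinearMap.add_apply, LinearMap.smul_apply, smul_eq_mul, q1,
      q2, q3, q4]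
    ring
  -- the coordinates of the four vectors
  set X : Fin 4 → ℝ := fun i => H e1 (a i) with hX
  set Y : Fin 4 → ℝ := fun i => H e2 (a i) with hY
  have ha : ∀ i, a i = X i • e1 + Y i • e2 := fun i => hex (a i)
  have hcross : ∀ i j, i ≠ j → X i * Y j - Y i * X j ≠ 0 := by
    intro i j hij h0
    have h1 := LinearIndependent.pair_iff.1 (hind i j hij)
    have h2 : Y j • a i + (-Y i) • a j = 0 := by
      rw [ha i, ha j]
      have e : Y j • (X i • e1 + Y i • e2) + (-Y i) • (X j • e1 + Y j • e2) =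
          (X i * Y j - Y i * X j) • e1 := by
        module
      rw [e, h0, zero_smul]
    have h3 : X j • a i + (-X i) • a j = 0 := by
      rw [ha i, ha j]
      have e : X j • (X i • e1 + Y i • e2) + (-X i) • (X j • e1 + Y j • e2) =
          (-(X i * Y j - Y i * X j)) • e2 := by
        module
      rw [e, h0, neg_zero, zero_smul]
    have h4 := (h1 _ _ h2).1
    have h5 := (h1 _ _ h3).1
    have h6 : a j = 0 := by rw [ha j, h4, h5, zero_smul, zero_smul, add_zero]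
    have h7 := h1 0 1 (by rw [h6]; simp)
    exact one_ne_zero h7.2
  set c0 := C e1 e1 e1 with hc0
  set c1 := C e1 e1 e2 with hc1
  set c2 := C e1 e2 e2 with hc2
  set c3 := C e2 e2 e2 with hc3
  have hcub : ∀ i, (c3 - 3 * c1) * (X i ^ 3 - 3 * X i * Y i ^ 2) +
      (c0 - 3 * c2) * (3 * X i ^ 2 * Y i - Y i ^ 3) = 0 := by
    intro i
    have h1 := h3 i ((-Y i) • e1 + X i • e2) (by rw [ha i, hHexp]; ring)
    rw [ha i, hHexp, hHexp, hCexp, hCexp] at h1
    have h2 : X i * X i + Y i * Y i ≠ 0 := by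
      intro h0
      have h4 : X i = 0 := by nlinarith [mul_self_nonneg (X i), mul_self_nonneg (Y i)]
      have h5 : Y i = 0 := by nlinarith [mul_self_nonneg (X i), mul_self_nonneg (Y i)]
      obtain ⟨j, hj⟩ : ∃ j : Fin 4, i ≠ j := ⟨i + 1, by fin_cases i <;> decide⟩
      apply hcross i j hj
      rw [h4, h5]
      ring
    refine (mul_eq_zero.1 (?_ : _ * (X i * X i + Y i * Y i) = 0)).resolve_right h2
    linear_combination h1
  obtain ⟨hP, hQ⟩ := pairAlg2_cubic X Y hcross hcub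
  refine ⟨c2 • H e1 + c1 • H e2, fun h k l => ?_⟩
  have e0 : c0 = 3 * c2 := by linarith
  have e3 : c3 = 3 * c1 := by linarith
  have hω : ∀ x1 x2 : ℝ, (c2 • H e1 + c1 • H e2) (x1 • e1 + x2 • e2) = c2 * x1 + c1 * x2 := by
    intro x1 x2
    simp only [map_add, map_smul, LinearMap.add_apply, LinearMap.smul_apply, smul_eq_mul, h11,
      h22, h12, h21]
    ring
  rw [hex h, hex k, hex l, hCexp, hHexp, hHexp, hHexp, hω, hω, hω, e0, e3]
  ring

end MP80b30d
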