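import Pool.Agent.Lib.MP_80b30d_gt.Defs

/-! MP_80b30d_gt, third part: zeros of the shadow function. -/

namespace MP80b30d

open Set Filter Topology Metric Asymptotics

variable {W : Type*} [NormedAddCommGroup W] [NormedSpace ℝ W]

private theorem PairIvt_bigO (a w0 : W) {s : ℝ → ℝ} (hs : s =O[𝓝[>] 0] fun t : ℝ => t ^ 2) :
    (fun t : ℝ => t • w0 + s t • a) =O[𝓝[>] 0] (fun t : ℝ => t) := by
  have h1 : (fun t : ℝ => t • w0) =O[𝓝[>] 0] (fun t : ℝ => t) :=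
    IsBigO.of_bound ‖w0‖ (Eventually.of_forall fun t => by rw [norm_smul, mul_comm])
  have h2 : (fun t : ℝ => t ^ 2) =O[𝓝[>] 0] (fun t : ℝ => t) := by
    refine IsBigO.of_bound 1 ?_
    filter_upwards [Ioo_mem_nhdsGT (zero_lt_one' ℝ)] with t ht
    rw [norm_pow, Real.norm_eq_abs, abs_of_pos ht.1, one_mul, sq]
    exact mul_le_of_le_one_left ht.1.le ht.2.le
  have h3 : (fun t : ℝ => s t • a) =O[𝓝[>] 0] (fun t : ℝ => t) := by
    refine IsBigO.trans ?_ (hs.trans h2)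
    exact IsBigO.of_bound ‖a‖ (Eventually.of_forall fun t => by rw [norm_smul, mul_comm])
  exact h1.add h3

private theorem PairIvt_tendsto (a w0 : W) {s : ℝ → ℝ} (hs : s =O[𝓝[>] 0] fun t : ℝ => t ^ 2) :
    Tendsto (fun t : ℝ => t • w0 + s t • a) (𝓝[>] 0) (𝓝 0) :=
  (PairIvt_bigO a w0 hs).trans_tendsto (tendsto_nhdsWithin_of_tendsto_nhds tendsto_id)

private theorem PairIvt_little (a w0 : W) {s : ℝ → ℝ} (hs : s =O[𝓝[>] 0] fun t : ℝ => t ^ 2)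
    {F F0 : W → ℝ} (hF : (fun w : W => F w - F0 w) =o[𝓝 0] (fun w : W => ‖w‖ ^ 2)) :
    (fun t : ℝ => F (t • w0 + s t • a) - F0 (t • w0 + s t • a)) =o[𝓝[>] 0]
      (fun t : ℝ => t ^ 2) :=
  (hF.comp_tendsto (PairIvt_tendsto a w0 hs)).trans_isBigO ((PairIvt_bigO a w0 hs).norm_left.pow 2)

private theorem PairIvt_limit (H C : W →L[ℝ] W →L[ℝ] ℝ) (hHs : ∀ x y, H x y = H y x)
    (Φ : W → ℝ) (a w0 : W) (hw0 : H w0 a = 0)
    (hΦ : (fun w : W => Φ w - (H w a + (1 / 2) * C w w - (1 / 2) * H w w))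
      =o[𝓝 0] (fun w : W => ‖w‖ ^ 2)) (c : ℝ) :
    Tendsto (fun t : ℝ => Φ (t • w0 + (c * t ^ 2) • a) / t ^ 2) (𝓝[>] 0)
      (𝓝 (c * H a a + (1 / 2) * C w0 w0 - (1 / 2) * H w0 w0)) := by
  have hs : (fun t : ℝ => c * t ^ 2) =O[𝓝[>] 0] fun t : ℝ => t ^ 2 :=
    (isBigO_refl _ _).const_mul_left c
  have h1 := (PairIvt_little a w0 hs hΦ).tendsto_div_nhds_zero
  have h2 : Tendsto (fun t : ℝ => c * H a a + (1 / 2) * (C w0 w0 + c * t * (C w0 a + C a w0) +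
      c ^ 2 * t ^ 2 * C a a) - (1 / 2) * (H w0 w0 + c ^ 2 * t ^ 2 * H a a)) (𝓝[>] 0)
      (𝓝 (c * H a a + (1 / 2) * C w0 w0 - (1 / 2) * H w0 w0)) := by
    refine tendsto_nhdsWithin_of_tendsto_nhds ?_
    refine Continuous.tendsto' (by fun_prop) _ _ ?_
    ring
  have h3 := h1.add h2
  rw [zero_add] at h3
  refine h3.congr' ?_
  filter_upwards [self_mem_nhdsWithin] with t ht
  have ht0 : t ≠ 0 := (ne_of_gt ht)
  have e1 : H (t • w0 + (c * t ^ 2) • a) a = c * t ^ 2 * H a a := by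
    simp [hw0]
  have e2 : C (t • w0 + (c * t ^ 2) • a) (t • w0 + (c * t ^ 2) • a) =
      t ^ 2 * (C w0 w0 + c * t * (C w0 a + C a w0) + c ^ 2 * t ^ 2 * C a a) := by
    simp
    ring
  have e3 : H (t • w0 + (c * t ^ 2) • a) (t • w0 + (c * t ^ 2) • a) =
      t ^ 2 * (H w0 w0 + c ^ 2 * t ^ 2 * H a a) := by
    simp [hw0, hHs a w0]
    ring
  rw [e1, e2, e3]
  field_simp
  ring

/-- the zero found in the proof of `ivt_core` (see Ivt.lean) -/
theorem ivt_zero (H C : W →L[ℝ] W →L[ℝ] ℝ) (hHs : ∀ x y, H x y = H y x)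
    (Φ : W → ℝ) (a w0 : W) (ha : 0 < H a a) (hw0 : H w0 a = 0)
    (hΦc : ∀ᶠ w in 𝓝 (0 : W), ContinuousAt Φ w)
    (hΦ : (fun w : W => Φ w - (H w a + (1 / 2) * C w w - (1 / 2) * H w w))
      =o[𝓝 0] (fun w : W => ‖w‖ ^ 2)) :
    ∃ (R : ℝ) (s : ℝ → ℝ), 0 < R ∧ ∀ᶠ t in 𝓝[>] (0 : ℝ), |s t| ≤ R * t ^ 2 ∧
      Φ (t • w0 + s t • a) = 0 := by
  set σ : ℝ := (H w0 w0 - C w0 w0) / (2 * H a a) with hσ
  have hσ' : 2 * (σ * H a a) = H w0 w0 - C w0 w0 := by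
    rw [hσ]; field_simp
  -- a zero for every `ε`
  have key : ∀ ε : ℝ, 0 < ε → ∃ s : ℝ → ℝ, (∀ t, |s t - σ * t ^ 2| ≤ ε * t ^ 2) ∧
      ∀ᶠ t in 𝓝[>] (0 : ℝ), Φ (t • w0 + s t • a) = 0 := by
    intro ε hε
    have hp := PairIvt_limit H C hHs Φ a w0 hw0 hΦ (σ + ε)
    have hm := PairIvt_limit H C hHs Φ a w0 hw0 hΦ (σ - ε)
    have hεa : 0 < ε * H a a := mul_pos hε ha
    have hp' : ∀ᶠ t in 𝓝[>] (0 : ℝ), 0 < Φ (t • w0 + ((σ + ε) * t ^ 2) • a) := by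
      have h0 : (0 : ℝ) < (σ + ε) * H a a + (1 / 2) * C w0 w0 - (1 / 2) * H w0 w0 := by
        nlinarith
      filter_upwards [hp.eventually_const_lt h0, self_mem_nhdsWithin] with t h1 ht
      have ht2 : (0 : ℝ) < t ^ 2 := pow_pos ht 2
      exact (div_pos_iff_of_pos_right ht2).mp h1
    have hm' : ∀ᶠ t in 𝓝[>] (0 : ℝ), Φ (t • w0 + ((σ - ε) * t ^ 2) • a) < 0 := by
      have h0 : (σ - ε) * H a a + (1 / 2) * C w0 w0 - (1 / 2) * H w0 w0 < 0 := by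
        nlinarith
      filter_upwards [hm.eventually_lt_const h0, self_mem_nhdsWithin] with t h1 ht
      have ht2 : (0 : ℝ) < t ^ 2 := pow_pos ht 2
      have h2 := (div_lt_iff₀ ht2).mp h1
      simpa using h2
    -- continuity on a ball
    obtain ⟨δ, hδ, hball⟩ := Metric.eventually_nhds_iff_ball.mp hΦc
    have hsmall : ∀ᶠ t in 𝓝[>] (0 : ℝ), ∀ s ∈ Icc ((σ - ε) * t ^ 2) ((σ + ε) * t ^ 2),
        t • w0 + s • a ∈ ball (0 : W) δ := by
      have hlim : Tendsto (fun t : ℝ => |t| * ‖w0‖ + (|σ| + ε) * t ^ 2 * ‖a‖) (𝓝[>] 0) (𝓝 0) := by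
        refine tendsto_nhdsWithin_of_tendsto_nhds ?_
        refine Continuous.tendsto' (by fun_prop) _ _ (by simp)
      filter_upwards [hlim.eventually_lt_const hδ, self_mem_nhdsWithin] with t h1 ht s hs
      rw [mem_ball_zero_iff]
      refine lt_of_le_of_lt ?_ h1
      have ht2 : (0 : ℝ) ≤ t ^ 2 := sq_nonneg t
      have hs' : |s| ≤ (|σ| + ε) * t ^ 2 := by
        rw [abs_le]
        constructor
        · nlinarith [hs.1, neg_abs_le σ]
        · nlinarith [hs.2, le_abs_self σ]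
      calc ‖t • w0 + s • a‖ ≤ ‖t • w0‖ + ‖s • a‖ := norm_add_le _ _
        _ = |t| * ‖w0‖ + |s| * ‖a‖ := by rw [norm_smul, norm_smul]; rfl
        _ ≤ |t| * ‖w0‖ + (|σ| + ε) * t ^ 2 * ‖a‖ := by
          gcongr
    have hex : ∀ᶠ t in 𝓝[>] (0 : ℝ), ∃ s ∈ Icc ((σ - ε) * t ^ 2) ((σ + ε) * t ^ 2),
        Φ (t • w0 + s • a) = 0 := by
      filter_upwards [hp', hm', hsmall] with t h1 h2 h3
      have ht2 : (0 : ℝ) ≤ t ^ 2 := sq_nonneg t
      have hle : (σ - ε) * t ^ 2 ≤ (σ + ε) * t ^ 2 := by nlinarith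
      have hcont : ContinuousOn (fun s : ℝ => Φ (t • w0 + s • a))
          (Icc ((σ - ε) * t ^ 2) ((σ + ε) * t ^ 2)) := by
        intro s hs
        refine ContinuousAt.continuousWithinAt ?_
        have hc : ContinuousAt (fun s : ℝ => t • w0 + s • a) s := by fun_prop
        exact ContinuousAt.comp (f := fun s : ℝ => t • w0 + s • a) (hball _ (h3 s hs)) hc
      have := intermediate_value_Icc hle hcont
      obtain ⟨s, hs, hs0⟩ := this ⟨h2.le, h1.le⟩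
      exact ⟨s, hs, hs0⟩
    classical
    refine ⟨fun t => if h : ∃ s ∈ Icc ((σ - ε) * t ^ 2) ((σ + ε) * t ^ 2),
      Φ (t • w0 + s • a) = 0 then h.choose else σ * t ^ 2, ?_, ?_⟩
    · intro t
      have ht2 : (0 : ℝ) ≤ t ^ 2 := sq_nonneg t
      by_cases h : ∃ s ∈ Icc ((σ - ε) * t ^ 2) ((σ + ε) * t ^ 2), Φ (t • w0 + s • a) = 0
      · simp only [dif_pos h]
        have h1 := h.choose_spec.1
        rw [abs_le]
        constructor
        · nlinarith [h1.1]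
        · nlinarith [h1.2]
      · simp only [dif_neg h, sub_self, abs_zero]
        positivity
    · filter_upwards [hex] with t ht
      simp only [dif_pos ht]
      exact ht.choose_spec.2
  obtain ⟨s, hs1, hs2⟩ := key 1 one_pos
  refine ⟨|σ| + 1, s, by positivity, ?_⟩
  filter_upwards [hs2] with t ht
  refine ⟨?_, ht⟩
  have ht2 : (0 : ℝ) ≤ t ^ 2 := sq_nonneg t
  have h1 := abs_le.mp (hs1 t)
  rw [abs_le]
  constructor
  · nlinarith [h1.1, neg_abs_le σ]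
  · nlinarith [h1.2, le_abs_self σ]

end MP80b30d
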