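import Pool.Agent.Lib.MP_80b30d_gt.PairT
import Pool.Agent.Lib.MP_80b30d_gt.PairIvt
import Pool.Agent.Lib.MP_80b30d_gt.Ivt

/-! MP_80b30d_gt, third part: two lights on one line. -/

namespace MP80b30d

open Set Filter Topology Metric

open Asymptotics

variable {W : Type*} [NormedAddCommGroup W] [NormedSpace ℝ W]

private theorem PairCore_bigO (a w0 : W) {s : ℝ → ℝ} (hs : s =O[𝓝[>] 0] fun t : ℝ => t ^ 2) :
    (fun t : ℝ => t • w0 + s t • a) =O[𝓝[>] 0] (fun t : ℝ => t) := by
  have h1 : (fun t : ℝ => t • w0) =O[𝓝[>] 0] (fun t : ℝ => t) :=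
    IsBigO.of_bound ‖w0‖ (Eventually.of_forall fun t => by rw [norm_smul, mul_comm])
  have h2 : (fun t : ℝ => t ^ 2) =O[𝓝[>] 0] (fun t : ℝ => t) := by
    refine IsBigO.of_bound 1 ?_
    filter_upwards [Ioo_mem_nhdsGT (zero_lt_one' ℝ)] with t ht
    rw [norm_pow, Real.norm_eq_abs, abs_of_pos ht.1, one_mul, sq]
    exact mul_le_of_le_one_left ht.1.le ht.2.le
  have h3 : (fun t : ℝ => s t • a) =O[𝓝[>] 0] (fun t : ℝ => t) := by
    refine IsBigO.trans ?_ (hs.trans h2)
    exact IsBigO.of_bound ‖a‖ (Eventually.of_forall fun t => by rw [norm_smul, mul_comm])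
  exact h1.add h3

private theorem PairCore_tendsto (a w0 : W) {s : ℝ → ℝ} (hs : s =O[𝓝[>] 0] fun t : ℝ => t ^ 2) :
    Tendsto (fun t : ℝ => t • w0 + s t • a) (𝓝[>] 0) (𝓝 0) :=
  (PairCore_bigO a w0 hs).trans_tendsto (tendsto_nhdsWithin_of_tendsto_nhds tendsto_id)

private theorem PairCore_little (a w0 : W) {s : ℝ → ℝ} (hs : s =O[𝓝[>] 0] fun t : ℝ => t ^ 2)
    {F : W → ℝ} (hF : F =o[𝓝 0] (fun w : W => ‖w‖ ^ 3)) :
    (fun t : ℝ => F (t • w0 + s t • a)) =o[𝓝[>] 0] (fun t : ℝ => t ^ 3) :=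
  (hF.comp_tendsto (PairCore_tendsto a w0 hs)).trans_isBigO
    ((PairCore_bigO a w0 hs).norm_left.pow 3)

private theorem PairCore_t4 : (fun t : ℝ => t ^ 4) =o[𝓝[>] 0] (fun t : ℝ => t ^ 3) :=
  (isLittleO_pow_pow (𝕜 := ℝ) (by norm_num : 3 < 4)).mono nhdsWithin_le_nhds

private theorem PairCore_s2 {s : ℝ → ℝ} (hs : s =O[𝓝[>] 0] fun t : ℝ => t ^ 2) :
    (fun t : ℝ => s t ^ 2) =o[𝓝[>] 0] (fun t : ℝ => t ^ 3) := by
  refine IsBigO.trans_isLittleO ?_ PairCore_t4
  refine (hs.pow 2).congr_right fun t => ?_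
  ring

private theorem PairCore_st {s : ℝ → ℝ} (hs : s =O[𝓝[>] 0] fun t : ℝ => t ^ 2) :
    (fun t : ℝ => s t * t ^ 2) =o[𝓝[>] 0] (fun t : ℝ => t ^ 3) := by
  refine IsBigO.trans_isLittleO ?_ PairCore_t4
  refine (hs.mul (isBigO_refl (fun t : ℝ => t ^ 2) _)).congr_right fun t => ?_
  ring

private theorem PairCore_tone : (fun t : ℝ => t) =O[𝓝[>] 0] (fun _ : ℝ => (1 : ℝ)) := by
  refine IsBigO.of_bound 1 ?_
  filter_upwards [Ioo_mem_nhdsGT (zero_lt_one' ℝ)] with t ht
  rw [Real.norm_eq_abs, abs_of_pos ht.1, norm_one, mul_one]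
  exact ht.2.le

private theorem PairCore_mulT {g : ℝ → ℝ} (hg : g =o[𝓝[>] 0] (fun t : ℝ => t ^ 3)) :
    (fun t : ℝ => t * g t) =o[𝓝[>] 0] (fun t : ℝ => t ^ 3) :=
  (PairCore_tone.mul_isLittleO hg).congr_right fun t => by ring

private theorem PairCore_mulS {s g : ℝ → ℝ} (hs : s =O[𝓝[>] 0] fun t : ℝ => t ^ 2)
    (hg : g =o[𝓝[>] 0] (fun t : ℝ => t ^ 3)) :
    (fun t : ℝ => s t * g t) =o[𝓝[>] 0] (fun t : ℝ => t ^ 3) := by
  have h1 : s =O[𝓝[>] 0] (fun _ : ℝ => (1 : ℝ)) := by
    refine hs.trans ?_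
    refine (PairCore_tone.pow 2).congr_right fun t => ?_
    norm_num
  exact (h1.mul_isLittleO hg).congr_right fun t => by ring

/-- expansion of a cubic form along the curve -/
private theorem PairCore_cub (C : W →L[ℝ] W →L[ℝ] W →L[ℝ] ℝ) (a b : W) {s : ℝ → ℝ}
    (hs : s =O[𝓝[>] 0] fun t : ℝ => t ^ 2) :
    (fun t : ℝ => C (t • b + s t • a) (t • b + s t • a) (t • b + s t • a) - t ^ 3 * C b b b)
      =o[𝓝[>] 0] (fun t : ℝ => t ^ 3) := by
  have h1 := (PairCore_st hs).const_mul_left (C a b b + C b a b + C b b a)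
  have h2 := (PairCore_mulT (PairCore_s2 hs)).const_mul_left (C a a b + C a b a + C b a a)
  have h3 := (PairCore_mulS hs (PairCore_s2 hs)).const_mul_left (C a a a)
  refine ((h1.add h2).add h3).congr_left fun t => ?_
  simp only [map_add, map_smul, _root_.add_apply, smul_apply, smul_eq_mul]
  ring

/-- expansion of a quadratic form along the curve -/
private theorem PairCore_qua (H : W →L[ℝ] W →L[ℝ] ℝ) (a b : W) (h1 : H a b = 0) (h2 : H b a = 0)
    {s : ℝ → ℝ} (hs : s =O[𝓝[>] 0] fun t : ℝ => t ^ 2) :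
    (fun t : ℝ => H (t • b + s t • a) (t • b + s t • a) - t ^ 2 * H b b)
      =o[𝓝[>] 0] (fun t : ℝ => t ^ 3) := by
  refine ((PairCore_s2 hs).const_mul_left (H a a)).congr_left fun t => ?_
  simp only [map_add, map_smul, _root_.add_apply, smul_apply, smul_eq_mul, h1, h2]
  ring

private theorem PairCore_phi [FiniteDimensional ℝ W] {f : W → ℝ} {x : W} (hf : ContDiffAt ℝ 3 f x)
    (a b : W) (h1 : D2 f x a b = 0) (h2 : D2 f x b a = 0) {s : ℝ → ℝ}
    (hs : s =O[𝓝[>] 0] fun t : ℝ => t ^ 2) :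
    (fun t : ℝ => (f (x + (t • b + s t • a)) - f x - fderiv ℝ f x (t • b + s t • a)) -
      ((1 / 2) * (t ^ 2 * D2 f x b b) + (1 / 6) * (t ^ 3 * D3 f x b b b)))
      =o[𝓝[>] 0] (fun t : ℝ => t ^ 3) := by
  have e1 := PairCore_little a b hs (taylor3_f hf)
  have e2 := (PairCore_qua (D2 f x) a b h1 h2 hs).const_mul_left (1 / 2)
  have e3 := (PairCore_cub (D3 f x) a b hs).const_mul_left (1 / 6)
  refine ((e1.add e2).add e3).congr_left fun t => ?_
  ring

private theorem PairCore_psi [FiniteDimensional ℝ W] {f : W → ℝ} {x : W} (hf : ContDiffAt ℝ 3 f x)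
    (a b : W) (h1 : D2 f x a b = 0) (h2 : D2 f x b a = 0) {s : ℝ → ℝ}
    (hs : s =O[𝓝[>] 0] fun t : ℝ => t ^ 2) :
    (fun t : ℝ => (fderiv ℝ f (x + (t • b + s t • a)) (t • b + s t • a) -
        fderiv ℝ f x (t • b + s t • a)) -
      (t ^ 2 * D2 f x b b + (1 / 2) * (t ^ 3 * D3 f x b b b)))
      =o[𝓝[>] 0] (fun t : ℝ => t ^ 3) := by
  have e1 := PairCore_little a b hs (taylor3_Dfw hf)
  have e2 := PairCore_qua (D2 f x) a b h1 h2 hs
  have e3 := (PairCore_cub (D3 f x) a b hs).const_mul_left (1 / 2)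
  refine ((e1.add e2).add e3).congr_left fun t => ?_
  ring

/-- the mean value theorem in the direction `a` -/
private theorem PairCore_mvt {f : W → ℝ} {x : W} (hf : ContDiffAt ℝ 3 f x) (a b : W)
    {s s' : ℝ → ℝ} (hs : s =O[𝓝[>] 0] fun t : ℝ => t ^ 2)
    (hs' : s' =O[𝓝[>] 0] fun t : ℝ => t ^ 2) :
    (fun t : ℝ => (fderiv ℝ f (x + (t • b + s t • a)) a - fderiv ℝ f (x + (t • b + s' t • a)) a) -
      (s t - s' t) * (D2 f x a a + t * D3 f x b a a)) =o[𝓝[>] 0] (fun t : ℝ => t ^ 3) := by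
  obtain ⟨R1, hR1, hs1⟩ := hs.exists_pos
  obtain ⟨R2, hR2, hs2⟩ := hs'.exists_pos
  rw [isBigOWith_iff] at hs1 hs2
  set R := max R1 R2 with hR
  have hRp : 0 < R := lt_max_of_lt_left hR1
  rw [isLittleO_iff]
  intro ε hε
  set ε2 := ε / (2 * R) with hε2
  have hε2p : 0 < ε2 := by positivity
  set N := ‖b‖ + R * ‖a‖ + 1 with hN
  have hNp : 0 < N := by positivity
  have hd : ∀ᶠ w in 𝓝 (0 : W), DifferentiableAt ℝ (fderiv ℝ f) (x + w) := by
    have h1 : ContDiffAt ℝ 2 (fderiv ℝ f) x := hf.fderiv_right (by norm_num)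
    have h2 : Tendsto (fun w : W => x + w) (𝓝 0) (𝓝 x) := by
      have h3 : Continuous fun w : W => x + w := by fun_prop
      have h4 := h3.tendsto 0
      rwa [add_zero] at h4
    filter_upwards [h2.eventually (h1.eventually (by simp))] with y hy
    exact hy.differentiableAt (by norm_num)
  have hT := (isLittleO_iff.1 (taylor1_D2 hf a)) (c := ε2 / (2 * N)) (by positivity)
  obtain ⟨δ, hδ, hball⟩ := Metric.eventually_nhds_iff_ball.1 (hd.and hT)
  have hsm : ∀ᶠ t : ℝ in 𝓝[>] 0, t < min (min 1 (δ / N)) (ε2 / (2 * (R * |D3 f x a a a| + 1))) :=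
    nhdsWithin_le_nhds (Iio_mem_nhds (by positivity))
  filter_upwards [hs1, hs2, hsm, self_mem_nhdsWithin] with t ht1 ht2 ht3 ht4
  have ht0 : (0 : ℝ) < t := ht4
  rw [lt_min_iff, lt_min_iff] at ht3
  obtain ⟨⟨ht5, ht6⟩, ht7⟩ := ht3
  rw [lt_div_iff₀ hNp] at ht6
  rw [lt_div_iff₀ (by positivity)] at ht7
  have hsq : ‖t ^ 2‖ = t ^ 2 := Real.norm_of_nonneg (by positivity)
  rw [hsq, Real.norm_eq_abs] at ht1 ht2
  have hb1 : |s t| ≤ R * t ^ 2 := ht1.trans (by gcongr; exact le_max_left _ _)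
  have hb2 : |s' t| ≤ R * t ^ 2 := ht2.trans (by gcongr; exact le_max_right _ _)
  set S : Set ℝ := Icc (-(R * t ^ 2)) (R * t ^ 2) with hS
  have hSs : s t ∈ S := abs_le.1 hb1
  have hSs' : s' t ∈ S := abs_le.1 hb2
  have hnorm : ∀ σ ∈ S, ‖t • b + σ • a‖ ≤ t * N := by
    intro σ hσ
    have h1 : |σ| ≤ R * t ^ 2 := abs_le.2 hσ
    calc ‖t • b + σ • a‖ ≤ ‖t • b‖ + ‖σ • a‖ := norm_add_le _ _
      _ = t * ‖b‖ + |σ| * ‖a‖ := by
          rw [norm_smul, norm_smul, Real.norm_eq_abs, Real.norm_eq_abs, abs_of_pos ht0]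
      _ ≤ t * ‖b‖ + (R * t ^ 2) * ‖a‖ := by gcongr
      _ ≤ t * ‖b‖ + (R * (t * 1)) * ‖a‖ := by
          have : t ^ 2 ≤ t * 1 := by nlinarith
          gcongr
      _ ≤ t * N := by
          rw [hN]
          nlinarith
  have hder : ∀ σ ∈ S, HasDerivWithinAt
      (fun σ : ℝ => fderiv ℝ f (x + (t • b + σ • a)) a - σ * (D2 f x a a + t * D3 f x b a a))
      (D2 f (x + (t • b + σ • a)) a a - (D2 f x a a + t * D3 f x b a a)) S σ := by
    intro σ hσ
    have h1 := (hball (t • b + σ • a) (by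
      rw [mem_ball_zero_iff]
      exact (hnorm σ hσ).trans_lt ht6)).1
    have hl : HasDerivAt (fun σ : ℝ => x + (t • b + σ • a)) a σ := by
      have h2 := (((hasDerivAt_id σ).smul_const a).const_add (t • b)).const_add x
      refine h2.congr_deriv ?_
      rw [one_smul]
    have h3 : HasDerivAt (fun σ : ℝ => fderiv ℝ f (x + (t • b + σ • a)))
        (D2 f (x + (t • b + σ • a)) a) σ :=
      HasFDerivAt.comp_hasDerivAt (E := W →L[ℝ] ℝ) σ h1.hasFDerivAt hl
    have h4 : HasDerivAt (fun σ : ℝ => fderiv ℝ f (x + (t • b + σ • a)) a)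
        (D2 f (x + (t • b + σ • a)) a a) σ := by
      refine (h3.clm_apply (hasDerivAt_const σ a)).congr_deriv ?_
      rw [map_zero, add_zero]
    have h5 : HasDerivAt (fun σ : ℝ => σ * (D2 f x a a + t * D3 f x b a a))
        (D2 f x a a + t * D3 f x b a a) σ := by
      refine ((hasDerivAt_id σ).mul_const _).congr_deriv ?_
      rw [one_mul]
    exact (h4.sub h5).hasDerivWithinAt
  have hbd : ∀ σ ∈ S, ‖D2 f (x + (t • b + σ • a)) a a - (D2 f x a a + t * D3 f x b a a)‖ ≤
      ε2 * t := by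
    intro σ hσ
    have h1 := (hball (t • b + σ • a) (by
      rw [mem_ball_zero_iff]
      exact (hnorm σ hσ).trans_lt ht6)).2
    rw [norm_norm] at h1
    have h2 : |σ| ≤ R * t ^ 2 := abs_le.2 hσ
    have h3 : D2 f (x + (t • b + σ • a)) a a - (D2 f x a a + t * D3 f x b a a) =
        (D2 f (x + (t • b + σ • a)) a a - D2 f x a a - D3 f x (t • b + σ • a) a a) +
          σ * D3 f x a a a := by
      simp only [map_add, map_smul, _root_.add_apply, smul_apply, smul_eq_mul]
      ring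
    rw [h3]
    calc ‖(D2 f (x + (t • b + σ • a)) a a - D2 f x a a - D3 f x (t • b + σ • a) a a) +
          σ * D3 f x a a a‖
        ≤ ‖D2 f (x + (t • b + σ • a)) a a - D2 f x a a - D3 f x (t • b + σ • a) a a‖ +
          ‖σ * D3 f x a a a‖ := norm_add_le _ _
      _ ≤ ε2 / (2 * N) * (t * N) + (R * t ^ 2) * |D3 f x a a a| := by
          refine add_le_add (h1.trans ?_) ?_
          · exact mul_le_mul_of_nonneg_left (hnorm σ hσ) (by positivity)
          · rw [norm_mul, Real.norm_eq_abs, Real.norm_eq_abs]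
            exact mul_le_mul_of_nonneg_right h2 (abs_nonneg _)
      _ = ε2 * t / 2 + t * (t * (R * |D3 f x a a a|)) := by
          field_simp
      _ ≤ ε2 * t / 2 + t * (ε2 / 2) := by
          have h4 : t * (R * |D3 f x a a a|) ≤ ε2 / 2 := by nlinarith
          have h5 := mul_le_mul_of_nonneg_left h4 ht0.le
          linarith
      _ = ε2 * t := by ring
  have hmain := Convex.norm_image_sub_le_of_norm_hasDerivWithin_le hder hbd (convex_Icc _ _)
    hSs' hSs
  have h6 : (fderiv ℝ f (x + (t • b + s t • a)) a - fderiv ℝ f (x + (t • b + s' t • a)) a) -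
      (s t - s' t) * (D2 f x a a + t * D3 f x b a a) =
      (fderiv ℝ f (x + (t • b + s t • a)) a - s t * (D2 f x a a + t * D3 f x b a a)) -
      (fderiv ℝ f (x + (t • b + s' t • a)) a - s' t * (D2 f x a a + t * D3 f x b a a)) := by
    ring
  rw [h6]
  refine hmain.trans ?_
  have h7 : ‖s t - s' t‖ ≤ 2 * (R * t ^ 2) := by
    rw [Real.norm_eq_abs]
    have := abs_sub (s t) (s' t)
    linarith
  have h8 : ‖t ^ 3‖ = t ^ 3 := Real.norm_of_nonneg (by positivity)
  rw [h8]
  calc ε2 * t * ‖s t - s' t‖ ≤ ε2 * t * (2 * (R * t ^ 2)) := by gcongr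
    _ = ε * t ^ 3 := by
        rw [hε2]
        field_simp

private theorem PairCore_cont {f : W → ℝ} {x : W} (hf : ContDiffAt ℝ 3 f x) (a : W) :
    ∀ᶠ w in 𝓝 (0 : W), ContinuousAt
      (fun w => f (x + w) + fderiv ℝ f (x + w) (a - w) - f x - fderiv ℝ f x a) w := by
  have h1 : ∀ᶠ y in 𝓝 x, ContDiffAt ℝ 3 f y := hf.eventually (by norm_num)
  have h2 : Tendsto (fun w : W => x + w) (𝓝 0) (𝓝 x) := by
    have h3 : Continuous fun w : W => x + w := by fun_prop
    have h4 := h3.tendsto 0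
    rwa [add_zero] at h4
  filter_upwards [h2.eventually h1] with w hw
  have h3 : ContinuousAt (fun w : W => x + w) w := by fun_prop
  have h4 : ContinuousAt (fun w : W => f (x + w)) w :=
    ContinuousAt.comp (g := f) hw.continuousAt h3
  have h5 : ContinuousAt (fderiv ℝ f) (x + w) :=
    (hw.fderiv_right (m := 2) (by norm_num)).continuousAt
  have h6 : ContinuousAt (fun w : W => fderiv ℝ f (x + w)) w :=
    ContinuousAt.comp (g := fderiv ℝ f) h5 h3
  have h7 : ContinuousAt (fun w : W => fderiv ℝ f (x + w) (a - w)) w :=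
    h6.clm_apply (by fun_prop)
  exact ((h4.add h7).sub continuousAt_const).sub continuousAt_const

/-- Paper proof. Write `H = D2 f x`, `C = D3 f x`, `φ w = f (x+w) - f x - Df(x) w`,
`χ w = Df(x+w) w - Df(x) w - φ w = (1/2) H w w + (1/3) C w w w + o(‖w‖³)`. The hypothesis of `h1` is
`(Df(x+w) - Df(x)) a = χ w`, the one of `h2` is `(Df(x+w) - Df(x)) (r a) = χ w`. We may assume
`b ≠ 0`. `ivt_core` (with `C w w = D3 f x w w a`, resp. `D3 f x w w (r a)`, `taylor_shadow`) gives
`C b b a = (1 + B) H b b` and `r C b b a = (1 + B') H b b`, so `B' / r - B = 1 - 1 / r`.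
`ivt_zero` gives for small `t > 0` points `w = t b + s a`, `w' = t b + s' a`, `s, s' = O(t²)`, with
`(Df(x+w) - Df(x)) a = χ w`, `(Df(x+w') - Df(x)) (r a) = χ w'`. Both `χ w`, `χ w'` are
`(1/2) t² H b b + (1/3) t³ C b b b + o(t³)`, both `φ w`, `φ w'` are
`(1/2) t² H b b + (1/6) t³ C b b b + o(t³)`. By `h1`, `h2`: `H a a * s = - B φ w`,
`r H a a * s' = - B' φ w'`, so `s - s' = (1 - 1/r) ((1/2) t² H b b + (1/6) t³ C b b b) / H a a + o(t³)`.
By the mean value theorem `(Df(x+w) - Df(x+w')) a = (s - s') D2 f (x + w'') a a` with `w''` between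
`w` and `w'`, and `D2 f (x + w'') a a = H a a + t C b a a + o(t)`. The left side is
`(1 - 1/r) ((1/2) t² H b b + (1/3) t³ C b b b) + o(t³)`. Compare the coefficients of `t³`:
`(1/3) C b b b = (1/6) C b b b + (1/2) H b b C b a a / H a a`. -/
theorem pair_core {m : ℕ} {f : E m → ℝ} {x : E m} (hf : ContDiffAt ℝ 3 f x)
    (hpos : ∀ h : E m, h ≠ 0 → 0 < D2 f x h h) {a b : E m} (ha : a ≠ 0)
    (hab : D2 f x a b = 0) {r B B' : ℝ} (hr0 : r ≠ 0) (hr1 : r ≠ 1)
    (h1 : ∀ᶠ w in 𝓝 (0 : E m), f (x + w) + fderiv ℝ f (x + w) (a - w) = f x + fderiv ℝ f x a →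
      D2 f x a w + B * (f (x + w) - f x - fderiv ℝ f x w) = 0)
    (h2 : ∀ᶠ w in 𝓝 (0 : E m), f (x + w) + fderiv ℝ f (x + w) (r • a - w)
        = f x + fderiv ℝ f x (r • a) →
      r * D2 f x a w + B' * (f (x + w) - f x - fderiv ℝ f x w) = 0) :
    D3 f x b b b * D2 f x a a = 3 * D3 f x a a b * D2 f x b b := by
  by_cases hb : b = 0
  · subst hb
    simp
  have hf2 : ContDiffAt ℝ 2 f x := hf.of_le (by norm_num)
  have hba : D2 f x b a = 0 := by rw [D2_symm hf2]; exact hab
  have haa : 0 < D2 f x a a := hpos a ha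
  have hbb : 0 < D2 f x b b := hpos b hb
  -- the general use of `ivt_core`
  have hgen : ∀ (c : E m) (β : ℝ), c ≠ 0 → D2 f x b c = 0 →
      (∀ᶠ w in 𝓝 (0 : E m), f (x + w) + fderiv ℝ f (x + w) (c - w) = f x + fderiv ℝ f x c →
        D2 f x c w + β * (f (x + w) - f x - fderiv ℝ f x w) = 0) →
      D3 f x c b b = (1 + β) * D2 f x b b := by
    intro c β hc hbc hz
    have hcc : 0 < D2 f x c c := hpos c hc
    have h := (ivt_core (D2 f x) (D3 f x c) (fun b b' => D2_symm hf2 b b')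
      (fun w => f (x + w) + fderiv ℝ f (x + w) (c - w) - f x - fderiv ℝ f x c)
      (fun w => D2 f x c w + β * (f (x + w) - f x - fderiv ℝ f x w)) (D2 f x c) β c b hcc hbc
      (PairCore_cont hf c) (by
        refine (taylor_shadow hf c).congr_left fun w => ?_
        rw [D3_symm12 hf c w w, D3_symm23 hf w c w]) (by
        refine ((taylor_f hf2).const_mul_left β).congr_left fun w => ?_
        ring) (by
        filter_upwards [hz] with w hw h0
        exact hw (by linarith))).2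
    have h2 : D2 f x c c * (D3 f x c b b - (1 + β) * D2 f x b b) = 0 := by
      linear_combination -h
    rcases mul_eq_zero.1 h2 with h3 | h3
    · exact absurd h3 hcc.ne'
    · linarith
  have hC1 : D3 f x a b b = (1 + B) * D2 f x b b := hgen a B ha hba h1
  have hra : r • a ≠ 0 := smul_ne_zero hr0 ha
  have hC2 : D3 f x (r • a) b b = (1 + B') * D2 f x b b := by
    refine hgen (r • a) B' hra (by rw [map_smul, hba, smul_zero]) ?_
    filter_upwards [h2] with w hw h0
    have := hw h0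
    rw [map_smul, smul_apply, smul_eq_mul]
    exact this
  have hBB : B' / r - B = 1 - 1 / r := by
    rw [map_smul, smul_apply, smul_apply, smul_eq_mul, hC1] at hC2
    have h3 : r * (1 + B) = 1 + B' := by
      have h4 : (r * (1 + B) - (1 + B')) * D2 f x b b = 0 := by linear_combination hC2
      rcases mul_eq_zero.1 h4 with h5 | h5
      · linarith
      · exact absurd h5 hbb.ne'
    field_simp
    linear_combination -h3
  -- the two curves
  have hzero : ∀ c : E m, c ≠ 0 → D2 f x b c = 0 → ∃ s : ℝ → ℝ,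
      s =O[𝓝[>] 0] (fun t : ℝ => t ^ 2) ∧ ∀ᶠ t in 𝓝[>] (0 : ℝ),
        f (x + (t • b + s t • c)) + fderiv ℝ f (x + (t • b + s t • c)) (c - (t • b + s t • c)) -
          f x - fderiv ℝ f x c = 0 := by
    intro c hc hbc
    obtain ⟨R, s, hR, h⟩ := ivt_zero (D2 f x) (D3 f x c) (fun b b' => D2_symm hf2 b b')
      (fun w => f (x + w) + fderiv ℝ f (x + w) (c - w) - f x - fderiv ℝ f x c) c b (hpos c hc) hbc
      (PairCore_cont hf c) (by
        refine (taylor_shadow hf c).congr_left fun w => ?_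
        rw [D3_symm12 hf c w w, D3_symm23 hf w c w])
    refine ⟨s, IsBigO.of_bound R ?_, h.mono fun t ht => ht.2⟩
    filter_upwards [h] with t ht
    rw [Real.norm_eq_abs, Real.norm_of_nonneg (by positivity : (0 : ℝ) ≤ t ^ 2)]
    exact ht.1
  obtain ⟨s, hs, hz1⟩ := hzero a ha hba
  obtain ⟨s0, hs0, hz2⟩ := hzero (r • a) hra (by rw [map_smul, hba, smul_zero])
  set s' : ℝ → ℝ := fun t => s0 t * r with hs'def
  have hs' : s' =O[𝓝[>] 0] (fun t : ℝ => t ^ 2) :=
    (hs0.const_mul_left r).congr_left fun t => by rw [hs'def]; ring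
  have hz2' : ∀ᶠ t in 𝓝[>] (0 : ℝ),
      f (x + (t • b + s' t • a)) + fderiv ℝ f (x + (t • b + s' t • a)) (r • a - (t • b + s' t • a)) -
          f x - fderiv ℝ f x (r • a) = 0 := by
    filter_upwards [hz2] with t ht
    rw [smul_smul] at ht
    exact ht
  have e1 := PairCore_phi hf a b hab hba hs
  have e1' := PairCore_phi hf a b hab hba hs'
  have e2 := PairCore_psi hf a b hab hba hs
  have e2' := PairCore_psi hf a b hab hba hs'
  have e3 := PairCore_mvt hf a b hs hs'
  have hw1 := (PairCore_tendsto a b hs).eventually h1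
  have hw2 := (PairCore_tendsto a b hs').eventually h2
  set c : ℝ := D3 f x b a a / D2 f x a a with hc
  have hcaa : c * D2 f x a a = D3 f x b a a := by
    rw [hc]
    field_simp
  have hO : (fun t : ℝ => ((1 - 1 / r) * ((1 / 6) * D3 f x b b b - (1 / 2) * (D2 f x b b * c))) *
      t ^ 3) =o[𝓝[>] 0] (fun t : ℝ => t ^ 3) := by
    have g1 := (e1.const_mul_left B).sub (e1'.const_mul_left (B' / r))
    have g2 := (PairCore_mulT g1).const_mul_left c
    have g3 := PairCore_t4.const_mul_left ((1 - 1 / r) * (1 / 6) * D3 f x b b b * c)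
    have g4 := ((((e3.sub (e2.sub e1)).add ((e2'.sub e1').const_mul_left (1 / r))).sub
      (g1.add g2)).add g3)
    refine g4.congr' ?_ EventuallyEq.rfl
    filter_upwards [hz1, hz2', hw1, hw2] with t k1 k2 k3 k4
    have k5 := k3 (by linarith)
    have k6 := k4 (by linarith)
    have k7 : D2 f x a (t • b + s t • a) = s t * D2 f x a a := by
      simp only [map_add, map_smul, smul_eq_mul, hab]
      ring
    have k8 : D2 f x a (t • b + s' t • a) = s' t * D2 f x a a := by
      simp only [map_add, map_smul, smul_eq_mul, hab]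
      ring
    rw [k7] at k5
    rw [k8] at k6
    rw [map_sub] at k1 k2
    rw [map_smul, map_smul, smul_eq_mul, smul_eq_mul] at k2
    set F := f (x + (t • b + s t • a)) - f x - fderiv ℝ f x (t • b + s t • a) with hF
    set F' := f (x + (t • b + s' t • a)) - f x - fderiv ℝ f x (t • b + s' t • a) with hF'
    set X := fderiv ℝ f (x + (t • b + s t • a)) (t • b + s t • a) -
      fderiv ℝ f x (t • b + s t • a) with hX
    set X' := fderiv ℝ f (x + (t • b + s' t • a)) (t • b + s' t • a) -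
      fderiv ℝ f x (t • b + s' t • a) with hX'
    set G := fderiv ℝ f (x + (t • b + s t • a)) a with hG
    set G' := fderiv ℝ f (x + (t • b + s' t • a)) a with hG'
    set G0 := fderiv ℝ f x a with hG0
    have m1 : G - G0 = X - F := by
      rw [hX, hF]
      linear_combination k1
    have m2 : G' - G0 = (X' - F') / r := by
      rw [eq_div_iff hr0, hX', hF']
      linear_combination k2
    have m3 : s t * D2 f x a a = - (B * F) := by linear_combination k5
    have m4 : s' t * D2 f x a a = - (B' / r * F') := by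
      field_simp
      linear_combination k6
    rw [← hcaa]
    have m5 : B' / r = B + (1 - 1 / r) := by linear_combination hBB
    rw [m5] at m4 ⊢
    have m6 : G - G' = (X - F) - (X' - F') * (1 / r) := by
      have : (X' - F') / r = (X' - F') * (1 / r) := by ring
      rw [← this, ← m2, ← m1]
      ring
    generalize (1 / r : ℝ) = ρ at *
    linear_combination m6 - (1 + t * c) * m3 + (1 + t * c) * m4
  have hκ : (1 - 1 / r) * ((1 / 6) * D3 f x b b b - (1 / 2) * (D2 f x b b * c)) = 0 := by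
    have h4 := hO.tendsto_div_nhds_zero
    have h5 : Tendsto (fun t : ℝ => ((1 - 1 / r) * ((1 / 6) * D3 f x b b b -
        (1 / 2) * (D2 f x b b * c))) * t ^ 3 / t ^ 3) (𝓝[>] 0)
        (𝓝 ((1 - 1 / r) * ((1 / 6) * D3 f x b b b - (1 / 2) * (D2 f x b b * c)))) := by
      refine tendsto_const_nhds.congr' ?_
      filter_upwards [self_mem_nhdsWithin] with t ht
      have ht0 : t ≠ 0 := ne_of_gt ht
      field_simp
    exact tendsto_nhds_unique h5 h4
  have hq : (1 - 1 / r : ℝ) ≠ 0 := by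
    intro h
    apply hr1
    field_simp at h
    linarith
  rcases mul_eq_zero.1 hκ with h4 | h4
  · exact absurd h4 hq
  · have h5 : D3 f x a a b = D3 f x b a a := by
      rw [D3_symm23 hf a a b, D3_symm12 hf a b a]
    rw [h5, ← hcaa]
    linear_combination 6 * D2 f x a a * h4

end MP80b30d
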