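import Pool.Agent.Lib.MP_80b30d_gt.Light
import Pool.Agent.Lib.MP_80b30d_gt.PairCore

/-! MP_80b30d_gt, third part: two lights on one line, in a chart. -/

namespace MP80b30d

open Set Filter Topology Metric

variable {m n : ℕ} {K : Set (E n)} {Ψ : (E m × ℝ) ≃L[ℝ] E n} {f : E m → ℝ} {x : E m}

/-- A point of the graph near `x`, seen by a linear form. -/
private theorem pairChart_split (Ψ : (E m × ℝ) ≃L[ℝ] E n) (f : E m → ℝ) (x w : E m)
    (L : E n →L[ℝ] ℝ) :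
    L (Ψ (x + w, f (x + w))) = L (Ψ (x, f x)) + L (Ψ (w, fderiv ℝ f x w)) +
      (f (x + w) - f x - fderiv ℝ f x w) * L (Ψ ((0 : E m), (1 : ℝ))) := by
  have h1 : ((x + w, f (x + w)) : E m × ℝ) = (x, f x) + (w, fderiv ℝ f x w) +
      (f (x + w) - f x - fderiv ℝ f x w) • ((0 : E m), (1 : ℝ)) := by
    ext1
    · simp
    · simp
  rw [h1, map_add, map_add, map_smul, map_add, map_add, map_smul, smul_eq_mul]

/-- The equation of a flat shadow boundary in a chart, divided by the factor. -/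
private theorem pairChart_light (hm : 2 ≤ m) (hK : Convex ℝ K) (h : Chart K Ψ f x)
    (hpos : ∀ b : E m, b ≠ 0 → 0 < D2 f x b b) {a : E m} (ha : a ≠ 0)
    {L : E n →L[ℝ] ℝ} {c : ℝ} (hL : L ≠ 0)
    (hs : shadow K (Ψ (x + a, f x + fderiv ℝ f x a)) ⊆ {z | L z = c}) :
    ∃ B : ℝ, ∀ᶠ w in 𝓝 (0 : E m),
      f (x + w) + fderiv ℝ f (x + w) (a - w) = f x + fderiv ℝ f x a →
        D2 f x a w + B * (f (x + w) - f x - fderiv ℝ f x w) = 0 := by
  obtain ⟨h1, lam, κ, hlam, h2, -⟩ := light_chart hm hK h hpos ha hL hs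
  refine ⟨L (Ψ ((0 : E m), (1 : ℝ))) / lam, ?_⟩
  filter_upwards [shadow_chart hK h a] with w hw hw2
  have h3 : L (Ψ (x + w, f (x + w))) = c := hs (hw hw2)
  rw [pairChart_split, h1, h2 w] at h3
  have h4 : lam * (D2 f x a w + L (Ψ ((0 : E m), (1 : ℝ))) / lam *
      (f (x + w) - f x - fderiv ℝ f x w)) = 0 := by
    field_simp
    linarith
  exact (mul_eq_zero.1 h4).resolve_left hlam

/-- Paper proof: `light_chart` gives `lam`, `lam' ≠ 0` with `L (Ψ (b, Df(x) b)) = lam H a b`,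
`L' (Ψ (b, Df(x) b)) = lam' H (r a) b`; by `shadow_chart`, on the zero set of the shadow function
`L (Ψ (w, f (x+w) - f x)) = 0`, that is `lam H a w + L (Ψ (0, 1)) (f (x+w) - f x - Df(x) w) = 0`.
Apply `pair_core` with `B = L (Ψ (0, 1)) / lam`, `B' = L' (Ψ (0, 1)) / lam'`. -/
theorem pair_chart (hm : 2 ≤ m) (hK : Convex ℝ K) (h : Chart K Ψ f x)
    (hpos : ∀ b : E m, b ≠ 0 → 0 < D2 f x b b) {a : E m} (ha : a ≠ 0) {r : ℝ} (hr0 : r ≠ 0)
    (hr1 : r ≠ 1) {L L' : E n →L[ℝ] ℝ} {c c' : ℝ} (hL : L ≠ 0) (hL' : L' ≠ 0)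
    (hs : shadow K (Ψ (x + a, f x + fderiv ℝ f x a)) ⊆ {z | L z = c})
    (hs' : shadow K (Ψ (x + r • a, f x + fderiv ℝ f x (r • a))) ⊆ {z | L' z = c'})
    (b : E m) (hab : D2 f x a b = 0) :
    D3 f x b b b * D2 f x a a = 3 * D3 f x a a b * D2 f x b b := by
  obtain ⟨B, hB⟩ := pairChart_light hm hK h hpos ha hL hs
  obtain ⟨B', hB'⟩ := pairChart_light hm hK h hpos (smul_ne_zero hr0 ha) hL' hs'
  refine pair_core h.smooth hpos ha hab hr0 hr1 hB (B' := B') ?_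
  filter_upwards [hB'] with w hw hw2
  have h1 := hw hw2
  rwa [map_smul, ContinuousLinearMap.smul_apply, smul_eq_mul] at h1

end MP80b30d
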