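import Pool.Agent.Lib.MP_80b30d_gt.Defs

/-! MP_80b30d_gt, third part: lights collinear with the point of contact. -/

namespace MP80b30d

open Set Filter Topology Metric

/-- `u` is a light in the tangent hyperplane of `K` at `p`, outside `K`, whose shadow boundary lies
in the hyperplane `L = c`. -/
def FlatLight {n : ℕ} (K : Set (E n)) (p u : E n) (L : E n →L[ℝ] ℝ) (c : ℝ) : Prop :=
  u ∈ tangentPlane K p ∧ u ∉ K ∧ L ≠ 0 ∧ shadow K u ⊆ {x | L x = c}

/-- Three lights: `u` and `p + r (u - p)`, `r ≠ 1`, on one line through `p`, and a third light `v`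
which is neither on this line nor in the hyperplane containing the shadow boundary of `u`. -/
def ThreeLights {n : ℕ} (K : Set (E n)) (p : E n) : Prop :=
  ∃ (u v : E n) (r : ℝ) (L L' L'' : E n →L[ℝ] ℝ) (c c' c'' : ℝ), r ≠ 1 ∧
    FlatLight K p u L c ∧ FlatLight K p (p + r • (u - p)) L' c' ∧ FlatLight K p v L'' c'' ∧
    LinearIndependent ℝ ![u - p, v - p] ∧ L v ≠ c

/-- Pairs of lights on `k` different lines through `p`. -/
def PairLights {n : ℕ} (K : Set (E n)) (k : ℕ) (p : E n) : Prop :=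
  ∃ (u : Fin k → E n) (r : Fin k → ℝ) (L L' : Fin k → (E n →L[ℝ] ℝ)) (c c' : Fin k → ℝ),
    (∀ i, r i ≠ 1 ∧ FlatLight K p (u i) (L i) (c i) ∧
      FlatLight K p (p + r i • (u i - p)) (L' i) (c' i)) ∧
    ∀ i j, i ≠ j → LinearIndependent ℝ ![u i - p, u j - p]

end MP80b30d
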