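import Pool.Agent.Lib.MP_80b30d_gt.Symm
import Pool.Agent.Lib.MP_80b30d_gt.Taylor

/-! MP_80b30d_gt, third part: Taylor expansions of order three. -/

namespace MP80b30d

open Set Filter Topology Metric Asymptotics

variable {W : Type*} [NormedAddCommGroup W] [NormedSpace ℝ W]

private theorem PairT_aux {F : Type*} [NormedAddCommGroup F] [NormedSpace ℝ F] {g : W → F}
    {g' : W → W →L[ℝ] F} {k : ℕ} (h0 : g 0 = 0)
    (hd : ∀ᶠ w in 𝓝 (0 : W), HasFDerivAt g (g' w) w)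
    (ho : g' =o[𝓝 0] (fun w : W => ‖w‖ ^ k)) : g =o[𝓝 0] (fun w : W => ‖w‖ ^ (k + 1)) := by
  rw [isLittleO_iff]
  intro ε hε
  have h1 := (isLittleO_iff.1 ho) hε
  obtain ⟨δ, hδ, h2⟩ := Metric.eventually_nhds_iff_ball.1 (hd.and h1)
  filter_upwards [Metric.ball_mem_nhds (0 : W) hδ] with w hw
  rw [mem_ball_zero_iff] at hw
  have h3 := (convex_closedBall (0 : W) ‖w‖).norm_image_sub_le_of_norm_hasFDerivWithin_le
    (f := g) (f' := g') (C := ε * ‖w‖ ^ k) (x := 0) (y := w)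
    (fun y hy => ((h2 y (by
      rw [mem_ball_zero_iff]
      exact (mem_closedBall_zero_iff.1 hy).trans_lt hw)).1).hasFDerivWithinAt)
    (fun y hy => by
      have h4 := mem_closedBall_zero_iff.1 hy
      have h5 := (h2 y (by
        rw [mem_ball_zero_iff]
        exact h4.trans_lt hw)).2
      rw [Real.norm_of_nonneg (by positivity : (0 : ℝ) ≤ ‖y‖ ^ k)] at h5
      exact h5.trans (mul_le_mul_of_nonneg_left (pow_le_pow_left₀ (norm_nonneg _) h4 k) hε.le))
    (mem_closedBall_zero_iff.2 (by rw [norm_zero]; exact norm_nonneg _))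
    (mem_closedBall_zero_iff.2 le_rfl)
  rw [h0, sub_zero, sub_zero] at h3
  rw [Real.norm_of_nonneg (by positivity : (0 : ℝ) ≤ ‖w‖ ^ (k + 1))]
  calc ‖g w‖ ≤ ε * ‖w‖ ^ k * ‖w‖ := h3
    _ = ε * ‖w‖ ^ (k + 1) := by ring

omit [NormedSpace ℝ W] in
private theorem PairT_tendsto (x : W) : Tendsto (fun w : W => x + w) (𝓝 0) (𝓝 x) := by
  have h2 : Tendsto (fun w : W => x + w) (𝓝 0) (𝓝 (x + 0)) :=
    (continuous_const.add continuous_id).tendsto 0
  rwa [add_zero] at h2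

private theorem PairT_shift {F : Type*} [NormedAddCommGroup F] [NormedSpace ℝ F] {g : W → F}
    {x w : W} {g' : W →L[ℝ] F} (h : HasFDerivAt g g' (x + w)) :
    HasFDerivAt (fun w : W => g (x + w)) g' w := by
  have h3 : HasFDerivAt (fun w : W => x + w) (ContinuousLinearMap.id ℝ W) w :=
    (hasFDerivAt_id w).const_add x
  have h4 := HasFDerivAt.comp w h h3
  rwa [ContinuousLinearMap.comp_id] at h4

private theorem PairT_D2o {f : W → ℝ} {x : W} (hf : ContDiffAt ℝ 3 f x) :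
    (fun w : W => D2 f (x + w) - D2 f x - D3 f x w) =o[𝓝 0] (fun w : W => ‖w‖ ^ 1) := by
  have h := (hasFDerivAt_iff_isLittleO_nhds_zero (𝕜 := ℝ) (E := W) (F := W →L[ℝ] W →L[ℝ] ℝ)
    (f := D2 f) (f' := D3 f x) (x := x)).1 (hasFDerivAt_D2 hf)
  simp only [pow_one]
  exact h.norm_right

private theorem PairT_quad {F : Type*} [NormedAddCommGroup F] [NormedSpace ℝ F]
    (B : W →L[ℝ] W →L[ℝ] F) (w : W) :
    HasFDerivAt (fun w : W => B w w) (B w + B.flip w) w := by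
  have h5 := (B.hasFDerivAt (x := w)).clm_apply (hasFDerivAt_id w)
  rwa [ContinuousLinearMap.comp_id] at h5

private theorem PairT_fd {f : W → ℝ} {x : W} (hf : ContDiffAt ℝ 3 f x) :
    (fun w : W => fderiv ℝ f (x + w) - fderiv ℝ f x - D2 f x w - (1 / 2 : ℝ) • D3 f x w w)
      =o[𝓝 0] (fun w : W => ‖w‖ ^ 2) := by
  refine PairT_aux (k := 1) (g' := fun w : W => D2 f (x + w) - D2 f x - D3 f x w) (by simp) ?_
    (PairT_D2o hf)
  have hd : ∀ᶠ y in 𝓝 x, DifferentiableAt ℝ (fderiv ℝ f) y := by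
    have h1 : ContDiffAt ℝ 2 (fderiv ℝ f) x := hf.fderiv_right (by norm_num)
    filter_upwards [h1.eventually (by simp)] with y hy
    exact hy.differentiableAt (by norm_num)
  filter_upwards [(PairT_tendsto x).eventually hd] with w hw
  have e1 : HasFDerivAt (fun w : W => fderiv ℝ f (x + w)) (D2 f (x + w)) w :=
    PairT_shift hw.hasFDerivAt
  have e2 : HasFDerivAt (fun w : W => D2 f x w) (D2 f x) w := (D2 f x).hasFDerivAt
  have e3 := PairT_quad (D3 f x) w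
  have e4 := ((e1.sub_const (fderiv ℝ f x)).sub e2).sub (e3.const_smul (1 / 2 : ℝ))
  refine e4.congr_fderiv ?_
  ext v z
  have h6 := D3_symm12 hf v w z
  simp only [sub_apply, smul_apply, add_apply, ContinuousLinearMap.flip_apply, smul_eq_mul]
  rw [h6]
  ring

/-- Paper proof: the derivative of the left side at `w` is `o(‖w‖²)`, see `taylor_Df` (for all
directions at once, i.e. in operator norm), and `taylor_aux`. If this is easier, assume in addition
`[FiniteDimensional ℝ W]`. -/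
theorem taylor3_f [FiniteDimensional ℝ W] {f : W → ℝ} {x : W} (hf : ContDiffAt ℝ 3 f x) :
    (fun w : W => f (x + w) - f x - fderiv ℝ f x w - (1 / 2) * D2 f x w w
      - (1 / 6) * D3 f x w w w) =o[𝓝 0] (fun w : W => ‖w‖ ^ 3) := by
  refine PairT_aux (k := 2) (g' := fun w : W => fderiv ℝ f (x + w) - fderiv ℝ f x - D2 f x w -
    (1 / 2 : ℝ) • D3 f x w w) (by simp) ?_ (PairT_fd hf)
  have hd : ∀ᶠ y in 𝓝 x, DifferentiableAt ℝ f y := by
    filter_upwards [hf.eventually (by simp)] with y hy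
    exact hy.differentiableAt (by norm_num)
  filter_upwards [(PairT_tendsto x).eventually hd] with w hw
  have e1 : HasFDerivAt (fun w : W => f (x + w)) (fderiv ℝ f (x + w)) w :=
    PairT_shift hw.hasFDerivAt
  have e2 : HasFDerivAt (fun w : W => fderiv ℝ f x w) (fderiv ℝ f x) w :=
    (fderiv ℝ f x).hasFDerivAt
  have e3 := PairT_quad (D2 f x) w
  have e4 : HasFDerivAt (fun w : W => D3 f x w w w)
      (D3 f x w w + (D3 f x w + (D3 f x).flip w).flip w) w := by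
    have h5 := (PairT_quad (D3 f x) w).clm_apply (hasFDerivAt_id w)
    rwa [ContinuousLinearMap.comp_id] at h5
  have e5 := (((e1.sub_const (f x)).sub e2).sub (e3.const_mul (1 / 2 : ℝ))).sub
    (e4.const_mul (1 / 6 : ℝ))
  refine e5.congr_fderiv ?_
  ext v
  have h6 := D3_symm12 hf v w w
  have h7 := D3_symm23 hf w v w
  have h8 := D2_symm (hf.of_le (by norm_num)) v w
  simp only [sub_apply, smul_apply, add_apply, ContinuousLinearMap.flip_apply, smul_eq_mul]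
  rw [h6, h7, h8]
  ring

theorem taylor3_Dfw [FiniteDimensional ℝ W] {f : W → ℝ} {x : W} (hf : ContDiffAt ℝ 3 f x) :
    (fun w : W => fderiv ℝ f (x + w) w - fderiv ℝ f x w - D2 f x w w
      - (1 / 2) * D3 f x w w w) =o[𝓝 0] (fun w : W => ‖w‖ ^ 3) := by
  have h1 := PairT_fd hf
  rw [isLittleO_iff] at h1 ⊢
  intro ε hε
  filter_upwards [h1 hε] with w hw
  rw [Real.norm_of_nonneg (by positivity : (0 : ℝ) ≤ ‖w‖ ^ 3)]
  rw [Real.norm_of_nonneg (by positivity : (0 : ℝ) ≤ ‖w‖ ^ 2)] at hw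
  have h2 : fderiv ℝ f (x + w) w - fderiv ℝ f x w - D2 f x w w - (1 / 2) * D3 f x w w w =
      (fderiv ℝ f (x + w) - fderiv ℝ f x - D2 f x w - (1 / 2 : ℝ) • D3 f x w w) w := by
    simp only [sub_apply, smul_apply, smul_eq_mul]
  rw [h2]
  calc ‖(fderiv ℝ f (x + w) - fderiv ℝ f x - D2 f x w - (1 / 2 : ℝ) • D3 f x w w) w‖
      ≤ ‖fderiv ℝ f (x + w) - fderiv ℝ f x - D2 f x w - (1 / 2 : ℝ) • D3 f x w w‖ * ‖w‖ :=
        ContinuousLinearMap.le_opNorm _ _
    _ ≤ ε * ‖w‖ ^ 2 * ‖w‖ := mul_le_mul_of_nonneg_right hw (norm_nonneg _)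
    _ = ε * ‖w‖ ^ 3 := by ring

theorem taylor1_D2 {f : W → ℝ} {x : W} (hf : ContDiffAt ℝ 3 f x) (a : W) :
    (fun w : W => D2 f (x + w) a a - D2 f x a a - D3 f x w a a) =o[𝓝 0] (fun w : W => ‖w‖) := by
  have h1 := PairT_D2o hf
  rw [isLittleO_iff] at h1 ⊢
  intro ε hε
  have hc : 0 < ε / (‖a‖ * ‖a‖ + 1) := by positivity
  filter_upwards [h1 hc] with w hw
  rw [Real.norm_of_nonneg (by positivity : (0 : ℝ) ≤ ‖w‖ ^ 1), pow_one] at hw
  rw [Real.norm_of_nonneg (norm_nonneg w)]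
  have h2 : D2 f (x + w) a a - D2 f x a a - D3 f x w a a =
      (D2 f (x + w) - D2 f x - D3 f x w) a a := by
    simp only [sub_apply]
  rw [h2]
  calc ‖(D2 f (x + w) - D2 f x - D3 f x w) a a‖
      ≤ ‖(D2 f (x + w) - D2 f x - D3 f x w) a‖ * ‖a‖ := ContinuousLinearMap.le_opNorm _ _
    _ ≤ (‖D2 f (x + w) - D2 f x - D3 f x w‖ * ‖a‖) * ‖a‖ :=
        mul_le_mul_of_nonneg_right (ContinuousLinearMap.le_opNorm _ _) (norm_nonneg _)
    _ ≤ (ε / (‖a‖ * ‖a‖ + 1) * ‖w‖ * ‖a‖) * ‖a‖ := by gcongr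
    _ = ε * (‖a‖ * ‖a‖ / (‖a‖ * ‖a‖ + 1)) * ‖w‖ := by ring
    _ ≤ ε * 1 * ‖w‖ := by
        have h3 : ‖a‖ * ‖a‖ / (‖a‖ * ‖a‖ + 1) ≤ 1 := by
          rw [div_le_one (by positivity)]
          linarith
        gcongr
    _ = ε * ‖w‖ := by ring

end MP80b30d
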