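import Pool.Agent.Lib.MP_80b30d_gt.PairDefs
import Pool.Agent.Lib.MP_80b30d_gt.PairChart
import Pool.Agent.Lib.MP_80b30d_gt.PairAlg
import Pool.Agent.Lib.MP_80b30d_gt.PairAlg2
import Pool.Agent.Lib.MP_80b30d_gt.Ext

/-! MP_80b30d_gt, third part: the lights at one point determine the cubic form. -/

namespace MP80b30d

open Set Filter Topology Metric

variable {m : ℕ} {K : Set (E (m + 1))} {Ψ : (E m × ℝ) ≃L[ℝ] E (m + 1)} {f : E m → ℝ} {x : E m}

private theorem pairTr_mem (h : Chart K Ψ f x) : Ψ (x, f x) ∈ K :=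
  (h.mem.self_of_nhds).2 le_rfl

private theorem pairTr_forms (f : E m → ℝ) (x : E m) :
    ∃ (H : E m →ₗ[ℝ] E m →ₗ[ℝ] ℝ) (C : E m →ₗ[ℝ] E m →ₗ[ℝ] E m →ₗ[ℝ] ℝ),
      (∀ b b', H b b' = D2 f x b b') ∧ ∀ g b b', C g b b' = D3 f x g b b' := by
  refine ⟨LinearMap.mk₂ ℝ (fun b b' => D2 f x b b')
    (fun b b' d => by simp) (fun r b d => by simp) (fun b d d' => by simp)
    (fun r b d => by simp),
    { toFun := fun g => LinearMap.mk₂ ℝ (fun b b' => D3 f x g b b')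
        (fun b b' d => by simp) (fun r b d => by simp) (fun b d d' => by simp)
        (fun r b d => by simp)
      map_add' := fun g g' => by
        ext b b'
        simp
      map_smul' := fun r g => by
        ext b b'
        simp }, fun b b' => rfl, fun g b b' => rfl⟩

private theorem pairTr_sub {u : E (m + 1)} {a : E m}
    (ha : u = Ψ (x + a, f x + fderiv ℝ f x a)) : u - Ψ (x, f x) = Ψ (a, fderiv ℝ f x a) := by
  rw [ha, ← map_sub]
  congr 1
  ext1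
  · simp
  · simp

private theorem pairTr_ind {a a' : E m}
    (hind : LinearIndependent ℝ ![Ψ (a, fderiv ℝ f x a), Ψ (a', fderiv ℝ f x a')]) :
    LinearIndependent ℝ ![a, a'] := by
  set T : E m →ₗ[ℝ] E (m + 1) := (Ψ.toContinuousLinearMap.toLinearMap) ∘ₗ
    (LinearMap.prod LinearMap.id (fderiv ℝ f x).toLinearMap) with hT
  have hTa : ∀ b, T b = Ψ (b, fderiv ℝ f x b) := fun b => rfl
  refine LinearIndependent.of_comp T ?_
  have h2 : (T ∘ ![a, a']) = ![Ψ (a, fderiv ℝ f x a), Ψ (a', fderiv ℝ f x a')] := by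
    funext i
    fin_cases i
    · exact hTa a
    · exact hTa a'
  rw [h2]
  exact hind

/-- a single light -/
private theorem pairTr_one (hm : 2 ≤ m) (hK : Convex ℝ K) (h : Chart K Ψ f x)
    (hpos : ∀ b : E m, b ≠ 0 → 0 < D2 f x b b) {u : E (m + 1)} {L : E (m + 1) →L[ℝ] ℝ} {c : ℝ}
    (hu : FlatLight K (Ψ (x, f x)) u L c) :
    ∃ a : E m, a ≠ 0 ∧ u = Ψ (x + a, f x + fderiv ℝ f x a) ∧
      (∀ a' : E m, L (Ψ (x + a', f x + fderiv ℝ f x a')) ≠ c → D2 f x a a' ≠ 0) ∧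
      ∃ κ : ℝ, ∀ w : E m, D2 f x a w = 0 → D3 f x a w w = κ * D2 f x w w := by
  obtain ⟨h1, h2, h3, h4⟩ := hu
  obtain ⟨a, ha⟩ := tangent_chart h h1
  have ha0 : a ≠ 0 := by
    intro e
    apply h2
    rw [ha, e, add_zero, map_zero, add_zero]
    exact pairTr_mem h
  obtain ⟨h5, lam, κ, hlam, h6, h7⟩ := light_chart hm hK h hpos ha0 h3 (by rw [← ha]; exact h4)
  refine ⟨a, ha0, ha, ?_, κ, h7⟩
  intro a' hne h0
  apply hne
  have h8 : Ψ (x + a', f x + fderiv ℝ f x a') = Ψ (x, f x) + Ψ (a', fderiv ℝ f x a') := by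
    rw [← map_add]
    rfl
  rw [h8, map_add, h5, h6, h0, mul_zero, add_zero]

/-- a pair of lights -/
private theorem pairTr_pair (hm : 2 ≤ m) (hK : Convex ℝ K) (h : Chart K Ψ f x)
    (hpos : ∀ b : E m, b ≠ 0 → 0 < D2 f x b b) {u : E (m + 1)} {r : ℝ}
    {L L' : E (m + 1) →L[ℝ] ℝ} {c c' : ℝ} (hr : r ≠ 1)
    (hu : FlatLight K (Ψ (x, f x)) u L c)
    (hu' : FlatLight K (Ψ (x, f x)) (Ψ (x, f x) + r • (u - Ψ (x, f x))) L' c') :
    ∃ a : E m, a ≠ 0 ∧ u = Ψ (x + a, f x + fderiv ℝ f x a) ∧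
      (∀ a' : E m, L (Ψ (x + a', f x + fderiv ℝ f x a')) ≠ c → D2 f x a a' ≠ 0) ∧
      (∃ κ : ℝ, ∀ w : E m, D2 f x a w = 0 → D3 f x a w w = κ * D2 f x w w) ∧
      ∀ b : E m, D2 f x a b = 0 →
        D3 f x b b b * D2 f x a a = 3 * D3 f x a a b * D2 f x b b := by
  obtain ⟨a, ha0, ha, h1, h2⟩ := pairTr_one hm hK h hpos hu
  refine ⟨a, ha0, ha, h1, h2, ?_⟩
  intro b hb
  have hr0 : r ≠ 0 := by
    intro e
    apply hu'.2.1
    rw [e, zero_smul, add_zero]
    exact pairTr_mem h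
  have hra : Ψ (x, f x) + r • (u - Ψ (x, f x)) =
      Ψ (x + r • a, f x + fderiv ℝ f x (r • a)) := by
    rw [pairTr_sub ha, ← map_smul, ← map_add, map_smul]
    rfl
  refine pair_chart hm hK h hpos ha0 hr0 hr hu.2.2.1 hu'.2.2.1 (c := c) (c' := c') ?_ ?_ b hb
  · rw [← ha]
    exact hu.2.2.2
  · rw [← hra]
    exact hu'.2.2.2

/-- Paper proof: as in PointTr.lean. `tangent_chart` for `u`, `v` gives `a`, `a'` with
`u - p = Ψ (a, Df(x) a)`; then `p + r (u - p) = Ψ (x + r a, f x + Df(x) (r a))`, and `r ≠ 0` since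
this light is not in `K` but `p` is. `light_chart` gives `κ`, `κ'` and `L v ≠ c` gives
`H a a' ≠ 0`; `pair_chart`, `cube_form`, `three_alg`. -/
theorem three_tr (hm : 3 ≤ m) (hK : Convex ℝ K) (h : Chart K Ψ f x)
    (hpos : ∀ b : E m, b ≠ 0 → 0 < D2 f x b b) (hl : ThreeLights K (Ψ (x, f x))) :
    ∃ ω : E m →L[ℝ] ℝ, Tr f x ω := by
  obtain ⟨u, v, r, L, L', L'', c, c', c'', hr, hu, hu', hv, hind, hne⟩ := hl
  obtain ⟨a, ha0, ha, hLa, ⟨κ, hκ⟩, h3⟩ := pairTr_pair (by omega) hK h hpos hr hu hu'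
  obtain ⟨a', -, ha', -, κ', hκ'⟩ := pairTr_one (by omega) hK h hpos hv
  have hf2 : ContDiffAt ℝ 2 f x := h.smooth.of_le (by norm_num)
  obtain ⟨H, C, hH, hC⟩ := pairTr_forms f x
  rw [pairTr_sub ha, pairTr_sub ha'] at hind
  have hHs : ∀ b b', H b b' = H b' b := fun b b' => by rw [hH, hH]; exact D2_symm hf2 b b'
  have hHp : ∀ b, b ≠ 0 → 0 < H b b := fun b hb => by rw [hH]; exact hpos b hb
  obtain ⟨ω, d, hω⟩ := cube_form H hHs hHp C
    (fun b b' e => by rw [hC, hC]; exact D3_symm12 h.smooth b b' e)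
    (fun b b' e => by rw [hC, hC]; exact D3_symm23 h.smooth b b' e) ha0 (κ := κ)
    (fun w hw => by rw [hC, hH]; exact hκ w (by rw [← hH]; exact hw))
    (fun b hb => by rw [hC, hC, hH, hH]; exact h3 b (by rw [← hH]; exact hb))
  have hd : d = 0 := three_alg (by rw [finrank_euclideanSpace_fin]; exact hm) H hHs hHp C
    (pairTr_ind hind) (by rw [hH]; exact hLa a' (by rw [← ha']; exact hne)) hω (κ' := κ')
    (fun w hw => by rw [hC, hH]; exact hκ' w (by rw [← hH]; exact hw))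
  refine ⟨LinearMap.toContinuousLinearMap ω, fun g b b' => ?_⟩
  have h4 := hω g b b'
  rw [hd, zero_mul, add_zero, hC, hH, hH, hH] at h4
  exact h4

/-- Paper proof: the same with `cube_form` for two of the lines and `pairs_alg`. -/
theorem two_pairs_tr (hm : 3 ≤ m) (hK : Convex ℝ K) (h : Chart K Ψ f x)
    (hpos : ∀ b : E m, b ≠ 0 → 0 < D2 f x b b) (hl : PairLights K 2 (Ψ (x, f x))) :
    ∃ ω : E m →L[ℝ] ℝ, Tr f x ω := by
  obtain ⟨u, r, L, L', c, c', hu, hind⟩ := hl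
  obtain ⟨a, ha0, ha, -, ⟨κ, hκ⟩, h3⟩ :=
    pairTr_pair (by omega) hK h hpos (hu 0).1 (hu 0).2.1 (hu 0).2.2
  obtain ⟨a', ha0', ha', -, ⟨κ', hκ'⟩, h3'⟩ :=
    pairTr_pair (by omega) hK h hpos (hu 1).1 (hu 1).2.1 (hu 1).2.2
  have hf2 : ContDiffAt ℝ 2 f x := h.smooth.of_le (by norm_num)
  obtain ⟨H, C, hH, hC⟩ := pairTr_forms f x
  have hi := hind 0 1 (by decide)
  rw [pairTr_sub ha, pairTr_sub ha'] at hi
  have hHs : ∀ b b', H b b' = H b' b := fun b b' => by rw [hH, hH]; exact D2_symm hf2 b b'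
  have hHp : ∀ b, b ≠ 0 → 0 < H b b := fun b hb => by rw [hH]; exact hpos b hb
  obtain ⟨ω, d, hω⟩ := cube_form H hHs hHp C
    (fun b b' e => by rw [hC, hC]; exact D3_symm12 h.smooth b b' e)
    (fun b b' e => by rw [hC, hC]; exact D3_symm23 h.smooth b b' e) ha0 (κ := κ)
    (fun w hw => by rw [hC, hH]; exact hκ w (by rw [← hH]; exact hw))
    (fun b hb => by rw [hC, hC, hH, hH]; exact h3 b (by rw [← hH]; exact hb))
  obtain ⟨ω', d', hω'⟩ := cube_form H hHs hHp C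
    (fun b b' e => by rw [hC, hC]; exact D3_symm12 h.smooth b b' e)
    (fun b b' e => by rw [hC, hC]; exact D3_symm23 h.smooth b b' e) ha0' (κ := κ')
    (fun w hw => by rw [hC, hH]; exact hκ' w (by rw [← hH]; exact hw))
    (fun b hb => by rw [hC, hC, hH, hH]; exact h3' b (by rw [← hH]; exact hb))
  have hd : d = 0 := pairs_alg (by rw [finrank_euclideanSpace_fin]; exact hm) H hHs hHp C
    (pairTr_ind hi) hω hω'
  refine ⟨LinearMap.toContinuousLinearMap ω, fun g b b' => ?_⟩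
  have h4 := hω g b b'
  rw [hd, zero_mul, add_zero, hC, hH, hH, hH] at h4
  exact h4

/-- Paper proof: the same with `four_alg`. -/
theorem four_pairs_tr (hm : m = 2) (hK : Convex ℝ K) (h : Chart K Ψ f x)
    (hpos : ∀ b : E m, b ≠ 0 → 0 < D2 f x b b) (hl : PairLights K 4 (Ψ (x, f x))) :
    ∃ ω : E m →L[ℝ] ℝ, Tr f x ω := by
  obtain ⟨u, r, L, L', c, c', hu, hind⟩ := hl
  have hex : ∀ i, ∃ a : E m, u i = Ψ (x + a, f x + fderiv ℝ f x a) ∧
      ∀ b : E m, D2 f x a b = 0 →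
        D3 f x b b b * D2 f x a a = 3 * D3 f x a a b * D2 f x b b := by
    intro i
    obtain ⟨a, -, ha, -, -, h3⟩ :=
      pairTr_pair (by omega) hK h hpos (hu i).1 (hu i).2.1 (hu i).2.2
    exact ⟨a, ha, h3⟩
  choose a ha h3 using hex
  have hf2 : ContDiffAt ℝ 2 f x := h.smooth.of_le (by norm_num)
  obtain ⟨H, C, hH, hC⟩ := pairTr_forms f x
  have hHs : ∀ b b', H b b' = H b' b := fun b b' => by rw [hH, hH]; exact D2_symm hf2 b b'
  have hHp : ∀ b, b ≠ 0 → 0 < H b b := fun b hb => by rw [hH]; exact hpos b hb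
  obtain ⟨ω, hω⟩ := four_alg (by rw [finrank_euclideanSpace_fin]; exact hm) H hHs hHp C
    (fun b b' e => by rw [hC, hC]; exact D3_symm12 h.smooth b b' e)
    (fun b b' e => by rw [hC, hC]; exact D3_symm23 h.smooth b b' e) a
    (fun i j hij => by
      have hi := hind i j hij
      rw [pairTr_sub (ha i), pairTr_sub (ha j)] at hi
      exact pairTr_ind hi)
    (fun i b hb => by rw [hC, hC, hH, hH]; exact h3 i b (by rw [← hH]; exact hb))
  refine ⟨LinearMap.toContinuousLinearMap ω, fun g b b' => ?_⟩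
  have h4 := hω g b b'
  rw [hC, hH, hH, hH] at h4
  exact h4

end MP80b30d
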