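import Pool.Agent.Lib.MP_80b30d_gt.Light
import Pool.Agent.Lib.MP_80b30d_gt.Alg2
import Pool.Agent.Lib.MP_80b30d_gt.Ext

/-! MP_80b30d_gt: the lights at one point determine the cubic form. -/

namespace MP80b30d

open Set Filter Topology Metric

/-- Paper proof: `tangent_chart` gives `a i`, `u i - p = Ψ (a i, Df(x) (a i))`, so any `m` of the
`a i` are independent and `a i ≠ 0`; `light_chart` gives `κ i`, and
`L i (u j) = c i ↔ D2 f x (a i) (a j) = 0`; `cubic_trace2` with `H = D2 f x`, `C = D3 f x` as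
bilinear and trilinear maps. -/
theorem lights_tr {m : ℕ} (hm : 3 ≤ m) {K : Set (E (m + 1))}
    {Ψ : (E m × ℝ) ≃L[ℝ] E (m + 1)} {f : E m → ℝ} {x : E m} (hK : Convex ℝ K)
    (h : Chart K Ψ f x) (hpos : ∀ b : E m, b ≠ 0 → 0 < D2 f x b b)
    (hl : Lights K (Ψ (x, f x))) : ∃ ω : E m →L[ℝ] ℝ, Tr f x ω := by
  obtain ⟨u, L, c, hu, hind, hL, hdeg⟩ := hl
  have hex : ∀ i, ∃ a : E m, u i = Ψ (x + a, f x + fderiv ℝ f x a) := fun i =>
    tangent_chart h (hu i).1
  choose a ha using hex
  have hm1 : m + 1 - 1 = m := by omega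
  -- the differences
  have hsub : ∀ i, u i - Ψ (x, f x) = Ψ (a i, fderiv ℝ f x (a i)) := by
    intro i
    rw [ha i, ← map_sub]
    congr 1
    ext1
    · simp
    · simp
  set T : E m →ₗ[ℝ] E (m + 1) := (Ψ.toContinuousLinearMap.toLinearMap) ∘ₗ
    (LinearMap.prod LinearMap.id (fderiv ℝ f x).toLinearMap) with hT
  have hTa : ∀ b, T b = Ψ (b, fderiv ℝ f x b) := fun b => rfl
  have hind' : ∀ s : Finset (Fin (m + 2)), s.card = m → LinearIndependent ℝ (fun i : s => a i) := by
    intro s hs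
    have h1 := hind s (by rw [hs, hm1])
    refine LinearIndependent.of_comp T ?_
    have h2 : (T ∘ fun i : s => a i) = fun i : s => u i - Ψ (x, f x) := by
      funext i
      rw [Function.comp_apply, hTa, hsub]
    rw [h2]
    exact h1
  have ha0 : ∀ i, a i ≠ 0 := by
    intro i
    obtain ⟨s, hs, hcard⟩ := Finset.exists_superset_card_eq (s := ({i} : Finset (Fin (m + 2))))
      (n := m) (by rw [Finset.card_singleton]; omega) (by rw [Fintype.card_fin]; omega)
    exact (hind' s hcard).ne_zero (⟨i, hs (Finset.mem_singleton_self i)⟩ : s)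
  have hlc : ∀ i, L i (Ψ (x, f x)) = c i ∧ ∃ lam κ : ℝ, lam ≠ 0 ∧
      (∀ b : E m, L i (Ψ (b, fderiv ℝ f x b)) = lam * D2 f x (a i) b) ∧
      ∀ w : E m, D2 f x (a i) w = 0 → D3 f x (a i) w w = κ * D2 f x w w := by
    intro i
    refine light_chart (by omega) hK h hpos (ha0 i) (hL i).1 ?_
    rw [← ha i]
    exact (hL i).2
  have hiff : ∀ i j, L i (u j) = c i ↔ D2 f x (a i) (a j) = 0 := by
    intro i j
    obtain ⟨h1, lam, κ, hlam, h2, -⟩ := hlc i
    have h3 : L i (u j) = L i (Ψ (x, f x)) + lam * D2 f x (a i) (a j) := by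
      rw [← h2, ← hsub, map_sub]
      ring
    rw [h3, h1]
    constructor
    · intro h4
      have h5 : lam * D2 f x (a i) (a j) = 0 := by linarith
      exact (mul_eq_zero.1 h5).resolve_left hlam
    · intro h4
      rw [h4, mul_zero, add_zero]
  have hf2 : ContDiffAt ℝ 2 f x := h.smooth.of_le (by norm_num)
  set H : E m →ₗ[ℝ] E m →ₗ[ℝ] ℝ := LinearMap.mk₂ ℝ (fun b b' => D2 f x b b')
    (fun b b' d => by simp) (fun r b d => by simp) (fun b d d' => by simp)
    (fun r b d => by simp) with hH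
  have hHa : ∀ b b', H b b' = D2 f x b b' := fun b b' => rfl
  set C : E m →ₗ[ℝ] E m →ₗ[ℝ] E m →ₗ[ℝ] ℝ :=
    { toFun := fun g => LinearMap.mk₂ ℝ (fun b b' => D3 f x g b b')
        (fun b b' d => by simp) (fun r b d => by simp) (fun b d d' => by simp)
        (fun r b d => by simp)
      map_add' := fun g g' => by
        ext b b'
        simp
      map_smul' := fun r g => by
        ext b b'
        simp } with hC
  have hCa : ∀ g b b', C g b b' = D3 f x g b b' := fun g b b' => rfl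
  obtain ⟨ω, hω⟩ := cubic_trace2 hm (finrank_euclideanSpace_fin) H
    (fun b b' => D2_symm hf2 b b') (fun b hb => hpos b hb) C
    (fun b b' d => D3_symm12 h.smooth b b' d) (fun b b' d => D3_symm23 h.smooth b b' d) a hind'
    (fun i => by
      obtain ⟨-, lam, κ, -, -, h3⟩ := hlc i
      exact ⟨κ, h3⟩)
    (by
      have h2 : {z : Fin (m + 2) × Fin (m + 2) | z.1 ≠ z.2 ∧ H (a z.1) (a z.2) = 0} =
          {z : Fin (m + 1 + 1) × Fin (m + 1 + 1) | z.1 ≠ z.2 ∧ L z.1 (u z.2) = c z.1} := by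
        ext z
        simp only [Set.mem_setOf_eq]
        rw [hiff, hHa]
      have h3 : (m + 1) ^ 2 - (m + 1) - 4 = m ^ 2 + m - 4 := by
        have : (m + 1) ^ 2 = m ^ 2 + m + (m + 1) := by ring
        omega
      rw [h2, ← h3]
      exact hdeg)
  exact ⟨LinearMap.toContinuousLinearMap ω, fun g b b' => hω g b b'⟩

end MP80b30d
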