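import Pool.Agent.Lib.MP_80b30d_gt.Ext

/-! MP_80b30d_gt: third derivative of rho f - (alpha / 2) f^2. -/

namespace MP80b30d

open Set Filter Topology Metric Matrix

variable {m : ℕ} {f ρ : E m → ℝ} {x0 : E m} {r : ℝ}

private theorem qa_ev {V F : Type*} [NormedAddCommGroup V] [NormedSpace ℝ V]
    [NormedAddCommGroup F] [NormedSpace ℝ F] {A : V → V →L[ℝ] F} {A' : V →L[ℝ] V →L[ℝ] F} {x : V}
    (hA : HasFDerivAt A A' x) (k : V) : HasFDerivAt (fun y => A y k) (A'.flip k) x := by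
  have h := hA.clm_apply (hasFDerivAt_const k x)
  refine h.congr_fderiv ?_
  ext g
  simp

private theorem qa_f1 {φ : E m → ℝ} {y : E m} (h : ContDiffAt ℝ 3 φ y) :
    HasFDerivAt φ (fderiv ℝ φ y) y :=
  (h.differentiableAt (by norm_num)).hasFDerivAt

private theorem qa_f2 {φ : E m → ℝ} {y : E m} (h : ContDiffAt ℝ 3 φ y) :
    HasFDerivAt (fderiv ℝ φ) (D2 φ y) y :=
  ((h.fderiv_right (m := 2) (by norm_num)).differentiableAt (by norm_num)).hasFDerivAt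

private theorem qa_W {α : ℝ} {y : E m} (hf : ContDiffAt ℝ 3 f y) (hs : ContDiffAt ℝ 3 ρ y) :
    ContDiffAt ℝ 3 (fun y => ρ y * f y - α / 2 * f y ^ 2) y :=
  (hs.mul hf).sub (contDiffAt_const.mul (hf.pow 2))

private theorem qa_d1 {α : ℝ} {y : E m} (hf : ContDiffAt ℝ 3 f y) (hs : ContDiffAt ℝ 3 ρ y)
    (k : E m) : fderiv ℝ (fun y => ρ y * f y - α / 2 * f y ^ 2) y k =
      ρ y * fderiv ℝ f y k + f y * fderiv ℝ ρ y k - α * (f y * fderiv ℝ f y k) := by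
  have h := ((qa_f1 hs).mul (qa_f1 hf)).sub (((qa_f1 hf).pow 2).const_mul (α / 2))
  have e : (fun y => ρ y * f y - α / 2 * f y ^ 2) =
      (fun y => ρ y * f y) - fun y => α / 2 * f y ^ 2 := rfl
  have h2 : fderiv ℝ (fun y => ρ y * f y - α / 2 * f y ^ 2) y = _ := h.fderiv
  rw [h2]
  simp
  ring

private theorem qa_d2 {α : ℝ} (hf : ∀ x ∈ ball x0 r, ContDiffAt ℝ 3 f x)
    (hs : ∀ x ∈ ball x0 r, ContDiffAt ℝ 3 ρ x)
    (hα : ∀ x ∈ ball x0 r, ∀ h k : E m, D2 ρ x h k = α * D2 f x h k) {y : E m}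
    (hy : y ∈ ball x0 r) (h k : E m) :
    D2 (fun y => ρ y * f y - α / 2 * f y ^ 2) y h k =
      fderiv ℝ ρ y h * fderiv ℝ f y k + fderiv ℝ f y h * fderiv ℝ ρ y k + ρ y * D2 f y h k -
        α * (fderiv ℝ f y h * fderiv ℝ f y k) := by
  have h1 := qa_ev (qa_f2 (qa_W (α := α) (hf y hy) (hs y hy))) k
  have h2 := (((qa_f1 (hs y hy)).mul (qa_ev (qa_f2 (hf y hy)) k)).add
    ((qa_f1 (hf y hy)).mul (qa_ev (qa_f2 (hs y hy)) k))).sub
    (((qa_f1 (hf y hy)).mul (qa_ev (qa_f2 (hf y hy)) k)).const_mul α)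
  have h3 : (fun z => fderiv ℝ (fun y => ρ y * f y - α / 2 * f y ^ 2) z k) =ᶠ[𝓝 y]
      fun z => ρ z * fderiv ℝ f z k + f z * fderiv ℝ ρ z k - α * (f z * fderiv ℝ f z k) := by
    filter_upwards [isOpen_ball.mem_nhds hy] with z hz
    exact qa_d1 (hf z hz) (hs z hz) k
  have h4 := (h1.congr_of_eventuallyEq h3.symm).unique h2
  have h5 := congrArg (fun A : E m →L[ℝ] ℝ => A h) h4
  have h6 := hα y hy h k
  simp at h5
  rw [h5, h6]
  ring

/-- third derivative of `ρ f - (α / 2) f²`. Paper proof: `D2 W (h,k) = ρ_h f_k + ρ_k f_h + ρ H_hk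
- α f_h f_k` (using `D2 ρ = α H`), and the derivative of this in direction `g` is
`ρ_h H_gk + ρ_k H_gh + ρ_g H_hk + ρ D3 f(g,h,k) = 0` as `Dρ = -ρ ω` and `D3 f` is the symmetric
product of `ω` and `H`. -/
theorem W_D3 {α : ℝ} (hf : ∀ x ∈ ball x0 r, ContDiffAt ℝ 3 f x)
    (hs : ∀ x ∈ ball x0 r, ContDiffAt ℝ 3 ρ x)
    (hρ : ∀ x ∈ ball x0 r, ∃ ω : E m →L[ℝ] ℝ, Tr f x ω ∧ HasFDerivAt ρ (-(ρ x) • ω) x)
    (hα : ∀ x ∈ ball x0 r, ∀ h k : E m, D2 ρ x h k = α * D2 f x h k) :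
    ∀ x ∈ ball x0 r, ∀ g h k : E m, D3 (fun y => ρ y * f y - α / 2 * f y ^ 2) x g h k = 0 := by
  intro x hx g h k
  obtain ⟨ω, hT, hd⟩ := hρ x hx
  have hD2 : ∀ φ : E m → ℝ, ContDiffAt ℝ 3 φ x → HasFDerivAt (D2 φ) (D3 φ x) x :=
    fun φ hφ => (((hφ.fderiv_right (m := 2) (by norm_num)).fderiv_right (m := 1)
      (by norm_num)).differentiableAt (by norm_num)).hasFDerivAt
  have h1 := qa_ev (qa_ev (hD2 _ (qa_W (α := α) (hf x hx) (hs x hx))) h) k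
  have f1h := qa_ev (qa_f2 (hf x hx)) h
  have f1k := qa_ev (qa_f2 (hf x hx)) k
  have r1h := qa_ev (qa_f2 (hs x hx)) h
  have r1k := qa_ev (qa_f2 (hs x hx)) k
  have f2 := qa_ev (qa_ev (hD2 _ (hf x hx)) h) k
  have h2 := (((r1h.mul f1k).add (f1h.mul r1k)).add ((qa_f1 (hs x hx)).mul f2)).sub
    ((f1h.mul f1k).const_mul α)
  have h3 : (fun z => D2 (fun y => ρ y * f y - α / 2 * f y ^ 2) z h k) =ᶠ[𝓝 x]
      fun z => fderiv ℝ ρ z h * fderiv ℝ f z k + fderiv ℝ f z h * fderiv ℝ ρ z k +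
        ρ z * D2 f z h k - α * (fderiv ℝ f z h * fderiv ℝ f z k) := by
    filter_upwards [isOpen_ball.mem_nhds hx] with z hz
    exact qa_d2 hf hs hα hz h k
  have h4 := (h1.congr_of_eventuallyEq h3.symm).unique h2
  have h5 := congrArg (fun A : E m →L[ℝ] ℝ => A g) h4
  have h6 := hT g h k
  have e1 := hα x hx g h
  have e2 := hα x hx g k
  have e3 : ∀ v, fderiv ℝ ρ x v = -(ρ x) * ω v := fun v => by
    rw [hd.fderiv]
    simp
  simp at h5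
  rw [h5, h6, e1, e2, e3, e3, e3]
  ring

end MP80b30d
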