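import Pool.Agent.Lib.MP_80b30d_gt.Ext
import Pool.Agent.Lib.MP_80b30d_gt.JacA

/-! MP_80b30d_gt: the potential. -/

namespace MP80b30d

open Set Filter Topology Metric Matrix

private theorem rho_entry {W : Type*} [NormedAddCommGroup W] [NormedSpace ℝ W] {f : W → ℝ} {x : W}
    (hf : ContDiffAt ℝ 3 f x) (a b : W) : HasFDerivAt (fun y => D2 f y a b)
      ((ContinuousLinearMap.apply ℝ ℝ b).comp
        ((ContinuousLinearMap.apply ℝ (W →L[ℝ] ℝ) a).comp (D3 f x))) x := by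
  have g0 := hasFDerivAt_D2 hf
  have g1 := (g0.clm_apply (hasFDerivAt_const a x)).clm_apply (hasFDerivAt_const b x)
  have e : (ContinuousLinearMap.apply ℝ ℝ b).comp
      ((ContinuousLinearMap.apply ℝ (W →L[ℝ] ℝ) a).comp (D3 f x)) =
      (D2 f x a).comp (0 : W →L[ℝ] W) + ((D2 f x).comp (0 : W →L[ℝ] W) +
        (D3 f x).flip a).flip b := by
    ext h
    simp
  rw [e]
  exact g1

/-- Paper proof: `ρ x = (det (mat (D2 f x))) ^ (-1 / (m + 2))`; `hasFDerivAt_det`, `hasFDerivAt_D2`,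
`trace_formula`. -/
theorem exists_rho {m : ℕ} {f : E m → ℝ} {x0 : E m} {r : ℝ}
    (hf : ∀ x ∈ ball x0 r, ContDiffAt ℝ 3 f x)
    (hpos : ∀ x ∈ ball x0 r, ∀ h, h ≠ 0 → 0 < D2 f x h h)
    (hω : ∀ x ∈ ball x0 r, ∃ ω : E m →L[ℝ] ℝ, Tr f x ω) :
    ∃ ρ : E m → ℝ, (∀ x ∈ ball x0 r, 0 < ρ x) ∧
      (∀ x ∈ ball x0 r, ρ x ^ (m + 2) * (mat (D2 f x)).det = 1) ∧
      ∀ x ∈ ball x0 r, ∃ ω : E m →L[ℝ] ℝ, Tr f x ω ∧ HasFDerivAt ρ (-(ρ x) • ω) x := by
  have hdet : ∀ x ∈ ball x0 r, 0 < (mat (D2 f x)).det := fun x hx =>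
    mat_det_pos _ (D2_symm ((hf x hx).of_le (by norm_num))) (hpos x hx)
  have hm : (0 : ℝ) < (m : ℝ) + 2 := by positivity
  refine ⟨fun y => (mat (D2 f y)).det ^ (-(1 / ((m : ℝ) + 2))), ?_, ?_, ?_⟩
  · intro x hx
    exact Real.rpow_pos_of_pos (hdet x hx) _
  · intro x hx
    have h1 := hdet x hx
    show ((mat (D2 f x)).det ^ (-(1 / ((m : ℝ) + 2)))) ^ (m + 2) * _ = 1
    rw [← Real.rpow_natCast, ← Real.rpow_mul h1.le]
    have h2 : -(1 / ((m : ℝ) + 2)) * ((m + 2 : ℕ) : ℝ) = -1 := by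
      push_cast
      field_simp
    rw [h2, Real.rpow_neg_one]
    exact inv_mul_cancel₀ h1.ne'
  · intro x hx
    obtain ⟨ω, hT⟩ := hω x hx
    refine ⟨ω, hT, ?_⟩
    have h1 := hdet x hx
    have hA : ∀ i j : Fin m, HasFDerivAt (fun y => mat (D2 f y) i j)
        ((ContinuousLinearMap.apply ℝ ℝ (bas j : E m)).comp
          ((ContinuousLinearMap.apply ℝ (E m →L[ℝ] ℝ) (bas i : E m)).comp (D3 f x))) x := by
      intro i j
      exact rho_entry (hf x hx) (bas i) (bas j)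
    have h3 := (hasFDerivAt_det (fun y => mat (D2 f y)) _ hA).rpow_const
      (p := -(1 / ((m : ℝ) + 2))) (Or.inl h1.ne')
    have h4 : ((-(1 / ((m : ℝ) + 2)) * (mat (D2 f x)).det ^ (-(1 / ((m : ℝ) + 2)) - 1)) •
        (∑ i, ∑ j, (mat (D2 f x)).adjugate j i •
          ((ContinuousLinearMap.apply ℝ ℝ (bas j : E m)).comp
          ((ContinuousLinearMap.apply ℝ (E m →L[ℝ] ℝ) (bas i : E m)).comp (D3 f x))))) =
        -((mat (D2 f x)).det ^ (-(1 / ((m : ℝ) + 2)))) • ω := by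
      ext h
      have h5 := trace_formula (D2 f x) (D2_symm ((hf x hx).of_le (by norm_num))) ω h
      have h6 : (∑ i, ∑ j, (mat (D2 f x)).adjugate j i •
          ((ContinuousLinearMap.apply ℝ ℝ (bas j : E m)).comp
          ((ContinuousLinearMap.apply ℝ (E m →L[ℝ] ℝ) (bas i : E m)).comp (D3 f x)))) h =
          ((m : ℝ) + 2) * ω h * (mat (D2 f x)).det := by
        rw [← h5]
        simp only [_root_.sum_apply, _root_.smul_apply, smul_eq_mul]
        apply Finset.sum_congr rfl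
        intro i _
        apply Finset.sum_congr rfl
        intro j _
        congr 1
        exact hT h (bas i) (bas j)
      rw [_root_.smul_apply, h6, _root_.smul_apply, smul_eq_mul,
        smul_eq_mul, Real.rpow_sub_one h1.ne']
      field_simp
    rw [← h4]
    exact h3

end MP80b30d
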