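import Pool.Agent.Lib.MP_80b30d_gt.RigidA
import Pool.Agent.Lib.MP_80b30d_gt.Taylor

/-! MP_80b30d_gt: quadratic functions vanishing on a graph: rigidity. -/

namespace MP80b30d

open Set Filter Topology Metric

variable {m : ℕ} {f : E m → ℝ} {x : E m}

/-- the second order part of `f` in a direction `h ≠ 0` with `D2 f x h h > 0` -/
private theorem rigid_limit (hf : ContDiffAt ℝ 2 f x) {h : E m} (hh : h ≠ 0)
    (hpos : 0 < D2 f x h h) {A B : ℝ}
    (hAB : ∀ᶠ t in 𝓝[>] (0 : ℝ), (f (x + t • h) - f x - t * fderiv ℝ f x h) *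
      (t * A + (f (x + t • h) - f x - t * fderiv ℝ f x h) * B) = 0) : A = 0 ∧ B = 0 := by
  have hn : 0 < ‖h‖ := norm_pos_iff.2 hh
  set s : ℝ → ℝ := fun t => f (x + t • h) - f x - t * fderiv ℝ f x h with hs
  have htend : Tendsto (fun t : ℝ => t • h) (𝓝[>] (0 : ℝ)) (𝓝 (0 : E m)) := by
    have h1 : Tendsto (fun t : ℝ => t • h) (𝓝 (0 : ℝ)) (𝓝 ((0 : ℝ) • h)) :=
      (continuous_id.smul continuous_const).tendsto 0
    rw [zero_smul] at h1
    exact h1.mono_left nhdsWithin_le_nhds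
  have ho := ((taylor_f hf).comp_tendsto htend).tendsto_div_nhds_zero
  have hr : Tendsto (fun t : ℝ => (s t - (1 / 2) * (t ^ 2 * D2 f x h h)) / (t ^ 2 * ‖h‖ ^ 2))
      (𝓝[>] (0 : ℝ)) (𝓝 0) := by
    refine ho.congr fun t => ?_
    simp only [Function.comp_apply, hs, map_smul, smul_eq_mul, ContinuousLinearMap.smul_apply,
      norm_smul, Real.norm_eq_abs, mul_pow, sq_abs]
    congr 1
    ring
  have ht0 : Tendsto (fun t : ℝ => t) (𝓝[>] (0 : ℝ)) (𝓝 0) :=
    tendsto_id.mono_left nhdsWithin_le_nhds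
  have hpos' : ∀ᶠ t in 𝓝[>] (0 : ℝ), 0 < t := self_mem_nhdsWithin
  -- `s t / (t ^ 2 ‖h‖ ^ 2)` has a positive limit
  have hs2 : Tendsto (fun t : ℝ => s t / (t ^ 2 * ‖h‖ ^ 2)) (𝓝[>] (0 : ℝ))
      (𝓝 (0 + (1 / 2) * D2 f x h h / ‖h‖ ^ 2)) := by
    refine (hr.add_const _).congr' ?_
    filter_upwards [hpos'] with t ht
    field_simp
    ring
  have hlim : 0 < 0 + (1 / 2) * D2 f x h h / ‖h‖ ^ 2 := by positivity
  have hspos : ∀ᶠ t in 𝓝[>] (0 : ℝ), s t ≠ 0 := by
    filter_upwards [hs2.eventually (lt_mem_nhds hlim)] with t ht h0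
    rw [h0, zero_div] at ht
    exact lt_irrefl _ ht
  have hs1 : Tendsto (fun t : ℝ => s t / t) (𝓝[>] (0 : ℝ)) (𝓝 0) := by
    have h1 := hs2.mul (ht0.mul_const (‖h‖ ^ 2))
    rw [zero_mul, mul_zero] at h1
    refine h1.congr' ?_
    filter_upwards [hpos'] with t ht
    field_simp
  have hA : A = 0 := by
    have h1 : Tendsto (fun t : ℝ => A + s t / t * B) (𝓝[>] (0 : ℝ)) (𝓝 (A + 0 * B)) :=
      tendsto_const_nhds.add (hs1.mul_const B)
    have h2 : Tendsto (fun t : ℝ => A + s t / t * B) (𝓝[>] (0 : ℝ)) (𝓝 0) := by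
      refine (tendsto_const_nhds (x := (0 : ℝ))).congr' ?_
      filter_upwards [hpos', hspos, hAB] with t ht h3 h4
      have h5 : t * A + s t * B = 0 := (mul_eq_zero.1 h4).resolve_left h3
      have h6 : A + s t / t * B = (t * A + s t * B) / t := by
        field_simp
      rw [h6, h5, zero_div]
    have h3 := tendsto_nhds_unique h1 h2
    simpa using h3
  refine ⟨hA, ?_⟩
  obtain ⟨t, h3, h4⟩ := (hspos.and hAB).exists
  have h5 : t * A + s t * B = 0 := (mul_eq_zero.1 h4).resolve_left h3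
  rw [hA, mul_zero, zero_add] at h5
  exact (mul_eq_zero.1 h5).resolve_left h3

/-- Paper proof: write `ĥ = (h, Df(x) h)`, `e = (0, 1)`. By `graph_first`, `graph_second` and `h0`,
`Dq = 0` at `P = (x, f x)` and `Q ĥ k̂ = 0`. For `h` small, with `s = f (x + h) - f x - Df(x) h`,
`0 = q (x + h, f (x + h)) = Q (ĥ + s e) (ĥ + s e) = s (2 Q ĥ e + s Q e e)`, and `s > 0` for `h ≠ 0`
(`taylor_f`), `s = O(‖h‖²)`; replace `h` by `t h`, `t → 0`: `Q ĥ e = 0`; then `Q e e = 0`. -/
theorem graph_rigid (hm : 1 ≤ m) (hf : ContDiffAt ℝ 2 f x)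
    (hpos : ∀ b : E m, b ≠ 0 → 0 < D2 f x b b) (q : QF (E m × ℝ))
    (hq : ∀ᶠ y in 𝓝 x, q.eval (y, f y) = 0) (h0 : q.D (x, f x) (0, 1) = 0) :
    ∀ z, q.eval z = 0 := by
  have hP : q.eval (x, f x) = 0 := hq.self_of_nhds
  -- decomposition of a vector
  have hdec : ∀ (a : E m) (b : ℝ), ((a, b) : E m × ℝ)
      = (a, fderiv ℝ f x a) + (b - fderiv ℝ f x a) • ((0, 1) : E m × ℝ) := by
    intro a b
    ext
    · simp
    · simp
  have hD : ∀ v : E m × ℝ, q.D (x, f x) v = 0 := by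
    rintro ⟨a, b⟩
    have h1 := graph_first hf q hq a
    have h2 : q.D (x, f x) ((a, fderiv ℝ f x a) + (b - fderiv ℝ f x a) • ((0, 1) : E m × ℝ))
        = q.D (x, f x) (a, fderiv ℝ f x a)
          + (b - fderiv ℝ f x a) * q.D (x, f x) (0, 1) := by
      simp only [QF.D, map_add, map_smul, smul_eq_mul]
      ring
    rw [hdec a b, h2, h1, h0, mul_zero, add_zero]
  have hQ1 : ∀ h k : E m, q.Q (h, fderiv ℝ f x h) (k, fderiv ℝ f x k) = 0 := by
    intro h k
    have h1 := graph_second hf q hq h k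
    rw [h0, zero_mul, add_zero] at h1
    linarith
  have hQv : ∀ (h : E m) (σ : ℝ), q.Q ((h, fderiv ℝ f x h) + σ • ((0, 1) : E m × ℝ))
      ((h, fderiv ℝ f x h) + σ • ((0, 1) : E m × ℝ))
      = σ * (2 * q.Q (h, fderiv ℝ f x h) (0, 1) + σ * q.Q (0, 1) (0, 1)) := by
    intro h σ
    simp only [map_add, map_smul, smul_eq_mul, ContinuousLinearMap.add_apply,
      ContinuousLinearMap.smul_apply, hQ1, q.symm (0, 1) (h, fderiv ℝ f x h)]
    ring
  have hmain : ∀ h : E m, h ≠ 0 →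
      2 * q.Q (h, fderiv ℝ f x h) (0, 1) = 0 ∧ q.Q (0, 1) (0, 1) = 0 := by
    intro h hh
    refine rigid_limit hf hh (hpos h hh) ?_
    have htend : Tendsto (fun t : ℝ => x + t • h) (𝓝[>] (0 : ℝ)) (𝓝 x) := by
      have h1 : Tendsto (fun t : ℝ => x + t • h) (𝓝 (0 : ℝ)) (𝓝 (x + (0 : ℝ) • h)) :=
        (continuous_const.add (continuous_id.smul continuous_const)).tendsto 0
      rw [zero_smul, add_zero] at h1
      exact h1.mono_left nhdsWithin_le_nhds
    filter_upwards [htend.eventually hq] with t ht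
    have h1 : ((x + t • h, f (x + t • h)) : E m × ℝ)
        = (x, f x) + (t • h, f (x + t • h) - f x) := by
      ext
      · simp
      · simp
    have h2 := hdec (t • h) (f (x + t • h) - f x)
    rw [h1, QF.eval_add, hP, hD, h2, hQv, zero_add, zero_add] at ht
    have h3 : q.Q (t • h, fderiv ℝ f x (t • h)) (0, 1)
        = t * q.Q (h, fderiv ℝ f x h) (0, 1) := by
      have h4 : ((t • h, fderiv ℝ f x (t • h)) : E m × ℝ) = t • (h, fderiv ℝ f x h) := by
        ext
        · simp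
        · simp
      rw [h4, map_smul, ContinuousLinearMap.smul_apply, smul_eq_mul]
    rw [h3, map_smul, smul_eq_mul] at ht
    rw [← ht]
    ring
  obtain ⟨h1, hh1⟩ : ∃ h1 : E m, h1 ≠ 0 := by
    haveI : Nonempty (Fin m) := ⟨⟨0, hm⟩⟩
    haveI : Nontrivial (E m) := inferInstance
    exact exists_ne 0
  have hee : q.Q (0, 1) (0, 1) = 0 := (hmain h1 hh1).2
  have hhe : ∀ h : E m, q.Q (h, fderiv ℝ f x h) (0, 1) = 0 := by
    intro h
    by_cases hh : h = 0
    · subst hh
      have h4 : ((0, fderiv ℝ f x 0) : E m × ℝ) = 0 := by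
        ext
        · simp
        · simp
      rw [h4, map_zero, ContinuousLinearMap.zero_apply]
    · have := (hmain h hh).1
      linarith
  intro z
  have h5 : z = (x, f x) + (z - (x, f x)) := by abel
  rw [h5, QF.eval_add, hP, hD]
  generalize z - (x, f x) = v
  obtain ⟨a, b⟩ := v
  rw [hdec a b, hQv, hhe, hee]
  ring

/-- two quadratic functions vanishing on the same strongly convex graph are proportional. Paper
proof: `q'' = (q'.D P e) q - (q.D P e) q'` vanishes on the graph and `q''.D P e = 0`, so `q'' = 0` by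
`graph_rigid`; and `q'.D P e ≠ 0` by `graph_rigid` for `q'`. -/
theorem graph_proportional (hm : 1 ≤ m) (hf : ContDiffAt ℝ 2 f x)
    (hpos : ∀ b : E m, b ≠ 0 → 0 < D2 f x b b) (q q' : QF (E m × ℝ))
    (hq : ∀ᶠ y in 𝓝 x, q.eval (y, f y) = 0) (hq' : ∀ᶠ y in 𝓝 x, q'.eval (y, f y) = 0)
    (hne : ∃ z, q'.eval z ≠ 0) : ∃ c : ℝ, ∀ z, q.eval z = c * q'.eval z := by
  set α : ℝ := q'.D (x, f x) (0, 1) with hα
  set β : ℝ := q.D (x, f x) (0, 1) with hβ
  have hα0 : α ≠ 0 := by
    intro h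
    obtain ⟨z, hz⟩ := hne
    exact hz (graph_rigid hm hf hpos q' hq' h z)
  let q'' : QF (E m × ℝ) :=
    { Q := α • q.Q - β • q'.Q
      l := α • q.l - β • q'.l
      c := α * q.c - β * q'.c
      symm := by
        intro a b
        simp [q.symm a b, q'.symm a b] }
  have hev : ∀ z, q''.eval z = α * q.eval z - β * q'.eval z := by
    intro z
    simp only [QF.eval, q'', ContinuousLinearMap.sub_apply, ContinuousLinearMap.smul_apply,
      smul_eq_mul]
    ring
  have hDD : q''.D (x, f x) (0, 1) = 0 := by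
    have h1 : q''.D (x, f x) (0, 1) = α * q.D (x, f x) (0, 1) - β * q'.D (x, f x) (0, 1) := by
      simp only [QF.D, q'', ContinuousLinearMap.sub_apply, ContinuousLinearMap.smul_apply,
        smul_eq_mul]
      ring
    rw [h1, ← hα, ← hβ]
    ring
  have hzero := graph_rigid hm hf hpos q'' (by
    filter_upwards [hq, hq'] with y h1 h2
    rw [hev, h1, h2]
    ring) hDD
  refine ⟨β / α, fun z => ?_⟩
  have h1 := hzero z
  rw [hev] at h1
  field_simp
  linarith

end MP80b30d
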