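import Pool.Agent.Lib.MP_80b30d_gt.Symm

/-! MP_80b30d_gt: quadratic functions vanishing on a graph: derivatives. -/

namespace MP80b30d

open Set Filter Topology Metric

variable {m : ℕ} {f : E m → ℝ} {x : E m}

private theorem rigidA_eval {V : Type*} [NormedAddCommGroup V] [NormedSpace ℝ V] (q : QF V)
    (z : V) : HasFDerivAt q.eval ((q.Q z + q.Q.flip z) + q.l) z := by
  have h1 : HasFDerivAt (fun y : V => q.Q y y) (q.Q z + q.Q.flip z) z :=
    (q.Q.hasFDerivAt (x := z)).clm_apply (hasFDerivAt_id z)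
  exact (h1.add q.l.hasFDerivAt).add_const q.c

private theorem rigidA_graph {y : E m} (hf : DifferentiableAt ℝ f y) :
    HasFDerivAt (fun z : E m => (z, f z))
      ((ContinuousLinearMap.id ℝ (E m)).prod (fderiv ℝ f y)) y :=
  (hasFDerivAt_id y).prodMk hf.hasFDerivAt

private theorem rigidA_first {y : E m} (hf : DifferentiableAt ℝ f y) (q : QF (E m × ℝ))
    (hq : ∀ᶠ z in 𝓝 y, q.eval (z, f z) = 0) (h : E m) :
    q.D (y, f y) (h, fderiv ℝ f y h) = 0 := by
  have h1 := (rigidA_eval q (y, f y)).comp y (rigidA_graph hf)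
  have h2 : (q.eval ∘ fun z : E m => (z, f z)) =ᶠ[𝓝 y] fun _ => (0 : ℝ) := hq
  have h3 := (hasFDerivAt_const (𝕜 := ℝ) (0 : ℝ) y).congr_of_eventuallyEq h2
  have h4 := h1.unique h3
  have h5 := congrArg (fun L : E m →L[ℝ] ℝ => L h) h4
  simp only [ContinuousLinearMap.comp_apply, ContinuousLinearMap.prod_apply,
    ContinuousLinearMap.id_apply, add_apply, ContinuousLinearMap.flip_apply,
    zero_apply] at h5
  rw [q.symm (h, fderiv ℝ f y h) (y, f y)] at h5
  unfold QF.D
  linarith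

theorem graph_first (hf : ContDiffAt ℝ 2 f x) (q : QF (E m × ℝ))
    (hq : ∀ᶠ y in 𝓝 x, q.eval (y, f y) = 0) (h : E m) :
    q.D (x, f x) (h, fderiv ℝ f x h) = 0 :=
  rigidA_first (hf.differentiableAt (by norm_num)) q hq h

/-- Paper proof: differentiate `graph_first` (valid at all points near `x`) in direction `k`. -/
theorem graph_second (hf : ContDiffAt ℝ 2 f x) (q : QF (E m × ℝ))
    (hq : ∀ᶠ y in 𝓝 x, q.eval (y, f y) = 0) (h k : E m) :
    2 * q.Q (h, fderiv ℝ f x h) (k, fderiv ℝ f x k)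
      + q.D (x, f x) (0, 1) * D2 f x h k = 0 := by
  have hev : ∀ᶠ y in 𝓝 x, q.D (y, f y) (h, fderiv ℝ f y h) = 0 := by
    filter_upwards [hf.eventually (by simp), hq.eventually_nhds] with y h1 h2
    exact rigidA_first (h1.differentiableAt (by norm_num)) q h2 h
  have hd : DifferentiableAt ℝ (fderiv ℝ f) x :=
    (hf.fderiv_right (m := 1) (by norm_num)).differentiableAt (by norm_num)
  have hd2 : HasFDerivAt (fderiv ℝ f) (D2 f x) x := hd.hasFDerivAt
  have hh : HasFDerivAt (fun y => fderiv ℝ f y h) ((D2 f x).flip h) x := by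
    have h1 := hd2.clm_apply (hasFDerivAt_const h x)
    refine h1.congr_fderiv ?_
    ext k
    simp
  have hu : HasFDerivAt (fun y : E m => ((h, fderiv ℝ f y h) : E m × ℝ))
      ((0 : E m →L[ℝ] E m).prod ((D2 f x).flip h)) x := (hasFDerivAt_const h x).prodMk hh
  have hg := rigidA_graph (hf.differentiableAt (by norm_num))
  have hc : HasFDerivAt (fun y : E m => q.Q ((y, f y) : E m × ℝ))
      (q.Q.comp ((ContinuousLinearMap.id ℝ (E m)).prod (fderiv ℝ f x))) x :=
    q.Q.hasFDerivAt.comp x hg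
  have h1 := ((hc.clm_apply hu).const_mul 2).add (q.l.hasFDerivAt.comp x hu)
  have h2 : (fun y : E m => 2 * q.Q (y, f y) (h, fderiv ℝ f y h) +
      (q.l ∘ fun y : E m => ((h, fderiv ℝ f y h) : E m × ℝ)) y) =ᶠ[𝓝 x] fun _ => (0 : ℝ) := hev
  have h3 := (hasFDerivAt_const (𝕜 := ℝ) (0 : ℝ) x).congr_of_eventuallyEq h2
  have h4 := h1.unique h3
  have h5 := congrArg (fun L : E m →L[ℝ] ℝ => L k) h4
  simp only [ContinuousLinearMap.comp_apply, ContinuousLinearMap.prod_apply,
    ContinuousLinearMap.id_apply, add_apply, ContinuousLinearMap.flip_apply,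
    zero_apply, smul_apply, smul_eq_mul] at h5
  have h6 : ((0 : E m), D2 f x k h) = (D2 f x k h) • ((0 : E m), (1 : ℝ)) := by simp
  have hs : D2 f x h k = D2 f x k h := by
    have := hf.isSymmSndFDerivAt (by simp)
    exact this h k
  rw [h6, map_smul, map_smul, smul_eq_mul, smul_eq_mul] at h5
  rw [q.symm (k, fderiv ℝ f x k) (h, fderiv ℝ f x h)] at h5
  rw [hs]
  unfold QF.D
  linarith

end MP80b30d
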