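import Pool.Agent.Lib.MP_80b30d_gt.ChartA
import Pool.Agent.Lib.MP_80b30d_gt.Taylor

/-! MP_80b30d_gt: strongly curved points, first part. -/

namespace MP80b30d

open Set Filter Topology Metric

variable {m n : ℕ} {K : Set (E n)} {Ψ : (E m × ℝ) ≃L[ℝ] E n} {f : E m → ℝ} {x : E m}

/-- the graph inequality at a strongly curved point -/
theorem strongA_graph (h : Chart K Ψ f x) {l : E n →L[ℝ] ℝ} {ε : ℝ}
    (hε : ∀ᶠ y in 𝓝 (Ψ (x, f x)), y ∈ K → ε * ‖y - Ψ (x, f x)‖ ^ 2 ≤ l (Ψ (x, f x)) - l y) :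
    ∀ᶠ w in 𝓝 (0 : E m), ε * ‖Ψ (w, f (x + w) - f x)‖ ^ 2 ≤
      - l (Ψ (w, 0)) - (f (x + w) - f x) * l (Ψ (0, 1)) := by
  have hc : ContinuousAt f x := h.smooth.continuousAt
  have hc' : Tendsto (fun w : E m => f (x + w)) (𝓝 0) (𝓝 (f x)) := by
    have h1 : Tendsto (fun w : E m => x + w) (𝓝 0) (𝓝 x) := by
      have : Tendsto (fun w : E m => x + w) (𝓝 0) (𝓝 (x + 0)) :=
        (continuous_const.add continuous_id).tendsto 0
      rwa [add_zero] at this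
    exact hc.tendsto.comp h1
  have hz : Tendsto (fun w : E m => ((x + w, f (x + w)) : E m × ℝ)) (𝓝 0) (𝓝 (x, f x)) := by
    have h1 : Tendsto (fun w : E m => x + w) (𝓝 0) (𝓝 x) := by
      have : Tendsto (fun w : E m => x + w) (𝓝 0) (𝓝 (x + 0)) :=
        (continuous_const.add continuous_id).tendsto 0
      rwa [add_zero] at this
    exact h1.prodMk_nhds hc'
  have hy : Tendsto (fun w : E m => Ψ (x + w, f (x + w))) (𝓝 0) (𝓝 (Ψ (x, f x))) :=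
    (Ψ.continuous.tendsto _).comp hz
  filter_upwards [hz.eventually h.mem, hy.eventually hε] with w h1 h2
  have h3 := h2 (h1.2 le_rfl)
  have e1 : Ψ (x + w, f (x + w)) - Ψ (x, f x) = Ψ (w, f (x + w) - f x) := by
    rw [← map_sub, Prod.mk_sub_mk, add_sub_cancel_left]
  have e2 : l (Ψ (x, f x)) - l (Ψ (x + w, f (x + w))) =
      - l (Ψ (w, 0)) - (f (x + w) - f x) * l (Ψ (0, 1)) := by
    have e3 : Ψ (w, f (x + w) - f x) = Ψ (w, 0) + (f (x + w) - f x) • Ψ (0, 1) := by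
      rw [← map_smul, ← map_add]
      simp
    have e4 : l (Ψ (x + w, f (x + w))) - l (Ψ (x, f x)) =
        l (Ψ (w, 0)) + (f (x + w) - f x) * l (Ψ (0, 1)) := by
      rw [← map_sub, e1, e3, map_add, map_smul, smul_eq_mul]
    linarith
  rw [e1, e2] at h3
  exact h3

/-- the inner normal direction at a strongly curved point -/
theorem strongA_neg (h : Chart K Ψ f x) {l : E n →L[ℝ] ℝ} {ε : ℝ} (ε0 : 0 < ε)
    (hε : ∀ᶠ y in 𝓝 (Ψ (x, f x)), y ∈ K → ε * ‖y - Ψ (x, f x)‖ ^ 2 ≤ l (Ψ (x, f x)) - l y) :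
    l (Ψ (0, 1)) < 0 := by
  have hz : Tendsto (fun s : ℝ => ((x, f x + s) : E m × ℝ)) (𝓝 0) (𝓝 (x, f x)) := by
    have h1 : Tendsto (fun s : ℝ => f x + s) (𝓝 0) (𝓝 (f x)) := by
      have : Tendsto (fun s : ℝ => f x + s) (𝓝 0) (𝓝 (f x + 0)) :=
        (continuous_const.add continuous_id).tendsto 0
      rwa [add_zero] at this
    exact tendsto_const_nhds.prodMk_nhds h1
  have hy : Tendsto (fun s : ℝ => Ψ (x, f x + s)) (𝓝 0) (𝓝 (Ψ (x, f x))) :=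
    (Ψ.continuous.tendsto _).comp hz
  have hev := (hz.eventually h.mem).and (hy.eventually hε)
  have hev' : ∀ᶠ s in 𝓝[>] (0 : ℝ), _ := hev.filter_mono nhdsWithin_le_nhds
  obtain ⟨s, ⟨h1, h2⟩, hs⟩ := (hev'.and self_mem_nhdsWithin).exists
  have hs0 : (0 : ℝ) < s := hs
  have h3 := h2 (h1.2 (by simpa using hs0.le))
  have e1 : Ψ (x, f x + s) - Ψ (x, f x) = s • Ψ (0, 1) := by
    rw [← map_sub, Prod.mk_sub_mk, ← map_smul]
    simp
  have e2 : l (Ψ (x, f x)) - l (Ψ (x, f x + s)) = - (s * l (Ψ (0, 1))) := by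
    have : l (Ψ (x, f x + s)) - l (Ψ (x, f x)) = s * l (Ψ (0, 1)) := by
      rw [← map_sub, e1, map_smul, smul_eq_mul]
    linarith
  rw [e1, e2] at h3
  have h4 : Ψ (0, 1) ≠ 0 := by
    intro h5
    have h6 : ((0, 1) : E m × ℝ) = 0 := Ψ.injective (by rw [h5, map_zero])
    have := congrArg Prod.snd h6
    simp at this
  have h5 : 0 < ‖s • Ψ ((0, 1) : E m × ℝ)‖ := norm_pos_iff.2 (smul_ne_zero hs0.ne' h4)
  have h6 : 0 < ε * ‖s • Ψ ((0, 1) : E m × ℝ)‖ ^ 2 := by positivity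
  by_contra hcon
  have h7 : 0 ≤ s * l (Ψ (0, 1)) := mul_nonneg hs0.le (not_lt.1 hcon)
  linarith

/-- Paper proof: `φ h = l p - l (Ψ (x + h, f (x + h))) - ε ‖…‖²` is `≥ 0` near `0` with `φ 0 = 0`, so
`l (Ψ (h, Df(x) h)) = 0` and `l (Ψ (h, y)) = c (y - Df(x) h)` with `c = l (Ψ (0, 1)) < 0` (look at
`p + s Ψ (0, 1) ∈ K`, `s > 0` small). Then `-c (f (x + t h) - f x - t Df(x) h) ≥ ε C t² ‖h‖²`;
use `taylor_f` and `t → 0`. -/
theorem strong_pos (h : Chart K Ψ f x) (hs : Strong K (Ψ (x, f x))) :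
    ∀ b : E m, b ≠ 0 → 0 < D2 f x b b := by
  obtain ⟨l, ε, ε0, hε⟩ := hs
  have hneg := strongA_neg h ε0 hε
  have hgr := strongA_graph h hε
  obtain ⟨c, hc⟩ : ∃ c : ℝ, c = - l (Ψ (0, 1)) := ⟨_, rfl⟩
  have c0 : 0 < c := by rw [hc]; linarith
  -- first order
  have hd : HasFDerivAt f (fderiv ℝ f x) x :=
    (h.smooth.differentiableAt (by norm_num)).hasFDerivAt
  obtain ⟨L, hL⟩ : ∃ L : E m →L[ℝ] ℝ, ∀ w, L w = l (Ψ (w, 0)) :=
    ⟨(l.comp (Ψ : (E m × ℝ) →L[ℝ] E n)).comp (ContinuousLinearMap.inl ℝ (E m) ℝ), fun w => by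
      simp⟩
  have hfirst : ∀ w, l (Ψ (w, 0)) = c * fderiv ℝ f x w := by
    have hd0 : HasFDerivAt (fun w : E m => - L w + c * (f (x + w) - f x))
        (-L + c • fderiv ℝ f x) 0 := by
      have h1 : HasFDerivAt (fun w : E m => f (x + w)) (fderiv ℝ f x) 0 := by
        have h2 : HasFDerivAt f (fderiv ℝ f x) (x + 0) := by rw [add_zero]; exact hd
        have h3 : HasFDerivAt (fun w : E m => x + w) (ContinuousLinearMap.id ℝ (E m)) 0 :=
          (hasFDerivAt_id (0 : E m)).const_add x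
        have h4 := h2.comp (0 : E m) h3
        rw [ContinuousLinearMap.comp_id] at h4
        exact h4
      have h5 := L.hasFDerivAt (x := (0 : E m))
      have h6 := (h1.sub_const (f x)).const_mul c
      exact h5.neg.add h6
    have hmin : IsLocalMin (fun w : E m => - L w + c * (f (x + w) - f x)) 0 := by
      filter_upwards [hgr] with w hw
      have : 0 ≤ ε * ‖Ψ (w, f (x + w) - f x)‖ ^ 2 := by positivity
      rw [hL w, hc]
      simp only [map_zero, neg_zero, add_zero, sub_self, mul_zero]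
      linarith
    have h0 := hmin.hasFDerivAt_eq_zero hd0
    intro w
    have h1 : (-L + c • fderiv ℝ f x) w = 0 := by rw [h0]; rfl
    have h2 : (-L + c • fderiv ℝ f x) w = - L w + c * fderiv ℝ f x w := rfl
    rw [← hL w]
    linarith
  -- the lower bound of the norm
  obtain ⟨κ, κ0, hκ⟩ : ∃ κ : ℝ, 0 < κ ∧ ∀ (w : E m) (y : ℝ), κ * ‖w‖ ^ 2 ≤ ‖Ψ (w, y)‖ ^ 2 := by
    obtain ⟨A, A0, hA⟩ : ∃ A : ℝ, 0 < A ∧ ∀ z, ‖Ψ.symm z‖ ≤ A * ‖z‖ := by
      refine ⟨‖(Ψ.symm : E n →L[ℝ] (E m × ℝ))‖ + 1, by positivity, fun z => ?_⟩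
      have h1 := (Ψ.symm : E n →L[ℝ] (E m × ℝ)).le_opNorm z
      have h2 : ‖(Ψ.symm : E n →L[ℝ] (E m × ℝ)) z‖ = ‖Ψ.symm z‖ := rfl
      nlinarith [norm_nonneg z]
    refine ⟨1 / A ^ 2, by positivity, fun w y => ?_⟩
    have h1 := hA (Ψ (w, y))
    rw [ContinuousLinearEquiv.symm_apply_apply] at h1
    have h2 : ‖w‖ ≤ ‖((w, y) : E m × ℝ)‖ := norm_fst_le (w, y)
    have h3 : ‖w‖ ≤ A * ‖Ψ (w, y)‖ := h2.trans h1
    have h4 : ‖w‖ ^ 2 ≤ (A * ‖Ψ (w, y)‖) ^ 2 := pow_le_pow_left₀ (norm_nonneg _) h3 2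
    rw [div_mul_eq_mul_div, one_mul, div_le_iff₀ (by positivity)]
    nlinarith
  -- Taylor
  intro b hb
  have hT := taylor_f (f := f) (x := x) (h.smooth.of_le (by norm_num))
  obtain ⟨η, η0, hη⟩ : ∃ η : ℝ, 0 < η ∧ c * η = ε * κ / 2 :=
    ⟨ε * κ / 2 / c, by positivity, by field_simp⟩
  have hT' := hT.def η0
  have htend : Tendsto (fun t : ℝ => t • b) (𝓝 0) (𝓝 0) := by
    have : Tendsto (fun t : ℝ => t • b) (𝓝 0) (𝓝 ((0 : ℝ) • b)) :=
      (continuous_id.smul continuous_const).tendsto 0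
    rwa [zero_smul] at this
  have hev := (htend.eventually hgr).and (htend.eventually hT')
  have hev' : ∀ᶠ s in 𝓝[>] (0 : ℝ), _ := hev.filter_mono nhdsWithin_le_nhds
  obtain ⟨t, ⟨h1, h2⟩, ht⟩ := (hev'.and self_mem_nhdsWithin).exists
  have ht0 : (0 : ℝ) < t := ht
  obtain ⟨w, hw⟩ : ∃ w, w = t • b := ⟨_, rfl⟩
  rw [← hw] at h1 h2
  have hw0 : w ≠ 0 := by rw [hw]; exact smul_ne_zero ht0.ne' hb
  rw [hfirst w, Real.norm_eq_abs, Real.norm_eq_abs, abs_of_nonneg (by positivity :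
    (0 : ℝ) ≤ ‖w‖ ^ 2)] at *
  have h3 := (abs_le.1 h2).2
  have h4 := hκ w (f (x + w) - f x)
  have h5 : ε * (κ * ‖w‖ ^ 2) ≤ ε * ‖Ψ (w, f (x + w) - f x)‖ ^ 2 :=
    mul_le_mul_of_nonneg_left h4 ε0.le
  have h6 : l (Ψ (0, 1)) = - c := by rw [hc]; ring
  rw [h6] at h1
  have h7 : c * (f (x + w) - f x - fderiv ℝ f x w - 1 / 2 * D2 f x w w) ≤ c * (η * ‖w‖ ^ 2) :=
    mul_le_mul_of_nonneg_left h3 c0.le
  have h8 : c * (η * ‖w‖ ^ 2) = ε * κ / 2 * ‖w‖ ^ 2 := by rw [← mul_assoc, hη]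
  have hn : 0 < ‖w‖ ^ 2 := by
    have := norm_pos_iff.2 hw0
    positivity
  have h9 : 0 < ε * κ * ‖w‖ ^ 2 := by positivity
  have h10 : 0 < c * D2 f x w w := by nlinarith
  have h11 : 0 < D2 f x w w := by
    by_contra hcon
    have := mul_nonpos_of_nonneg_of_nonpos c0.le (not_lt.1 hcon)
    linarith
  have h12 : D2 f x w w = t * (t * D2 f x b b) := by
    rw [hw, map_smul, map_smul]
    simp [smul_eq_mul]
  rw [h12] at h11
  exact (pos_iff_pos_of_mul_pos (by nlinarith : 0 < t * (t * D2 f x b b))).1 ht0 |> fun h13 =>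
    (pos_iff_pos_of_mul_pos h13).1 ht0

end MP80b30d
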