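import Pool.Agent.Lib.MP_80b30d_gt.Defs

/-! MP_80b30d_gt: symmetry of the second and third derivative, derivative of the Hessian. -/

namespace MP80b30d

open Set Filter Topology Metric

variable {W : Type*} [NormedAddCommGroup W] [NormedSpace ℝ W]

private theorem symm_aux80b {G : Type*} [NormedAddCommGroup G] [NormedSpace ℝ G] {f : W → G}
    {x : W} (hf : ContDiffAt ℝ 2 f x) (h k : W) :
    fderiv ℝ (fderiv ℝ f) x h k = fderiv ℝ (fderiv ℝ f) x k h :=
  (hf.isSymmSndFDerivAt (n := 2) (by simp)).eq h k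

theorem D2_symm {f : W → ℝ} {x : W} (hf : ContDiffAt ℝ 2 f x) (h k : W) :
    D2 f x h k = D2 f x k h :=
  symm_aux80b hf h k

private theorem contDiffAt_D2_80b {f : W → ℝ} {x : W} (hf : ContDiffAt ℝ 3 f x) :
    ContDiffAt ℝ 1 (D2 f) x := by
  have h1 : ContDiffAt ℝ 2 (fderiv ℝ f) x := hf.fderiv_right (by norm_num)
  exact h1.fderiv_right (by norm_num)

/-- the entries of the Hessian are differentiable, with derivative given by `D3` -/
theorem hasFDerivAt_D2 {f : W → ℝ} {x : W} (hf : ContDiffAt ℝ 3 f x) :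
    HasFDerivAt (D2 f) (D3 f x) x :=
  ((contDiffAt_D2_80b hf).differentiableAt (by norm_num)).hasFDerivAt

private theorem fderiv_D2_apply80b {f : W → ℝ} {x : W} (hf : ContDiffAt ℝ 3 f x) (g h k : W) :
    fderiv ℝ (fun y => D2 f y h k) x g = D3 f x g h k := by
  have h1 := hasFDerivAt_D2 hf
  have h3 := (h1.clm_apply (hasFDerivAt_const h x)).clm_apply (hasFDerivAt_const k x)
  rw [h3.fderiv]
  simp

theorem continuousAt_D3 {f : W → ℝ} {x : W} (hf : ContDiffAt ℝ 3 f x) (g h k : W) :
    ContinuousAt (fun y => D3 f y g h k) x := by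
  have h2 : ContDiffAt ℝ 1 (fun y => D2 f y h k) x :=
    ((contDiffAt_D2_80b hf).clm_apply contDiffAt_const).clm_apply contDiffAt_const
  have h3 : ContDiffAt ℝ 0 (fderiv ℝ (fun y => D2 f y h k)) x := h2.fderiv_right (by norm_num)
  have h4 : ContinuousAt (fun y => fderiv ℝ (fun y => D2 f y h k) y g) x :=
    h3.continuousAt.clm_apply continuousAt_const
  refine h4.congr ?_
  filter_upwards [hf.eventually (by simp)] with y hy
  exact fderiv_D2_apply80b hy g h k

theorem D3_symm12 {f : W → ℝ} {x : W} (hf : ContDiffAt ℝ 3 f x) (g h k : W) :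
    D3 f x g h k = D3 f x h g k := by
  have h1 : ContDiffAt ℝ 2 (fderiv ℝ f) x := hf.fderiv_right (by norm_num)
  have h2 := symm_aux80b h1 g h
  exact congrArg (fun L : W →L[ℝ] ℝ => L k) h2

theorem D3_symm23 {f : W → ℝ} {x : W} (hf : ContDiffAt ℝ 3 f x) (g h k : W) :
    D3 f x g h k = D3 f x g k h := by
  have hev : (fun y => D2 f y h k) =ᶠ[𝓝 x] (fun y => D2 f y k h) := by
    filter_upwards [hf.eventually (by simp)] with y hy
    exact D2_symm (hy.of_le (by norm_num)) h k
  have h1 : fderiv ℝ (fun y => D2 f y h k) x = fderiv ℝ (fun y => D2 f y k h) x := hev.fderiv_eq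
  rw [← fderiv_D2_apply80b hf, ← fderiv_D2_apply80b hf, h1]

end MP80b30d
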