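import Mathlib

/-! MP_80b30d_gt, second part: counting incidences in subsets. -/

namespace MP80b30d

open Classical in
/-- the number of incident pairs in `J` -/
private noncomputable def TCount_T {N : ℕ} (Z : Fin N → Fin N → Prop) (J : Finset (Fin N)) : ℤ :=
  ∑ i ∈ J, ∑ j ∈ J, if Z i j then 1 else 0

open Classical in
private theorem TCount_card {N : ℕ} (Z : Fin N → Fin N → Prop) (J : Finset (Fin N)) :
    (((J ×ˢ J).filter (fun z => Z z.1 z.2)).card : ℤ) = TCount_T Z J := by
  unfold TCount_T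
  rw [Finset.card_filter, Finset.sum_product]
  push_cast
  rfl

open Classical in
private theorem TCount_erase {N : ℕ} (Z : Fin N → Fin N → Prop) (hirr : ∀ i, ¬ Z i i)
    (J : Finset (Fin N)) {v : Fin N} (hv : v ∈ J) :
    TCount_T Z (J.erase v) = TCount_T Z J - (∑ j ∈ J, if Z v j then (1 : ℤ) else 0) -
      ∑ i ∈ J, if Z i v then (1 : ℤ) else 0 := by
  unfold TCount_T
  have h1 : ∀ f : Fin N → ℤ, ∑ i ∈ J.erase v, f i = ∑ i ∈ J, f i - f v := by
    intro f
    rw [← Finset.add_sum_erase J f hv]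
    ring
  rw [h1]
  have h2 : (∑ x ∈ J, ∑ j ∈ J.erase v, if Z x j then (1 : ℤ) else 0) =
      ∑ x ∈ J, ((∑ j ∈ J, if Z x j then (1 : ℤ) else 0) - if Z x v then (1 : ℤ) else 0) :=
    Finset.sum_congr rfl fun x _ => h1 _
  rw [h2, h1, Finset.sum_sub_distrib, if_neg (hirr v)]
  ring

private theorem TCount_step {N : ℕ} (Z : Fin N → Fin N → Prop) (hirr : ∀ i, ¬ Z i i)
    (J : Finset (Fin N)) (hJ : J.Nonempty) :
    ∃ v ∈ J, (J.card : ℤ) * TCount_T Z (J.erase v) ≤ (J.card - 2) * TCount_T Z J := by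
  classical
  by_contra hcon
  push Not at hcon
  have h1 : ∑ v ∈ J, (((J.card : ℤ) - 2) * TCount_T Z J) <
      ∑ v ∈ J, ((J.card : ℤ) * TCount_T Z (J.erase v)) :=
    Finset.sum_lt_sum_of_nonempty hJ hcon
  have h2 : ∑ v ∈ J, ((J.card : ℤ) * TCount_T Z (J.erase v)) =
      J.card * (J.card * TCount_T Z J - TCount_T Z J - TCount_T Z J) := by
    rw [← Finset.mul_sum]
    congr 1
    rw [Finset.sum_congr rfl fun v hv => TCount_erase Z hirr J hv, Finset.sum_sub_distrib,
      Finset.sum_sub_distrib, Finset.sum_const, nsmul_eq_mul]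
    congr 1
    unfold TCount_T
    rw [Finset.sum_comm]
  rw [h2, Finset.sum_const, nsmul_eq_mul] at h1
  exact absurd h1 (by
    have : (J.card : ℤ) * (((J.card : ℤ) - 2) * TCount_T Z J) =
      J.card * (J.card * TCount_T Z J - TCount_T Z J - TCount_T Z J) := by ring
    rw [this]
    exact lt_irrefl _)

open Classical in
/-- Paper proof. Let `T (J)` be the number of ordered pairs in `{(i, j) ∈ J × J | Z i j}`
(`Z` is irreflexive). `T (univ) ≤ N (m - 1)`. For `|J| = k` one has
`∑ v ∈ J, T (J \ {v}) = (k - 2) T (J)`, so some `v` has `T (J \ {v}) ≤ (k - 2) T (J) / k`.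
If `N = m + 3`, `m ≥ 4`, this gives a `J` with `m + 2` elements and
`T (J) ≤ (m + 1)(m - 1) = m² - 1 < m² + m - 4`.
If `m = 3`, `N = 7`: `T ≤ 14`, then `T ≤ 10` for some `6`-set, then `T ≤ 6 < 8` for some
`5`-set. -/
theorem exists_few {m N : ℕ} (hm : 3 ≤ m) (hN : (4 ≤ m ∧ N = m + 3) ∨ (m = 3 ∧ N = 7))
    (Z : Fin N → Fin N → Prop) (hirr : ∀ i, ¬ Z i i)
    (hdeg : ∀ i, (Finset.univ.filter (fun j => Z i j)).card ≤ m - 1) :
    ∃ J : Finset (Fin N), J.card = m + 2 ∧
      ((J ×ˢ J).filter (fun z => Z z.1 z.2)).card < m ^ 2 + m - 4 := by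
  have hU : TCount_T Z Finset.univ ≤ (N : ℤ) * (m - 1) := by
    unfold TCount_T
    have h1 : ∀ i ∈ (Finset.univ : Finset (Fin N)),
        (∑ j ∈ Finset.univ, if Z i j then (1 : ℤ) else 0) ≤ (m : ℤ) - 1 := by
      intro i _
      have h2 := hdeg i
      rw [Finset.card_filter] at h2
      have h3 : ((∑ j : Fin N, if Z i j then 1 else 0 : ℕ) : ℤ) ≤ ((m - 1 : ℕ) : ℤ) := by
        exact_mod_cast h2
      push_cast [Nat.cast_sub (show 1 ≤ m by omega)] at h3
      exact h3
    have h2 := Finset.sum_le_card_nsmul Finset.univ _ _ h1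
    rw [Finset.card_univ, Fintype.card_fin, nsmul_eq_mul] at h2
    exact h2
  rcases hN with ⟨hm4, rfl⟩ | ⟨rfl, rfl⟩
  · obtain ⟨v, _, hv⟩ := TCount_step Z hirr Finset.univ ⟨⟨0, by omega⟩, Finset.mem_univ _⟩
    rw [Finset.card_univ, Fintype.card_fin] at hv
    refine ⟨Finset.univ.erase v, ?_, ?_⟩
    · rw [Finset.card_erase_of_mem (Finset.mem_univ v), Finset.card_univ, Fintype.card_fin]
      omega
    · have h3 := TCount_card Z (Finset.univ.erase v)
      have h4 : TCount_T Z (Finset.univ.erase v) ≤ ((m : ℤ) + 1) * (m - 1) := by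
        have h5 : ((m + 3 : ℕ) : ℤ) * TCount_T Z (Finset.univ.erase v) ≤
            ((m + 3 : ℕ) : ℤ) * (((m : ℤ) + 1) * (m - 1)) := by
          refine hv.trans ?_
          have h6 : (0 : ℤ) ≤ ((m + 3 : ℕ) : ℤ) - 2 := by push_cast; omega
          have h7 := mul_le_mul_of_nonneg_left hU h6
          refine h7.trans (le_of_eq ?_)
          push_cast
          ring
        exact le_of_mul_le_mul_left h5 (by positivity)
      rw [← h3] at h4
      have h8 : (((Finset.univ.erase v ×ˢ Finset.univ.erase v).filter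
          (fun z => Z z.1 z.2)).card : ℤ) + 4 < (m : ℤ) ^ 2 + m := by
        have : (4 : ℤ) ≤ m := by exact_mod_cast hm4
        nlinarith
      have h9 : ((Finset.univ.erase v ×ˢ Finset.univ.erase v).filter
          (fun z => Z z.1 z.2)).card + 4 < m ^ 2 + m := by exact_mod_cast h8
      omega
  · obtain ⟨v, _, hv⟩ := TCount_step Z hirr Finset.univ ⟨⟨0, by omega⟩, Finset.mem_univ _⟩
    have hc1 : (Finset.univ.erase v : Finset (Fin 7)).card = 6 := by
      rw [Finset.card_erase_of_mem (Finset.mem_univ v), Finset.card_univ, Fintype.card_fin]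
    have hne : (Finset.univ.erase v : Finset (Fin 7)).Nonempty := by
      rw [← Finset.card_pos, hc1]
      norm_num
    obtain ⟨w, hw, hw2⟩ := TCount_step Z hirr (Finset.univ.erase v) hne
    rw [Finset.card_univ, Fintype.card_fin] at hv
    rw [hc1] at hw2
    refine ⟨(Finset.univ.erase v).erase w, ?_, ?_⟩
    · rw [Finset.card_erase_of_mem hw, hc1]
    · have h3 := TCount_card Z ((Finset.univ.erase v).erase w)
      push_cast at hv hw2 hU
      have h4 : (((((Finset.univ.erase v).erase w) ×ˢ ((Finset.univ.erase v).erase w)).filter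
          (fun z => Z z.1 z.2)).card : ℤ) < 8 := by
        rw [h3]
        omega
      have h5 : ((((Finset.univ.erase v).erase w) ×ˢ ((Finset.univ.erase v).erase w)).filter
          (fun z => Z z.1 z.2)).card < 8 := by exact_mod_cast h4
      norm_num
      exact h5

end MP80b30d
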