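import Pool.Agent.Lib.MP_80b30d_gt.Defs

/-! MP_80b30d_gt, second part: any number of lights. -/

namespace MP80b30d

open Set Filter Topology Metric

/-- `N` lights in the tangent hyperplane of `K` at `p`, outside `K`, in general linear position with
respect to `p`, each with flat shadow boundary. -/
def NLights {n : ℕ} (K : Set (E n)) (N : ℕ) (p : E n) : Prop :=
  ∃ u : Fin N → E n, (∀ i, u i ∈ tangentPlane K p ∧ u i ∉ K) ∧
    (∀ s : Finset (Fin N), s.card = n - 1 → LinearIndependent ℝ (fun i : s => u i - p)) ∧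
    ∀ i, ∃ (L : E n →L[ℝ] ℝ) (c : ℝ), L ≠ 0 ∧ shadow K (u i) ⊆ {x | L x = c}

/-- The boundary of `K` is a hypersurface of class `C^∞`. -/
def SmoothBoundary {n : ℕ} (K : Set (E n)) : Prop :=
  ∀ p ∈ frontier K, ∃ F : E n → ℝ, (∀ r : ℕ, ContDiff ℝ r F) ∧ fderiv ℝ F p ≠ 0 ∧
    ∀ᶠ x in 𝓝 p, (x ∈ K ↔ F x ≤ 0)

theorem nlights_mono {n N N' : ℕ} {K : Set (E n)} {p : E n} (h : N' ≤ N)
    (hN : NLights K N p) : NLights K N' p := by
  obtain ⟨u, h1, h2, h3⟩ := hN
  refine ⟨fun i => u (Fin.castLE h i), fun i => h1 _, fun s hs => ?_, fun i => h3 _⟩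
  have hc : (s.map (Fin.castLEEmb h)).card = n - 1 := by rw [Finset.card_map]; exact hs
  have hl := h2 _ hc
  let g : s → (s.map (Fin.castLEEmb h) : Finset (Fin N)) := fun i =>
    ⟨Fin.castLE h i, Finset.mem_map.2 ⟨i, i.2, rfl⟩⟩
  have hg : Function.Injective g := by
    intro i j hij
    have h4 : Fin.castLE h (i : Fin N') = Fin.castLE h (j : Fin N') := congrArg Subtype.val hij
    exact Subtype.ext (Fin.castLE_injective h h4)
  exact hl.comp g hg

end MP80b30d
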