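import Pool.Agent.Lib.MP_80b30d_gt.PointTr
import Pool.Agent.Lib.MP_80b30d_gt.TDefs
import Pool.Agent.Lib.MP_80b30d_gt.TCount

/-! MP_80b30d_gt, second part: `n + 2` lights (`7` lights if `n = 4`) determine the cubic form. -/

namespace MP80b30d

open Set Filter Topology Metric

/-- Paper proof: as in `lights_tr` (see PointTr.lean): `tangent_chart` gives `a i`
(`i : Fin N`), any `m` of them independent; `light_chart` gives `κ i`.
`orth_bound` with `S = {i}` and `T = {j | j ≠ i, H (a i) (a j) = 0}` gives `|T| ≤ m - 1`, so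
`exists_few` with `Z i j := i ≠ j ∧ H (a i) (a j) = 0` gives a set `J` of `m + 2` indices; apply
`cubic_trace2` to the family `a ∘ e`, `e : Fin (m + 2) → Fin N` the enumeration of `J`. -/
theorem nlights_tr {m N : ℕ} (hm : 3 ≤ m) (hN : (4 ≤ m ∧ N = m + 3) ∨ (m = 3 ∧ N = 7))
    {K : Set (E (m + 1))} {Ψ : (E m × ℝ) ≃L[ℝ] E (m + 1)} {f : E m → ℝ} {x : E m}
    (hK : Convex ℝ K) (h : Chart K Ψ f x) (hpos : ∀ b : E m, b ≠ 0 → 0 < D2 f x b b)
    (hl : NLights K N (Ψ (x, f x))) : ∃ ω : E m →L[ℝ] ℝ, Tr f x ω := by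
  classical
  have hmN : m + 2 ≤ N := by omega
  obtain ⟨u, hu, hind, hL⟩ := hl
  choose L c hL using hL
  have hex : ∀ i, ∃ a : E m, u i = Ψ (x + a, f x + fderiv ℝ f x a) := fun i =>
    tangent_chart h (hu i).1
  choose a ha using hex
  have hm1 : m + 1 - 1 = m := by omega
  have hsub : ∀ i, u i - Ψ (x, f x) = Ψ (a i, fderiv ℝ f x (a i)) := by
    intro i
    rw [ha i, ← map_sub]
    congr 1
    ext1
    · simp
    · simp
  set T : E m →ₗ[ℝ] E (m + 1) := (Ψ.toContinuousLinearMap.toLinearMap) ∘ₗ
    (LinearMap.prod LinearMap.id (fderiv ℝ f x).toLinearMap) with hT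
  have hTa : ∀ b, T b = Ψ (b, fderiv ℝ f x b) := fun b => rfl
  have hind' : ∀ s : Finset (Fin N), s.card = m → LinearIndependent ℝ (fun i : s => a i) := by
    intro s hs
    have h1 := hind s (by rw [hs, hm1])
    refine LinearIndependent.of_comp T ?_
    have h2 : (T ∘ fun i : s => a i) = fun i : s => u i - Ψ (x, f x) := by
      funext i
      rw [Function.comp_apply, hTa, hsub]
    rw [h2]
    exact h1
  have ha0 : ∀ i, a i ≠ 0 := by
    intro i
    obtain ⟨s, hs, hcard⟩ := Finset.exists_superset_card_eq (s := ({i} : Finset (Fin N)))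
      (n := m) (by rw [Finset.card_singleton]; omega) (by rw [Fintype.card_fin]; omega)
    exact (hind' s hcard).ne_zero (⟨i, hs (Finset.mem_singleton_self i)⟩ : s)
  have hlc : ∀ i, L i (Ψ (x, f x)) = c i ∧ ∃ lam κ : ℝ, lam ≠ 0 ∧
      (∀ b : E m, L i (Ψ (b, fderiv ℝ f x b)) = lam * D2 f x (a i) b) ∧
      ∀ w : E m, D2 f x (a i) w = 0 → D3 f x (a i) w w = κ * D2 f x w w := by
    intro i
    refine light_chart (by omega) hK h hpos (ha0 i) (hL i).1 ?_
    rw [← ha i]
    exact (hL i).2
  have hf2 : ContDiffAt ℝ 2 f x := h.smooth.of_le (by norm_num)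
  set H : E m →ₗ[ℝ] E m →ₗ[ℝ] ℝ := LinearMap.mk₂ ℝ (fun b b' => D2 f x b b')
    (fun b b' d => by simp) (fun r b d => by simp) (fun b d d' => by simp)
    (fun r b d => by simp) with hH
  have hHs : ∀ b b', H b b' = H b' b := fun b b' => D2_symm hf2 b b'
  have hHp : ∀ b, b ≠ 0 → 0 < H b b := fun b hb => hpos b hb
  set C : E m →ₗ[ℝ] E m →ₗ[ℝ] E m →ₗ[ℝ] ℝ :=
    { toFun := fun g => LinearMap.mk₂ ℝ (fun b b' => D3 f x g b b')
        (fun b b' d => by simp) (fun r b d => by simp) (fun b d d' => by simp)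
        (fun r b d => by simp)
      map_add' := fun g g' => by
        ext b b'
        simp
      map_smul' := fun r g => by
        ext b b'
        simp } with hC
  -- few orthogonal pairs
  have key : ∀ i, (Finset.univ.filter (fun j => i ≠ j ∧ H (a i) (a j) = 0)).card ≤ m - 1 := by
    intro i
    rcases (Finset.univ.filter (fun j => i ≠ j ∧ H (a i) (a j) = 0)).eq_empty_or_nonempty
      with h1 | h1
    · rw [h1, Finset.card_empty]
      exact Nat.zero_le _
    · have h3 := orth_bound (by omega) (finrank_euclideanSpace_fin) H hHs hHp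
        (by rw [Fintype.card_fin]; omega) a hind' {i}
        (Finset.univ.filter (fun j => i ≠ j ∧ H (a i) (a j) = 0))
        (Finset.singleton_nonempty i) h1
        (by
          rw [Finset.disjoint_singleton_left, Finset.mem_filter]
          exact fun h4 => h4.2.1 rfl)
        (by
          intro i' hi' j hj
          rw [Finset.mem_singleton] at hi'
          rw [hi']
          exact (Finset.mem_filter.1 hj).2.2)
      rw [Finset.card_singleton] at h3
      omega
  obtain ⟨J, hJ, hJc⟩ := exists_few hm hN (fun i j => i ≠ j ∧ H (a i) (a j) = 0)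
    (fun i hi => hi.1 rfl) (fun i => by convert key i)
  set e : Fin (m + 2) ↪ Fin N :=
    (J.equivFinOfCardEq hJ).symm.toEmbedding.trans (Function.Embedding.subtype _) with he
  have heJ : ∀ k, e k ∈ J := fun k => ((J.equivFinOfCardEq hJ).symm k).2
  obtain ⟨ω, hω⟩ := cubic_trace2 hm (finrank_euclideanSpace_fin) H hHs hHp C
    (fun b b' d => D3_symm12 h.smooth b b' d) (fun b b' d => D3_symm23 h.smooth b b' d)
    (fun k => a (e k))
    (by
      intro s hs
      have h1 := hind' (s.map e) (by rw [Finset.card_map, hs])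
      have h2 := h1.comp (fun i : s => (⟨e i, Finset.mem_map_of_mem e i.2⟩ : s.map e))
        (by
          intro i j hij
          have h3 : e (i : Fin (m + 2)) = e (j : Fin (m + 2)) :=
            congrArg (fun z : (s.map e : Finset (Fin N)) => (z : Fin N)) hij
          exact Subtype.ext (e.injective h3))
      exact h2)
    (fun i => by
      obtain ⟨-, lam, κ, -, -, h3⟩ := hlc (e i)
      exact ⟨κ, h3⟩)
    (by
      refine lt_of_le_of_lt ?_ hJc
      rw [← Set.ncard_coe_finset]
      refine Set.ncard_le_ncard_of_injOn (fun z => (e z.1, e z.2)) ?_ ?_ (Set.toFinite _)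
      · intro z hz
        simp only [Finset.coe_filter, Set.mem_ofPred_eq, Finset.mem_product]
        exact ⟨⟨heJ _, heJ _⟩, fun h5 => hz.1 (e.injective h5), hz.2⟩
      · intro z _ z' _ hzz
        have h5 := Prod.ext_iff.1 hzz
        exact Prod.ext (e.injective h5.1) (e.injective h5.2))
  exact ⟨LinearMap.toContinuousLinearMap ω, fun g b b' => hω g b b'⟩

end MP80b30d
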