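import Pool.Agent.Lib.MP_80b30d_gt.GlobA
import Pool.Agent.Lib.MP_80b30d_gt.TTr
import Pool.Agent.Lib.MP_80b30d_gt.GlobC
import Pool.Agent.Lib.MP_80b30d_gt.GlobD
import Pool.Agent.Lib.MP_80b30d_gt.ChartExists
import Pool.Agent.Lib.MP_80b30d_gt.EndQuad

/-! MP_80b30d_gt: second part, positive part. -/

namespace MP80b30d

open Set Filter Topology Metric

/-- as `local_quadric`, with the pointwise conclusion as hypothesis -/
theorem local_quadric2 {m : ℕ} {K : Set (E (m + 1))} {Ψ : (E m × ℝ) ≃L[ℝ] E (m + 1)}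
    {f : E m → ℝ} {x : E m} (hm : 3 ≤ m) {D : Set (E (m + 1))}
    (hDK : D ⊆ frontier K) (hD : frontier K ⊆ closure D)
    (hl : ∀ (Ψ : (E m × ℝ) ≃L[ℝ] E (m + 1)) (f : E m → ℝ) (x : E m), Chart K Ψ f x →
      (∀ b : E m, b ≠ 0 → 0 < D2 f x b b) → Ψ (x, f x) ∈ D → ∃ ω : E m →L[ℝ] ℝ, Tr f x ω)
    (h : Chart K Ψ f x) (hpos : ∀ b : E m, b ≠ 0 → 0 < D2 f x b b) :
    ∃ q : QF (E m × ℝ), (∃ z, q.eval z ≠ 0) ∧ ∀ᶠ y in 𝓝 x, q.eval (y, f y) = 0 := by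
  obtain ⟨r, hr, hball⟩ := Metric.eventually_nhds_iff_ball.1
    (h.eventually.and (eventually_pos h.smooth hpos))
  have hf : ∀ y ∈ ball x r, ContDiffAt ℝ 3 f y := fun y hy => (hball y hy).1.smooth
  have hfp : ∀ y ∈ ball x r, ∀ b, b ≠ 0 → 0 < D2 f y b b := fun y hy => (hball y hy).2
  obtain ⟨q, hq, hq2⟩ := quadric_local (by omega) hr hf hfp {y | Ψ (y, f y) ∈ D}
    (fun y hy => dense_chart (hball y hy).1 hDK hD)
    (fun y hy => hl _ _ _ (hball y hy.2).1 (hball y hy.2).2 hy.1)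
  refine ⟨q, hq, ?_⟩
  filter_upwards [ball_mem_nhds x hr] with y hy
  exact hq2 y hy

theorem main_gen {m : ℕ} (hm : 3 ≤ m) {K : Set (E (m + 1))} (hK : Convex ℝ K) (hc : IsCompact K)
    (hint : (interior K).Nonempty) (h3 : C3Boundary K) {D : Set (E (m + 1))}
    (hDK : D ⊆ frontier K) (hD : frontier K ⊆ closure D)
    (hl : ∀ (Ψ : (E m × ℝ) ≃L[ℝ] E (m + 1)) (f : E m → ℝ) (x : E m), Chart K Ψ f x →
      (∀ b : E m, b ≠ 0 → 0 < D2 f x b b) → Ψ (x, f x) ∈ D → ∃ ω : E m →L[ℝ] ℝ, Tr f x ω) :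
    IsEllipsoid K := by
  have hch : ∀ p ∈ frontier K, ∃ (Ψ : (E m × ℝ) ≃L[ℝ] E (m + 1)) (f : E m → ℝ) (x : E m),
      Chart K Ψ f x ∧ Ψ (x, f x) = p := fun p hp => chart_exists hc.isClosed h3 hp
  have hloc : ∀ (Ψ : (E m × ℝ) ≃L[ℝ] E (m + 1)) (f : E m → ℝ) (x : E m), Chart K Ψ f x →
      (∀ b : E m, b ≠ 0 → 0 < D2 f x b b) →
      ∃ q : QF (E m × ℝ), (∃ z, q.eval z ≠ 0) ∧ ∀ᶠ y in 𝓝 x, q.eval (y, f y) = 0 :=
    fun Ψ f x h hpos => local_quadric2 hm hDK hD hl h hpos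
  obtain ⟨p, hp, hs⟩ := farthest (by omega) hc (hint.mono interior_subset)
  obtain ⟨Ψ, f, x, hx, rfl⟩ := hch p hp
  have hpos := strong_pos hx hs
  obtain ⟨q', ⟨z, hz⟩, hq'⟩ := hloc Ψ f x hx hpos
  have key : ∀ y, ((q'.comp (Ψ.symm : E (m + 1) →L[ℝ] (E m × ℝ))).comp
      (Ψ : (E m × ℝ) →L[ℝ] E (m + 1))).eval y = q'.eval y := by
    intro y
    rw [QF.eval_comp, QF.eval_comp]
    simp
  have hZ : Ψ (x, f x) ∈ Z K (q'.comp (Ψ.symm : E (m + 1) →L[ℝ] (E m × ℝ))) := by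
    rw [mem_Z_iff _ hx]
    refine ⟨hpos, ?_⟩
    filter_upwards [hq'] with y hy
    rw [key]; exact hy
  have hne : ∃ z, (q'.comp (Ψ.symm : E (m + 1) →L[ℝ] (E m × ℝ))).eval z ≠ 0 := by
    refine ⟨Ψ z, ?_⟩
    rw [QF.eval_comp]; simpa using hz
  have hall := Z_all (frontier_connected (by omega) hK hc hint) _
    (fun p hp => Z_open hch _ hp)
    (fun p hp hcl => Z_closed (by omega) hch hloc _ hne hp hcl) ⟨_, hZ⟩
  refine ellipsoid_of_quadric hK hc hint _ hne ?_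
  intro y hy
  exact (hall hy).2.2.self_of_nhds hy

/-- the positive part of the second result -/
theorem main_N {n N : ℕ} (hn : 4 ≤ n) (hN : n + 2 ≤ N) (hN4 : n = 4 → 7 ≤ N) {K : Set (E n)}
    (hK : Convex ℝ K) (hc : IsCompact K) (hint : (interior K).Nonempty) (h3 : C3Boundary K)
    {D : Set (E n)} (hDK : D ⊆ frontier K) (hD : frontier K ⊆ closure D)
    (hl : ∀ p ∈ D, NLights K N p) : IsEllipsoid K := by
  obtain ⟨m, rfl⟩ : ∃ m, n = m + 1 := ⟨n - 1, by omega⟩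
  have hm : 3 ≤ m := by omega
  refine main_gen hm hK hc hint h3 hDK hD ?_
  intro Ψ f x hx hpos hp
  rcases Nat.lt_or_ge 3 m with h4 | h4
  · exact nlights_tr (N := m + 3) hm (Or.inl ⟨h4, rfl⟩) hK hx hpos
      (nlights_mono (by omega) (hl _ hp))
  · have h3' : m = 3 := by omega
    subst h3'
    exact nlights_tr (N := 7) hm (Or.inr ⟨rfl, rfl⟩) hK hx hpos
      (nlights_mono (hN4 rfl) (hl _ hp))

end MP80b30d
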