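import Pool.Agent.Lib.MP_80b30d_gt.TwoGraph

/-! MP_80b30d_gt, fourth part: two crossing zero sets have two common points. -/

namespace MP80b30d

open Set Filter Topology Metric

private theorem cross_path {m : ℕ} {a0 b2 e q1 : E m} {F1 F2 : E m → ℝ} {σ1 σ2 : E m → ℝ}
    {R R1 : ℝ} (hb2 : ‖b2‖ < R1 / 2) (he : ‖e‖ < R1 / 2)
    (hc1 : ContinuousOn σ1 (ball 0 R1)) (hc2 : ContinuousOn σ2 (ball 0 R1))
    (h1 : ∀ b ∈ ball (0 : E m) R1, q1 + b + σ1 b • a0 ∈ ball q1 R ∧ F1 (q1 + b + σ1 b • a0) = 0)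
    (h2 : ∀ b ∈ ball (0 : E m) R1, F2 (q1 + b + σ2 b • a0) = 0)
    (h10 : σ1 0 = 0) (h20 : 0 < σ2 0) (h1b : 0 < σ1 b2) (h2b : σ2 b2 = 0) :
    ∃ s τ : ℝ, 0 < s ∧ s < 1 ∧ q1 + (s • b2 + (s * (1 - s)) • e) + τ • a0 ∈ ball q1 R ∧
      F1 (q1 + (s • b2 + (s * (1 - s)) • e) + τ • a0) = 0 ∧
      F2 (q1 + (s • b2 + (s * (1 - s)) • e) + τ • a0) = 0 := by
  set γ : ℝ → E m := fun s => s • b2 + (s * (1 - s)) • e with hγ
  have hγc : Continuous γ := by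
    rw [hγ]
    fun_prop
  have hγm : ∀ s ∈ Icc (0 : ℝ) 1, γ s ∈ ball (0 : E m) R1 := by
    intro s hs
    rw [mem_ball_zero_iff]
    have h3 : ‖γ s‖ ≤ s * ‖b2‖ + s * (1 - s) * ‖e‖ := by
      refine (norm_add_le _ _).trans (le_of_eq ?_)
      rw [norm_smul, norm_smul, Real.norm_of_nonneg hs.1,
        Real.norm_of_nonneg (mul_nonneg hs.1 (by linarith [hs.2]))]
    have h4 : s * ‖b2‖ ≤ ‖b2‖ := mul_le_of_le_one_left (norm_nonneg _) hs.2
    have h5 : s * (1 - s) * ‖e‖ ≤ ‖e‖ := by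
      refine mul_le_of_le_one_left (norm_nonneg _) ?_
      nlinarith [hs.1, hs.2, sq_nonneg (s - 1 / 2)]
    linarith
  have hφ : ContinuousOn (fun s => σ1 (γ s) - σ2 (γ s)) (Icc 0 1) :=
    (hc1.comp hγc.continuousOn hγm).sub (hc2.comp hγc.continuousOn hγm)
  have hγ0 : γ 0 = 0 := by simp [hγ]
  have hγ1 : γ 1 = b2 := by simp [hγ]
  obtain ⟨s, hs, hs0⟩ := intermediate_value_Icc (zero_le_one' ℝ) hφ
    (show (0 : ℝ) ∈ Icc (σ1 (γ 0) - σ2 (γ 0)) (σ1 (γ 1) - σ2 (γ 1)) by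
      rw [hγ0, hγ1, h10, h2b]
      constructor <;> linarith)
  have hs0' : σ1 (γ s) = σ2 (γ s) := sub_eq_zero.1 hs0
  have hsne0 : s ≠ 0 := by
    rintro rfl
    rw [hγ0, h10] at hs0'
    linarith
  have hsne1 : s ≠ 1 := by
    rintro rfl
    rw [hγ1, h2b] at hs0'
    linarith
  refine ⟨s, σ1 (γ s), lt_of_le_of_ne hs.1 hsne0.symm, lt_of_le_of_ne hs.2 hsne1,
    (h1 _ (hγm s hs)).1, (h1 _ (hγm s hs)).2, ?_⟩
  have h6 := h2 _ (hγm s hs)
  rw [← hs0'] at h6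
  exact h6

private theorem cross_exists {m : ℕ} (hm : 3 ≤ m) (a0 b2 : E m) {r : ℝ} (hr : 0 < r) :
    ∃ e : E m, ‖e‖ < r ∧ ∀ α β : ℝ, e ≠ α • a0 + β • b2 := by
  set S : Submodule ℝ (E m) := Submodule.span ℝ (Set.range ![a0, b2]) with hS
  have hfin : Module.finrank ℝ S ≤ 2 := by
    have := finrank_range_le_card (R := ℝ) ![a0, b2]
    rwa [Fintype.card_fin] at this
  have hne : S ≠ ⊤ := by
    intro h
    rw [h, finrank_top, finrank_euclideanSpace_fin] at hfin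
    omega
  obtain ⟨e, he⟩ : ∃ e, e ∉ S := by
    by_contra hcon
    push Not at hcon
    exact hne (Submodule.eq_top_iff'.2 hcon)
  have he0 : e ≠ 0 := fun h => he (h ▸ S.zero_mem)
  have hen : 0 < ‖e‖ := norm_pos_iff.2 he0
  have hk : 0 < r / (2 * ‖e‖) := by positivity
  refine ⟨(r / (2 * ‖e‖)) • e, ?_, fun α β h => he ?_⟩
  · rw [norm_smul, Real.norm_of_nonneg hk.le]
    have : r / (2 * ‖e‖) * ‖e‖ = r / 2 := by
      field_simp
    rw [this]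
    linarith
  · have h1 : (r / (2 * ‖e‖)) • e ∈ S := by
      rw [h]
      refine S.add_mem (S.smul_mem _ (Submodule.subset_span ⟨0, rfl⟩))
        (S.smul_mem _ (Submodule.subset_span ⟨1, rfl⟩))
    exact (S.smul_mem_iff hk.ne').1 h1

/-- Paper proof: take `R1` of `graph_fun` and `η = R1 / 2`; let `σ1`, `σ2` be the functions of
`graph_fun` with `q = q1` for `F1` (`q' = q1`) and `F2` (`q' = q2`). Let `b2 = q2 - q1`.
`σ1 0 = 0`, `σ2 0 > 0` (as `F2 q1 < 0`), `σ2 b2 = 0`, `σ1 b2 > 0` (as `F1 q2 < 0`).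
`b2` is not a multiple `λ a0`: on the segment from `q1` to `q2` (in the ball) both functions are
monotone in the direction `a0`, so `F1 q2 < 0 = F1 q1` gives `λ < 0` and `F2 q1 < 0 = F2 q2` gives
`λ > 0` (this also follows from the last clause of `graph_fun` with `b = 0`, `t = λ`: for `F1`
`F1 (q1 + λ a0) < 0 ↔ λ < 0`, and for `F2`: `F2 (q1 + λ a0) = 0 ↔ λ = σ2 0 > 0`). As `3 ≤ m` there is
`e` not in the span of `a0`, `b2`, and we may take `‖e‖ < R1 / 2`. For both `e' = 0` and `e' = e`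
the path `γ s = s b2 + s (1 - s) e'` lies in `ball 0 R1` and goes from `0` to `b2`, and
`σ1 (γ s) - σ2 (γ s)` is negative for `s = 0`, positive for `s = 1`, so it is zero for some
`s ∈ (0, 1)`; there `z = q1 + γ s + σ1 (γ s) a0` is a zero of `F1` and `F2`. The two points
obtained for `e' = 0` and `e' = e` are different, since
`s b2 - s' b2 - s' (1 - s') e` is not a multiple of `a0`. -/
theorem two_cross {m : ℕ} (hm : 3 ≤ m) {a0 : E m} (ha0 : a0 ≠ 0) {c M R : ℝ} (hc : 0 < c)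
    (hR : 0 < R) :
    ∃ η : ℝ, 0 < η ∧ ∀ (q1 q2 : E m) (F1 F2 : E m → ℝ), dist q1 q2 < η →
      (∀ x ∈ ball q1 R, Good F1 a0 c M x) → (∀ x ∈ ball q1 R, Good F2 a0 c M x) →
      F1 q1 = 0 → F2 q2 = 0 → F1 q2 < 0 → F2 q1 < 0 →
      ∃ z z' : E m, z ≠ z' ∧ z ∈ ball q1 R ∧ z' ∈ ball q1 R ∧
        F1 z = 0 ∧ F1 z' = 0 ∧ F2 z = 0 ∧ F2 z' = 0 := by
  obtain ⟨R1, hR1, hR1R, hG⟩ := graph_fun (m := m) ha0 (M := M) hc hR
  refine ⟨R1 / 2, by positivity, fun q1 q2 F1 F2 hd hg1 hg2 hF1 hF2 hF12 hF21 => ?_⟩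
  obtain ⟨σ1, hc1, h1⟩ := hG q1 q1 F1 hg1 (by rw [dist_self]; exact hR1) hF1
  obtain ⟨σ2, hc2, h2⟩ := hG q1 q2 F2 hg2 (by rw [dist_comm]; linarith) hF2
  obtain ⟨b2, rfl⟩ : ∃ b2, q2 = q1 + b2 := ⟨q2 - q1, (add_sub_cancel q1 q2).symm⟩
  have hb2 : ‖b2‖ < R1 / 2 := by
    rwa [dist_comm, dist_eq_norm, add_sub_cancel_left] at hd
  have hb2m : b2 ∈ ball (0 : E m) R1 := by
    rw [mem_ball_zero_iff]
    linarith
  have h0m : (0 : E m) ∈ ball (0 : E m) R1 := mem_ball_self hR1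
  have hq1 : q1 ∈ ball q1 R := mem_ball_self hR
  have hq2 : q1 + b2 ∈ ball q1 R := by
    rw [mem_ball, dist_eq_norm, add_sub_cancel_left]
    linarith
  have e0 : q1 + 0 + (0 : ℝ) • a0 = q1 := by rw [zero_smul, add_zero, add_zero]
  have eb : q1 + b2 + (0 : ℝ) • a0 = q1 + b2 := by rw [zero_smul, add_zero]
  have h10 : σ1 0 = 0 :=
    ((((h1 0 h0m).2.2 0 (by rw [e0]; exact hq1)).2).1 (by rw [e0]; exact hF1)).symm
  have h20 : 0 < σ2 0 :=
    (((h2 0 h0m).2.2 0 (by rw [e0]; exact hq1)).1).1 (by rw [e0]; exact hF21)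
  have h1b : 0 < σ1 b2 :=
    (((h1 b2 hb2m).2.2 0 (by rw [eb]; exact hq2)).1).1 (by rw [eb]; exact hF12)
  have h2b : σ2 b2 = 0 :=
    ((((h2 b2 hb2m).2.2 0 (by rw [eb]; exact hq2)).2).1 (by rw [eb]; exact hF2)).symm
  have hpar : ∀ l : ℝ, b2 ≠ l • a0 := by
    rintro l rfl
    have e1 : q1 + 0 + l • a0 = q1 + l • a0 := by rw [add_zero]
    have h3 : l < σ1 0 :=
      (((h1 0 h0m).2.2 l (by rw [e1]; exact hq2)).1).1 (by rw [e1]; exact hF12)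
    have h4 : l = σ2 0 :=
      (((h2 0 h0m).2.2 l (by rw [e1]; exact hq2)).2).1 (by rw [e1]; exact hF2)
    rw [h10] at h3
    linarith
  obtain ⟨e, he, heS⟩ := cross_exists hm a0 b2 (show 0 < R1 / 2 by positivity)
  obtain ⟨s, τ, hs0, hs1, hz, hz1, hz2⟩ := cross_path (a0 := a0) (e := 0) (q1 := q1) (F1 := F1)
    (F2 := F2) (R := R) hb2 (by rw [norm_zero]; positivity) hc1 hc2
    (fun b hb => ⟨(h1 b hb).1, (h1 b hb).2.1⟩) (fun b hb => (h2 b hb).2.1) h10 h20 h1b h2b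
  obtain ⟨s', τ', hs0', hs1', hz', hz1', hz2'⟩ := cross_path (a0 := a0) (e := e) (q1 := q1)
    (F1 := F1) (F2 := F2) (R := R) hb2 he hc1 hc2
    (fun b hb => ⟨(h1 b hb).1, (h1 b hb).2.1⟩) (fun b hb => (h2 b hb).2.1) h10 h20 h1b h2b
  refine ⟨_, _, fun heq => ?_, hz, hz', hz1, hz1', hz2, hz2'⟩
  have hk : s' * (1 - s') ≠ 0 := (mul_pos hs0' (by linarith)).ne'
  have h5 : (s' * (1 - s')) • e = (τ - τ') • a0 + (s - s') • b2 := by
    rw [smul_zero, add_zero] at heq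
    have h6 : s • b2 + τ • a0 = s' • b2 + (s' * (1 - s')) • e + τ' • a0 := by
      have h7 := heq
      rw [add_assoc, add_assoc, add_right_inj] at h7
      exact h7
    rw [sub_smul, sub_smul]
    have h8 : (s' * (1 - s')) • e = s • b2 + τ • a0 - s' • b2 - τ' • a0 := by
      rw [h6]
      abel
    rw [h8]
    abel
  refine heS ((s' * (1 - s'))⁻¹ * (τ - τ')) ((s' * (1 - s'))⁻¹ * (s - s')) ?_
  rw [mul_smul, mul_smul, ← smul_add, ← h5, smul_smul, inv_mul_cancel₀ hk, one_smul]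

end MP80b30d
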