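import Pool.Agent.Lib.MP_80b30d_gt.TwoDefs
import Pool.Agent.Lib.MP_80b30d_gt.PairChart
import Pool.Agent.Lib.MP_80b30d_gt.PairAlg

/-! MP_80b30d_gt, fourth part: the form of the third derivative. -/

namespace MP80b30d

open Set Filter Topology Metric

variable {m n : ℕ} {K : Set (E n)} {Ψ : (E m × ℝ) ≃L[ℝ] E n} {f : E m → ℝ} {x : E m}

private theorem twoCube_forms (f : E m → ℝ) (x : E m) :
    ∃ (H : E m →ₗ[ℝ] E m →ₗ[ℝ] ℝ) (C : E m →ₗ[ℝ] E m →ₗ[ℝ] E m →ₗ[ℝ] ℝ),
      (∀ b b', H b b' = D2 f x b b') ∧ ∀ g b b', C g b b' = D3 f x g b b' := by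
  refine ⟨LinearMap.mk₂ ℝ (fun b b' => D2 f x b b')
    (fun b b' d => by simp) (fun r b d => by simp) (fun b d d' => by simp)
    (fun r b d => by simp),
    { toFun := fun g => LinearMap.mk₂ ℝ (fun b b' => D3 f x g b b')
        (fun b b' d => by simp) (fun r b d => by simp) (fun b d d' => by simp)
        (fun r b d => by simp)
      map_add' := fun g g' => by
        ext b b'
        simp
      map_smul' := fun r g => by
        ext b b'
        simp }, fun b b' => rfl, fun g b b' => rfl⟩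

/-- Paper proof: `light_chart` for the light in direction `a` gives `κ` with
`D3 f x a w w = κ D2 f x w w` for `D2 f x a w = 0`; `pair_chart` gives the cubic identity; then
`cube_form` (PairAlg) with `H = D2 f x`, `C = D3 f x` as bilinear and trilinear maps (see the
end of the proof of `lights_tr` in PointTr.lean for this conversion). -/
theorem two_cube (hm : 2 ≤ m) (hK : Convex ℝ K) (h : Chart K Ψ f x)
    (hpos : ∀ b : E m, b ≠ 0 → 0 < D2 f x b b) {a : E m} (ha : a ≠ 0) {r : ℝ} (hr0 : r ≠ 0)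
    (hr1 : r ≠ 1) (h1 : Fl K Ψ f x a) (h2 : Fl K Ψ f x (r • a)) :
    ∃ (ω : E m →L[ℝ] ℝ) (c : ℝ), CubeForm f x ω c a := by
  obtain ⟨-, L, c, hL, hs⟩ := h1
  obtain ⟨-, L', c', hL', hs'⟩ := h2
  obtain ⟨-, lam, κ, -, -, hκ⟩ := light_chart hm hK h hpos ha hL hs
  have h3 := pair_chart hm hK h hpos ha hr0 hr1 hL hL' hs hs'
  have hf2 : ContDiffAt ℝ 2 f x := h.smooth.of_le (by norm_num)
  obtain ⟨H, C, hH, hC⟩ := twoCube_forms f x
  have hHs : ∀ b b', H b b' = H b' b := fun b b' => by rw [hH, hH]; exact D2_symm hf2 b b'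
  have hHp : ∀ b, b ≠ 0 → 0 < H b b := fun b hb => by rw [hH]; exact hpos b hb
  obtain ⟨ω, d, hω⟩ := cube_form H hHs hHp C
    (fun b b' e => by rw [hC, hC]; exact D3_symm12 h.smooth b b' e)
    (fun b b' e => by rw [hC, hC]; exact D3_symm23 h.smooth b b' e) ha (κ := κ)
    (fun w hw => by rw [hC, hH]; exact hκ w (by rw [← hH]; exact hw))
    (fun b hb => by rw [hC, hC, hH, hH]; exact h3 b (by rw [← hH]; exact hb))
  refine ⟨LinearMap.toContinuousLinearMap ω, d, fun g b b' => ?_⟩
  have h4 := hω g b b'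
  simp only [hC, hH] at h4
  exact h4

/-- Paper proof: `a ≠ 0`. `light_chart` for the light in direction `a` gives `κ'` with
`D3 f x a w w = κ' D2 f x w w` for `D2 f x a w = 0`. If `a` is not a multiple of `e` then `![e, a]` is
linearly independent and `three_alg` (PairAlg; `m = finrank`) gives `c = 0`. -/
theorem two_par (hm : 3 ≤ m) (hK : Convex ℝ K) (h : Chart K Ψ f x)
    (hpos : ∀ b : E m, b ≠ 0 → 0 < D2 f x b b) {e a : E m} {ω : E m →L[ℝ] ℝ} {c : ℝ}
    (hcube : CubeForm f x ω c e) (hc : c ≠ 0) (hea : D2 f x e a ≠ 0) (hfl : Fl K Ψ f x a) :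
    ∃ k : ℝ, a = k • e := by
  by_contra hno
  push Not at hno
  have ha0 : a ≠ 0 := by
    intro e0
    apply hea
    rw [e0, map_zero]
  have he0 : e ≠ 0 := by
    intro e0
    apply hea
    rw [e0, map_zero, ContinuousLinearMap.zero_apply]
  have hind : LinearIndependent ℝ ![e, a] := by
    rw [LinearIndependent.pair_iff' he0]
    intro k hk
    exact hno k hk.symm
  obtain ⟨-, L, c', hL, hs⟩ := hfl
  obtain ⟨-, lam, κ, -, -, hκ⟩ := light_chart (by omega) hK h hpos ha0 hL hs
  have hf2 : ContDiffAt ℝ 2 f x := h.smooth.of_le (by norm_num)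
  obtain ⟨H, C, hH, hC⟩ := twoCube_forms f x
  have hHs : ∀ b b', H b b' = H b' b := fun b b' => by rw [hH, hH]; exact D2_symm hf2 b b'
  have hHp : ∀ b, b ≠ 0 → 0 < H b b := fun b hb => by rw [hH]; exact hpos b hb
  exact hc (three_alg (by rw [finrank_euclideanSpace_fin]; exact hm) H hHs hHp C hind
    (by rw [hH]; exact hea) (ω := ω.toLinearMap) (c := c) (κ' := κ)
    (fun g b b' => by
      simp only [hC, hH]
      exact hcube g b b')
    (fun w hw => by rw [hC, hH]; exact hκ w (by rw [← hH]; exact hw)))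

end MP80b30d
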