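import Pool.Agent.Lib.MP_80b30d_gt.PairDefs
import Pool.Agent.Lib.MP_80b30d_gt.Ext

/-! MP_80b30d_gt, fourth part: two lights in each tangent hyperplane, collinear with the point of
contact. -/

namespace MP80b30d

open Set Filter Topology Metric

/-- Two lights with flat shadow boundaries in the tangent hyperplane of `K` at `p`, on one line
through `p`: the points `u` and `p + r (u - p)`, `r ≠ 1`. -/
def TwoLights {n : ℕ} (K : Set (E n)) (p : E n) : Prop :=
  ∃ (u : E n) (r : ℝ) (L L' : E n →L[ℝ] ℝ) (c c' : ℝ), r ≠ 1 ∧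
    FlatLight K p u L c ∧ FlatLight K p (p + r • (u - p)) L' c'

variable {m n : ℕ}

/-- the point of the tangent hyperplane at `Ψ (x, f x)` in the direction `a` is a light with flat
shadow boundary -/
def Fl (K : Set (E n)) (Ψ : (E m × ℝ) ≃L[ℝ] E n) (f : E m → ℝ) (x a : E m) : Prop :=
  Ψ (x + a, f x + fderiv ℝ f x a) ∉ K ∧ ∃ (L : E n →L[ℝ] ℝ) (c : ℝ), L ≠ 0 ∧
    shadow K (Ψ (x + a, f x + fderiv ℝ f x a)) ⊆ {z | L z = c}

/-- `D3 f x` is a symmetric product `ω ⊗ D2 f x` plus a multiple of the cube of `D2 f x a` -/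
def CubeForm (f : E m → ℝ) (x : E m) (ω : E m →L[ℝ] ℝ) (c : ℝ) (a : E m) : Prop :=
  ∀ h k l : E m, D3 f x h k l = ω h * D2 f x k l + ω k * D2 f x h l + ω l * D2 f x h k +
    c * (D2 f x a h * D2 f x a k * D2 f x a l)

/-- the trace of `D3 f x h` with respect to `D2 f x`, divided by `m + 2` -/
noncomputable def trw (f : E m → ℝ) (x h : E m) : ℝ :=
  (∑ i, ∑ j, (mat (D2 f x)).adjugate j i * D3 f x h (bas i) (bas j)) /
    (((m : ℝ) + 2) * (mat (D2 f x)).det)

/-- the trace free part of `D3 f x` on the diagonal -/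
noncomputable def TT (f : E m → ℝ) (x a : E m) : ℝ :=
  D3 f x a a a - 3 * trw f x a * D2 f x a a

/-- the function whose zero set is the set of the `x` whose tangent plane contains the point
`q + s (P - q)` of the tangent plane at `q`, `1 / s = 1 + ν`; here the point over `P` at height `y1`
is in the tangent plane at `q` -/
noncomputable def Fq (f : E m → ℝ) (P : E m) (y1 : ℝ) (q : E m) (ν : ℝ) (x : E m) : ℝ :=
  (f x + fderiv ℝ f x (P - x) - y1) - ν * (f q - f x - fderiv ℝ f x (q - x))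

/-- bounds for the derivative of `F` at `x` -/
def Good (F : E m → ℝ) (a0 : E m) (c M : ℝ) (x : E m) : Prop :=
  DifferentiableAt ℝ F x ∧ c ≤ fderiv ℝ F x a0 ∧ ‖fderiv ℝ F x‖ ≤ M

end MP80b30d
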