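import Pool.Agent.Lib.MP_80b30d_gt.TwoDefs

/-! MP_80b30d_gt, fourth part: elementary identities. -/

namespace MP80b30d

open Set Filter Topology Metric

variable {m : ℕ} {f : E m → ℝ}

/-- Paper proof: with `s = 1 / (1 + ν)` the left side minus the right side is
`s Fq f P y1 q ν z`: `q + s (P - q) - z = s (P - z) + (1 - s) (q - z)`,
`f q + Df(q) (s (P - q)) = (1 - s) f q + s y1`. -/
theorem Fq_iff {P q z : E m} {y1 s ν : ℝ} (hs : s ≠ 0) (hν : ν = 1 / s - 1)
    (hq : f q + fderiv ℝ f q (P - q) = y1) :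
    f z + fderiv ℝ f z (q + s • (P - q) - z) = f q + fderiv ℝ f q (s • (P - q)) ↔
      Fq f P y1 q ν z = 0 := by
  have key : f z + fderiv ℝ f z (q + s • (P - q) - z) -
      (f q + fderiv ℝ f q (s • (P - q))) = s * Fq f P y1 q ν z := by
    unfold Fq
    rw [hν, ← hq]
    simp only [map_add, map_sub, map_smul, smul_eq_mul]
    field_simp
    ring
  rw [← sub_eq_zero, key, mul_eq_zero]
  exact or_iff_right hs

/-- Paper proof: if `k = 1` then `U2 = U1` and `Y2 = Y1` by `h1`, `h2`; the same if `k' = 1`.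
Otherwise `z' - z = λ (U1 - z)` and `f z' - f z = λ (Y1 - f z)` with
`λ = - (k' - k) / (1 - k')`, since `(1 - k) z = U2 - k U1`, `(1 - k) f z = Y2 - k Y1` and the same
for `z'`; with `Y1 - f z = Df(z) (U1 - z)` this gives `f z' - f z = Df(z) (z' - z)`,
against `gap`. -/
theorem end_alg {z z' U1 U2 : E m} {Y1 Y2 k k' : ℝ}
    (gap : f z' - f z - fderiv ℝ f z (z' - z) ≠ 0)
    (h1 : f z + fderiv ℝ f z (U1 - z) = Y1) (h2 : f z + fderiv ℝ f z (U2 - z) = Y2)
    (h1' : f z' + fderiv ℝ f z' (U1 - z') = Y1) (h2' : f z' + fderiv ℝ f z' (U2 - z') = Y2)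
    (hk : U2 - z = k • (U1 - z)) (hk' : U2 - z' = k' • (U1 - z')) : U1 = U2 ∧ Y1 = Y2 := by
  by_cases h : k' = 1
  · rw [h, one_smul] at hk'
    have e : U2 = U1 := sub_left_injective hk'
    refine ⟨e.symm, ?_⟩
    rw [← h1, ← h2, e]
  · exfalso
    apply gap
    have e1 : (1 - k') • (z' - z) = (k - k') • (U1 - z) := by
      have e3 : (1 - k') • (z' - z) = (U2 - z) - k' • (U1 - z) - ((U2 - z') - k' • (U1 - z')) := by
        module
      rw [e3, hk', hk]
      module
    have hY : Y2 - f z = k * (Y1 - f z) := by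
      rw [← h1, ← h2, hk, map_smul, smul_eq_mul]
      ring
    have hY' : Y2 - f z' = k' * (Y1 - f z') := by
      rw [← h1', ← h2', hk', map_smul, smul_eq_mul]
      ring
    have e4 := congrArg (fderiv ℝ f z) e1
    rw [map_smul, map_smul, smul_eq_mul, smul_eq_mul] at e4
    have e5 : fderiv ℝ f z (U1 - z) = Y1 - f z := by
      rw [← h1]
      ring
    rw [e5] at e4
    have e6 : (1 - k') * (f z' - f z - fderiv ℝ f z (z' - z)) = 0 := by
      linear_combination hY - hY' - e4
    rcases mul_eq_zero.1 e6 with e7 | e7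
    · exact absurd (by linarith) h
    · exact e7

end MP80b30d
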