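import Pool.Agent.Lib.MP_80b30d_gt.TwoDefs

/-! MP_80b30d_gt, fourth part: strict convexity and elementary identities. -/

namespace MP80b30d

open Set Filter Topology Metric

variable {m : ℕ} {f : E m → ℝ}

/-- Paper proof: `g t = f (y + t (q - y)) - t Df(y) (q - y)` has `g'(0) = 0` and
`g'' (t) = D2 f (..) (q - y) (q - y) > 0` on `[0, 1]`, so `g 1 > g 0`. -/
theorem gap_pos {x : E m} {δ : ℝ} (hf : ∀ y ∈ ball x δ, ContDiffAt ℝ 3 f y)
    (hpos : ∀ y ∈ ball x δ, ∀ b : E m, b ≠ 0 → 0 < D2 f y b b) {y q : E m} (hy : y ∈ ball x δ)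
    (hq : q ∈ ball x δ) (hyq : y ≠ q) : 0 < f q - f y - fderiv ℝ f y (q - y) := by
  set w : E m := q - y with hw
  have hw0 : w ≠ 0 := by
    rw [hw, Ne, sub_eq_zero]
    exact fun e => hyq e.symm
  have hline : ∀ s : ℝ, HasDerivAt (fun s : ℝ => y + s • w) w s := by
    intro s
    have h1 := ((hasDerivAt_id s).smul_const w).const_add y
    simpa using h1
  have hin : ∀ s : ℝ, 0 ≤ s → s ≤ 1 → y + s • w ∈ ball x δ := by
    intro s h0 h1
    have h2 := (convex_ball x δ) hy hq (sub_nonneg.2 h1) h0 (by ring)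
    have h3 : (1 - s) • y + s • q = y + s • w := by
      rw [hw, smul_sub, sub_smul, one_smul]
      abel
    rw [h3] at h2
    exact h2
  have h0 : ∀ s : ℝ, 0 ≤ s → s ≤ 1 →
      HasDerivAt (fun s : ℝ => f (y + s • w)) (fderiv ℝ f (y + s • w) w) s := by
    intro s hs0 hs1
    have h1 : HasFDerivAt f (fderiv ℝ f (y + s • w)) (y + s • w) :=
      ((hf _ (hin s hs0 hs1)).differentiableAt (by norm_num)).hasFDerivAt
    exact h1.comp_hasDerivAt s (hline s)
  have h1 : ∀ s : ℝ, 0 ≤ s → s ≤ 1 →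
      HasDerivAt (fun s : ℝ => fderiv ℝ f (y + s • w) w) (D2 f (y + s • w) w w) s := by
    intro s hs0 hs1
    have h2 : HasFDerivAt (fderiv ℝ f) (D2 f (y + s • w)) (y + s • w) :=
      (((hf _ (hin s hs0 hs1)).fderiv_right (m := 2) (by norm_num)).differentiableAt
        (by norm_num)).hasFDerivAt
    have h3 : HasDerivAt (fun s : ℝ => fderiv ℝ f (y + s • w)) (D2 f (y + s • w) w) s :=
      h2.comp_hasDerivAt s (hline s)
    have h4 := h3.clm_apply (hasDerivAt_const s w)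
    simpa using h4
  obtain ⟨c, hc, hc'⟩ := exists_hasDerivAt_eq_slope (fun s : ℝ => f (y + s • w))
    (fun s : ℝ => fderiv ℝ f (y + s • w) w) (zero_lt_one' ℝ)
    (fun s hs => (h0 s hs.1 hs.2).continuousAt.continuousWithinAt)
    (fun s hs => h0 s hs.1.le hs.2.le)
  obtain ⟨d, hd, hd'⟩ := exists_hasDerivAt_eq_slope (fun s : ℝ => fderiv ℝ f (y + s • w) w)
    (fun s : ℝ => D2 f (y + s • w) w w) hc.1
    (fun s hs => (h1 s hs.1 (hs.2.trans hc.2.le)).continuousAt.continuousWithinAt)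
    (fun s hs => h1 s hs.1.le (hs.2.le.trans hc.2.le))
  have h2 := hpos (y + d • w) (hin d hd.1.le (hd.2.le.trans hc.2.le)) w hw0
  simp only [one_smul, zero_smul, add_zero, sub_zero, div_one] at hc' hd'
  have h3 : y + w = q := by rw [hw]; abel
  rw [h3] at hc'
  rw [hd', lt_div_iff₀ hc.1, zero_mul] at h2
  linarith

end MP80b30d
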