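import Pool.Agent.Lib.MP_80b30d_gt.TwoDefs

/-! MP_80b30d_gt, fourth part: zero sets as graphs. -/

namespace MP80b30d

open Set Filter Topology Metric

private theorem TwoGraph_mono {m : ℕ} {a0 q b : E m} {F : E m → ℝ} {c M R : ℝ}
    (hF : ∀ x ∈ ball q R, Good F a0 c M x) {s t : ℝ} (hs : q + b + s • a0 ∈ ball q R)
    (ht : q + b + t • a0 ∈ ball q R) (hst : s ≤ t) :
    c * (t - s) ≤ F (q + b + t • a0) - F (q + b + s • a0) := by
  set D : Set ℝ := {r : ℝ | q + b + r • a0 ∈ ball q R} with hD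
  have hcont : Continuous fun r : ℝ => q + b + r • a0 := by fun_prop
  have hopen : IsOpen D := isOpen_ball.preimage hcont
  have hconv : Convex ℝ D := by
    have h1 := (convex_ball q R).affine_preimage
      (AffineMap.lineMap (q + b) (q + b + a0) : ℝ →ᵃ[ℝ] E m)
    have e : D = (AffineMap.lineMap (q + b) (q + b + a0) : ℝ →ᵃ[ℝ] E m) ⁻¹' ball q R := by
      ext r
      have e1 : (AffineMap.lineMap (q + b) (q + b + a0) : ℝ →ᵃ[ℝ] E m) r = q + b + r • a0 := by
        rw [AffineMap.lineMap_apply_module', add_sub_cancel_left, add_comm]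
      rw [mem_preimage, e1]
      rfl
    rw [e]
    exact h1
  have hder : ∀ r ∈ D, HasDerivAt (fun r : ℝ => F (q + b + r • a0))
      (fderiv ℝ F (q + b + r • a0) a0) r := by
    intro r hr
    have h1 : HasDerivAt (fun r : ℝ => q + b + r • a0) a0 r := by
      have h2 := ((hasDerivAt_id r).smul_const a0).const_add (q + b)
      simpa using h2
    exact (hF _ hr).1.hasFDerivAt.comp_hasDerivAt r h1
  refine hconv.mul_sub_le_image_sub_of_le_deriv (f := fun r : ℝ => F (q + b + r • a0))
    (fun r hr => (hder r hr).continuousAt.continuousWithinAt)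
    (fun r hr => (hder r (interior_subset hr)).differentiableAt.differentiableWithinAt)
    (fun r hr => ?_) s hs t ht hst
  have hr' : r ∈ D := interior_subset hr
  rw [(hder r hr').deriv]
  exact (hF _ hr').2.1

private theorem TwoGraph_point {m : ℕ} {a0 q b : E m} {F : E m → ℝ} {c M R s : ℝ} (hc : 0 < c)
    (hF : ∀ x ∈ ball q R, Good F a0 c M x) (hs : q + b + s • a0 ∈ ball q R)
    (h0 : F (q + b + s • a0) = 0) (t : ℝ) (ht : q + b + t • a0 ∈ ball q R) :
    (F (q + b + t • a0) < 0 ↔ t < s) ∧ (F (q + b + t • a0) = 0 ↔ t = s) := by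
  rcases lt_trichotomy t s with h | h | h
  · have h1 := TwoGraph_mono hF ht hs h.le
    have h2 : 0 < c * (s - t) := mul_pos hc (by linarith)
    constructor
    · exact ⟨fun _ => h, fun _ => by linarith⟩
    · exact ⟨fun h3 => by linarith, fun h3 => absurd h3 h.ne⟩
  · rw [h]
    constructor
    · exact ⟨fun h3 => absurd h3 (by linarith), fun h3 => absurd h3 (lt_irrefl _)⟩
    · exact ⟨fun _ => rfl, fun _ => h0⟩
  · have h1 := TwoGraph_mono hF hs ht h.le
    have h2 : 0 < c * (t - s) := mul_pos hc (by linarith)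
    constructor
    · exact ⟨fun h3 => by linarith, fun h3 => absurd h3 (by linarith)⟩
    · exact ⟨fun h3 => by linarith, fun h3 => absurd h3 h.ne'⟩

/-- Paper proof: `M ≥ 0` may be replaced by `max M 1`. Let `T = R / (2 ‖a0‖)`,
`R1 = min (R / 4) (c T / (4 M))`. For `b ∈ ball 0 R1` and `|t| ≤ T` the point `q + b + t a0` is in
`ball q R`, and `t ↦ F (q + b + t a0)` is continuous and strictly increasing (slope at least `c`;
also on all `t` with `q + b + t a0 ∈ ball q R`, an interval). By the mean value inequality on the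
convex set `ball q R`, `|F (q + b)| = |F (q + b) - F q'| ≤ M (‖b‖ + dist q' q) < c T`, so
`F (q + b - T a0) < 0 < F (q + b + T a0)`; the intermediate value theorem gives the unique zero
`σ b`. It is continuous: for `ε > 0` small (`σ b ± ε` still allowed), `F (q + b ± ε...)` has strict
sign at `b`, so also for nearby `b'`, so `|σ b' - σ b| < ε`. -/
theorem graph_fun {m : ℕ} {a0 : E m} (ha0 : a0 ≠ 0) {c M R : ℝ} (hc : 0 < c) (hR : 0 < R) :
    ∃ R1 : ℝ, 0 < R1 ∧ R1 ≤ R ∧ ∀ (q q' : E m) (F : E m → ℝ),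
      (∀ x ∈ ball q R, Good F a0 c M x) → dist q' q < R1 → F q' = 0 →
      ∃ σ : E m → ℝ, ContinuousOn σ (ball 0 R1) ∧ ∀ b ∈ ball (0 : E m) R1,
        q + b + σ b • a0 ∈ ball q R ∧ F (q + b + σ b • a0) = 0 ∧
        ∀ t : ℝ, q + b + t • a0 ∈ ball q R →
          (F (q + b + t • a0) < 0 ↔ t < σ b) ∧ (F (q + b + t • a0) = 0 ↔ t = σ b) := by
  classical
  have hA : 0 < ‖a0‖ := norm_pos_iff.2 ha0
  set T : ℝ := R / (2 * ‖a0‖) with hT
  have hTpos : 0 < T := by positivity
  set M' : ℝ := max M 1 with hM'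
  have hM'pos : 0 < M' := lt_of_lt_of_le one_pos (le_max_right _ _)
  set R1 : ℝ := min (R / 4) (c * T / (4 * M')) with hR1
  have hR1pos : 0 < R1 := lt_min (by positivity) (by positivity)
  have hR1a : R1 ≤ R / 4 := min_le_left _ _
  have hR1b : R1 ≤ c * T / (4 * M') := min_le_right _ _
  refine ⟨R1, hR1pos, by linarith, fun q q' F hF hq' hFq' => ?_⟩
  have hmem : ∀ b ∈ ball (0 : E m) R1, ∀ t : ℝ, |t| ≤ T → q + b + t • a0 ∈ ball q R := by
    intro b hb t ht
    rw [mem_ball_zero_iff] at hb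
    rw [mem_ball, dist_eq_norm]
    have e : q + b + t • a0 - q = b + t • a0 := by abel
    rw [e]
    have h1 : ‖t • a0‖ ≤ R / 2 := by
      rw [norm_smul, Real.norm_eq_abs]
      calc |t| * ‖a0‖ ≤ T * ‖a0‖ := mul_le_mul_of_nonneg_right ht hA.le
        _ = R / 2 := by
          rw [hT]
          field_simp
    have h2 := norm_add_le b (t • a0)
    linarith
  have hex : ∀ b ∈ ball (0 : E m) R1, ∃ s : ℝ, q + b + s • a0 ∈ ball q R ∧
      F (q + b + s • a0) = 0 := by
    intro b hb
    have hb' : ‖b‖ < R1 := mem_ball_zero_iff.1 hb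
    have m0 := hmem b hb 0 (by simpa using hTpos.le)
    have mT := hmem b hb T (abs_of_pos hTpos).le
    have mT' := hmem b hb (-T) (by rw [abs_neg]; exact (abs_of_pos hTpos).le)
    have hq'm : q' ∈ ball q R := by
      rw [mem_ball]
      linarith
    have h1 := (convex_ball q R).norm_image_sub_le_of_norm_fderiv_le (𝕜 := ℝ)
      (fun x hx => (hF x hx).1) (fun x hx => (hF x hx).2.2.trans (le_max_left M 1)) hq'm m0
    rw [hFq', sub_zero, Real.norm_eq_abs, zero_smul, add_zero] at h1
    have h2 : ‖q + b - q'‖ ≤ ‖b‖ + dist q' q := by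
      have e : q + b - q' = b + (q - q') := by abel
      rw [e, dist_comm, dist_eq_norm]
      exact norm_add_le _ _
    have h3 : M' * ‖q + b - q'‖ < c * T := by
      have h4 : ‖q + b - q'‖ < 2 * R1 := by linarith
      have h5 : M' * ‖q + b - q'‖ < M' * (2 * R1) := mul_lt_mul_of_pos_left h4 hM'pos
      have h6 : M' * (2 * R1) ≤ M' * (2 * (c * T / (4 * M'))) := by
        apply mul_le_mul_of_nonneg_left _ hM'pos.le
        linarith
      have h7 : M' * (2 * (c * T / (4 * M'))) = c * T / 2 := by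
        field_simp
        norm_num
      have h8 : 0 < c * T := mul_pos hc hTpos
      linarith
    have h4 : |F (q + b)| < c * T := lt_of_le_of_lt h1 h3
    rw [abs_lt] at h4
    have m0' : q + b + (0 : ℝ) • a0 ∈ ball q R := m0
    have h5 := TwoGraph_mono hF m0' mT hTpos.le
    have h6 := TwoGraph_mono hF mT' m0' (by linarith)
    rw [zero_smul, add_zero] at h5 h6
    have h7 : 0 < F (q + b + T • a0) := by
      have : c * (T - 0) = c * T := by ring
      linarith [h4.1]
    have h8 : F (q + b + (-T) • a0) < 0 := by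
      have : c * (0 - -T) = c * T := by ring
      linarith [h4.2]
    have hcont : ContinuousOn (fun t : ℝ => F (q + b + t • a0)) (Icc (-T) T) := by
      intro t ht
      have hm := hmem b hb t (abs_le.2 ht)
      have hc1 : Continuous fun r : ℝ => q + b + r • a0 := by fun_prop
      have h9 : ContinuousAt F (q + b + t • a0) := (hF _ hm).1.continuousAt
      exact (ContinuousAt.comp (f := fun r : ℝ => q + b + r • a0) (x := t) h9
        hc1.continuousAt).continuousWithinAt
    have h9 := intermediate_value_Icc (by linarith : -T ≤ T) hcont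
    obtain ⟨s, hs, hs0⟩ := h9 (show (0 : ℝ) ∈ _ from ⟨h8.le, h7.le⟩)
    exact ⟨s, hmem b hb s (abs_le.2 hs), hs0⟩
  set σ : E m → ℝ := fun b => if h : b ∈ ball (0 : E m) R1 then (hex b h).choose else 0 with hσ
  have hσ1 : ∀ b (h : b ∈ ball (0 : E m) R1), q + b + σ b • a0 ∈ ball q R ∧
      F (q + b + σ b • a0) = 0 := by
    intro b h
    have e : σ b = (hex b h).choose := by
      rw [hσ]
      simp only [h, dif_pos]
    rw [e]
    exact (hex b h).choose_spec
  have hpt : ∀ b ∈ ball (0 : E m) R1, ∀ t : ℝ, q + b + t • a0 ∈ ball q R →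
      (F (q + b + t • a0) < 0 ↔ t < σ b) ∧ (F (q + b + t • a0) = 0 ↔ t = σ b) :=
    fun b hb t ht => TwoGraph_point hc hF (hσ1 b hb).1 (hσ1 b hb).2 t ht
  refine ⟨σ, ?_, fun b hb => ⟨(hσ1 b hb).1, (hσ1 b hb).2, hpt b hb⟩⟩
  intro b0 hb0
  apply ContinuousAt.continuousWithinAt
  rw [Metric.continuousAt_iff']
  intro ε hε
  have hline : Continuous fun r : ℝ => q + b0 + r • a0 := by fun_prop
  have hnear : ∀ᶠ r in 𝓝 (σ b0), q + b0 + r • a0 ∈ ball q R :=
    hline.continuousAt.eventually_mem (isOpen_ball.mem_nhds (hσ1 b0 hb0).1)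
  obtain ⟨δ, hδ, hδ2⟩ := Metric.eventually_nhds_iff.1 hnear
  set η : ℝ := min (δ / 2) (ε / 2) with hη
  have hηpos : 0 < η := lt_min (by positivity) (by positivity)
  have hη1 : η < δ := lt_of_le_of_lt (min_le_left _ _) (by linarith)
  have hη2 : η < ε := lt_of_le_of_lt (min_le_right _ _) (by linarith)
  have mp : q + b0 + (σ b0 + η) • a0 ∈ ball q R := by
    apply hδ2
    rw [Real.dist_eq, add_sub_cancel_left, abs_of_pos hηpos]
    exact hη1
  have mm : q + b0 + (σ b0 - η) • a0 ∈ ball q R := by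
    apply hδ2
    rw [Real.dist_eq, sub_sub_cancel_left, abs_neg, abs_of_pos hηpos]
    exact hη1
  have sp : 0 < F (q + b0 + (σ b0 + η) • a0) := by
    obtain ⟨k1, k2⟩ := hpt b0 hb0 _ mp
    rcases lt_trichotomy (F (q + b0 + (σ b0 + η) • a0)) 0 with h | h | h
    · have := k1.1 h
      linarith
    · have := k2.1 h
      linarith
    · exact h
  have sm : F (q + b0 + (σ b0 - η) • a0) < 0 := (hpt b0 hb0 _ mm).1.2 (by linarith)
  have cp : ∀ t : ℝ, q + b0 + t • a0 ∈ ball q R →
      ContinuousAt (fun b : E m => F (q + b + t • a0)) b0 := by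
    intro t ht
    have hc1 : Continuous fun b : E m => q + b + t • a0 := by fun_prop
    have h9 : ContinuousAt F (q + b0 + t • a0) := (hF _ ht).1.continuousAt
    exact ContinuousAt.comp (f := fun b : E m => q + b + t • a0) (x := b0) h9 hc1.continuousAt
  have cm : ∀ t : ℝ, q + b0 + t • a0 ∈ ball q R →
      ∀ᶠ b in 𝓝 b0, q + b + t • a0 ∈ ball q R := by
    intro t ht
    have hc1 : Continuous fun b : E m => q + b + t • a0 := by fun_prop
    exact hc1.continuousAt.eventually_mem (isOpen_ball.mem_nhds ht)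
  filter_upwards [(cp _ mp).eventually (lt_mem_nhds sp), (cp _ mm).eventually (gt_mem_nhds sm),
    cm _ mp, cm _ mm, isOpen_ball.mem_nhds hb0] with b e1 e2 e3 e4 e5
  have k1 := hpt b e5 _ e3
  have k2 := hpt b e5 _ e4
  have l1 : σ b0 - η < σ b := k2.1.1 e2
  have l2 : σ b < σ b0 + η := by
    rcases lt_trichotomy (σ b0 + η) (σ b) with h | h | h
    · have := k1.1.2 h
      linarith
    · have := k1.2.2 h
      linarith
    · exact h
  rw [Real.dist_eq, abs_lt]
  constructor <;> linarith

end MP80b30d
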