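import Pool.Agent.Lib.MP_80b30d_gt.TwoDefs

/-! MP_80b30d_gt, fourth part: the trace free part of a form with a cube. -/

namespace MP80b30d

open Set Filter Topology Metric Matrix

variable {m : ℕ} {f : E m → ℝ} {x : E m}

private theorem ttv_sum_bas (h : E m) : ∑ i, h i • (bas i : E m) = h := by
  ext j
  simp [bas, Finset.sum_apply, Pi.single_apply]

private theorem ttv_lin (l : E m →L[ℝ] ℝ) (h : E m) : l h = ∑ i, h i * l (bas i) := by
  conv_lhs => rw [← ttv_sum_bas h]
  simp [map_sum]

private theorem ttv_bil (H : E m →L[ℝ] E m →L[ℝ] ℝ) (h y : E m) :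
    H h y = ∑ i, h i * H (bas i) y := by
  conv_lhs => rw [← ttv_sum_bas h]
  simp [map_sum]

private theorem ttv_e2 (H : E m →L[ℝ] E m →L[ℝ] ℝ) (ω : E m →L[ℝ] ℝ) (h : E m) :
    ∑ i, ∑ j, (mat H).adjugate j i * (ω (bas i) * H h (bas j)) = ω h * (mat H).det := by
  set A := mat H with hA
  have hmul : ∀ i j, ∑ k, A i k * A.adjugate k j = if i = j then A.det else 0 := by
    intro i j
    have := congrArg (fun M : Matrix (Fin m) (Fin m) ℝ => M i j) (Matrix.mul_adjugate A)
    simpa [Matrix.mul_apply, Matrix.smul_apply, Matrix.one_apply] using this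
  have hHh : ∀ j, H h (bas j) = ∑ k, h k * A k j := fun j => by
    rw [ttv_bil H h (bas j)]
    rfl
  have : ∀ i, ∑ j, A.adjugate j i * (ω (bas i) * H h (bas j)) = ω (bas i) * (h i * A.det) := by
    intro i
    simp only [hHh]
    have h3 : ∑ j, A.adjugate j i * (ω (bas i) * ∑ k, h k * A k j)
        = ω (bas i) * ∑ k, h k * ∑ j, A k j * A.adjugate j i := by
      simp only [Finset.mul_sum]
      rw [Finset.sum_comm]
      exact Finset.sum_congr rfl fun k _ => Finset.sum_congr rfl fun j _ => by ring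
    rw [h3]
    congr 1
    simp only [hmul]
    simp
  simp only [this]
  rw [ttv_lin ω h, Finset.sum_mul]
  exact Finset.sum_congr rfl fun i _ => by ring

/-- Paper proof: with `A = mat (D2 f x)`, `a` written in the basis `bas`, `D2 f x a (bas i)` is
`(A a)_i`, so the sum is `(A a) · (adj A)(A a) = det A · (a · A a)`. -/
theorem adj_sum (H : E m →L[ℝ] E m →L[ℝ] ℝ) (hH : ∀ b b', H b b' = H b' b) (a : E m) :
    ∑ i, ∑ j, (mat H).adjugate j i * (H a (bas i) * H a (bas j)) = (mat H).det * H a a := by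
  rw [ttv_e2 H (H a) a, mul_comm]

/-- Paper proof: by `trace_formula` (Jacobi.lean / JacA.lean) and `adj_sum`,
`trw f x h = ω h + c D2 f x a h D2 f x a a / (m + 2)` (the determinant is positive, `mat_det_pos`);
substitute. -/
theorem TT_val (hf : ContDiffAt ℝ 3 f x) (hpos : ∀ b : E m, b ≠ 0 → 0 < D2 f x b b)
    {ω : E m →L[ℝ] ℝ} {c : ℝ} {a : E m} (hcube : CubeForm f x ω c a) (b : E m) :
    TT f x b = c * D2 f x a b *
      (D2 f x a b ^ 2 - 3 * D2 f x a a * D2 f x b b / ((m : ℝ) + 2)) := by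
  have hsym : ∀ p q, D2 f x p q = D2 f x q p := fun p q => D2_symm (hf.of_le (by norm_num)) p q
  have hdet : 0 < (mat (D2 f x)).det := mat_det_pos (D2 f x) hsym hpos
  have hm : (0 : ℝ) < (m : ℝ) + 2 := by positivity
  have h1 := trace_formula (D2 f x) hsym ω b
  have h2 := adj_sum (D2 f x) hsym a
  have h3 : ∑ i, ∑ j, (mat (D2 f x)).adjugate j i * D3 f x b (bas i) (bas j)
      = ((m : ℝ) + 2) * ω b * (mat (D2 f x)).det +
        c * D2 f x a b * ((mat (D2 f x)).det * D2 f x a a) := by
    rw [← h1, ← h2, Finset.mul_sum, ← Finset.sum_add_distrib]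
    refine Finset.sum_congr rfl fun i _ => ?_
    rw [Finset.mul_sum, ← Finset.sum_add_distrib]
    refine Finset.sum_congr rfl fun j _ => ?_
    rw [hcube b (bas i) (bas j)]
    ring
  have h4 : trw f x b = ω b + c * D2 f x a b * D2 f x a a / ((m : ℝ) + 2) := by
    unfold trw
    rw [h3]
    field_simp
  unfold TT
  rw [h4, hcube b b b]
  ring

end MP80b30d
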