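import Pool.Agent.Lib.MP_80b30d_gt.TwoDefs

/-! MP_80b30d_gt, fourth part: continuity of the trace free part. -/

namespace MP80b30d

open Set Filter Topology Metric Matrix

variable {m : ℕ} {f : E m → ℝ} {x : E m}

private theorem TTc_D2 (hf : ContDiffAt ℝ 3 f x) : ContinuousAt (D2 f) x :=
  (hasFDerivAt_D2 hf).continuousAt

private theorem TTc_fderiv {W V : Type*} [NormedAddCommGroup W] [NormedSpace ℝ W]
    [NormedAddCommGroup V] [NormedSpace ℝ V] {F : W → V} {x : W} (hF : ContDiffAt ℝ 1 F x) :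
    ContinuousAt (fderiv ℝ F) x := by
  have h3 : ContDiffAt ℝ 0 (fderiv ℝ F) x := hF.fderiv_right (by norm_num)
  exact h3.continuousAt

private theorem TTc_D3 {W : Type*} [NormedAddCommGroup W] [NormedSpace ℝ W] {f : W → ℝ} {x : W}
    (hf : ContDiffAt ℝ 3 f x) : ContinuousAt (fderiv ℝ (fderiv ℝ (fderiv ℝ f))) x := by
  have h1 : ContDiffAt ℝ 2 (fderiv ℝ f) x := hf.fderiv_right (by norm_num)
  have h2 : ContDiffAt ℝ 1 (fderiv ℝ (fderiv ℝ f)) x := h1.fderiv_right (by norm_num)
  exact TTc_fderiv h2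

private theorem TTc_D3_app {W : Type*} [NormedAddCommGroup W] [NormedSpace ℝ W] {f : W → ℝ} {x : W}
    (hf : ContDiffAt ℝ 3 f x) (a : W) {F G : W × W → W} (hF : ContinuousAt F (x, a))
    (hG : ContinuousAt G (x, a)) :
    ContinuousAt (fun z : W × W => D3 f z.1 z.2 (F z) (G z)) (x, a) := by
  have h1 : ContinuousAt (fun z : W × W => fderiv ℝ (fderiv ℝ (fderiv ℝ f)) z.1) (x, a) :=
    ContinuousAt.comp (f := fun z : W × W => z.1) (g := fderiv ℝ (fderiv ℝ (fderiv ℝ f)))
      (TTc_D3 hf) continuousAt_fst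
  exact ((h1.clm_apply continuousAt_snd).clm_apply hF).clm_apply hG

private theorem TTc_fst {Z : Type*} [TopologicalSpace Z] {F : E m → Z} (h : ContinuousAt F x)
    (a : E m) : ContinuousAt (fun z : E m × E m => F z.1) (x, a) :=
  ContinuousAt.comp (f := fun z : E m × E m => z.1) (g := F) h continuousAt_fst

private theorem TTc_mat (hf : ContDiffAt ℝ 3 f x) : ContinuousAt (fun y => mat (D2 f y)) x := by
  refine continuousAt_pi.2 fun i => continuousAt_pi.2 fun j => ?_
  exact ((TTc_D2 hf).clm_apply (continuousAt_const (y := bas i))).clm_apply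
    (continuousAt_const (y := bas j))

private theorem TTc_trw (hf : ContDiffAt ℝ 3 f x) (hpos : ∀ b : E m, b ≠ 0 → 0 < D2 f x b b)
    (a : E m) : ContinuousAt (fun z : E m × E m => trw f z.1 z.2) (x, a) := by
  have hm := TTc_mat hf
  have hdet : ContinuousAt (fun z : E m × E m => ((m : ℝ) + 2) * (mat (D2 f z.1)).det) (x, a) :=
    continuousAt_const.mul (TTc_fst
      ((Continuous.matrix_det (continuous_id (X := Matrix (Fin m) (Fin m) ℝ))).continuousAt.comp
        hm) a)
  have hadj : ∀ i j, ContinuousAt (fun z : E m × E m => (mat (D2 f z.1)).adjugate j i) (x, a) := by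
    intro i j
    have h2 : Continuous fun A : Matrix (Fin m) (Fin m) ℝ => A.adjugate j i :=
      (Continuous.matrix_adjugate (continuous_id (X := Matrix (Fin m) (Fin m) ℝ))).matrix_elem j i
    exact TTc_fst (h2.continuousAt.comp hm) a
  have hne : ((m : ℝ) + 2) * (mat (D2 f x)).det ≠ 0 := by
    have h1 := mat_det_pos (D2 f x) (fun a b => D2_symm (hf.of_le (by norm_num)) a b) hpos
    positivity
  refine ContinuousAt.div ?_ hdet hne
  refine tendsto_finsetSum _ fun i _ => tendsto_finsetSum _ fun j _ => ?_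
  exact (hadj i j).mul (TTc_D3_app hf a (continuousAt_const (y := bas i))
    (continuousAt_const (y := bas j)))

/-- Paper proof: `TT` is continuous at `(x, a)`: expand `a` in the basis `bas`, so that `D3 f y b b b`
is a sum of `b i * b j * b k * D3 f y (bas i) (bas j) (bas k)`; the entries of `D3 f` and of `D2 f` are
continuous at `x` (`continuousAt_D3`, `hasFDerivAt_D2`), so are adjugate and determinant, and the
determinant is not zero at `x` (`mat_det_pos`). See Ext.lean for similar statements. -/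
theorem TT_ne (hf : ContDiffAt ℝ 3 f x) (hpos : ∀ b : E m, b ≠ 0 → 0 < D2 f x b b) {a : E m}
    (h : TT f x a ≠ 0) : ∀ᶠ z in 𝓝 ((x, a) : E m × E m), TT f z.1 z.2 ≠ 0 := by
  have h3 : ContinuousAt (fun z : E m × E m => D3 f z.1 z.2 z.2 z.2) (x, a) :=
    TTc_D3_app hf a continuousAt_snd continuousAt_snd
  have h2 : ContinuousAt (fun z : E m × E m => D2 f z.1 z.2 z.2) (x, a) :=
    ((TTc_fst (TTc_D2 hf) a).clm_apply continuousAt_snd).clm_apply continuousAt_snd
  have hc : ContinuousAt (fun z : E m × E m => TT f z.1 z.2) (x, a) :=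
    h3.sub ((continuousAt_const.mul (TTc_trw hf hpos a)).mul h2)
  exact hc.eventually_ne h

end MP80b30d
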