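import Pool.Agent.Lib.MP_80b30d_gt.TwoPair
import Pool.Agent.Lib.MP_80b30d_gt.TwoCube
import Pool.Agent.Lib.MP_80b30d_gt.TwoTT
import Pool.Agent.Lib.MP_80b30d_gt.TwoTTc
import Pool.Agent.Lib.MP_80b30d_gt.StrongD
import Pool.Agent.Lib.MP_80b30d_gt.StrongC

/-! MP_80b30d_gt, fourth part: near a point where the trace free part is not zero. -/

namespace MP80b30d

open Set Filter Topology Metric

variable {m n : ℕ} {K : Set (E n)} {Ψ : (E m × ℝ) ≃L[ℝ] E n} {f : E m → ℝ} {x : E m}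

/-- Paper proof: `two_pair` and `two_cube` at `x` give `a0`, `r`, `ω`, `c` with `CubeForm f x ω c a0`;
`c ≠ 0`, since otherwise `Tr f x ω`. So `TT f x a0 = c H³ (1 - 3 / (m + 2)) ≠ 0`, `H = D2 f x a0 a0`
(`TT_val`). By `TT_ne`, `Chart.eventually` and `eventually_pos` there is `δ` such that for
`‖y - x‖ < δ`, `‖a - a0‖ < δ`: `Chart K Ψ f y`, `D2 f y` positive, `TT f y a ≠ 0`. Let `y` be such a
point; `Ψ (y, f y) ∈ frontier K` (`Chart.graph_mem`), so `two_pair`, `two_cube` give `e`, `r`, `ω`,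
`c` at `y`. For `‖a - a0‖ < δ`, `t ≠ 0`, `Fl K Ψ f y (t • a)`: by `TT_val`, `c ≠ 0` and
`D2 f y e a ≠ 0`, so `D2 f y e (t a) ≠ 0` and by `two_par` `t a = k e`; so `a = k' e`, `k' ≠ 0`. The
lights `e = (1 / k') a` and `r e = (r / k') a` are different multiples of `a`, so one of them is not
`t a`. If `a'`, `t'` is another such pair, `a' = k'' e` by the same argument, so `a' = (k'' / k') a`. -/
theorem two_K (hm : 3 ≤ m) (hK : Convex ℝ K) (h : Chart K Ψ f x)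
    (hpos : ∀ b : E m, b ≠ 0 → 0 < D2 f x b b) (hT : ∀ᶠ y in 𝓝 x, TwoLights K (Ψ (y, f y)))
    (hno : ¬ ∃ ω : E m →L[ℝ] ℝ, Tr f x ω) :
    ∃ (a0 : E m) (δ : ℝ), a0 ≠ 0 ∧ 0 < δ ∧ Fl K Ψ f x a0 ∧
      ∀ y, ‖y - x‖ < δ → ∀ a, ‖a - a0‖ < δ → ∀ t : ℝ, t ≠ 0 → Fl K Ψ f y (t • a) →
        (∃ s : ℝ, s ≠ 0 ∧ s ≠ t ∧ Fl K Ψ f y (s • a)) ∧
        ∀ a', ‖a' - a0‖ < δ → ∀ t' : ℝ, t' ≠ 0 → Fl K Ψ f y (t' • a') → ∃ k : ℝ, a' = k • a := by
  obtain ⟨a0, r0, ha0, hr0, hr01, hfl0, hfl0'⟩ := two_pair h hT.self_of_nhds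
  obtain ⟨ω0, c0, hcube0⟩ := two_cube (by omega) hK h hpos ha0 hr0 hr01 hfl0 hfl0'
  have hc0 : c0 ≠ 0 := by
    rintro rfl
    exact hno ⟨ω0, fun h' k l => by rw [hcube0 h' k l]; ring⟩
  have hH : 0 < D2 f x a0 a0 := hpos a0 ha0
  have hm' : (3 : ℝ) ≤ m := by exact_mod_cast hm
  have hTT : TT f x a0 ≠ 0 := by
    rw [TT_val h.smooth hpos hcube0 a0]
    have e : D2 f x a0 a0 ^ 2 - 3 * D2 f x a0 a0 * D2 f x a0 a0 / ((m : ℝ) + 2) =
        D2 f x a0 a0 ^ 2 * (((m : ℝ) - 1) / ((m : ℝ) + 2)) := by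
      have h2 : (m : ℝ) + 2 ≠ 0 := by linarith
      field_simp
      ring
    rw [e]
    have h3 : 0 < ((m : ℝ) - 1) / ((m : ℝ) + 2) := div_pos (by linarith) (by linarith)
    exact mul_ne_zero (mul_ne_zero hc0 hH.ne') (mul_ne_zero (pow_ne_zero _ hH.ne') h3.ne')
  obtain ⟨δ₁, hδ₁, H1⟩ := Metric.eventually_nhds_iff.1 (TT_ne h.smooth hpos hTT)
  obtain ⟨δ₂, hδ₂, H2⟩ := Metric.eventually_nhds_iff.1
    ((h.eventually.and (eventually_pos h.smooth hpos)).and hT)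
  refine ⟨a0, min δ₁ δ₂, ha0, lt_min hδ₁ hδ₂, hfl0, ?_⟩
  intro y hy a ha t ht hfl
  obtain ⟨⟨hch, hposy⟩, hTy⟩ := H2 (y := y) (by
    rw [dist_eq_norm]; exact lt_of_lt_of_le hy (min_le_right _ _))
  obtain ⟨e, r, he, hr, hr1, hfe, hfre⟩ := two_pair hch hTy
  obtain ⟨ω, c, hcube⟩ := two_cube (by omega) hK hch hposy he hr hr1 hfe hfre
  have key : ∀ a : E m, ‖a - a0‖ < min δ₁ δ₂ → ∀ t : ℝ, t ≠ 0 → Fl K Ψ f y (t • a) →
      ∃ k : ℝ, k ≠ 0 ∧ a = k • e := by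
    intro a ha t ht hfl
    have hTTa : TT f y a ≠ 0 := H1 (y := (y, a)) (by
      rw [Prod.dist_eq]
      refine max_lt ?_ ?_
      · rw [dist_eq_norm]; exact lt_of_lt_of_le hy (min_le_left _ _)
      · rw [dist_eq_norm]; exact lt_of_lt_of_le ha (min_le_left _ _))
    rw [TT_val hch.smooth hposy hcube a] at hTTa
    have hc : c ≠ 0 := by
      rintro rfl
      simp at hTTa
    have hea : D2 f y e a ≠ 0 := by
      intro h0
      rw [h0] at hTTa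
      simp at hTTa
    have hea' : D2 f y e (t • a) ≠ 0 := by
      rw [map_smul, smul_eq_mul]
      exact mul_ne_zero ht hea
    obtain ⟨k, hk⟩ := two_par hm hK hch hposy hcube hc hea' hfl
    have hak : a = (t⁻¹ * k) • e := by
      rw [mul_smul, ← hk, smul_smul, inv_mul_cancel₀ ht, one_smul]
    refine ⟨t⁻¹ * k, ?_, hak⟩
    intro h0
    rw [h0, zero_smul] at hak
    apply hea
    rw [hak, map_zero]
  obtain ⟨k, hk, hak⟩ := key a ha t ht hfl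
  constructor
  · have h1 : Fl K Ψ f y (k⁻¹ • a) := by
      rw [hak, smul_smul, inv_mul_cancel₀ hk, one_smul]
      exact hfe
    have h2 : Fl K Ψ f y ((r * k⁻¹) • a) := by
      rw [hak, smul_smul, mul_assoc, inv_mul_cancel₀ hk, mul_one]
      exact hfre
    by_cases h3 : k⁻¹ = t
    · refine ⟨r * k⁻¹, mul_ne_zero hr (inv_ne_zero hk), ?_, h2⟩
      intro h4
      apply hr1
      have h5 : r * k⁻¹ = 1 * k⁻¹ := by rw [h4, one_mul, h3]
      exact mul_right_cancel₀ (inv_ne_zero hk) h5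
    · exact ⟨k⁻¹, inv_ne_zero hk, h3, h1⟩
  · intro a' ha' t' ht' hfl'
    obtain ⟨k', hk', hak'⟩ := key a' ha' t' ht' hfl'
    exact ⟨k' * k⁻¹, by rw [hak, smul_smul, mul_assoc, inv_mul_cancel₀ hk, mul_one, hak']⟩

end MP80b30d
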