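import Pool.Agent.Lib.MP_80b30d_gt.TwoTr
import Pool.Agent.Lib.MP_80b30d_gt.PairMain

/-! MP_80b30d_gt, fourth part: main theorem. -/

namespace MP80b30d

open Set Filter Topology Metric

/-- the fourth result -/
theorem main_two {n : ℕ} (hn : 4 ≤ n) {K : Set (E n)}
    (hK : Convex ℝ K) (hc : IsCompact K) (hint : (interior K).Nonempty) (h3 : C3Boundary K)
    {D : Set (E n)} (hDK : D ⊆ frontier K) (hD : frontier K ⊆ closure D)
    (hDo : ∀ p ∈ D, ∀ᶠ y in 𝓝 p, y ∈ frontier K → y ∈ D)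
    (hl : ∀ p ∈ D, TwoLights K p) : IsEllipsoid K := by
  obtain ⟨m, rfl⟩ : ∃ m, n = m + 1 := ⟨n - 1, by omega⟩
  refine main_gen3 (by omega) hK hc hint h3 hDK hD ?_
  intro Ψ f x hx hpos hp
  refine two_tr (by omega) hK hx hpos ?_
  have hcont : ContinuousAt (fun y : E m => Ψ (y, f y)) x :=
    Ψ.continuous.continuousAt.comp (f := fun y : E m => ((y, f y) : E m × ℝ))
      (continuousAt_id.prodMk hx.smooth.continuousAt)
  filter_upwards [hcont.tendsto.eventually (hDo _ hp), hx.eventually] with y hy hch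
  exact hl _ (hy hch.graph_mem.1)

end MP80b30d
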