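import Pool.Agent.Lib.MP_80b30d_gt.TwoDefs
import Pool.Agent.Lib.MP_80b30d_gt.PairChart

/-! MP_80b30d_gt, fourth part: the pair of lights at one point, in a chart. -/

namespace MP80b30d

open Set Filter Topology Metric

variable {m n : ℕ} {K : Set (E n)} {Ψ : (E m × ℝ) ≃L[ℝ] E n} {f : E m → ℝ} {x : E m}

/-- Paper proof: `tangent_chart` (LightA/Light) for `u` gives `a` with `u = Ψ (x + a, f x + Df(x) a)`;
then `p + r (u - p) = Ψ (x + r a, f x + Df(x) (r a))`, `p = Ψ (x, f x)`. Neither is in `K` but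
`p ∈ K` (`Chart.graph_mem`), so `a ≠ 0` and `r ≠ 0`. -/
theorem two_pair (h : Chart K Ψ f x) (hT : TwoLights K (Ψ (x, f x))) :
    ∃ (a : E m) (r : ℝ), a ≠ 0 ∧ r ≠ 0 ∧ r ≠ 1 ∧ Fl K Ψ f x a ∧ Fl K Ψ f x (r • a) := by
  obtain ⟨u, r, L, L', c, c', hr, ⟨hu1, hu2, hL, hs⟩, ⟨-, hu2', hL', hs'⟩⟩ := hT
  obtain ⟨a, ha⟩ := tangent_chart h hu1
  have hp : Ψ (x, f x) ∈ K := h.graph_mem.2
  have e : Ψ (x, f x) + r • (u - Ψ (x, f x)) =
      Ψ (x + r • a, f x + fderiv ℝ f x (r • a)) := by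
    rw [ha, ← map_sub, ← map_smul, ← map_add]
    congr 1
    ext1
    · simp
    · simp
  rw [e] at hu2' hs'
  have ha0 : a ≠ 0 := by
    rintro rfl
    apply hu2
    rw [ha, add_zero, map_zero, add_zero]
    exact hp
  have hr0 : r ≠ 0 := by
    rintro rfl
    apply hu2'
    rw [zero_smul, add_zero, map_zero, add_zero]
    exact hp
  rw [ha] at hu2 hs
  exact ⟨a, r, ha0, hr0, hr, ⟨hu2, L, c, hL, hs⟩, ⟨hu2', L', c', hL', hs'⟩⟩

end MP80b30d
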