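import Pool.Agent.Lib.MP_80b30d_gt.TwoDefs

/-! MP_80b30d_gt, fourth part: selection of close points. -/

namespace MP80b30d

open Set Filter Topology Metric

/-- Paper proof: `Z` is the union over `N ∈ ℕ` and `τ = 1, -1` of the sets
`{q ∈ Z | |ν q| ≤ N, 0 < τ ν q}`; one of these sets, `Z'`, is uncountable (`N` may be replaced by
`N + 1`). If for some `η > 0` any two different points of `Z'` had distance at least `η`, `Z'` would
be discrete in its subspace topology and so countable, as `E m` is second countable. -/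
theorem two_sel {m : ℕ} {Z : Set (E m)} (hZ : ¬ Z.Countable) (ν : E m → ℝ)
    (hν : ∀ q ∈ Z, ν q ≠ 0) :
    ∃ N τ : ℝ, 0 < N ∧ (τ = 1 ∨ τ = -1) ∧ ∀ η : ℝ, 0 < η → ∃ q1 ∈ Z, ∃ q2 ∈ Z, q1 ≠ q2 ∧
      dist q1 q2 < η ∧ |ν q1| ≤ N ∧ |ν q2| ≤ N ∧ 0 < τ * ν q1 ∧ 0 < τ * ν q2 := by
  classical
  obtain ⟨k, τ, hτ, hk⟩ : ∃ (k : ℕ) (τ : ℝ), (τ = 1 ∨ τ = -1) ∧
      ¬ ({q ∈ Z | |ν q| ≤ (k : ℝ) + 1 ∧ 0 < τ * ν q}).Countable := by
    by_contra hcon
    push Not at hcon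
    apply hZ
    have h1 : (⋃ k : ℕ, ({q ∈ Z | |ν q| ≤ (k : ℝ) + 1 ∧ 0 < (1 : ℝ) * ν q} ∪
        {q ∈ Z | |ν q| ≤ (k : ℝ) + 1 ∧ 0 < (-1 : ℝ) * ν q})).Countable :=
      Set.countable_iUnion fun k => (hcon k 1 (Or.inl rfl)).union (hcon k (-1) (Or.inr rfl))
    refine h1.mono fun q hq => ?_
    obtain ⟨k, hk⟩ := exists_nat_ge |ν q|
    refine Set.mem_iUnion.2 ⟨k, ?_⟩
    rcases lt_or_gt_of_ne (hν q hq) with h | h
    · exact Or.inr ⟨hq, by linarith, by linarith⟩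
    · exact Or.inl ⟨hq, by linarith, by linarith⟩
  refine ⟨(k : ℝ) + 1, τ, by positivity, hτ, fun η hη => ?_⟩
  by_contra hcon
  apply hk
  have hd : ∀ q : {q ∈ Z | |ν q| ≤ (k : ℝ) + 1 ∧ 0 < τ * ν q},
      ∃ i : ℕ, dist (q : E m) (TopologicalSpace.denseSeq (E m) i) < η / 2 := fun q =>
    (TopologicalSpace.denseRange_denseSeq (E m)).exists_dist_lt _ (half_pos hη)
  choose f hf using hd
  have hinj : Function.Injective f := by
    intro q1 q2 h
    by_contra hne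
    apply hcon
    refine ⟨q1, q1.2.1, q2, q2.2.1, fun h' => hne (Subtype.ext h'), ?_, q1.2.2.1, q2.2.2.1,
      q1.2.2.2, q2.2.2.2⟩
    have h1 := hf q1
    have h2 := hf q2
    rw [← h, dist_comm] at h2
    calc dist (q1 : E m) q2 ≤ dist (q1 : E m) (TopologicalSpace.denseSeq (E m) (f q1)) +
          dist (TopologicalSpace.denseSeq (E m) (f q1)) (q2 : E m) := dist_triangle _ _ _
      _ < η / 2 + η / 2 := add_lt_add h1 h2
      _ = η := add_halves η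
  exact Set.countable_coe_iff.1 hinj.countable

end MP80b30d
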