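import Pool.Agent.Lib.MP_80b30d_gt.TwoDefs

/-! MP_80b30d_gt, fourth part: the derivative of `Fq`. -/

namespace MP80b30d

open Set Filter Topology Metric

variable {m : ℕ} {f : E m → ℝ} {x : E m}

private theorem twoTheta_d2 (hf : ContDiffAt ℝ 2 f x) : HasFDerivAt (fderiv ℝ f) (D2 f x) x := by
  have h : ContDiffAt ℝ 1 (fderiv ℝ f) x := hf.fderiv_right (by norm_num)
  exact (h.differentiableAt (by norm_num)).hasFDerivAt

private theorem twoTheta_term (hf : ContDiffAt ℝ 2 f x) (P : E m) :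
    HasFDerivAt (fun y => fderiv ℝ f y (P - y))
      ((D2 f x).flip (P - x) - fderiv ℝ f x) x := by
  have h1 : HasFDerivAt (fun y : E m => P - y) (-(ContinuousLinearMap.id ℝ (E m))) x :=
    (hasFDerivAt_id x).const_sub P
  have h2 := (twoTheta_d2 hf).clm_apply h1
  have h3 : (fderiv ℝ f x).comp (-(ContinuousLinearMap.id ℝ (E m))) + (D2 f x).flip (P - x) =
      (D2 f x).flip (P - x) - fderiv ℝ f x := by
    ext h
    simp only [add_apply, sub_apply, ContinuousLinearMap.coe_comp, Function.comp_apply,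
      neg_apply, ContinuousLinearMap.coe_id', id_eq, map_neg]
    ring
  rw [h3] at h2
  exact h2

private theorem twoTheta_has (hf : ContDiffAt ℝ 2 f x) (P : E m) (y1 : ℝ) (q : E m) (ν : ℝ) :
    HasFDerivAt (Fq f P y1 q ν)
      ((D2 f x).flip (P - x) - ν • (D2 f x).flip (x - q)) x := by
  have h0 : HasFDerivAt f (fderiv ℝ f x) x := (hf.differentiableAt (by norm_num)).hasFDerivAt
  have h1 := (h0.add (twoTheta_term hf P)).sub_const y1
  have h2 := ((h0.const_sub (f q)).sub (twoTheta_term hf q)).const_mul ν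
  have h3 := h1.sub h2
  have h4 : fderiv ℝ f x + ((D2 f x).flip (P - x) - fderiv ℝ f x) -
      ν • (-fderiv ℝ f x - ((D2 f x).flip (q - x) - fderiv ℝ f x)) =
      (D2 f x).flip (P - x) - ν • (D2 f x).flip (x - q) := by
    ext h
    simp only [add_apply, sub_apply, smul_apply, neg_apply,
      ContinuousLinearMap.flip_apply, map_sub, smul_eq_mul]
    ring
  rw [h4] at h3
  exact h3

/-- Paper proof: the derivative of `Fq f P y1 q ν` at `y` is `h ↦ D2 f y h (P - y) - ν D2 f y h (y - q)`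
(the terms with `fderiv ℝ f y h` cancel). -/
theorem Fq_deriv (hf : ContDiffAt ℝ 2 f x) (P : E m) (y1 : ℝ) (q : E m) (ν : ℝ) :
    DifferentiableAt ℝ (Fq f P y1 q ν) x ∧ ∀ h : E m, fderiv ℝ (Fq f P y1 q ν) x h =
      D2 f x h (P - x) - ν * D2 f x h (x - q) := by
  have h := twoTheta_has hf P y1 q ν
  refine ⟨h.differentiableAt, fun k => ?_⟩
  rw [h.fderiv]
  simp [ContinuousLinearMap.flip_apply]

/-- Paper proof: `c = D2 f x a0 a0 / 2`, `M = (‖D2 f x‖ + 1) (‖a0‖ + 2)`. By continuity of `D2 f` at `x`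
there is `δ ≤ 1` such that for `‖y - x‖ < δ`: `ContDiffAt ℝ 3 f y`, `‖D2 f y‖ ≤ ‖D2 f x‖ + 1`,
`D2 f y a0 (x + a0 - y) ≥ 3 c / 2`. Given `N` let `R` be so small that
`(|N| + 1) (‖D2 f x‖ + 1) (‖a0‖ + 1) R ≤ min (c / 2) 1`; use `Fq_deriv`. -/
theorem two_theta (hf : ContDiffAt ℝ 3 f x) {a0 : E m} (hpos : 0 < D2 f x a0 a0) (y1 : ℝ) :
    ∃ c M δ : ℝ, 0 < c ∧ 0 < δ ∧ ∀ N : ℝ, ∃ R : ℝ, 0 < R ∧ ∀ y q : E m, ‖y - x‖ < δ →
      ‖y - q‖ < R → ∀ ν : ℝ, |ν| ≤ N → Good (Fq f (x + a0) y1 q ν) a0 c M y := by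
  have hD : ContinuousAt (D2 f) x := by
    have h1 : ContDiffAt ℝ 2 (fderiv ℝ f) x := hf.fderiv_right (by norm_num)
    have h2 : ContDiffAt ℝ 1 (fderiv ℝ (fderiv ℝ f)) x := h1.fderiv_right (by norm_num)
    exact h2.continuousAt
  have e1 : ∀ᶠ y in 𝓝 x, ContDiffAt ℝ 3 f y := hf.eventually (by norm_num)
  have e2 : ∀ᶠ y in 𝓝 x, ‖D2 f y‖ < ‖D2 f x‖ + 1 := by
    have hn : ContinuousAt (fun y => ‖D2 f y‖) x :=
      (continuous_norm (E := E m →L[ℝ] E m →L[ℝ] ℝ)).continuousAt.comp hD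
    exact hn.eventually_lt continuousAt_const (lt_add_one _)
  have e3 : ∀ᶠ y in 𝓝 x, 3 * (D2 f x a0 a0 / 2) / 2 < D2 f y a0 (x + a0 - y) := by
    have hc : ContinuousAt (fun y => D2 f y a0 (x + a0 - y)) x := by
      have h1 : ContinuousAt (fun y => D2 f y a0) x := hD.clm_apply continuousAt_const
      exact h1.clm_apply (continuousAt_const.sub continuousAt_id)
    refine continuousAt_const.eventually_lt hc ?_
    have : x + a0 - x = a0 := by abel
    simp only [this]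
    linarith
  obtain ⟨δ, hδ, hball⟩ := Metric.eventually_nhds_iff.1 (e1.and (e2.and e3))
  refine ⟨D2 f x a0 a0 / 2, (‖D2 f x‖ + 1) * (‖a0‖ + 2), min δ 1, by linarith,
    lt_min hδ one_pos, fun N => ?_⟩
  set c := D2 f x a0 a0 / 2 with hcdef
  have hc : 0 < c := by rw [hcdef]; linarith
  set B := ‖D2 f x‖ + 1 with hB
  have hB1 : 1 ≤ B := by rw [hB]; linarith [norm_nonneg (D2 f x)]
  have hA : 0 ≤ ‖a0‖ := norm_nonneg a0
  have hK : 0 < (|N| + 1) * B * (‖a0‖ + 1) := by positivity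
  refine ⟨min (c / 2) 1 / ((|N| + 1) * B * (‖a0‖ + 1)), by positivity, ?_⟩
  intro y q hy hq ν hν
  obtain ⟨h3, h4, h5⟩ := hball (y := y) (by rw [dist_eq_norm]; exact lt_of_lt_of_le hy (min_le_left _ _))
  obtain ⟨hd, hdf⟩ := Fq_deriv (h3.of_le (by norm_num)) (x + a0) y1 q ν
  have hq' : ‖y - q‖ * ((|N| + 1) * B * (‖a0‖ + 1)) ≤ min (c / 2) 1 :=
    ((lt_div_iff₀ hK).1 hq).le
  have hν' : |ν| ≤ |N| + 1 := by
    have := le_abs_self N
    linarith
  have hN0 : 0 ≤ |N| + 1 := by positivity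
  have key : ∀ h w : E m, |D2 f y h w| ≤ B * ‖h‖ * ‖w‖ := by
    intro h w
    have h6 := (D2 f y).le_opNorm₂ h w
    rw [Real.norm_eq_abs] at h6
    refine h6.trans ?_
    have h7 : ‖D2 f y‖ ≤ B := h4.le
    exact mul_le_mul_of_nonneg_right (mul_le_mul_of_nonneg_right h7 (norm_nonneg _)) (norm_nonneg _)
  have kν : ∀ h : E m, |ν * D2 f y h (y - q)| ≤ (|N| + 1) * (B * ‖h‖ * ‖y - q‖) := by
    intro h
    rw [abs_mul]
    exact mul_le_mul hν' (key _ _) (abs_nonneg _) hN0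
  have hyx : ‖x - y‖ < 1 := by
    rw [norm_sub_rev]
    exact lt_of_lt_of_le hy (min_le_right _ _)
  refine ⟨hd, ?_, ?_⟩
  · rw [hdf a0]
    have h8 := kν a0
    have h9 : (|N| + 1) * (B * ‖a0‖ * ‖y - q‖) ≤ c / 2 := by
      refine le_trans ?_ (hq'.trans (min_le_left _ _))
      have : (|N| + 1) * (B * ‖a0‖ * ‖y - q‖) = ‖y - q‖ * ((|N| + 1) * B * ‖a0‖) := by ring
      rw [this]
      refine mul_le_mul_of_nonneg_left ?_ (norm_nonneg _)
      exact mul_le_mul_of_nonneg_left (by linarith) (by positivity)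
    have h10 := (abs_le.1 (h8.trans h9)).2
    linarith
  · refine ContinuousLinearMap.opNorm_le_bound _ (by positivity) fun h => ?_
    rw [hdf h, Real.norm_eq_abs]
    have h11 : |D2 f y h (x + a0 - y)| ≤ B * ‖h‖ * (‖a0‖ + 1) := by
      refine (key _ _).trans (mul_le_mul_of_nonneg_left ?_ (by positivity))
      have : x + a0 - y = a0 + (x - y) := by abel
      rw [this]
      exact (norm_add_le _ _).trans (by linarith)
    have h12 : |ν * D2 f y h (y - q)| ≤ ‖h‖ := by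
      refine (kν h).trans ?_
      have h13 : ‖y - q‖ * ((|N| + 1) * B) ≤ 1 := by
        refine le_trans ?_ (hq'.trans (min_le_right _ _))
        refine mul_le_mul_of_nonneg_left ?_ (norm_nonneg _)
        have : 0 ≤ (|N| + 1) * B := by positivity
        nlinarith
      calc (|N| + 1) * (B * ‖h‖ * ‖y - q‖) = (‖y - q‖ * ((|N| + 1) * B)) * ‖h‖ := by ring
        _ ≤ 1 * ‖h‖ := mul_le_mul_of_nonneg_right h13 (norm_nonneg _)
        _ = ‖h‖ := one_mul _
    calc |D2 f y h (x + a0 - y) - ν * D2 f y h (y - q)|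
        ≤ |D2 f y h (x + a0 - y)| + |ν * D2 f y h (y - q)| := abs_sub _ _
      _ ≤ B * ‖h‖ * (‖a0‖ + 1) + ‖h‖ := add_le_add h11 h12
      _ ≤ B * ‖h‖ * (‖a0‖ + 1) + B * ‖h‖ :=
          add_le_add le_rfl (le_mul_of_one_le_left (norm_nonneg _) hB1)
      _ = B * (‖a0‖ + 2) * ‖h‖ := by ring

end MP80b30d
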