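import Pool.Agent.Lib.MP_80b30d_gt.TwoGraph

/-! MP_80b30d_gt, fourth part: the zero set is uncountable. -/

namespace MP80b30d

open Set Filter Topology Metric

private theorem twoUnc_vec {m : ℕ} (hm : 2 ≤ m) {a0 : E m} (ha0 : a0 ≠ 0) :
    ∃ e : E m, e ∉ Submodule.span ℝ {a0} := by
  by_contra hcon
  push Not at hcon
  have h1 : Submodule.span ℝ {a0} = ⊤ := eq_top_iff.2 fun x _ => hcon x
  have h2 := finrank_span_singleton (K := ℝ) ha0
  rw [h1, finrank_top, finrank_euclideanSpace, Fintype.card_fin] at h2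
  omega

/-- Paper proof: take `R1` and `σ` of `graph_fun` for `q = q' = x0`, and `e` not a multiple of `a0`
(`2 ≤ m`). For real `t` with `|t| ‖e‖ < R1` the point `x0 + t e + σ (t e) a0` is in the set, and
different `t` give different points. The interval of these `t` is uncountable. -/
theorem two_unc {m : ℕ} (hm : 2 ≤ m) {a0 : E m} (ha0 : a0 ≠ 0) {c M R : ℝ} (hc : 0 < c)
    (hR : 0 < R) {x0 : E m} {F : E m → ℝ} (hF : ∀ x ∈ ball x0 R, Good F a0 c M x)
    (h0 : F x0 = 0) : ¬ {x | x ∈ ball x0 R ∧ F x = 0}.Countable := by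
  intro hcount
  obtain ⟨R1, hR1, -, hg⟩ := graph_fun (M := M) ha0 hc hR
  obtain ⟨σ, -, hσ⟩ := hg x0 x0 F hF (by rw [dist_self]; exact hR1) h0
  obtain ⟨e, he⟩ := twoUnc_vec hm ha0
  have he0 : e ≠ 0 := by
    rintro rfl
    exact he (Submodule.zero_mem _)
  have hne : 0 < ‖e‖ := norm_pos_iff.2 he0
  have hinj : InjOn (fun t : ℝ => x0 + t • e + σ (t • e) • a0) (Ioo 0 (R1 / ‖e‖)) := by
    intro t _ t' _ htt
    by_contra hne'
    apply he
    have h1 : (t - t') • e = (σ (t' • e) - σ (t • e)) • a0 := by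
      have h2 : x0 + t • e + σ (t • e) • a0 = x0 + t' • e + σ (t' • e) • a0 := htt
      rw [sub_smul, sub_smul, sub_eq_sub_iff_add_eq_add]
      have h3 := congrArg (fun y => y - x0) h2
      calc t • e + σ (t • e) • a0 = x0 + t • e + σ (t • e) • a0 - x0 := by abel
        _ = x0 + t' • e + σ (t' • e) • a0 - x0 := h3
        _ = σ (t' • e) • a0 + t' • e := by abel
    have h4 : e = ((t - t')⁻¹ * (σ (t' • e) - σ (t • e))) • a0 := by
      rw [mul_smul, ← h1, smul_smul, inv_mul_cancel₀ (sub_ne_zero.2 hne'), one_smul]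
    rw [h4]
    exact Submodule.smul_mem _ _ (Submodule.mem_span_singleton_self a0)
  have hsub : (fun t : ℝ => x0 + t • e + σ (t • e) • a0) '' Ioo 0 (R1 / ‖e‖) ⊆
      {x | x ∈ ball x0 R ∧ F x = 0} := by
    rintro _ ⟨t, ht, rfl⟩
    have hb : t • e ∈ ball (0 : E m) R1 := by
      rw [mem_ball, dist_zero_right, norm_smul, Real.norm_eq_abs, abs_of_pos ht.1]
      have := ht.2
      rwa [lt_div_iff₀ hne] at this
    have h5 := hσ _ hb
    exact ⟨h5.1, h5.2.1⟩
  have h6 : (Ioo (0 : ℝ) (R1 / ‖e‖)).Countable :=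
    countable_of_injective_of_countable_image hinj (hcount.mono hsub)
  rw [Cardinal.Real.Ioo_countable_iff] at h6
  have h7 : 0 < R1 / ‖e‖ := div_pos hR1 hne
  linarith

end MP80b30d
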