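import Pool.Agent.Lib.MP_80b30d_gt.TwoK
import Pool.Agent.Lib.MP_80b30d_gt.TwoCross
import Pool.Agent.Lib.MP_80b30d_gt.TwoUnc
import Pool.Agent.Lib.MP_80b30d_gt.TwoSel
import Pool.Agent.Lib.MP_80b30d_gt.TwoTheta
import Pool.Agent.Lib.MP_80b30d_gt.TwoGap
import Pool.Agent.Lib.MP_80b30d_gt.TwoEnd
import Pool.Agent.Lib.MP_80b30d_gt.GlobA

/-! MP_80b30d_gt, fourth part: two collinear lights determine the cubic form. -/

namespace MP80b30d

open Set Filter Topology Metric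

variable {m n : ℕ} {K : Set (E n)} {Ψ : (E m × ℝ) ≃L[ℝ] E n} {f : E m → ℝ} {x : E m}

private theorem two_transfer {q a w b : E m} (h : Fl K Ψ f q a) (h1 : w + b = q + a)
    (h2 : f w + fderiv ℝ f w b = f q + fderiv ℝ f q a) : Fl K Ψ f w b := by
  unfold Fl at h ⊢
  rw [h1, h2]
  exact h

private theorem two_good {F : E m → ℝ} {a0 : E m} {c M τ : ℝ} (hτ : τ = 1 ∨ τ = -1) {y : E m}
    (h : Good F a0 c M y) : Good (fun y => τ * F y) (τ • a0) c M y := by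
  obtain ⟨h1, h2, h3⟩ := h
  have h4 : fderiv ℝ (fun y => τ * F y) y = τ • fderiv ℝ F y := by
    rw [fderiv_const_mul h1]
  refine ⟨h1.const_mul τ, ?_, ?_⟩
  · rw [h4, map_smul, _root_.smul_apply, smul_eq_mul, smul_eq_mul]
    rcases hτ with rfl | rfl
    · simpa using h2
    · simpa using h2
  · rw [h4, norm_smul]
    rcases hτ with rfl | rfl
    · simpa using h3
    · simpa using h3

theorem two_tr (hm : 3 ≤ m) (hK : Convex ℝ K) (h : Chart K Ψ f x)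
    (hpos : ∀ b : E m, b ≠ 0 → 0 < D2 f x b b) (hT : ∀ᶠ y in 𝓝 x, TwoLights K (Ψ (y, f y))) :
    ∃ ω : E m →L[ℝ] ℝ, Tr f x ω := by
  by_contra hno
  obtain ⟨a0, δK, ha0, hδK, hfl0, hKK⟩ := two_K hm hK h hpos hT hno
  obtain ⟨P, hP⟩ : ∃ P : E m, P = x + a0 := ⟨_, rfl⟩
  obtain ⟨y1, hy1⟩ : ∃ y1 : ℝ, y1 = f x + fderiv ℝ f x a0 := ⟨_, rfl⟩
  obtain ⟨c, M, δT, hc, hδT, hTh⟩ := two_theta h.smooth (hpos a0 ha0) y1
  obtain ⟨δG, hδG, hball⟩ := Metric.eventually_nhds_iff_ball.1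
    (h.eventually.and (eventually_pos h.smooth hpos))
  have hfG : ∀ y ∈ ball x δG, ContDiffAt ℝ 3 f y := fun y hy => (hball y hy).1.smooth
  have hpG : ∀ y ∈ ball x δG, ∀ b : E m, b ≠ 0 → 0 < D2 f y b b := fun y hy => (hball y hy).2
  obtain ⟨R0, hR0, hTh0⟩ := hTh 0
  obtain ⟨δ, hδ, hδ1, hδ2, hδ3, hδ4⟩ : ∃ δ : ℝ, 0 < δ ∧ 2 * δ ≤ δK ∧ 2 * δ ≤ δT ∧
      2 * δ ≤ δG ∧ δ ≤ R0 := by
    refine ⟨min (min (δK / 2) (δT / 2)) (min (δG / 2) R0), ?_, ?_, ?_, ?_, ?_⟩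
    · refine lt_min (lt_min ?_ ?_) (lt_min ?_ ?_) <;> linarith
    · have := (min_le_left (min (δK / 2) (δT / 2)) (min (δG / 2) R0)).trans (min_le_left _ _)
      linarith
    · have := (min_le_left (min (δK / 2) (δT / 2)) (min (δG / 2) R0)).trans (min_le_right _ _)
      linarith
    · have := (min_le_right (min (δK / 2) (δT / 2)) (min (δG / 2) R0)).trans (min_le_left _ _)
      linarith
    · exact (min_le_right (min (δK / 2) (δT / 2)) (min (δG / 2) R0)).trans (min_le_right _ _)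
  obtain ⟨Z, hZdef⟩ : ∃ Z : Set (E m), Z = {q | q ∈ ball x δ ∧ Fq f P y1 x 0 q = 0} := ⟨_, rfl⟩
  have hF00 : Fq f P y1 x 0 x = 0 := by
    unfold Fq
    have e : P - x = a0 := by rw [hP]; abel
    rw [e, hy1]; ring
  have hZ : ¬ Z.Countable := by
    rw [hZdef]
    refine two_unc (by omega) ha0 hc hδ (M := M) (fun y hy => ?_) hF00
    rw [hP]
    have hy' : ‖y - x‖ < δ := by rwa [mem_ball_iff_norm] at hy
    exact hTh0 y x (by linarith) (by linarith) 0 (by simp)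
  have hZ1 : ∀ q ∈ Z, ‖q - x‖ < δ ∧ f q + fderiv ℝ f q (P - q) = y1 := by
    intro q hq
    rw [hZdef] at hq
    obtain ⟨h1, h2⟩ := hq
    refine ⟨by rwa [mem_ball_iff_norm] at h1, ?_⟩
    unfold Fq at h2
    linarith
  have hs : ∀ q, ∃ s : ℝ, q ∈ Z → s ≠ 0 ∧ s ≠ 1 ∧ Fl K Ψ f q (s • (P - q)) := by
    intro q
    by_cases hq : q ∈ Z
    · obtain ⟨h1, h2⟩ := hZ1 q hq
      have h3 : Fl K Ψ f q ((1 : ℝ) • (P - q)) := by
        rw [one_smul]
        refine two_transfer hfl0 (by rw [hP]; abel) ?_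
        rw [h2, hy1]
      have h4 : ‖P - q - a0‖ < δK := by
        have e : P - q - a0 = -(q - x) := by rw [hP]; abel
        rw [e, norm_neg]; linarith
      obtain ⟨⟨s, hs0, hs1, hs2⟩, -⟩ := hKK q (by linarith) (P - q) h4 1 one_ne_zero h3
      exact ⟨s, fun _ => ⟨hs0, hs1, hs2⟩⟩
    · exact ⟨0, fun h => absurd h hq⟩
  choose s hs using hs
  obtain ⟨N, τ, hN, hτ, hsel⟩ := two_sel hZ (fun q => 1 / s q - 1) (by
    intro q hq h0
    obtain ⟨h1, h2, -⟩ := hs q hq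
    apply h2
    have h3 : 1 / s q = 1 := by linarith
    field_simp at h3
    linarith)
  obtain ⟨R1, hR1, hTh1⟩ := hTh N
  have hN1 : 0 < N + 1 := by linarith
  obtain ⟨R, hR, hRa, hRb, hRc⟩ : ∃ R : ℝ, 0 < R ∧ 2 * R ≤ R1 ∧ R ≤ δ ∧
      (N + 1) * (2 * R) ≤ δK / 2 := by
    refine ⟨min (min (R1 / 2) δ) (δK / (4 * (N + 1))), ?_, ?_, ?_, ?_⟩
    · refine lt_min (lt_min ?_ ?_) ?_
      · linarith
      · exact hδ
      · positivity
    · have := (min_le_left (min (R1 / 2) δ) (δK / (4 * (N + 1)))).trans (min_le_left _ _)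
      linarith
    · exact (min_le_left (min (R1 / 2) δ) (δK / (4 * (N + 1)))).trans (min_le_right _ _)
    · have h1 := min_le_right (min (R1 / 2) δ) (δK / (4 * (N + 1)))
      calc (N + 1) * (2 * (min (min (R1 / 2) δ) (δK / (4 * (N + 1)))))
          ≤ (N + 1) * (2 * (δK / (4 * (N + 1)))) := by gcongr
        _ = δK / 2 := by field_simp; ring
  have hτ0 : τ ≠ 0 := by rcases hτ with rfl | rfl <;> norm_num
  obtain ⟨η, hη, hcross⟩ := two_cross hm (a0 := τ • a0) (smul_ne_zero hτ0 ha0) (M := M) hc hR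
  obtain ⟨q1, hq1, q2, hq2, hne, hd, hν1, hν2, hs1, hs2⟩ := hsel (min η R) (lt_min hη hR)
  obtain ⟨hq1x, hq1y⟩ := hZ1 q1 hq1
  obtain ⟨hq2x, hq2y⟩ := hZ1 q2 hq2
  obtain ⟨hs10, hs11, hfl1⟩ := hs q1 hq1
  obtain ⟨hs20, hs21, hfl2⟩ := hs q2 hq2
  have hdR : ‖q1 - q2‖ < R := by
    rw [← dist_eq_norm]; exact hd.trans_le (min_le_right _ _)
  have hg1 : 0 < f q1 - f q2 - fderiv ℝ f q2 (q1 - q2) :=
    gap_pos hfG hpG (by rw [mem_ball_iff_norm]; linarith) (by rw [mem_ball_iff_norm]; linarith)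
      hne.symm
  have hg2 : 0 < f q2 - f q1 - fderiv ℝ f q1 (q2 - q1) :=
    gap_pos hfG hpG (by rw [mem_ball_iff_norm]; linarith) (by rw [mem_ball_iff_norm]; linarith)
      hne
  have hF12 : τ * Fq f P y1 q1 (1 / s q1 - 1) q2 < 0 := by
    unfold Fq
    have e : τ * ((f q2 + fderiv ℝ f q2 (P - q2) - y1) - (1 / s q1 - 1) *
        (f q1 - f q2 - fderiv ℝ f q2 (q1 - q2))) =
        -((τ * (1 / s q1 - 1)) * (f q1 - f q2 - fderiv ℝ f q2 (q1 - q2))) := by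
      rw [hq2y]; ring
    rw [e]
    have := mul_pos hs1 hg1
    linarith
  have hF21 : τ * Fq f P y1 q2 (1 / s q2 - 1) q1 < 0 := by
    unfold Fq
    have e : τ * ((f q1 + fderiv ℝ f q1 (P - q1) - y1) - (1 / s q2 - 1) *
        (f q2 - f q1 - fderiv ℝ f q1 (q2 - q1))) =
        -((τ * (1 / s q2 - 1)) * (f q2 - f q1 - fderiv ℝ f q1 (q2 - q1))) := by
      rw [hq1y]; ring
    rw [e]
    have := mul_pos hs2 hg2
    linarith
  obtain ⟨z, z', hzz, hz, hz', h1z, h1z', h2z, h2z'⟩ := hcross q1 q2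
    (fun y => τ * Fq f P y1 q1 (1 / s q1 - 1) y) (fun y => τ * Fq f P y1 q2 (1 / s q2 - 1) y)
    (hd.trans_le (min_le_left _ _))
    (fun y hy => by
      rw [mem_ball_iff_norm] at hy
      have h1 : ‖y - x‖ ≤ ‖y - q1‖ + ‖q1 - x‖ := norm_sub_le_norm_sub_add_norm_sub y q1 x
      refine two_good hτ ?_
      rw [hP]
      exact hTh1 y q1 (by linarith) (by linarith) _ hν1)
    (fun y hy => by
      rw [mem_ball_iff_norm] at hy
      have h1 : ‖y - x‖ ≤ ‖y - q1‖ + ‖q1 - x‖ := norm_sub_le_norm_sub_add_norm_sub y q1 x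
      have h2 : ‖y - q2‖ ≤ ‖y - q1‖ + ‖q1 - q2‖ := norm_sub_le_norm_sub_add_norm_sub y q1 q2
      refine two_good hτ ?_
      rw [hP]
      exact hTh1 y q2 (by linarith) (by linarith) _ hν2)
    (by
      show τ * Fq f P y1 q1 (1 / s q1 - 1) q1 = 0
      unfold Fq
      rw [hq1y, sub_self q1, map_zero]; ring)
    (by
      show τ * Fq f P y1 q2 (1 / s q2 - 1) q2 = 0
      unfold Fq
      rw [hq2y, sub_self q2, map_zero]; ring)
    hF12 hF21
  have hnear : ∀ q w : E m, ‖q - x‖ < δ → ‖q - w‖ < 2 * R → |1 / s q - 1| ≤ N →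
      ‖(P - q) + (1 / s q) • (q - w) - a0‖ < δK := by
    intro q w h1 h2 h3
    have e : (P - q) + (1 / s q) • (q - w) - a0 = -(q - x) + (1 / s q) • (q - w) := by
      rw [hP]; abel
    have h4 : |1 / s q| ≤ N + 1 := by
      have h5 : |1 / s q| ≤ |1 / s q - 1| + |1| := by
        have := abs_add_le (1 / s q - 1) 1
        rwa [sub_add_cancel] at this
      rw [abs_one] at h5
      linarith
    rw [e]
    have h6 := norm_add_le (-(q - x)) ((1 / s q) • (q - w))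
    rw [norm_neg, norm_smul, Real.norm_eq_abs] at h6
    have h7 : |1 / s q| * ‖q - w‖ ≤ (N + 1) * (2 * R) :=
      mul_le_mul h4 h2.le (norm_nonneg _) hN1.le
    linarith
  have key : ∀ w ∈ ball q1 R, τ * Fq f P y1 q1 (1 / s q1 - 1) w = 0 →
      τ * Fq f P y1 q2 (1 / s q2 - 1) w = 0 →
      f w + fderiv ℝ f w (q1 + s q1 • (P - q1) - w) = f q1 + fderiv ℝ f q1 (s q1 • (P - q1)) ∧
      f w + fderiv ℝ f w (q2 + s q2 • (P - q2) - w) = f q2 + fderiv ℝ f q2 (s q2 • (P - q2)) ∧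
      ∃ k : ℝ, q2 + s q2 • (P - q2) - w = k • (q1 + s q1 • (P - q1) - w) := by
    intro w hw h1 h2
    rw [mem_ball_iff_norm] at hw
    have hw1 : ‖q1 - w‖ < 2 * R := by rw [norm_sub_rev]; linarith
    have hw2 : ‖q2 - w‖ < 2 * R := by
      have h3 : ‖q2 - w‖ ≤ ‖q2 - q1‖ + ‖q1 - w‖ := norm_sub_le_norm_sub_add_norm_sub q2 q1 w
      rw [norm_sub_rev q2 q1, norm_sub_rev q1 w] at h3
      linarith
    have hwx : ‖w - x‖ < δK := by
      have h3 : ‖w - x‖ ≤ ‖w - q1‖ + ‖q1 - x‖ := norm_sub_le_norm_sub_add_norm_sub w q1 x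
      linarith
    have h1' := (Fq_iff (z := w) hs10 rfl hq1y).2 ((mul_eq_zero.1 h1).resolve_left hτ0)
    have h2' := (Fq_iff (z := w) hs20 rfl hq2y).2 ((mul_eq_zero.1 h2).resolve_left hτ0)
    have e1 : s q1 • ((P - q1) + (1 / s q1) • (q1 - w)) = q1 + s q1 • (P - q1) - w := by
      rw [smul_add, smul_smul, mul_one_div_cancel hs10, one_smul]; abel
    have e2 : s q2 • ((P - q2) + (1 / s q2) • (q2 - w)) = q2 + s q2 • (P - q2) - w := by
      rw [smul_add, smul_smul, mul_one_div_cancel hs20, one_smul]; abel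
    have f1 : Fl K Ψ f w (s q1 • ((P - q1) + (1 / s q1) • (q1 - w))) := by
      rw [e1]
      exact two_transfer hfl1 (by abel) h1'
    have f2 : Fl K Ψ f w (s q2 • ((P - q2) + (1 / s q2) • (q2 - w))) := by
      rw [e2]
      exact two_transfer hfl2 (by abel) h2'
    obtain ⟨k, hk⟩ := (hKK w hwx _ (hnear q1 w hq1x hw1 hν1) _ hs10 f1).2 _
      (hnear q2 w hq2x hw2 hν2) _ hs20 f2
    refine ⟨h1', h2', s q2 * k / s q1, ?_⟩
    rw [← e1, ← e2, hk, smul_smul, smul_smul]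
    congr 1
    field_simp
  obtain ⟨a1, a2, k, hk⟩ := key z hz h1z h2z
  obtain ⟨b1, b2, k', hk'⟩ := key z' hz' h1z' h2z'
  rw [mem_ball_iff_norm] at hz hz'
  have hzx : ‖z - x‖ ≤ ‖z - q1‖ + ‖q1 - x‖ := norm_sub_le_norm_sub_add_norm_sub z q1 x
  have hzx' : ‖z' - x‖ ≤ ‖z' - q1‖ + ‖q1 - x‖ := norm_sub_le_norm_sub_add_norm_sub z' q1 x
  have hgap := gap_pos hfG hpG (y := z) (q := z') (by rw [mem_ball_iff_norm]; linarith)
    (by rw [mem_ball_iff_norm]; linarith) hzz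
  obtain ⟨hU, hY⟩ := end_alg hgap.ne' a1 a2 b1 b2 hk hk'
  have hfin : Fq f P y1 q1 (1 / s q1 - 1) q2 = 0 := by
    refine (Fq_iff (z := q2) hs10 rfl hq1y).1 ?_
    rw [hU, hY, add_sub_cancel_left]
  rw [hfin, mul_zero] at hF12
  exact lt_irrefl _ hF12

end MP80b30d
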